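import Mathlib

/-!
# Project SB (MP_ad201b_nt), block L: henselian discrete valuation rings with finite residue field

`F` is a field of characteristic `0` and `A : ValuationSubring F`.
-/

set_option autoImplicit false

namespace Pool.Agent.Helper60.SL

/-- `A` is a henselian discrete valuation ring with finite residue field. -/
structure HDVR {F : Type*} [Field F] (A : ValuationSubring F) : Prop where
  dvr : IsDiscreteValuationRing A
  hens : HenselianLocalRing A
  fin : Finite (IsLocalRing.ResidueField A)

/-- `π` is a uniformizer of the valuation ring `A`. -/
structure IsUnif {F : Type*} [Field F] (A : ValuationSubring F) (π : F) : Prop where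
  ne : π ≠ 0
  non : π ∈ A.nonunits
  gen : ∀ x ∈ A.nonunits, x / π ∈ A

/-- `x` is a unit of `A`. -/
def IsUn {F : Type*} [Field F] (A : ValuationSubring F) (x : F) : Prop :=
  x ∈ A ∧ x ∉ A.nonunits

end Pool.Agent.Helper60.SL
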