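import Mathlib

/-!
# SL-02: the integral closure of a henselian valuation ring in a finite Galois extension is local

PROOF.  `B = integralClosure A E`, `G = E ≃ₐ[F] E` acts on `B` (Mathlib: `Algebra.IsInvariant A B G` and the conjugacy of the primes of `B` over a prime of `A`,
`Algebra.IsInvariant.exists_smul_of_under_eq`; `A` is integrally closed).  Let `M` be a maximal ideal of `B`; all maximal ideals lie over the maximal ideal `m` of `A` (integrality), so they are the `g M`, `g ∈ G`.
By the Chinese remainder theorem there is `γ ∈ B` with `γ - 1 ∈ M` and `γ ∈ M'` for every maximal ideal `M' ≠ M` (there are finitely many).  Let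
`D = {g : g M = M}`, a subgroup, and `β = ∏_{d ∈ D} d γ`.  Then
(1) `g β = β` for `g ∈ D`; (2) `β - 1 ∈ M` (`d γ - 1 ∈ d M = M`); (3) for `g ∉ D`: `g β ∈ M`, because its factor `g γ` is in `M` (`γ ∈ g⁻¹ M ≠ M`);
(4) `β ∈ M'` for every maximal `M' ≠ M` (the factor `γ`).
Let `f = minpoly A β`, monic, `f.map = minpoly F β` (`minpoly.isIntegrallyClosed_eq_field_fractions'`), which is the product of `X - β'` over the distinct conjugates `β' = g β`; the conjugates
`β' ≠ β` are in `M` by (1), (3).  So `f(1) ∈ M ∩ A = m` (the factor `1 - β`) and `f'(1)` is congruent mod `M` to `∏_{β' ≠ β} (1 - β') = 1`, so it is a unit of `A`.  `A` henselian: there is `b ∈ A` with `f(b) = 0`,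
`b - 1 ∈ m`.  `minpoly F β` is irreducible and has the root `b ∈ F`, so its degree is one and `β = b`, a unit of `A`, hence in no maximal ideal of `B`.  By (4) `M` is the only maximal ideal
(`IsLocalRing.of_unique_max_ideal`).
-/

set_option autoImplicit false

namespace Pool.Agent.Helper60.SL

open Polynomial in
private theorem lift_orbit {A B G : Type*} [CommRing A] [CommRing B] [IsDomain B]
    [Algebra A B] [Group G] [Fintype G] [MulSemiringAction G B] [Algebra.IsInvariant A B G]
    (β : B) (O : Finset B) (hO : ∀ c, c ∈ O ↔ ∃ g : G, c = g • β) :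
    ∃ f : A[X], f.Monic ∧ f.map (algebraMap A B) = ∏ c ∈ O, (X - C c) := by
  have hmem : ∀ (g : G) (c : B), c ∈ O → g • c ∈ O := by
    intro g c hc
    obtain ⟨g', rfl⟩ := (hO c).mp hc
    exact (hO _).mpr ⟨g * g', by rw [mul_smul]⟩
  have hinv : ∀ g : G, g • (∏ c ∈ O, (X - C c) : B[X]) = ∏ c ∈ O, (X - C c) := by
    intro g
    rw [Finset.smul_prod']
    refine Finset.prod_bij' (fun c _ => g • c) (fun c _ => g⁻¹ • c) (fun c hc => hmem g c hc)
      (fun c hc => hmem g⁻¹ c hc) (fun c _ => inv_smul_smul g c) (fun c _ => smul_inv_smul g c) ?_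
    intro c _
    rw [smul_sub, Polynomial.smul_X, Polynomial.smul_C]
  have hmon : (∏ c ∈ O, (X - C c) : B[X]).Monic :=
    monic_prod_of_monic _ _ fun c _ => monic_X_sub_C c
  have hl : (∏ c ∈ O, (X - C c) : B[X]) ∈ Polynomial.lifts (algebraMap A B) := by
    rw [Polynomial.lifts_iff_coeff_lifts]
    intro n
    apply Algebra.IsInvariant.isInvariant (A := A) (B := B) (G := G)
    intro g
    rw [← Polynomial.coeff_smul, hinv]
  obtain ⟨f, hf, -, hfm⟩ := Polynomial.lifts_and_natDegree_eq_and_monic hl hmon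
  exact ⟨f, hfm, hf⟩

open Pointwise in
private theorem hone_aux {B G : Type*} [CommRing B] [Group G] [MulSemiringAction G B]
    (M : Ideal B) (hM : M.IsMaximal) (g : G) : g • M ≠ ⊤ := by
  intro h
  have h1 : (1 : B) ∈ g • M := (Ideal.eq_top_iff_one _).mp h
  rw [Ideal.mem_pointwise_smul_iff_inv_smul_mem, smul_one] at h1
  exact hM.ne_top ((Ideal.eq_top_iff_one M).mpr h1)

open Pointwise in
private theorem hcop_aux {B G : Type*} [CommRing B] [Group G] [MulSemiringAction G B]
    (M : Ideal B) (hM : M.IsMaximal) (g : G) (hg : g • M ≠ M) : M ⊔ g • M = ⊤ := by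
  by_contra hne
  have h1 : M = M ⊔ g • M := hM.eq_of_le hne le_sup_left
  have h2 : g • M ≤ M := le_sup_right.trans h1.symm.le
  rw [Ideal.pointwise_smul_subset_iff] at h2
  have h3 : M = g⁻¹ • M := hM.eq_of_le (hone_aux M hM g⁻¹) h2
  apply hg
  have h4 : g • M = g • (g⁻¹ • M) := congrArg (fun I => g • I) h3
  rw [h4, smul_inv_smul]

open Pointwise in
private theorem gamma_aux {B G : Type*} [CommRing B] [Group G] [Fintype G] [MulSemiringAction G B]
    (M : Ideal B) (hM : M.IsMaximal) :
    ∃ γ : B, γ - 1 ∈ M ∧ ∀ g : G, g • M ≠ M → γ ∈ g • M := by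
  classical
  have h1 : M ⊔ ⨅ g ∈ Finset.univ.filter (fun g : G => g • M ≠ M), g • M = ⊤ :=
    Ideal.sup_iInf_eq_top fun g hg => hcop_aux M hM g (Finset.mem_filter.mp hg).2
  have h2 : (1 : B) ∈ M ⊔ ⨅ g ∈ Finset.univ.filter (fun g : G => g • M ≠ M), g • M :=
    (Ideal.eq_top_iff_one _).mp h1
  obtain ⟨a, ha, γ, hγ, haγ⟩ := Submodule.mem_sup.mp h2
  refine ⟨γ, ?_, ?_⟩
  · have h3 : γ - 1 = -a := by rw [← haγ]; ring
    rw [h3]
    exact M.neg_mem ha
  · intro g hg
    have h4 : γ ∈ (⨅ _ : g ∈ Finset.univ.filter (fun g : G => g • M ≠ M), g • M) :=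
      (Submodule.mem_iInf _).mp hγ g
    exact (Submodule.mem_iInf _).mp h4 (Finset.mem_filter.mpr ⟨Finset.mem_univ _, hg⟩)

open Pointwise in
private theorem beta_aux {B G : Type*} [CommRing B] [Group G] [Fintype G] [MulSemiringAction G B]
    (M : Ideal B) (hM : M.IsMaximal) :
    ∃ β : B, (∀ g : G, g • M = M → g • β = β) ∧ β - 1 ∈ M ∧ (∀ g : G, g • M ≠ M → g • β ∈ M) ∧
      ∀ g : G, g • M ≠ M → β ∈ g • M := by
  classical
  obtain ⟨γ, hγ1, hγ2⟩ := gamma_aux (G := G) M hM
  obtain ⟨β, hβ⟩ : ∃ β : B, β = ∏ d : MulAction.stabilizer G M, (d : G) • γ := ⟨_, rfl⟩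
  have hmem1 : ∀ (g : G) (I : Ideal B), g⁻¹ • I = I → ∀ x : B, x ∈ I → g • x ∈ I := by
    intro g I hI x hx
    rw [← hI] at hx
    exact Ideal.mem_inv_pointwise_smul_iff.mp hx
  refine ⟨β, ?_, ?_, ?_, ?_⟩
  · intro g hg
    rw [hβ, Finset.smul_prod']
    refine Fintype.prod_equiv (Equiv.mulLeft (⟨g, hg⟩ : MulAction.stabilizer G M)) _ _ ?_
    intro d
    rw [← mul_smul]
    rfl
  · rw [← Ideal.Quotient.eq_zero_iff_mem, map_sub, map_one, sub_eq_zero, hβ, map_prod]
    apply Finset.prod_eq_one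
    intro d _
    rw [← map_one (Ideal.Quotient.mk M), Ideal.Quotient.eq]
    have h1 : (d : G) • γ - 1 = (d : G) • (γ - 1) := by rw [smul_sub, smul_one]
    rw [h1]
    apply hmem1 _ _ _ _ hγ1
    have h3 := d.2
    rw [MulAction.mem_stabilizer_iff] at h3
    rw [inv_smul_eq_iff, h3]
  · intro g hg
    rw [hβ, Finset.smul_prod']
    have h1 : g⁻¹ • M ≠ M := by
      intro h
      apply hg
      rw [inv_smul_eq_iff] at h
      exact h.symm
    have h2 : g • γ ∈ M := Ideal.mem_inv_pointwise_smul_iff.mp (hγ2 _ h1)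
    refine Ideal.mem_of_dvd M ?_ h2
    have h3 := Finset.dvd_prod_of_mem (fun d : MulAction.stabilizer G M => g • ((d : G) • γ))
      (Finset.mem_univ (1 : MulAction.stabilizer G M))
    have h4 : g • (((1 : MulAction.stabilizer G M) : G) • γ) = g • γ := by
      rw [Subgroup.coe_one, one_smul]
    rw [h4] at h3
    exact h3
  · intro g hg
    refine Ideal.mem_of_dvd _ ?_ (hγ2 g hg)
    have h3 := Finset.dvd_prod_of_mem (fun d : MulAction.stabilizer G M => ((d : G) • γ))
      (Finset.mem_univ (1 : MulAction.stabilizer G M))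
    have h4 : (((1 : MulAction.stabilizer G M) : G) • γ) = γ := by
      rw [Subgroup.coe_one, one_smul]
    rw [h4] at h3
    rw [hβ]
    exact h3

open Polynomial in
private theorem eval_aux {A B : Type*} [CommRing A] [CommRing B] [Algebra A B] (p : A[X]) :
    algebraMap A B (p.eval 1) = (p.map (algebraMap A B)).eval 1 := by
  rw [← map_one (algebraMap A B), Polynomial.eval_map, Polynomial.eval₂_at_apply]

open Polynomial in
private theorem hensel_aux {A B : Type*} [CommRing A] [HenselianLocalRing A] [CommRing B]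
    [IsDomain B] [Algebra A B] (M : Ideal B) (hM : M ≠ ⊤)
    (hu : M.under A = IsLocalRing.maximalIdeal A) (β : B) (Q : B[X]) (f : A[X]) (hfm : f.Monic)
    (hfQ : f.map (algebraMap A B) = (X - C β) * Q) (hβ1 : β - 1 ∈ M) (hQ1 : Q.eval 1 - 1 ∈ M) :
    ∃ b : A, IsUnit b ∧ (f.map (algebraMap A B)).eval (algebraMap A B b) = 0 := by
  have hf1 : f.eval 1 ∈ IsLocalRing.maximalIdeal A := by
    rw [← hu]
    have h0 : algebraMap A B (f.eval 1) ∈ M := by
      rw [eval_aux, hfQ, eval_mul, eval_sub, eval_X, eval_C]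
      apply M.mul_mem_right
      have h1 : (1 : B) - β = -(β - 1) := by ring
      rw [h1]
      exact M.neg_mem hβ1
    exact h0
  have hf2 : IsUnit (f.derivative.eval 1) := by
    by_contra hnu
    have h1 : f.derivative.eval 1 ∈ M.under A := by
      rw [hu]
      exact (IsLocalRing.mem_maximalIdeal _).mpr hnu
    have h2 : algebraMap A B (f.derivative.eval 1) ∈ M := h1
    rw [eval_aux, ← derivative_map, hfQ, derivative_mul, derivative_sub, derivative_X, derivative_C,
      sub_zero, one_mul, eval_add, eval_mul, eval_sub, eval_X, eval_C] at h2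
    apply hM
    rw [Ideal.eq_top_iff_one]
    have h3 : (1 : B) = (Q.eval 1 + (1 - β) * Q.derivative.eval 1) - (Q.eval 1 - 1) +
        (β - 1) * Q.derivative.eval 1 := by ring
    rw [h3]
    exact M.add_mem (M.sub_mem h2 hQ1) (M.mul_mem_right _ hβ1)
  obtain ⟨b, hb, hb1⟩ := HenselianLocalRing.is_henselian f hfm 1 hf1 hf2
  refine ⟨b, ?_, ?_⟩
  · by_contra hnu
    have h6 : b ∈ IsLocalRing.maximalIdeal A := (IsLocalRing.mem_maximalIdeal _).mpr hnu
    have h7 : b - (b - 1) ∈ IsLocalRing.maximalIdeal A :=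
      (IsLocalRing.maximalIdeal A).sub_mem h6 hb1
    rw [sub_sub_cancel] at h7
    exact (Ideal.ne_top_iff_one _).mp (IsLocalRing.maximalIdeal.isMaximal A).ne_top h7
  · rw [Polynomial.eval_map, Polynomial.eval₂_at_apply, hb.eq_zero, map_zero]

open Polynomial Pointwise in
private theorem local_abs {A B G : Type*} [CommRing A] [HenselianLocalRing A] [CommRing B]
    [IsDomain B] [Algebra A B] [Group G] [Fintype G] [MulSemiringAction G B] [SMulCommClass G A B]
    [Algebra.IsInvariant A B G] : IsLocalRing B := by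
  classical
  have hint : Algebra.IsIntegral A B := Algebra.IsInvariant.isIntegral A B G
  obtain ⟨M, hM⟩ := Ideal.exists_maximal B
  have hunder : ∀ I : Ideal B, I.IsMaximal → I.under A = IsLocalRing.maximalIdeal A := by
    intro I hI
    exact IsLocalRing.eq_maximalIdeal (Ideal.isMaximal_comap_of_isIntegral_of_isMaximal I)
  apply IsLocalRing.of_unique_max_ideal
  refine ⟨M, hM, fun M' hM' => ?_⟩
  by_contra hne
  have hMp := hM.isPrime
  have hMp' := hM'.isPrime
  obtain ⟨g0, hg0⟩ := Algebra.IsInvariant.exists_smul_of_under_eq A B G M M'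
    ((hunder M hM).trans (hunder M' hM').symm)
  have hg0M : g0 • M ≠ M := by
    intro h
    exact hne (hg0.trans h)
  obtain ⟨β, hfix, hβ1, hout, hβg⟩ := beta_aux (G := G) M hM
  have hβM' : β ∈ M' := by
    rw [hg0]
    exact hβg g0 hg0M
  obtain ⟨O, hO⟩ : ∃ O : Finset B, ∀ c, c ∈ O ↔ ∃ g : G, c = g • β :=
    ⟨Finset.univ.image (fun g : G => g • β), fun c => by simp [eq_comm]⟩
  obtain ⟨f, hfm, hf⟩ := lift_orbit (A := A) (G := G) β O hO
  have hβO : β ∈ O := (hO β).mpr ⟨1, by rw [one_smul]⟩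
  obtain ⟨Q, hQ⟩ : ∃ Q : B[X], Q = ∏ c ∈ O.erase β, (X - C c) := ⟨_, rfl⟩
  have hfQ : f.map (algebraMap A B) = (X - C β) * Q := by
    rw [hf, hQ, Finset.mul_prod_erase O (fun c => X - C c) hβO]
  have hQ1 : Q.eval 1 - 1 ∈ M := by
    rw [hQ, Polynomial.eval_prod, ← Ideal.Quotient.eq_zero_iff_mem, map_sub, map_one, sub_eq_zero,
      map_prod]
    apply Finset.prod_eq_one
    intro c hc
    obtain ⟨hcβ, hcO⟩ := Finset.mem_erase.mp hc
    obtain ⟨g, rfl⟩ := (hO c).mp hcO
    have h1 : g • β ∈ M := hout g fun h => hcβ (hfix g h)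
    rw [eval_sub, eval_X, eval_C, map_sub, map_one, Ideal.Quotient.eq_zero_iff_mem.mpr h1, sub_zero]
  obtain ⟨b, hbu, hb⟩ := hensel_aux M hM.ne_top (hunder M hM) β Q f hfm hfQ hβ1 hQ1
  rw [hf, Polynomial.eval_prod] at hb
  obtain ⟨c, hc, hcb⟩ := Finset.prod_eq_zero_iff.mp hb
  rw [eval_sub, eval_X, eval_C] at hcb
  obtain ⟨g, rfl⟩ := (hO c).mp hc
  have h4 : g • β = algebraMap A B b := (sub_eq_zero.mp hcb).symm
  have h5 : β = algebraMap A B b := by
    have h6 : β = g⁻¹ • algebraMap A B b := by rw [← h4, inv_smul_smul]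
    rw [h6, Algebra.algebraMap_eq_smul_one, smul_comm, smul_one]
  have hβu : IsUnit β := by
    rw [h5]
    exact hbu.map (algebraMap A B)
  exact hM'.ne_top (Ideal.eq_top_of_isUnit_mem M' hβM' hβu)

theorem local_galois {F E : Type*} [Field F] [Field E] [Algebra F E] [FiniteDimensional F E]
    [IsGalois F E] (A : ValuationSubring F) [HenselianLocalRing A] :
    IsLocalRing (integralClosure A E) := by
  classical
  have hfr : IsFractionRing (integralClosure A E) E :=
    integralClosure.isFractionRing_of_finite_extension F E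
  let _ := IsIntegralClosure.MulSemiringAction A F E (integralClosure A E)
  have hinv : Algebra.IsInvariant A (integralClosure A E) Gal(E/F) :=
    Algebra.isInvariant_of_isGalois A F E (integralClosure A E)
  have hcomm : SMulCommClass Gal(E/F) A (integralClosure A E) := by
    refine ⟨fun g a b => ?_⟩
    exact map_smul (galRestrict A F E (integralClosure A E) g) a b
  exact local_abs (A := A) (G := Gal(E/F))

end Pool.Agent.Helper60.SL
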