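import Mathlib
import Pool.Agent.Helper60.SL.Defs
import Pool.Agent.Helper60.SL.LocalGal

/-!
# SL-03: the integral closure of a henselian discrete valuation ring is a valuation ring

PROOF.  `local_fin`: let `E'` be the normal closure of `E` over `F` (finite Galois, characteristic `0`; for instance `normalClosure F E (AlgebraicClosure E)`).  `integralClosure A E'` is local
(`local_galois`) and integral over the image of `integralClosure A E`, whose maximal ideals are all restrictions of maximal ideals (lying over), so there is only one.
`dvr_fin`: `integralClosure A E` is a Dedekind domain (`integralClosure.isDedekindDomain A F E`, `A` is a discrete valuation ring, so a Dedekind domain), local, and not a field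
(a uniformizer of `A` is not a unit: its inverse is not integral over `A`, `A` being integrally closed), so it is a discrete valuation ring.
`isIntegral_or_inv`: `x` lies in the finite extension `E' = F(x)` (`IntermediateField.adjoin`), and `integralClosure A E'` is a discrete valuation ring with fraction field `E'`, so it contains `x` or `x⁻¹`.
-/

set_option autoImplicit false

namespace Pool.Agent.Helper60.SL

theorem local_fin {F E : Type*} [Field F] [CharZero F] [Field E] [Algebra F E]
    [FiniteDimensional F E] (A : ValuationSubring F) [HenselianLocalRing A] :
    IsLocalRing (integralClosure A E) := by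
  classical
  have halg : Algebra.IsAlgebraic F (AlgebraicClosure E) :=
    Algebra.IsAlgebraic.trans F E (AlgebraicClosure E)
  have hcl : IsAlgClosure F (AlgebraicClosure E) := ⟨inferInstance, halg⟩
  have hnorm : Normal F (AlgebraicClosure E) := IsAlgClosure.normal F (AlgebraicClosure E)
  let E' := IntermediateField.normalClosure F E (AlgebraicClosure E)
  have hfd : FiniteDimensional F E' := inferInstance
  have hN : Normal F E' := inferInstance
  have hG : IsGalois F E' := ⟨⟩
  have h1 : IsLocalRing (integralClosure A E') := local_galois A
  let f0 : E →ₐ[F] E' := IsScalarTower.toAlgHom F E E'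
  let f : E →ₐ[A] E' := f0.restrictScalars A
  let φ : integralClosure A E →ₐ[A] integralClosure A E' := f.mapIntegralClosure
  have hinj : Function.Injective φ.toRingHom := by
    intro a b hab
    have h2 : (φ a : E') = (φ b : E') := congrArg _ hab
    rw [AlgHom.coe_mapIntegralClosure, AlgHom.coe_mapIntegralClosure] at h2
    exact Subtype.ext (f0.toRingHom.injective h2)
  have hint : φ.toRingHom.IsIntegral := by
    have h3 : (algebraMap A (integralClosure A E')).IsIntegral := by
      rw [algebraMap_isIntegral_iff]
      infer_instance
    have h4 : φ.toRingHom.comp (algebraMap A (integralClosure A E)) = algebraMap A (integralClosure A E') := φ.comp_algebraMap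
    rw [← h4] at h3
    exact RingHom.IsIntegral.tower_top _ _ h3
  have : IsLocalHom φ.toRingHom := hint.isLocalHom hinj
  exact RingHom.domain_isLocalRing φ.toRingHom

theorem dvr_fin {F E : Type*} [Field F] [CharZero F] [Field E] [Algebra F E]
    [FiniteDimensional F E] {A : ValuationSubring F} (hA : HDVR A) :
    IsDiscreteValuationRing (integralClosure A E) := by
  have := hA.dvr
  have := hA.hens
  have : IsDedekindDomain (integralClosure A E) := integralClosure.isDedekindDomain A F E
  have : IsLocalRing (integralClosure A E) := local_fin A
  have hnf : ¬ IsField (integralClosure A E) := by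
    intro h
    have hinj : Function.Injective (algebraMap A (integralClosure A E)) := by
      intro a b hab
      have h2 : ((algebraMap A (integralClosure A E) a : integralClosure A E) : E) = (algebraMap A (integralClosure A E) b : integralClosure A E) := congrArg _ hab
      have h3 : algebraMap F E (a : F) = algebraMap F E (b : F) := h2
      exact Subtype.ext ((algebraMap F E).injective h3)
    exact IsDiscreteValuationRing.not_isField A (isField_of_isIntegral_of_isField hinj h)
  have h5 : IsDiscreteValuationRing (integralClosure A E) ↔ IsDedekindDomain (integralClosure A E) :=
    (IsDiscreteValuationRing.TFAE (integralClosure A E) hnf).out 0 2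
  exact h5.mpr inferInstance

theorem isIntegral_or_inv {F E : Type*} [Field F] [CharZero F] [Field E] [Algebra F E]
    [Algebra.IsAlgebraic F E] {A : ValuationSubring F} (hA : HDVR A) (x : E) :
    IsIntegral A x ∨ IsIntegral A x⁻¹ := by
  have hx : IsIntegral F x := Algebra.IsIntegral.isIntegral x
  let E' := IntermediateField.adjoin F {x}
  have hfd : FiniteDimensional F E' := IntermediateField.adjoin.finiteDimensional hx
  have h1 : IsDiscreteValuationRing (integralClosure A E') := dvr_fin hA
  have h2 : IsFractionRing (integralClosure A E') E' :=
    integralClosure.isFractionRing_of_finite_extension F E'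
  let y : E' := ⟨x, IntermediateField.mem_adjoin_simple_self F x⟩
  let f : E' →ₐ[A] E := E'.val.restrictScalars A
  rcases ValuationRing.isInteger_or_isInteger (integralClosure A E') y with h | h
  · obtain ⟨z, hz⟩ := h
    left
    have h3 : IsIntegral A y := hz ▸ z.2
    exact h3.map f
  · obtain ⟨z, hz⟩ := h
    right
    have h3 : IsIntegral A y⁻¹ := hz ▸ z.2
    exact h3.map f

end Pool.Agent.Helper60.SL
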