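import Mathlib
import Pool.Agent.Helper60.SL.Defs
import Pool.Agent.Helper60.SL.Val

/-!
# The valuation ring above a henselian discrete valuation ring (definition, proved)
-/

set_option autoImplicit false

namespace Pool.Agent.Helper60.SL

variable {F : Type*} [Field F] [CharZero F] {A : ValuationSubring F}

/-- The valuation ring of the algebraic extension `E` above `A`: the elements integral over `A`. -/
noncomputable def ext (hA : HDVR A) (E : Type*) [Field E] [Algebra F E]
    [Algebra.IsAlgebraic F E] : ValuationSubring E :=
  ValuationSubring.ofSubring (integralClosure A E).toSubring (fun x => isIntegral_or_inv hA x)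

theorem mem_ext (hA : HDVR A) {E : Type*} [Field E] [Algebra F E] [Algebra.IsAlgebraic F E]
    (x : E) : x ∈ ext hA E ↔ IsIntegral A x := Iff.rfl

end Pool.Agent.Helper60.SL
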