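import Mathlib
import Pool.Agent.Helper60.SL.Ext

/-!
# SL-04: first properties of `ext hA E`

PROOF.  `ext_map`: `A` is integrally closed in `F`.  `ext_nonunits_map`: from `ext_map` for `x` and `x⁻¹` (`ValuationSubring.mem_nonunits_iff_or`: `x = 0 ∨ x⁻¹ ∉ A`).  `ext_equiv`, `ext_hom`:
an `F`-homomorphism is `A`-linear and injective, integrality is preserved and reflected.  `norm_mem`: `Algebra.isIntegral_norm` (or `norm` of an integral element is integral over `A`, so in `A`).
`norm_nonunits`: if `x ≠ 0` is a nonunit of `ext hA E` then so is its norm: let `E'` be a finite Galois extension of `F` containing `E` (`normalClosure` in an algebraic closure of `E`); the norm is the product of the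
conjugates `σ x`, `σ : E →ₐ[F] E'` (`Algebra.norm_eq_prod_embeddings`), all integral, and one of them is a nonunit of `ext hA E'` (`ext_hom`), so the product is a nonunit.
-/

set_option autoImplicit false

namespace Pool.Agent.Helper60.SL

variable {F : Type*} [Field F] [CharZero F] {A : ValuationSubring F} (hA : HDVR A)
variable {E : Type*} [Field E] [Algebra F E] [Algebra.IsAlgebraic F E]
variable {E' : Type*} [Field E'] [Algebra F E'] [Algebra.IsAlgebraic F E']

private theorem eb_int (x : F) : IsIntegral A x ↔ x ∈ A := by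
  rw [IsIntegrallyClosed.isIntegral_iff]
  constructor
  · rintro ⟨y, rfl⟩
    exact y.2
  · intro h
    exact ⟨⟨x, h⟩, rfl⟩

theorem ext_map (x : F) : algebraMap F E x ∈ ext hA E ↔ x ∈ A := by
  rw [mem_ext, isIntegral_algebraMap_iff (algebraMap F E).injective, eb_int]

theorem ext_nonunits_map (x : F) : algebraMap F E x ∈ (ext hA E).nonunits ↔ x ∈ A.nonunits := by
  rw [ValuationSubring.mem_nonunits_iff_or, ValuationSubring.mem_nonunits_iff_or, ← map_inv₀,
    ext_map, map_eq_zero_iff _ (algebraMap F E).injective]

theorem ext_hom (f : E →ₐ[F] E') (x : E) : f x ∈ ext hA E' ↔ x ∈ ext hA E := by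
  rw [mem_ext, mem_ext]
  exact isIntegral_algHom_iff (f.restrictScalars A) f.toRingHom.injective

theorem ext_nonunits_hom (f : E →ₐ[F] E') (x : E) :
    f x ∈ (ext hA E').nonunits ↔ x ∈ (ext hA E).nonunits := by
  rw [ValuationSubring.mem_nonunits_iff_or, ValuationSubring.mem_nonunits_iff_or, ← map_inv₀,
    ext_hom, map_eq_zero]

theorem norm_mem [FiniteDimensional F E] {x : E} (hx : x ∈ ext hA E) :
    Algebra.norm F x ∈ A := by
  rw [mem_ext] at hx
  exact (eb_int _).1 (Algebra.isIntegral_norm F hx)

/-- If the norm of an integral element is a unit then the element is a unit. -/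
private theorem eb_unit [FiniteDimensional F E] {x : E} (hx : IsIntegral A x)
    (hN : (Algebra.norm F x)⁻¹ ∈ A) (h0 : Algebra.norm F x ≠ 0) : IsIntegral A x⁻¹ := by
  have hxF : IsIntegral F x := Algebra.IsIntegral.isIntegral x
  have hmin := minpoly.isIntegrallyClosed_eq_field_fractions' F hx
  obtain ⟨a, ha⟩ : ∃ a : A, a = (minpoly A x).coeff 0 := ⟨_, rfl⟩
  have hc : (minpoly F x).coeff 0 = (a : F) := by
    rw [hmin, Polynomial.coeff_map, ← ha]
    rfl
  -- the norm is a power of `c`
  obtain ⟨c, k, hck, hca, hk⟩ : ∃ (c : F) (k : ℕ), Algebra.norm F x = c ^ k ∧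
      (c = a ∨ c = -a) ∧ 0 < k := by
    have h1 := Algebra.norm_eq_norm_adjoin F x
    have h2 := Algebra.PowerBasis.norm_gen_eq_coeff_zero_minpoly
      (IntermediateField.adjoin.powerBasis hxF)
    rw [IntermediateField.adjoin.powerBasis_gen, IntermediateField.minpoly_gen, hc] at h2
    refine ⟨_, _, h1, ?_, ?_⟩
    · rw [h2]
      rcases neg_one_pow_eq_or F (IntermediateField.adjoin.powerBasis hxF).dim with h3 | h3
      · left
        rw [h3, one_mul]
      · right
        rw [h3, neg_one_mul]
    · exact Module.finrank_pos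
  have hcA : c ∈ A := by
    rcases hca with h | h
    · rw [h]
      exact a.2
    · rw [h]
      exact A.neg_mem _ a.2
  have hcinv : c⁻¹ ∈ A := by
    have h1 : c⁻¹ = c ^ (k - 1) * (c ^ k)⁻¹ := by
      have hc0 : c ≠ 0 := by
        rintro rfl
        rw [hck, zero_pow hk.ne'] at h0
        exact h0 rfl
      have h2 : c ^ k = c ^ (k - 1) * c := by
        rw [← pow_succ]
        congr 1
        omega
      rw [h2]
      field_simp
    rw [h1, ← hck]
    exact A.mul_mem _ _ (pow_mem hcA (k - 1)) hN
  have hainv : ((a : F))⁻¹ ∈ A := by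
    rcases hca with h | h
    · rw [← h]
      exact hcinv
    · have h1 : ((a : F))⁻¹ = -c⁻¹ := by
        rw [h, inv_neg, neg_neg]
      rw [h1]
      exact A.neg_mem _ hcinv
  have ha0 : (a : F) ≠ 0 := by
    intro h
    rcases hca with h' | h'
    · rw [hck, h', h, zero_pow hk.ne'] at h0
      exact h0 rfl
    · rw [hck, h', h, neg_zero, zero_pow hk.ne'] at h0
      exact h0 rfl
  obtain ⟨b, hb⟩ : ∃ b : A, (b : F) = ((a : F))⁻¹ := ⟨⟨_, hainv⟩, rfl⟩
  have hev : Polynomial.aeval x (minpoly A x).divX * x + algebraMap A E a = 0 := by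
    have h1 := minpoly.aeval A x
    rw [← Polynomial.divX_mul_X_add (minpoly A x), map_add, map_mul, Polynomial.aeval_X,
      Polynomial.aeval_C, ← ha] at h1
    exact h1
  have hab : algebraMap A E b * algebraMap A E a = 1 := by
    rw [← map_mul]
    have h1 : b * a = 1 := by
      apply Subtype.ext
      show (b : F) * (a : F) = 1
      rw [hb, inv_mul_cancel₀ ha0]
    rw [h1, map_one]
  have hx1 : (-(algebraMap A E b) * Polynomial.aeval x (minpoly A x).divX) * x = 1 := by
    linear_combination hab - algebraMap A E b * hev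
  have hx2 : x⁻¹ = -(algebraMap A E b) * Polynomial.aeval x (minpoly A x).divX := by
    have hx0 : x ≠ 0 := by
      rintro rfl
      rw [mul_zero] at hx1
      exact zero_ne_one hx1
    field_simp
    linear_combination -hx1
  rw [hx2]
  refine IsIntegral.mul (IsIntegral.neg isIntegral_algebraMap) ?_
  exact adjoin_le_integralClosure hx (Polynomial.aeval_mem_adjoin_singleton A x)

theorem norm_nonunits [FiniteDimensional F E] {x : E} (hx : x ∈ ext hA E) :
    Algebra.norm F x ∈ A.nonunits ↔ x ∈ (ext hA E).nonunits := by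
  rw [ValuationSubring.mem_nonunits_iff_or, ValuationSubring.mem_nonunits_iff_or,
    Algebra.norm_eq_zero_iff]
  constructor
  · rintro (h | h)
    · exact Or.inl h
    · right
      intro h1
      apply h
      have h2 := norm_mem hA h1
      by_cases hx0 : x = 0
      · rw [hx0, Algebra.norm_zero, inv_zero]
        exact A.zero_mem
      · have h3 : Algebra.norm F x⁻¹ * Algebra.norm F x = 1 := by
          rw [← map_mul, inv_mul_cancel₀ hx0, map_one]
        rwa [eq_inv_of_mul_eq_one_left h3] at h2
  · rintro (h | h)
    · exact Or.inl h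
    · by_cases h0 : x = 0
      · exact Or.inl h0
      · right
        intro h1
        exact h (eb_unit hx h1 (by rwa [Ne, Algebra.norm_eq_zero_iff]))

end Pool.Agent.Helper60.SL
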