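import Mathlib
import Pool.Agent.Helper60.SL.Defs

/-!
# SL-35: the completion of a number field at a finite place

PROOF.  `adic_henselian`: let `O = v.adicCompletionIntegers K`, a discrete valuation ring (instance of Mathlib), complete: the maximal ideal `m` is generated by an element `π` with `v π = exp(-1)`, `m^n = {x | v x ≤ exp(-n)}`, and a sequence with `x_n ≡ x_{n+1} mod m^n` is a Cauchy sequence in the complete
space `v.adicCompletion K`; its limit is congruent to `x_n` modulo `m^n` (the balls are closed).  So `IsAdicComplete m O`, and `IsAdicComplete.henselianRing` gives `HenselianRing O m`, hence `HenselianLocalRing O` (`IsUnit (f'(a))` implies that its class modulo `m` is a unit).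
(Compare `Mathlib.NumberTheory.LocalField.Basic`, where this is done for `IsNonarchimedeanLocalField`.)
`adic_card`: the map `R → O / m` is surjective (`K` is dense in the completion and every element `x` of `K` with `v x ≤ 1` is congruent to an element of `R` modulo `v(·) < 1`: `exists_valuation_sub_lt_of_integer` or `exists_adicValued_sub_lt...` of Mathlib) with kernel `v.asIdeal`.
`hdvr_comp`: `𝓞 k / v` is finite.
-/

set_option autoImplicit false

open IsDedekindDomain NumberField IsLocalRing

namespace Pool.Agent.Helper60.SL

section comp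

variable {R K : Type*} [CommRing R] [IsDedekindDomain R] [Field K] [Algebra R K] [IsFractionRing R K]
  (v : HeightOneSpectrum R)

open WithZero

private theorem Comp_unif : ∃ π : v.adicCompletion K, Valued.v π = WithZero.exp (-1 : ℤ) :=
  HeightOneSpectrum.valuedAdicCompletion_surjective K v _

private theorem Comp_mem (x : v.adicCompletionIntegers K) :
    x ∈ maximalIdeal (v.adicCompletionIntegers K) ↔ Valued.v (x : v.adicCompletion K) < 1 := by
  rw [mem_maximalIdeal, mem_nonunits_iff, HeightOneSpectrum.adicCompletionIntegers.isUnit_iff_valued_eq_one]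
  have h1 : Valued.v (x : v.adicCompletion K) ≤ 1 := x.2
  exact ⟨fun h => lt_of_le_of_ne h1 h, fun h => ne_of_lt h⟩

private theorem Comp_lt_one (a : ℤᵐ⁰) : a < 1 ↔ a ≤ WithZero.exp (-1 : ℤ) := by
  by_cases h : a = 0
  · simp [h]
  · rw [← WithZero.exp_log h, ← WithZero.exp_zero, WithZero.exp_lt_exp, WithZero.exp_le_exp]
    omega

private theorem Comp_span (p : v.adicCompletionIntegers K) (hp : (p : v.adicCompletion K) ≠ 0)
    (x : v.adicCompletionIntegers K) :
    x ∈ Ideal.span {p} ↔ Valued.v (x : v.adicCompletion K) ≤ Valued.v (p : v.adicCompletion K) := by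
  rw [Ideal.mem_span_singleton']
  constructor
  · rintro ⟨c, rfl⟩
    have h1 : ((c * p : v.adicCompletionIntegers K) : v.adicCompletion K) = (c : v.adicCompletion K) * p := rfl
    rw [h1, map_mul]
    exact mul_le_of_le_one_left' c.2
  · intro h
    have hv : Valued.v (p : v.adicCompletion K) ≠ 0 := (Valuation.ne_zero_iff _).2 hp
    have h1 : Valued.v ((x : v.adicCompletion K) / p) ≤ 1 := by
      rw [map_div₀]
      exact div_le_one_of_le₀ h zero_le
    refine ⟨⟨(x : v.adicCompletion K) / p, h1⟩, Subtype.ext ?_⟩
    exact div_mul_cancel₀ _ hp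

private theorem Comp_pow (n : ℕ) (x : v.adicCompletionIntegers K) :
    x ∈ maximalIdeal (v.adicCompletionIntegers K) ^ n ↔
      Valued.v (x : v.adicCompletion K) ≤ WithZero.exp (-(n : ℤ)) := by
  obtain ⟨π, hπ⟩ := Comp_unif (K := K) v
  have hle : Valued.v π ≤ 1 := by
    rw [hπ, ← WithZero.exp_zero, WithZero.exp_le_exp]
    norm_num
  have hπ0 : π ≠ 0 := by
    rintro rfl
    rw [map_zero] at hπ
    exact WithZero.exp_ne_zero hπ.symm
  obtain ⟨p, hp⟩ : ∃ p : v.adicCompletionIntegers K, (p : v.adicCompletion K) = π := ⟨⟨π, hle⟩, rfl⟩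
  have hm : maximalIdeal (v.adicCompletionIntegers K) = Ideal.span {p} := by
    ext y
    rw [Comp_mem, Comp_lt_one, Comp_span v p (by rw [hp]; exact hπ0), hp, hπ]
  have hpn : ((p ^ n : v.adicCompletionIntegers K) : v.adicCompletion K) = π ^ n := by
    rw [SubmonoidClass.coe_pow, hp]
  have hpv : Valued.v (π ^ n) = WithZero.exp (-(n : ℤ)) := by
    rw [map_pow, hπ, ← WithZero.exp_nsmul]
    congr 1
    simp
  rw [hm, Ideal.span_singleton_pow, Comp_span v (p ^ n) (by rw [hpn]; exact pow_ne_zero _ hπ0), hpn, hpv]

private theorem Comp_closed (n : ℕ) (a : v.adicCompletion K) :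
    IsClosed {y : v.adicCompletion K | Valued.v (y - a) ≤ WithZero.exp (-(n : ℤ))} := by
  obtain ⟨π, hπ⟩ := Comp_unif (K := K) v
  have hpv : Valued.v (π ^ n) = WithZero.exp (-(n : ℤ)) := by
    rw [map_pow, hπ, ← WithZero.exp_nsmul]
    congr 1
    simp
  have h1 : {y : v.adicCompletion K | Valued.v (y - a) ≤ WithZero.exp (-(n : ℤ))} =
      (fun y => y - a) ⁻¹' {x | Valued.v.restrict x ≤ Valued.v.restrict (π ^ n)} := by
    ext y
    simp only [Set.mem_ofPred_eq, Set.mem_preimage, Valuation.restrict_le_iff, hpv]
  rw [h1]
  exact (Valued.isClosed_closedBall _ _).preimage (continuous_id.sub continuous_const)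

private theorem Comp_complete :
    IsAdicComplete (maximalIdeal (v.adicCompletionIntegers K)) (v.adicCompletionIntegers K) where
  prec' f hf := by
    have hf' : ∀ m n, m ≤ n → Valued.v ((f m : v.adicCompletion K) - f n) ≤ WithZero.exp (-(m : ℤ)) := by
      intro m n hmn
      have h1 := hf hmn
      rw [SModEq.sub_mem, smul_eq_mul, Ideal.mul_top, Comp_pow] at h1
      exact h1
    have hc : CauchySeq fun n => (f n : v.adicCompletion K) := by
      unfold CauchySeq
      rw [Valued.cauchy_iff]
      refine ⟨inferInstance, fun γ => ?_⟩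
      have hγ : MonoidWithZeroHom.ValueGroup₀.embedding γ.1 ≠ 0 := by
        intro h
        rw [← map_zero (MonoidWithZeroHom.ValueGroup₀.embedding (f := (.ofClass (Valued.v : Valuation (v.adicCompletion K) ℤᵐ⁰))))] at h
        exact γ.ne_zero (MonoidWithZeroHom.ValueGroup₀.embedding_strictMono.injective h)
      obtain ⟨N, hN⟩ := WithZero.exists_exp_neg_natCast_lt hγ
      refine ⟨(fun n => (f n : v.adicCompletion K)) '' Set.Ici N, Filter.image_mem_map (Filter.Ici_mem_atTop N), ?_⟩
      rintro _ ⟨m, hm, rfl⟩ _ ⟨n, hn, rfl⟩
      rw [Valuation.restrict_lt_iff_lt_embedding]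
      refine lt_of_le_of_lt ?_ hN
      have hm' : N ≤ m := hm
      have hn' : N ≤ n := hn
      have e1 : (f n : v.adicCompletion K) - f m = ((f N : v.adicCompletion K) - f m) - ((f N : v.adicCompletion K) - f n) := by ring
      show Valued.v ((f n : v.adicCompletion K) - f m) ≤ _
      rw [e1]
      exact (Valuation.map_sub _ _ _).trans (max_le (hf' N m hm') (hf' N n hn'))
    obtain ⟨L, hL⟩ := cauchySeq_tendsto_of_complete hc
    have hLn : ∀ n, Valued.v (L - (f n : v.adicCompletion K)) ≤ WithZero.exp (-(n : ℤ)) := by
      intro n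
      have hev : ∀ᶠ m in Filter.atTop, (f m : v.adicCompletion K) ∈
          {y : v.adicCompletion K | Valued.v (y - (f n : v.adicCompletion K)) ≤ WithZero.exp (-(n : ℤ))} := by
        filter_upwards [Filter.Ici_mem_atTop n] with m hm
        have h1 := hf' n m hm
        rw [Valuation.map_sub_swap] at h1
        exact h1
      have hmem : L ∈ {y : v.adicCompletion K | Valued.v (y - (f n : v.adicCompletion K)) ≤ WithZero.exp (-(n : ℤ))} :=
        IsClosed.mem_of_tendsto (Comp_closed v n (f n : v.adicCompletion K)) hL hev
      exact hmem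
    have hL1 : Valued.v L ≤ 1 := by
      have h1 := hLn 0
      have h2 : L = (L - (f 0 : v.adicCompletion K)) + f 0 := by ring
      rw [h2]
      refine (Valuation.map_add _ _ _).trans (max_le ?_ (f 0).2)
      simpa using h1
    refine ⟨⟨L, hL1⟩, fun n => ?_⟩
    rw [SModEq.sub_mem, smul_eq_mul, Ideal.mul_top, Comp_pow]
    have h1 := hLn n
    rw [Valuation.map_sub_swap] at h1
    exact h1

end comp

theorem adic_henselian {R K : Type*} [CommRing R] [IsDedekindDomain R] [Field K] [Algebra R K]
    [IsFractionRing R K] (v : HeightOneSpectrum R) :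
    HenselianLocalRing (v.adicCompletionIntegers K) := by
  have hc := Comp_complete (K := K) v
  have hh : HenselianRing (v.adicCompletionIntegers K) (maximalIdeal (v.adicCompletionIntegers K)) :=
    IsAdicComplete.henselianRing _ _
  exact ⟨fun f hf a ha hu => hh.is_henselian f hf a ha (hu.map _)⟩

theorem adic_card {R K : Type*} [CommRing R] [IsDedekindDomain R] [Field K] [Algebra R K]
    [IsFractionRing R K] (v : HeightOneSpectrum R) :
    Nonempty ((R ⧸ v.asIdeal) ≃+* ResidueField (v.adicCompletionIntegers K)) := by
  have hcoe : ∀ r : R, Valued.v ((algebraMap R (v.adicCompletionIntegers K) r : v.adicCompletionIntegers K) :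
      v.adicCompletion K) = v.valuation K (algebraMap R K r) := by
    intro r
    rw [HeightOneSpectrum.algebraMap_adicCompletionIntegers_apply]
    exact HeightOneSpectrum.valuedAdicCompletion_eq_valuation' v _
  have hker : RingHom.ker ((residue (v.adicCompletionIntegers K)).comp
      (algebraMap R (v.adicCompletionIntegers K))) = v.asIdeal := by
    ext r
    rw [RingHom.mem_ker, RingHom.comp_apply, residue_eq_zero_iff, Comp_mem, hcoe,
      HeightOneSpectrum.valuation_lt_one_iff_mem]
  have hsurj : Function.Surjective ((residue (v.adicCompletionIntegers K)).comp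
      (algebraMap R (v.adicCompletionIntegers K))) := by
    intro y
    obtain ⟨x, rfl⟩ := residue_surjective y
    have hopen : IsOpen {z : v.adicCompletion K | Valued.v (z - (x : v.adicCompletion K)) < 1} := by
      have h1 : {z : v.adicCompletion K | Valued.v (z - (x : v.adicCompletion K)) < 1} =
          (fun z => z - (x : v.adicCompletion K)) ⁻¹' {z | Valued.v.restrict z < 1} := by
        ext z
        simp only [Set.mem_ofPred_eq, Set.mem_preimage, Valuation.restrict_lt_one_iff]
      rw [h1]
      exact (Valued.isOpen_ball _ _).preimage (continuous_id.sub continuous_const)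
    obtain ⟨z, hz⟩ := (HeightOneSpectrum.denseRange_algebraMap K v).exists_mem_open hopen
      ⟨(x : v.adicCompletion K), by simp⟩
    have hz' : Valued.v ((algebraMap K (v.adicCompletion K) z) - (x : v.adicCompletion K)) < 1 := hz
    have hzz : Valued.v (algebraMap K (v.adicCompletion K) z) = v.valuation K z :=
      HeightOneSpectrum.valuedAdicCompletion_eq_valuation' v _
    have hz1 : v.valuation K z ≤ 1 := by
      rw [← hzz]
      have e1 : algebraMap K (v.adicCompletion K) z =
          (algebraMap K (v.adicCompletion K) z - (x : v.adicCompletion K)) + x := by ring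
      rw [e1]
      exact (Valuation.map_add _ _ _).trans (max_le hz'.le x.2)
    obtain ⟨r, hr⟩ := HeightOneSpectrum.exists_valuation_sub_lt_of_integer v hz1 1
    refine ⟨r, ?_⟩
    rw [RingHom.comp_apply, ← sub_eq_zero, ← map_sub, residue_eq_zero_iff, Comp_mem]
    have e2 : ((algebraMap R (v.adicCompletionIntegers K) r - x : v.adicCompletionIntegers K) : v.adicCompletion K)
        = algebraMap K (v.adicCompletion K) (algebraMap R K r - z) +
          (algebraMap K (v.adicCompletion K) z - (x : v.adicCompletion K)) := by
      rw [map_sub]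
      have e3 : ((algebraMap R (v.adicCompletionIntegers K) r : v.adicCompletionIntegers K) : v.adicCompletion K) =
          algebraMap K (v.adicCompletion K) (algebraMap R K r) := rfl
      show ((algebraMap R (v.adicCompletionIntegers K) r : v.adicCompletionIntegers K) : v.adicCompletion K) - x = _
      rw [e3]
      ring
    rw [e2]
    refine lt_of_le_of_lt (Valuation.map_add _ _ _) (max_lt ?_ hz')
    have h4 : Valued.v (algebraMap K (v.adicCompletion K) (algebraMap R K r - z)) =
        v.valuation K (algebraMap R K r - z) := HeightOneSpectrum.valuedAdicCompletion_eq_valuation' v _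
    rw [h4]
    simpa using hr
  exact ⟨(Ideal.quotEquivOfEq hker.symm).trans (RingHom.quotientKerEquivOfSurjective hsurj)⟩

theorem adic_charZero (k : Type*) [Field k] [NumberField k] (v : HeightOneSpectrum (𝓞 k)) :
    CharZero (v.adicCompletion k) :=
  charZero_of_injective_algebraMap (algebraMap k (v.adicCompletion k)).injective

theorem hdvr_comp (k : Type*) [Field k] [NumberField k] (v : HeightOneSpectrum (𝓞 k)) :
    HDVR (v.adicCompletionIntegers k) := by
  obtain ⟨e⟩ := adic_card (K := k) v
  have h1 : Finite (𝓞 k ⧸ v.asIdeal) := Ideal.finiteQuotientOfFreeOfNeBot v.asIdeal v.ne_bot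
  exact ⟨inferInstance, adic_henselian v, Finite.of_equiv _ e.toEquiv⟩

end Pool.Agent.Helper60.SL
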