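import Mathlib
import Pool.Agent.Helper60.SL.Comp
import Pool.Agent.Helper60.SL.Ext
import Pool.Agent.Helper79.SB.Common

/-!
# Definitions for the henselisations of a number field (proved)

`k` a number field, `v` a finite place, `W` an algebraic closure of `k` and `j` an embedding of `W`
into an algebraic closure of `k_v`.
-/

set_option autoImplicit false

open IsDedekindDomain NumberField IsLocalRing Pool.Agent.SB

namespace Pool.Agent.Helper60.SL

variable {k : Type} [Field k] [NumberField k] {W : Type} [Field W] [Algebra k W]

/-- the integral closure of `O_v` in the algebraic closure of `k_v` -/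
noncomputable def VC (v : HeightOneSpectrum (𝓞 k)) :
    ValuationSubring (AlgebraicClosure (v.adicCompletion k)) :=
  haveI := adic_charZero k v
  ext (hdvr_comp k v) (AlgebraicClosure (v.adicCompletion k))

/-- the valuation ring of `W` defined by the embedding `j` -/
noncomputable def VV {v : HeightOneSpectrum (𝓞 k)}
    (j : W →ₐ[k] AlgebraicClosure (v.adicCompletion k)) : ValuationSubring W :=
  (VC v).comap (j : W →+* AlgebraicClosure (v.adicCompletion k))

/-- the restriction of a valuation ring of `W` to an intermediate field -/
def resF (V : ValuationSubring W) (F : IntermediateField k W) : ValuationSubring F :=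
  V.comap (algebraMap F W)

omit [NumberField k] in
theorem mem_resF (V : ValuationSubring W) (F : IntermediateField k W) (x : F) :
    x ∈ resF V F ↔ (x : W) ∈ V := Iff.rfl

theorem mem_VV {v : HeightOneSpectrum (𝓞 k)}
    (j : W →ₐ[k] AlgebraicClosure (v.adicCompletion k)) (x : W) :
    x ∈ VV j ↔ IsIntegral (v.adicCompletionIntegers k) (j x) := Iff.rfl

end Pool.Agent.Helper60.SL
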