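import Mathlib
import Pool.Agent.Helper60.SL.NFDefs
import Pool.Agent.Helper60.SL.ExtBasic

/-!
# SL-36: first properties of `VV j` and `decField j`

PROOF.  `nonunits_VV`: `x` is a nonunit iff `x = 0` or `x⁻¹` is not in the ring (`ValuationSubring.mem_nonunits_iff_or`), or by the valuation of the comap.
`map_mem_VV`, `map_nonunits_VV`: `j (algebraMap k W a)` is the image of `a` under `k → k_v → AlgebraicClosure k_v`; `ext_map`, `ext_nonunits_map` for `hdvr_comp k v`, and `valuedAdicCompletion_eq_valuation'`.
`exists_loc`: `j` maps `decField j` into the image of the injective homomorphism `k_v → AlgebraicClosure k_v`; compose with its inverse (`AlgEquiv.ofInjectiveField`).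
`loc_mem`, `loc_nonunits`: `ext_map`, `ext_nonunits_map`.
`exists_loc_eq`: let `b ∈ k_v` be algebraic over `k`, `f = minpoly k b`.  `f` splits over the algebraically closed field `W` with `deg f` roots (`k` is perfect) and `j` maps them injectively to the roots of `f` in `AlgebraicClosure k_v`, so every root of `f` there,
in particular the image of `b`, is `j x` for some `x ∈ W`; then `x ∈ decField j` and `loc j x = b` by injectivity.  (Or: the image of `j` is algebraically closed in `AlgebraicClosure k_v` because `W` is algebraically closed.)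
-/

set_option autoImplicit false

open IsDedekindDomain NumberField IsLocalRing Pool.Agent.SB

namespace Pool.Agent.Helper60.SL

variable {k : Type} [Field k] [NumberField k] {W : Type} [Field W] [Algebra k W]
variable {v : HeightOneSpectrum (𝓞 k)} (j : W →ₐ[k] AlgebraicClosure (v.adicCompletion k))

theorem nonunits_VV (x : W) : x ∈ (VV j).nonunits ↔ j x ∈ (VC v).nonunits := by
  rw [ValuationSubring.mem_nonunits_iff_or, ValuationSubring.mem_nonunits_iff_or, ← map_inv₀,
    map_eq_zero]
  exact Iff.rfl

private theorem db_map (a : k) : j (algebraMap k W a) =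
    algebraMap (v.adicCompletion k) (AlgebraicClosure (v.adicCompletion k))
      (algebraMap k (v.adicCompletion k) a) := by
  rw [j.commutes, IsScalarTower.algebraMap_apply k (v.adicCompletion k)
    (AlgebraicClosure (v.adicCompletion k))]

theorem map_mem_VV (a : k) : algebraMap k W a ∈ VV j ↔ v.valuation k a ≤ 1 := by
  have := adic_charZero k v
  have h1 : algebraMap k W a ∈ VV j ↔ j (algebraMap k W a) ∈ VC v := Iff.rfl
  rw [h1, db_map, VC, ext_map, HeightOneSpectrum.mem_adicCompletionIntegers]
  have h2 : Valued.v (algebraMap k (v.adicCompletion k) a) = v.valuation k a :=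
    HeightOneSpectrum.valuedAdicCompletion_eq_valuation' v a
  rw [h2]

theorem map_nonunits_VV (a : k) : algebraMap k W a ∈ (VV j).nonunits ↔ v.valuation k a < 1 := by
  rw [ValuationSubring.mem_nonunits_iff_or, ← map_inv₀, map_mem_VV,
    map_eq_zero_iff _ (algebraMap k W).injective, map_inv₀]
  rcases eq_or_ne a 0 with rfl | ha
  · simp
  · have h1 : v.valuation k a ≠ 0 := by simpa using ha
    have h2 : 0 < v.valuation k a := zero_lt_iff.2 h1
    rw [inv_le_one₀ h2, not_le]
    simp [ha]

theorem exists_loc : ∃ f : decField j →ₐ[k] v.adicCompletion k,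
    ∀ x : decField j, algebraMap (v.adicCompletion k) (AlgebraicClosure (v.adicCompletion k))
      (f x) = j x := by
  have h1 : ∀ x : decField j, ∃ b : v.adicCompletion k,
      algebraMap (v.adicCompletion k) (AlgebraicClosure (v.adicCompletion k)) b = j x :=
    fun x => (mem_decField j (x : W)).1 x.2
  choose f hf using h1
  have hinj := (algebraMap (v.adicCompletion k)
    (AlgebraicClosure (v.adicCompletion k))).injective
  refine ⟨⟨⟨⟨⟨f, ?_⟩, ?_⟩, ?_, ?_⟩, ?_⟩, hf⟩
  · apply hinj
    rw [hf, map_one]
    exact map_one j
  · intro x y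
    apply hinj
    rw [hf, map_mul, hf, hf]
    exact map_mul j _ _
  · apply hinj
    change algebraMap _ _ (f 0) = _
    rw [hf, map_zero]
    exact map_zero j
  · intro x y
    apply hinj
    change algebraMap _ _ (f (x + y)) = algebraMap _ _ (f x + f y)
    rw [hf, map_add, hf, hf]
    exact map_add j _ _
  · intro a
    apply hinj
    refine (hf (algebraMap k (decField j) a)).trans ?_
    rw [← db_map j]
    rfl

/-- the embedding of `decField j` into `k_v` -/
noncomputable def loc : decField j →ₐ[k] v.adicCompletion k := (exists_loc j).choose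

theorem loc_spec (x : decField j) :
    algebraMap (v.adicCompletion k) (AlgebraicClosure (v.adicCompletion k)) (loc j x) = j x :=
  (exists_loc j).choose_spec x

theorem loc_mem (x : decField j) :
    loc j x ∈ v.adicCompletionIntegers k ↔ x ∈ resF (VV j) (decField j) := by
  have := adic_charZero k v
  rw [mem_resF]
  have h1 : (x : W) ∈ VV j ↔ j x ∈ VC v := Iff.rfl
  rw [h1, ← loc_spec, VC, ext_map]

theorem loc_nonunits (x : decField j) :
    loc j x ∈ (v.adicCompletionIntegers k).nonunits ↔ x ∈ (resF (VV j) (decField j)).nonunits := by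
  rw [ValuationSubring.mem_nonunits_iff_or, ValuationSubring.mem_nonunits_iff_or, ← map_inv₀,
    loc_mem, map_eq_zero]

theorem exists_loc_eq [IsAlgClosed W] (b : v.adicCompletion k) (hb : IsAlgebraic k b) :
    ∃ x : decField j, loc j x = b := by
  have hinj := (algebraMap (v.adicCompletion k)
    (AlgebraicClosure (v.adicCompletion k))).injective
  have hb' : IsIntegral k b := hb.isIntegral
  letI : Algebra W (AlgebraicClosure (v.adicCompletion k)) :=
    (j : W →+* AlgebraicClosure (v.adicCompletion k)).toAlgebra
  have hst : IsScalarTower k W (AlgebraicClosure (v.adicCompletion k)) :=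
    IsScalarTower.of_algebraMap_eq fun a => (j.commutes a).symm
  have hy : IsIntegral W (algebraMap (v.adicCompletion k)
      (AlgebraicClosure (v.adicCompletion k)) b) :=
    (hb'.map (IsScalarTower.toAlgHom k (v.adicCompletion k)
      (AlgebraicClosure (v.adicCompletion k)))).tower_top
  obtain ⟨x, hx⟩ := minpoly.mem_range_of_degree_eq_one W _
    (IsAlgClosed.degree_eq_one_of_irreducible W (minpoly.irreducible hy))
  have hx' : algebraMap (v.adicCompletion k) (AlgebraicClosure (v.adicCompletion k)) b = j x :=
    hx.symm
  refine ⟨⟨x, (mem_decField j x).2 ⟨b, hx'⟩⟩, hinj ?_⟩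
  rw [loc_spec, hx']

end Pool.Agent.Helper60.SL
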