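import Mathlib
import Pool.Agent.Helper60.SL.DecBasic

/-!
# SL-37: `decField j` is henselian discretely valued with the residue field of `k` at `v`

`A = resF (VV j) (decField j)`, `O = v.adicCompletionIntegers k`; `x ∈ A` iff `Valued.v (loc j x) ≤ 1` (`loc_mem`).

PROOF.  Discrete valuation ring: `A` is the valuation ring of the valuation `x ↦ Valued.v (loc j x)` with values in `ℤᵐ⁰`, nontrivial (`exists_unif_k`); `Valuation.valuationSubring_isDiscreteValuationRing` or a direct argument.
Henselian: let `f` be monic over `A`, `a₀ ∈ A`, `f(a₀)` in the maximal ideal and `f'(a₀)` a unit.  Apply `loc j`: by `adic_henselian` there is a root `b ∈ O` of the image of `f`, congruent to `a₀`.  `b` is algebraic over `decField j`, which is algebraic over `k`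
(`W / k` is), so `b` is algebraic over `k` and `b = loc j x` (`exists_loc_eq`), `x ∈ A` (`loc_mem`), `f(x) = 0` by injectivity, `x - a₀` is a nonunit (`loc_nonunits`).
Residue field: `ResidueField A → ResidueField O` is injective (`loc_nonunits`), and surjective since already `𝓞 k → O / m` is surjective (`adic_card`, whose proof shows it, or: `k` is dense in `k_v`); `ResidueField O ≃ 𝓞 k / v` (`adic_card`).
`unif_dec`: `Valued.v (loc j π) = exp(-1)` and a nonunit `x` of `A` has `Valued.v (loc j x) < 1`, so `≤ exp(-1)`.
`dense_dec`: `k` is dense in `k_v` (`denseRange_algebraMap` of Mathlib): there is `y ∈ k` with `Valued.v (loc j x - y) ≤ Valued.v (loc j c)`.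
-/

set_option autoImplicit false

open IsDedekindDomain NumberField IsLocalRing Pool.Agent.SB WithZero

namespace Pool.Agent.Helper60.SL

variable {k : Type} [Field k] [NumberField k] {W : Type} [Field W] [Algebra k W]
variable {v : HeightOneSpectrum (𝓞 k)} (j : W →ₐ[k] AlgebraicClosure (v.adicCompletion k))

private theorem dh_dense (x c : v.adicCompletion k) (hc : c ≠ 0) :
    ∃ y : k, Valued.v (algebraMap k (v.adicCompletion k) y - x) < Valued.v c := by
  have hd : DenseRange (algebraMap k (v.adicCompletion k)) :=
    HeightOneSpectrum.denseRange_algebraMap k v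
  have hne : (Valued.v : Valuation (v.adicCompletion k) ℤᵐ⁰).restrict c ≠ 0 := by
    rw [Ne, Valuation.restrict_eq_zero_iff, map_eq_zero]
    exact hc
  have hn : {y : v.adicCompletion k | Valued.v (y - x) < Valued.v c} ∈ nhds x := by
    rw [Valued.mem_nhds]
    refine ⟨Units.mk0 _ hne, ?_⟩
    intro y hy
    exact (Valuation.restrict_lt_iff _).1 hy
  obtain ⟨y, hy⟩ := hd.exists_mem_open (s := interior {y : v.adicCompletion k | Valued.v (y - x) < Valued.v c})
    isOpen_interior ⟨x, mem_interior_iff_mem_nhds.2 hn⟩
  exact ⟨y, interior_subset (s := {y : v.adicCompletion k | Valued.v (y - x) < Valued.v c}) hy⟩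

private theorem dh_val (x : decField j) :
    x ∈ resF (VV j) (decField j) ↔ Valued.v (loc j x) ≤ 1 := by
  rw [← loc_mem, HeightOneSpectrum.mem_adicCompletionIntegers]

private theorem dh_inj : Function.Injective (loc j) := (loc j).toRingHom.injective

private theorem dh_non (x : decField j) :
    x ∈ (resF (VV j) (decField j)).nonunits ↔ Valued.v (loc j x) < 1 := by
  rw [ValuationSubring.mem_nonunits_iff_or, dh_val, map_inv₀, map_inv₀]
  rcases eq_or_ne x 0 with rfl | hx
  · simp
  · have h1 : Valued.v (loc j x) ≠ 0 := by
      rw [Ne, map_eq_zero, map_eq_zero_iff _ (dh_inj j)]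
      exact hx
    rw [inv_le_one₀ (zero_lt_iff.2 h1), not_le]
    simp [hx]

private theorem dh_exists_unif : ∃ p : k, v.valuation k p = exp (-1 : ℤ) :=
  v.valuation_exists_uniformizer k

private theorem dh_loc_map (a : k) :
    Valued.v (loc j (algebraMap k (decField j) a)) = v.valuation k a := by
  rw [(loc j).commutes]
  exact HeightOneSpectrum.valuedAdicCompletion_eq_valuation' v a

private theorem dh_dvr : IsDiscreteValuationRing (resF (VV j) (decField j)) := by
  let w : Valuation (decField j) ℤᵐ⁰ := Valued.v.comap (loc j : decField j →+* v.adicCompletion k)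
  have hA : resF (VV j) (decField j) = w.valuationSubring := by
    ext x
    exact dh_val j x
  obtain ⟨p, hp⟩ := dh_exists_unif (k := k) (v := v)
  have h1 : IsPrincipalIdealRing w.valuationSubring := by
    rw [(Valuation.valuationSubring.integers w).isPrincipalIdealRing_iff_not_denselyOrdered,
      WithZero.denselyOrdered_set_iff_subsingleton]
    simpa using w.range_nontrivial
  rw [hA]
  exact {
    not_a_field' := by
      have h2 : w (algebraMap k (decField j) p) = exp (-1 : ℤ) := (dh_loc_map j p).trans hp
      have h3 : w (algebraMap k (decField j) p) < 1 := by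
        rw [h2]
        simp [← exp_zero, -exp_neg]
      have h4 : algebraMap k (decField j) p ≠ 0 := by
        intro h
        rw [h, map_zero] at h2
        exact exp_ne_zero h2.symm
      intro h
      have h5 : (⟨algebraMap k (decField j) p, h3.le⟩ : w.valuationSubring) ∈
          maximalIdeal w.valuationSubring := (Valuation.mem_maximalIdeal_iff (K := decField j) (v := w)).2 h3
      rw [h, Ideal.mem_bot] at h5
      exact h4 (congrArg Subtype.val h5) }

/-- the embedding on the valuation rings -/
private noncomputable def dhpsi : resF (VV j) (decField j) →+* v.adicCompletionIntegers k where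
  toFun x := ⟨loc j (x : decField j), (loc_mem j x).2 x.2⟩
  map_one' := Subtype.ext (map_one (loc j))
  map_mul' x y := Subtype.ext (map_mul (loc j) (x : decField j) (y : decField j))
  map_zero' := Subtype.ext (map_zero (loc j))
  map_add' x y := Subtype.ext (map_add (loc j) (x : decField j) (y : decField j))

private theorem dh_max (x : resF (VV j) (decField j)) :
    dhpsi j x ∈ maximalIdeal (v.adicCompletionIntegers k) ↔
      x ∈ maximalIdeal (resF (VV j) (decField j)) := by
  rw [← ValuationSubring.coe_mem_nonunits_iff, ← ValuationSubring.coe_mem_nonunits_iff]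
  exact loc_nonunits j x

private instance dh_local : IsLocalHom (dhpsi j) := by
  constructor
  intro a ha
  by_contra h
  have h1 : a ∈ maximalIdeal (resF (VV j) (decField j)) := h
  exact ((dh_max j a).2 h1) ha

private theorem dhpsi_inj : Function.Injective (dhpsi j) := by
  intro a b h
  exact Subtype.ext (dh_inj j (congrArg Subtype.val h))

private theorem dh_hens [IsAlgClosed W] [Algebra.IsAlgebraic k W] :
    HenselianLocalRing (resF (VV j) (decField j)) := by
  have hO : HenselianLocalRing (v.adicCompletionIntegers k) := adic_henselian v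
  constructor
  intro f hf a₀ h1 h2
  obtain ⟨b, hb, hb2⟩ := hO.is_henselian (f.map (dhpsi j)) (hf.map _) (dhpsi j a₀)
    (by
      rw [Polynomial.eval_map_apply]
      exact (dh_max j _).2 h1)
    (by
      rw [Polynomial.derivative_map, Polynomial.eval_map_apply]
      exact h2.map (dhpsi j))
  let _ : Algebra (decField j) (v.adicCompletion k) := (loc j : decField j →+* v.adicCompletion k).toAlgebra
  have hst : IsScalarTower k (decField j) (v.adicCompletion k) :=
    IsScalarTower.of_algebraMap_eq fun a => ((loc j).commutes a).symm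
  have hbalg : IsAlgebraic (decField j) (b : v.adicCompletion k) := by
    refine ⟨f.map (resF (VV j) (decField j)).subtype, ?_, ?_⟩
    · exact (hf.map _).ne_zero
    · have h3 := congrArg (v.adicCompletionIntegers k).subtype hb
      rw [Polynomial.eval_map, Polynomial.hom_eval₂, map_zero] at h3
      rw [Polynomial.aeval_def, Polynomial.eval₂_map]
      exact h3
  have hka : Algebra.IsAlgebraic k (decField j) := inferInstance
  have hbk : IsAlgebraic k (b : v.adicCompletion k) := hbalg.restrictScalars k
  obtain ⟨x, hx⟩ := exists_loc_eq j (b : v.adicCompletion k) hbk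
  have hxA : x ∈ resF (VV j) (decField j) := by
    rw [← loc_mem, hx]
    exact b.2
  have hxb : dhpsi j ⟨x, hxA⟩ = b := Subtype.ext hx
  refine ⟨⟨x, hxA⟩, ?_, ?_⟩
  · apply dhpsi_inj j
    rw [map_zero, ← Polynomial.eval_map_apply, hxb]
    exact hb
  · rw [← dh_max, map_sub, hxb]
    exact hb2

theorem hdvr_dec [IsAlgClosed W] [Algebra.IsAlgebraic k W] :
    HDVR (resF (VV j) (decField j)) := by
  refine ⟨dh_dvr j, dh_hens j, ?_⟩
  have h1 : Finite (ResidueField (v.adicCompletionIntegers k)) := (hdvr_comp k v).fin
  exact Finite.of_injective (ResidueField.map (dhpsi j)) (RingHom.injective _)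

theorem card_dec [IsAlgClosed W] [Algebra.IsAlgebraic k W] :
    Nat.card (ResidueField (resF (VV j) (decField j))) = Nat.card (𝓞 k ⧸ v.asIdeal) := by
  obtain ⟨e⟩ := adic_card (R := 𝓞 k) (K := k) v
  rw [Nat.card_congr e.toEquiv]
  refine Nat.card_congr (Equiv.ofBijective (ResidueField.map (dhpsi j)) ⟨RingHom.injective _, ?_⟩)
  intro z
  obtain ⟨b, rfl⟩ := IsLocalRing.residue_surjective z
  obtain ⟨y, hy⟩ := dh_dense (v := v) (b : v.adicCompletion k) 1 one_ne_zero
  rw [map_one] at hy
  have hb : Valued.v (b : v.adicCompletion k) ≤ 1 := (HeightOneSpectrum.mem_adicCompletionIntegers _ _ _).1 b.2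
  have hy2 : Valued.v (algebraMap k (v.adicCompletion k) y) ≤ 1 := by
    have h3 : algebraMap k (v.adicCompletion k) y = (algebraMap k (v.adicCompletion k) y - b) + b := by ring
    rw [h3]
    exact (Valuation.map_add _ _ _).trans (max_le hy.le hb)
  have hyA : algebraMap k (decField j) y ∈ resF (VV j) (decField j) := by
    rw [dh_val, (loc j).commutes]
    exact hy2
  refine ⟨residue _ ⟨_, hyA⟩, ?_⟩
  rw [ResidueField.map_residue]
  rw [← sub_eq_zero, ← map_sub, residue_eq_zero_iff, ← ValuationSubring.coe_mem_nonunits_iff]
  change loc j (algebraMap k (decField j) y) - (b : v.adicCompletion k) ∈ _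
  rw [(loc j).commutes]
  have hn : ∀ z : v.adicCompletion k, Valued.v z < 1 → z ∈ (v.adicCompletionIntegers k).nonunits := by
    intro z hz
    rw [ValuationSubring.mem_nonunits_iff_or, HeightOneSpectrum.mem_adicCompletionIntegers, map_inv₀]
    rcases eq_or_ne z 0 with h0 | h0
    · exact Or.inl h0
    · right
      have h1 : Valued.v z ≠ 0 := by
        rw [Ne, map_eq_zero]
        exact h0
      rw [inv_le_one₀ (zero_lt_iff.2 h1), not_le]
      exact hz
  exact hn _ hy

theorem unif_dec {π : k} (hπ : v.valuation k π = exp (-1 : ℤ)) :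
    IsUnif (resF (VV j) (decField j)) (algebraMap k (decField j) π) := by
  have h1 : Valued.v (loc j (algebraMap k (decField j) π)) = exp (-1 : ℤ) := (dh_loc_map j π).trans hπ
  have h0 : algebraMap k (decField j) π ≠ 0 := by
    intro h
    rw [h, map_zero, map_zero] at h1
    exact exp_ne_zero h1.symm
  have h2 : (exp (-1 : ℤ) : ℤᵐ⁰) < 1 := by
    simp [← exp_zero, -exp_neg]
  refine ⟨h0, ?_, ?_⟩
  · rw [dh_non, h1]
    exact h2
  · intro x hx
    rw [dh_non] at hx
    rw [dh_val, map_div₀, map_div₀, h1]
    rcases eq_or_ne (Valued.v (loc j x)) 0 with h3 | h3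
    · rw [h3, zero_div]
      exact zero_le_one
    · rw [div_le_one₀ (zero_lt_iff.2 exp_ne_zero)]
      obtain ⟨n, hn⟩ : ∃ n : ℤ, Valued.v (loc j x) = exp n := ⟨log (Valued.v (loc j x)), (exp_log h3).symm⟩
      rw [hn] at hx ⊢
      rw [← exp_zero, exp_lt_exp] at hx
      rw [exp_le_exp]
      omega

theorem dense_dec (x c : decField j) (hc : c ≠ 0) :
    ∃ y : k, (x - algebraMap k (decField j) y) / c ∈ resF (VV j) (decField j) := by
  have hc' : loc j c ≠ 0 := by
    rw [Ne, map_eq_zero_iff _ (dh_inj j)]
    exact hc
  obtain ⟨y, hy⟩ := dh_dense (v := v) (loc j x) (loc j c) hc'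
  refine ⟨y, ?_⟩
  rw [dh_val, map_div₀, map_div₀, map_sub, (loc j).commutes, Valuation.map_sub_swap]
  have h1 : Valued.v (loc j c) ≠ 0 := by
    rw [Ne, map_eq_zero]
    exact hc'
  rw [div_le_one₀ (zero_lt_iff.2 h1)]
  exact hy.le

end Pool.Agent.Helper60.SL
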