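import Mathlib
import Pool.Agent.Helper60.SL.Ext
import Pool.Agent.Helper60.SL.ExtBasic

/-!
# SL-05: finite extensions are again henselian discretely valued with finite residue field

PROOF.  Discrete valuation ring: `dvr_fin` (`ext hA E` and `integralClosure A E` have the same elements).
Henselian: let `g` be a monic polynomial over `B = ext hA E`, `a ∈ B`, `g(a)` in the maximal ideal, `g'(a)` a unit.  Let `E''` be a finite extension of `E` in which `g` splits, Galois over `E` (for instance
`g.SplittingField` over `E`, characteristic `0`), and `B'' = ext hA E''`.  The roots `γ_i ∈ E''` of `g` are integral over `B`, so over `A`, so in `B''`.  `g(a) = ∏ (a - γ_i)` is in the maximal ideal, so some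
`a - γ_i` is a nonunit, and `g'(a)` is a unit, so exactly one is (with multiplicity: a second factor would divide every term of `g'(a)` modulo the maximal ideal).  For `σ ∈ Gal(E''/E)`: `σ γ_i` is a root of `g` and `a - σ γ_i = σ (a - γ_i)` is a nonunit (`ext_nonunits_hom`),
so `σ γ_i = γ_i`.  Hence `γ_i ∈ E`, `γ_i ∈ B`.
Finite residue field: `integralClosure A E` is a finite `A`-module (`IsIntegralClosure.finite`), so `B / m_A B` is finite (a finite module over the finite ring `A / m_A`) and `B / m_B` is a quotient of it.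
-/

set_option autoImplicit false

namespace Pool.Agent.Helper60.SL

variable {F : Type*} [Field F] [CharZero F] {A : ValuationSubring F} (hA : HDVR A)

open Polynomial in
/-- Two different roots which are congruent to `α` give a derivative in the maximal ideal. -/
private theorem extHDVR_two {S : Type*} [CommRing S] [IsDomain S] [IsLocalRing S] (G : S[X])
    (α c d : S) (hc : G.IsRoot c) (hd : G.IsRoot d) (hcd : c ≠ d)
    (h1 : α - c ∈ IsLocalRing.maximalIdeal S) (h2 : α - d ∈ IsLocalRing.maximalIdeal S) :
    G.derivative.eval α ∈ IsLocalRing.maximalIdeal S := by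
  obtain ⟨k, hk⟩ := dvd_iff_isRoot.2 hc
  have h3 : k.IsRoot d := by
    have h4 : (d - c) * k.eval d = 0 := by
      have h5 := hd
      rw [IsRoot, hk, eval_mul, eval_sub, eval_X, eval_C] at h5
      exact h5
    rcases mul_eq_zero.1 h4 with h5 | h5
    · exact absurd (sub_eq_zero.1 h5).symm hcd
    · exact h5
  obtain ⟨h, hh⟩ := dvd_iff_isRoot.2 h3
  have h6 : G.derivative.eval α = (α - c) * (h.eval α + (α - d) * h.derivative.eval α) +
      (α - d) * h.eval α := by
    rw [hk, hh]
    simp only [derivative_mul, derivative_sub, derivative_X, derivative_C, sub_zero, one_mul,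
      eval_add, eval_mul, eval_sub, eval_X, eval_C]
    ring
  rw [h6]
  exact Ideal.add_mem _ (Ideal.mul_mem_right _ _ h1) (Ideal.mul_mem_right _ _ h2)

open Polynomial in
private theorem extHDVR_root' (E : Type*) [Field E] [Algebra F E] [FiniteDimensional F E]
    (K : Type*) [Field K] [Algebra F K] [Algebra E K] [IsScalarTower F E K]
    [FiniteDimensional F K] [FiniteDimensional E K] [IsGalois E K]
    (g : (ext hA E)[X]) (hg : g.Monic) (a : ext hA E) (p : E[X])
    (hp : p = g.map (ext hA E).subtype) (hpm : p.Monic) (hsp : (p.map (algebraMap E K)).Splits)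
    (h0 : g.eval a ∈ IsLocalRing.maximalIdeal (ext hA E)) (h1 : IsUnit (g.derivative.eval a)) :
    ∃ b : ext hA E, g.IsRoot b ∧ b - a ∈ IsLocalRing.maximalIdeal (ext hA E) := by
  classical
  let ι : E →ₐ[F] K := IsScalarTower.toAlgHom F E K
  have hι : ∀ x : E, ι x = algebraMap E K x := fun _ => rfl
  let φ : ext hA E →+* ext hA K := (ι : E →+* K).restrict (ext hA E) (ext hA K)
    fun x hx => (ext_hom hA ι x).2 hx
  have hφ : ∀ x : ext hA E, ((φ x : ext hA K) : K) = algebraMap E K x := fun _ => rfl
  have hpm' : (p.map (algebraMap E K)).Monic := hpm.map _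
  -- evaluation
  have hev : ∀ x : K, (p.map (algebraMap E K)).eval x =
      (g.map φ).eval₂ (algebraMap (ext hA K) K) x := by
    intro x
    rw [hp, Polynomial.map_map, eval_map, eval₂_map]
    rfl
  have hev' : ∀ x : ext hA K, (p.map (algebraMap E K)).eval (x : K) =
      (((g.map φ).eval x : ext hA K) : K) := by
    intro x
    rw [hev]
    exact eval₂_at_apply (algebraMap (ext hA K) K) x
  have hGa : (g.map φ).eval (φ a) = φ (g.eval a) := by
    rw [eval_map, eval₂_at_apply]
  have hGa' : (g.map φ).derivative.eval (φ a) = φ (g.derivative.eval a) := by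
    rw [derivative_map, eval_map, eval₂_at_apply]
  have hmax : ∀ x : ext hA E, φ x ∈ IsLocalRing.maximalIdeal (ext hA K) ↔
      x ∈ IsLocalRing.maximalIdeal (ext hA E) := by
    intro x
    rw [← ValuationSubring.coe_mem_nonunits_iff, ← ValuationSubring.coe_mem_nonunits_iff]
    exact ext_nonunits_hom hA ι x
  -- the roots are integral
  have hint : ∀ γ ∈ (p.map (algebraMap E K)).roots, ∃ c : ext hA K, (c : K) = γ ∧
      (g.map φ).IsRoot c := by
    intro γ hγ
    have h2 : (p.map (algebraMap E K)).eval γ = 0 := (mem_roots'.1 hγ).2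
    have h3 : IsIntegral (ext hA K) γ := ⟨g.map φ, hg.map φ, by rw [← hev]; exact h2⟩
    obtain ⟨c, hc⟩ := IsIntegrallyClosed.algebraMap_eq_of_integral h3
    have hc' : (c : K) = γ := hc
    refine ⟨c, hc', ?_⟩
    have h4 := hev' c
    rw [hc', h2] at h4
    exact Subtype.ext h4.symm
  -- one root is congruent to `a`
  have hex : ∃ γ ∈ (p.map (algebraMap E K)).roots,
      (algebraMap E K a - γ) ∈ (ext hA K).nonunits := by
    by_contra hno
    push Not at hno
    have h2 : (ext hA K).valuation ((p.map (algebraMap E K)).eval (algebraMap E K a)) < 1 := by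
      have h3 := hev' (φ a)
      rw [hGa, hφ] at h3
      rw [h3, ← ValuationSubring.mem_nonunits_iff, ValuationSubring.coe_mem_nonunits_iff, hmax]
      exact h0
    rw [hsp.eval_eq_prod_roots_of_monic hpm', map_multiset_prod] at h2
    refine absurd h2 (not_lt.2 ?_)
    refine Multiset.one_le_prod fun x hx => ?_
    rw [Multiset.map_map] at hx
    obtain ⟨γ, hγ, rfl⟩ := Multiset.mem_map.1 hx
    have h3 := hno γ hγ
    rw [ValuationSubring.mem_nonunits_iff] at h3
    exact not_lt.1 h3
  obtain ⟨γ, hγ, hγa⟩ := hex
  obtain ⟨c, hcγ, hcroot⟩ := hint γ hγ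
  -- it is fixed by the Galois group
  have hfix : ∀ σ : Gal(K/E), σ γ = γ := by
    intro σ
    by_contra hne
    have hσroot : σ γ ∈ (p.map (algebraMap E K)).roots := by
      rw [mem_roots hpm'.ne_zero, IsRoot, eval_map] at hγ ⊢
      have h2 := hom_eval₂ p (algebraMap E K) (σ : K →+* K) γ
      rw [hγ, map_zero] at h2
      have h3 : (σ : K →+* K).comp (algebraMap E K) = algebraMap E K := by
        ext x
        exact σ.commutes x
      rw [h3] at h2
      exact h2.symm
    obtain ⟨d, hdγ, hdroot⟩ := hint _ hσroot
    have hσa : (algebraMap E K a - σ γ) ∈ (ext hA K).nonunits := by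
      have h2 := (ext_nonunits_hom hA ((σ.restrictScalars F : K ≃ₐ[F] K) : K →ₐ[F] K)
        (algebraMap E K a - γ)).2 hγa
      have h3 : ((σ.restrictScalars F : K ≃ₐ[F] K) : K →ₐ[F] K) (algebraMap E K a - γ) =
          algebraMap E K a - σ γ := by
        show σ (algebraMap E K a - γ) = _
        rw [map_sub, AlgEquiv.commutes]
      rwa [h3] at h2
    have h4 : φ a - c ∈ IsLocalRing.maximalIdeal (ext hA K) := by
      rw [← ValuationSubring.coe_mem_nonunits_iff]
      show ((φ a : ext hA K) : K) - (c : K) ∈ _
      rw [hφ, hcγ]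
      exact hγa
    have h5 : φ a - d ∈ IsLocalRing.maximalIdeal (ext hA K) := by
      rw [← ValuationSubring.coe_mem_nonunits_iff]
      show ((φ a : ext hA K) : K) - (d : K) ∈ _
      rw [hφ, hdγ]
      exact hσa
    have h6 := extHDVR_two (g.map φ) (φ a) c d hcroot hdroot (by
      intro h
      apply hne
      rw [← hdγ, ← h, hcγ]) h4 h5
    rw [hGa', hmax] at h6
    exact (IsLocalRing.mem_maximalIdeal _).1 h6 h1
  obtain ⟨γ₀, hγ₀⟩ := (IsGalois.mem_range_algebraMap_iff_fixed γ).2 hfix
  have hmem : γ₀ ∈ ext hA E := by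
    rw [← ext_hom hA ι, hι, hγ₀, ← hcγ]
    exact c.2
  refine ⟨⟨γ₀, hmem⟩, ?_, ?_⟩
  · have h2 : φ (g.eval ⟨γ₀, hmem⟩) = 0 := by
      have h3 : (g.map φ).eval (φ ⟨γ₀, hmem⟩) = φ (g.eval ⟨γ₀, hmem⟩) := by
        rw [eval_map, eval₂_at_apply]
      rw [← h3]
      have h4 : φ ⟨γ₀, hmem⟩ = c := Subtype.ext (by rw [hφ, hcγ]; exact hγ₀)
      rw [h4]
      exact hcroot
    have hinj : Function.Injective φ := by
      intro x y hxy
      have h3 : algebraMap E K x = algebraMap E K y := by
        rw [← hφ, ← hφ, hxy]
      exact Subtype.ext ((algebraMap E K).injective h3)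
    exact hinj (by rw [h2, map_zero])
  · rw [← hmax, ← neg_mem_iff, ← map_neg, neg_sub, ← ValuationSubring.coe_mem_nonunits_iff]
    show algebraMap E K ((a : E) - γ₀) ∈ _
    rw [map_sub, hγ₀]
    exact hγa

open Polynomial in
private theorem extHDVR_root (E : Type*) [Field E] [Algebra F E] [FiniteDimensional F E]
    (g : (ext hA E)[X]) (hg : g.Monic) (a : ext hA E)
    (h0 : g.eval a ∈ IsLocalRing.maximalIdeal (ext hA E)) (h1 : IsUnit (g.derivative.eval a)) :
    ∃ b : ext hA E, g.IsRoot b ∧ b - a ∈ IsLocalRing.maximalIdeal (ext hA E) := by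
  obtain ⟨p, hp⟩ : ∃ p : E[X], p = g.map (ext hA E).subtype := ⟨_, rfl⟩
  have hpm : p.Monic := by
    rw [hp]
    exact hg.map _
  have hfin : FiniteDimensional F p.SplittingField := Module.Finite.trans E p.SplittingField
  have hcz : CharZero E := charZero_of_injective_algebraMap (algebraMap F E).injective
  have hgal : IsGalois E p.SplittingField := ⟨⟩
  exact extHDVR_root' hA E p.SplittingField g hg a p hp hpm (SplittingField.splits p) h0 h1

/-- `ext` and the integral closure are the same ring. -/
private noncomputable def extHDVR_equiv (E : Type*) [Field E] [Algebra F E]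
    [FiniteDimensional F E] : integralClosure A E ≃+* ext hA E where
  toFun x := ⟨x, x.2⟩
  invFun x := ⟨x, x.2⟩
  left_inv _ := rfl
  right_inv _ := rfl
  map_mul' _ _ := rfl
  map_add' _ _ := rfl

theorem ext_hdvr (E : Type*) [Field E] [Algebra F E] [FiniteDimensional F E] :
    HDVR (ext hA E) := by
  have := hA.dvr
  have := hA.hens
  have := hA.fin
  have h1 : IsDiscreteValuationRing (integralClosure A E) := dvr_fin hA
  refine ⟨?_, ?_, ?_⟩
  · exact IsDiscreteValuationRing.RingEquivClass.isDiscreteValuationRing (extHDVR_equiv hA E)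
  · exact { is_henselian := fun g hg a h0 h1 => extHDVR_root hA E g hg a h0 h1 }
  · have h2 : Module.Finite A (integralClosure A E) := IsIntegralClosure.finite A F E _
    have h3 : IsLocalHom (algebraMap A (integralClosure A E)) := by
      refine RingHom.IsIntegral.isLocalHom ?_ ?_
      · rw [algebraMap_isIntegral_iff]
        infer_instance
      · intro a b hab
        have h4 : algebraMap F E (a : F) = algebraMap F E (b : F) := congrArg (Subtype.val) hab
        exact Subtype.ext ((algebraMap F E).injective h4)
    have h4 : Finite (IsLocalRing.ResidueField (integralClosure A E)) :=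
      IsLocalRing.ResidueField.finite_of_finite (R := A) hA.fin
    exact Finite.of_equiv _ (IsLocalRing.ResidueField.mapEquiv (extHDVR_equiv hA E)).toEquiv

end Pool.Agent.Helper60.SL
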