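import Mathlib
import Pool.Agent.Helper60.SL.Ext
import Pool.Agent.Helper60.SL.ExtBasic
import Pool.Agent.Helper60.SL.ExtHDVR

/-!
# SL-06: uniqueness and transitivity

PROOF.  `ext_unique`: a valuation ring `V` of `E` is integrally closed in `E` and contains the image of `A`, so `ext hA E ≤ V`.  Let `x ∈ V`, `x ∉ ext hA E`.  Then `y = x⁻¹` is a nonunit of `ext hA E`; it lies in the finite
extension `E' = F(x)`, `ext hA E'` is a discrete valuation ring (`ext_hdvr`) and a uniformizer `π` of `A` is a nonzero nonunit of it, so `y^k = π z` with `k > 0`, `z ∈ ext hA E'` (`y` is a nonunit: the powers of `y` generate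
smaller and smaller ideals).  Then `π⁻¹ = x^k z ∈ V`, so `π⁻¹ ∈ A` by the hypothesis, a contradiction.
`ext_tower`: an element of `E'` is integral over `ext hA E` iff it is integral over `A` (`isIntegral_trans`, `ext hA E` is integral over `A`).
-/

set_option autoImplicit false

namespace Pool.Agent.Helper60.SL

private theorem extUnique_dvr {R : Type*} [CommRing R] [IsDomain R] [IsDiscreteValuationRing R]
    {a b : R} (ha : ¬ IsUnit a) (hb : b ≠ 0) : ∃ k : ℕ, b ∣ a ^ k := by
  obtain ⟨ϖ, hϖ⟩ := IsDiscreteValuationRing.exists_irreducible R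
  obtain ⟨e, he⟩ := IsDiscreteValuationRing.associated_pow_irreducible hb hϖ
  refine ⟨e, he.dvd.trans (pow_dvd_pow_of_dvd ?_ e)⟩
  have h1 : a ∈ IsLocalRing.maximalIdeal R := (IsLocalRing.mem_maximalIdeal a).mpr ha
  rw [hϖ.maximalIdeal_eq] at h1
  exact Ideal.mem_span_singleton.mp h1

variable {F : Type*} [Field F] [CharZero F] {A : ValuationSubring F} (hA : HDVR A)

theorem ext_unique {E : Type*} [Field E] [Algebra F E] [Algebra.IsAlgebraic F E]
    (V : ValuationSubring E) (hV : ∀ x : F, algebraMap F E x ∈ V ↔ x ∈ A) : V = ext hA E := by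
  have hle : ∀ x : E, IsIntegral A x → x ∈ V := by
    intro x hx
    obtain ⟨p, hp, hpx⟩ := hx
    let φ : A →+* V :=
      { toFun := fun z => ⟨algebraMap F E z, (hV z).2 z.2⟩
        map_one' := by ext; simp
        map_mul' := fun a b => by ext; simp
        map_zero' := by ext; simp
        map_add' := fun a b => by ext; simp }
    have hx' : IsIntegral V x := by
      refine ⟨p.map φ, hp.map φ, ?_⟩
      rw [Polynomial.eval₂_map]
      exact hpx
    obtain ⟨z, hz⟩ := (IsIntegrallyClosed.isIntegral_iff (R := V) (K := E)).mp hx'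
    rw [← hz]
    exact z.2
  ext x
  constructor
  · intro hx
    by_contra hne
    have hx0 : x ≠ 0 := by
      rintro rfl
      exact hne (ext hA E).zero_mem
    obtain ⟨π, hπ⟩ := @IsDiscreteValuationRing.exists_irreducible A _ _ hA.dvr
    have hxi : IsIntegral F x := Algebra.IsIntegral.isIntegral x
    have : FiniteDimensional F (IntermediateField.adjoin F {x}) :=
      IntermediateField.adjoin.finiteDimensional hxi
    have hB := ext_hdvr hA (IntermediateField.adjoin F {x})
    have := hB.dvr
    let x' : IntermediateField.adjoin F {x} := ⟨x, IntermediateField.mem_adjoin_simple_self F x⟩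
    have hx'0 : x' ≠ 0 := fun h => hx0 (congrArg Subtype.val h)
    have hval : ∀ z : IntermediateField.adjoin F {x},
        (z : E) ∈ ext hA E ↔ z ∈ ext hA (IntermediateField.adjoin F {x}) :=
      fun z => ext_hom hA (IntermediateField.adjoin F {x}).val z
    have hx'n : x' ∉ ext hA (IntermediateField.adjoin F {x}) := fun h => hne ((hval x').2 h)
    have hy : x'⁻¹ ∈ ext hA (IntermediateField.adjoin F {x}) :=
      ((ext hA (IntermediateField.adjoin F {x})).mem_or_inv_mem x').resolve_left hx'n
    have hπm : algebraMap F (IntermediateField.adjoin F {x}) π ∈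
        ext hA (IntermediateField.adjoin F {x}) := (ext_map hA _).2 π.2
    have hnu : ¬ IsUnit (⟨x'⁻¹, hy⟩ : ext hA (IntermediateField.adjoin F {x})) := by
      intro h
      obtain ⟨w, hw⟩ := h.exists_right_inv
      have h1 : x'⁻¹ * (w : IntermediateField.adjoin F {x}) = 1 := congrArg Subtype.val hw
      have h2 : (w : IntermediateField.adjoin F {x}) = x' := by
        field_simp at h1
        exact h1
      exact hx'n (h2 ▸ w.2)
    have hπ0 : (⟨algebraMap F (IntermediateField.adjoin F {x}) π, hπm⟩ :
        ext hA (IntermediateField.adjoin F {x})) ≠ 0 := by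
      intro h
      have h1 : algebraMap F (IntermediateField.adjoin F {x}) π = 0 := congrArg Subtype.val h
      rw [map_eq_zero] at h1
      exact hπ.ne_zero (Subtype.ext h1)
    obtain ⟨k, z, hz⟩ := extUnique_dvr hnu hπ0
    have hz1 : x'⁻¹ ^ k = algebraMap F (IntermediateField.adjoin F {x}) π * z :=
      congrArg Subtype.val hz
    have hz2 : x⁻¹ ^ k = algebraMap F E π * ((z : IntermediateField.adjoin F {x}) : E) :=
      congrArg Subtype.val hz1
    have hπE : algebraMap F E (π : F) ≠ 0 := by
      rw [Ne, map_eq_zero]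
      exact fun h => hπ.ne_zero (Subtype.ext h)
    have hinv : algebraMap F E ((π : F)⁻¹) = x ^ k * ((z : IntermediateField.adjoin F {x}) : E) := by
      rw [map_inv₀]
      apply inv_eq_of_mul_eq_one_right
      rw [mul_left_comm, ← hz2, ← mul_pow, mul_inv_cancel₀ hx0, one_pow]
    have hzV : ((z : IntermediateField.adjoin F {x}) : E) ∈ V := hle _ ((hval z).2 z.2)
    have hfin : algebraMap F E ((π : F)⁻¹) ∈ V := by
      rw [hinv]
      exact V.mul_mem _ _ (pow_mem hx k) hzV
    have hπi : (π : F)⁻¹ ∈ A := (hV _).1 hfin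
    apply hπ.not_isUnit
    refine IsUnit.of_mul_eq_one (⟨(π : F)⁻¹, hπi⟩ : A) ?_
    apply Subtype.ext
    show (π : F) * (π : F)⁻¹ = 1
    exact mul_inv_cancel₀ (fun h => hπ.ne_zero (Subtype.ext h))
  · intro hx
    exact hle x hx

theorem ext_tower (E : Type*) [Field E] [Algebra F E] [FiniteDimensional F E]
    {E' : Type*} [Field E'] [Algebra F E'] [Algebra E E'] [IsScalarTower F E E']
    [Algebra.IsAlgebraic F E'] [Algebra.IsAlgebraic E E'] (x : E') :
    haveI : CharZero E := charZero_of_injective_algebraMap (algebraMap F E).injective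
    x ∈ ext (ext_hdvr hA E) E' ↔ x ∈ ext hA E' := by
  haveI : CharZero E := charZero_of_injective_algebraMap (algebraMap F E).injective
  have h := ext_unique hA (ext (ext_hdvr hA E) E') (fun z => by
    rw [IsScalarTower.algebraMap_apply F E E' z, ext_map (ext_hdvr hA E), ext_map hA])
  show x ∈ ext (ext_hdvr hA E) E' ↔ x ∈ ext hA E'
  rw [h]

end Pool.Agent.Helper60.SL
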