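import Mathlib
import Pool.Agent.Helper60.SL.Ext
import Pool.Agent.Helper60.SL.ExtBasic
import Pool.Agent.Helper60.SL.ExtHDVR

/-!
# SL-10: the size of the residue field of a finite extension

`q = Nat.card (ResidueField A)`, `n = finrank F E`, `B = integralClosure A E` (the same elements as `ext hA E`).

PROOF.  `B` is a finite torsion free module over the principal ideal domain `A`, so it is free, of rank `n` (`IsIntegralClosure.rank`, `IsIntegralClosure.module_free`), so for a uniformizer `π` of `A`
the ring `B / π B` is isomorphic to `(A / π A)^n` as an `A`-module and has `q^n` elements.  The residue field of the local ring `ext hA E` is a quotient of it (`π` is a nonunit, `ext_nonunits_map`): `card_residue_le`.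
If it has `q^n` elements then the kernel `m_B / π B` is trivial, i.e. every nonunit of `ext hA E` is `π` times an element: `unif_of_card`.
`card_residue_pow`: the residue field is a finite extension of `ResidueField A` (the map induced by `A → ext hA E`), so its cardinality is a power of `q`.
-/

set_option autoImplicit false

open IsLocalRing

namespace Pool.Agent.Helper60.SL

variable {F : Type*} [Field F] [CharZero F] {A : ValuationSubring F} (hA : HDVR A)

/-- `ext` and the integral closure are the same ring. -/
private noncomputable def resid_equiv (E : Type*) [Field E] [Algebra F E]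
    [FiniteDimensional F E] : integralClosure A E ≃+* ext hA E where
  toFun x := ⟨x, x.2⟩
  invFun x := ⟨x, x.2⟩
  left_inv _ := rfl
  right_inv _ := rfl
  map_mul' _ _ := rfl
  map_add' _ _ := rfl

omit [CharZero F] in
private theorem resid_local (E : Type*) [Field E] [Algebra F E] [FiniteDimensional F E] :
    IsLocalHom (algebraMap A (integralClosure A E)) := by
  refine RingHom.IsIntegral.isLocalHom ?_ ?_
  · rw [algebraMap_isIntegral_iff]
    infer_instance
  · intro a b hab
    have h4 : algebraMap F E (a : F) = algebraMap F E (b : F) := congrArg (Subtype.val) hab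
    exact Subtype.ext ((algebraMap F E).injective h4)

omit [CharZero F] in
private theorem resid_le (E : Type*) [Field E] [Algebra F E] [FiniteDimensional F E]
    [IsLocalRing (integralClosure A E)] :
    Ideal.map (algebraMap A (integralClosure A E)) (maximalIdeal A) ≤
      maximalIdeal (integralClosure A E) :=
  ((local_hom_TFAE (algebraMap A (integralClosure A E))).out 0 2).1 (resid_local E)

section
include hA

private theorem resid_fin (E : Type*) [Field E] [Algebra F E] [FiniteDimensional F E] :
    Module.Finite A (integralClosure A E) := by
  have := hA.dvr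
  exact IsIntegralClosure.finite A F E _

attribute [local instance] Ideal.Quotient.field in
private theorem resid_card (E : Type*) [Field E] [Algebra F E] [FiniteDimensional F E]
    [IsLocalRing (integralClosure A E)] :
    Nat.card (integralClosure A E ⧸ Ideal.map (algebraMap A (integralClosure A E))
      (maximalIdeal A)) = Nat.card (ResidueField A) ^ Module.finrank F E := by
  have := hA.dvr
  have htf : Module.IsTorsionFree A E := by
    rw [Module.isTorsionFree_iff_algebraMap_injective]
    intro a b hab
    have h4 : algebraMap F E (a : F) = algebraMap F E (b : F) := hab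
    exact Subtype.ext ((algebraMap F E).injective h4)
  have h1 := resid_fin hA E
  have h2 : Module.Free A (integralClosure A E) := IsIntegralClosure.module_free A F E _
  have h3 : Module.finrank A (integralClosure A E) = Module.finrank F E :=
    IsIntegralClosure.rank A F E _
  have h4 : Module.Finite (A ⧸ maximalIdeal A) (integralClosure A E ⧸
      Ideal.map (algebraMap A (integralClosure A E)) (maximalIdeal A)) :=
    Module.Finite.of_restrictScalars_finite A _ _
  have h5 := Module.natCard_eq_pow_finrank (K := A ⧸ maximalIdeal A) (V := integralClosure A E ⧸
      Ideal.map (algebraMap A (integralClosure A E)) (maximalIdeal A))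
  rw [IsLocalRing.finrank_quotient_map, h3] at h5
  exact h5

private theorem resid_finite (E : Type*) [Field E] [Algebra F E] [FiniteDimensional F E]
    [IsLocalRing (integralClosure A E)] :
    Finite (integralClosure A E ⧸ Ideal.map (algebraMap A (integralClosure A E))
      (maximalIdeal A)) := by
  have := hA.fin
  refine Nat.finite_of_card_ne_zero ?_
  rw [resid_card hA E]
  exact pow_ne_zero _ Nat.card_pos.ne'

end

private theorem resid_card_eq (E : Type*) [Field E] [Algebra F E] [FiniteDimensional F E]
    [IsLocalRing (integralClosure A E)] :
    Nat.card (ResidueField (ext hA E)) =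
      Nat.card (integralClosure A E ⧸ maximalIdeal (integralClosure A E)) :=
  (Nat.card_congr (ResidueField.mapEquiv (resid_equiv hA E)).toEquiv).symm

theorem card_residue_le (E : Type*) [Field E] [Algebra F E] [FiniteDimensional F E] :
    Nat.card (ResidueField (ext hA E)) ≤ Nat.card (ResidueField A) ^ Module.finrank F E := by
  have : IsDiscreteValuationRing (integralClosure A E) := dvr_fin hA
  have := resid_finite hA E
  rw [resid_card_eq, ← resid_card hA E]
  exact Nat.card_le_card_of_surjective _ (Ideal.Quotient.factor_surjective (resid_le (A := A) E))

theorem unif_of_card (E : Type*) [Field E] [Algebra F E] [FiniteDimensional F E]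
    (h : Nat.card (ResidueField (ext hA E)) = Nat.card (ResidueField A) ^ Module.finrank F E)
    {π : F} (hπ : IsUnif A π) : IsUnif (ext hA E) (algebraMap F E π) := by
  have : IsDiscreteValuationRing (integralClosure A E) := dvr_fin hA
  have hfin := resid_finite hA E
  rw [resid_card_eq, ← resid_card hA E] at h
  have hinj : Function.Injective (Ideal.Quotient.factor (resid_le (A := A) E)) :=
    (Nat.bijective_iff_surjective_and_card _).2
      ⟨Ideal.Quotient.factor_surjective (resid_le (A := A) E), h.symm⟩ |>.1
  have hle : maximalIdeal (integralClosure A E) ≤
      Ideal.map (algebraMap A (integralClosure A E)) (maximalIdeal A) := by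
    intro x hx
    rw [← Ideal.Quotient.eq_zero_iff_mem]
    apply hinj
    rw [Ideal.Quotient.factor_mk, map_zero, Ideal.Quotient.eq_zero_iff_mem]
    exact hx
  have hπA : π ∈ A := A.nonunits_subset hπ.non
  have hmax : maximalIdeal A = Ideal.span {(⟨π, hπA⟩ : A)} := by
    apply le_antisymm
    · intro x hx
      rw [Ideal.mem_span_singleton']
      refine ⟨⟨x / π, hπ.gen x (ValuationSubring.coe_mem_nonunits_iff.2 hx)⟩, ?_⟩
      apply Subtype.ext
      show (x : F) / π * π = x
      rw [div_mul_cancel₀ _ hπ.ne]
    · rw [Ideal.span_le, Set.singleton_subset_iff]
      exact ValuationSubring.coe_mem_nonunits_iff.1 hπ.non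
  have hne : algebraMap F E π ≠ 0 := by
    rw [Ne, map_eq_zero]
    exact hπ.ne
  refine ⟨hne, (ext_nonunits_map hA π).2 hπ.non, fun x hx => ?_⟩
  have hxm : x ∈ ext hA E := (ext hA E).nonunits_subset hx
  have hxi : (⟨x, hxm⟩ : integralClosure A E) ∈ maximalIdeal (integralClosure A E) := by
    rw [mem_maximalIdeal]
    intro hu
    have h2 : IsUnit (⟨x, hxm⟩ : ext hA E) := hu.map (resid_equiv hA E)
    have h3 : (⟨x, hxm⟩ : ext hA E) ∈ maximalIdeal (ext hA E) :=
      ValuationSubring.coe_mem_nonunits_iff.1 hx
    exact (mem_maximalIdeal _).1 h3 h2
  have h4 := hle hxi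
  rw [hmax, Ideal.map_span, Set.image_singleton, Ideal.mem_span_singleton'] at h4
  obtain ⟨a, ha⟩ := h4
  have h5 : (a : E) * algebraMap F E π = x := congrArg Subtype.val ha
  rw [← h5, mul_div_cancel_right₀ _ hne]
  exact a.2

theorem card_residue_pow (E : Type*) [Field E] [Algebra F E] [FiniteDimensional F E] :
    ∃ f : ℕ, 0 < f ∧
      Nat.card (ResidueField (ext hA E)) = Nat.card (ResidueField A) ^ f := by
  have : IsDiscreteValuationRing (integralClosure A E) := dvr_fin hA
  have := resid_local (A := A) E
  have := resid_fin hA E
  have h1 := Module.natCard_eq_pow_finrank (K := ResidueField A)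
    (V := ResidueField (integralClosure A E))
  rw [resid_card_eq]
  exact ⟨_, Module.finrank_pos, h1⟩

end Pool.Agent.Helper60.SL
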