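import Mathlib
import Pool.Agent.Helper60.SL.DecHDVR
import Pool.Agent.Helper60.SL.ExtUnique
import Pool.Agent.Helper60.SL.Resid

/-!
# SL-38: finite extensions of `decField j`

`F₀ = decField j`, `A₀ = resF (VV j) F₀`, `h₀ = hdvr_dec j`.

PROOF.  `ext_dec`: `VV j` is a valuation ring of `W` which restricts to `A₀` on `F₀`, so it is `ext h₀ W` (`ext_unique`).  `F` is, as an extension of `F₀`, the intermediate field `extendScalars hF` of `W / F₀`, finite over `F₀`, with the same elements; `ext h₀ (extendScalars hF)` consists of the elements
integral over `A₀`, i.e. of the elements of `F ∩ VV j` (`ext_hom` for the inclusion into `W`, `ext_dec`), so it corresponds to `resF (VV j) F` under the identification of `F` with `extendScalars hF` and it is `HDVR` by `ext_hdvr`: `hdvr_F`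
(transport along the ring isomorphism).  `ext_F`: `ext_unique` for `resF (VV j) F` and `V = VV j`.  `char_F`: `p` is a nonunit of `VV j` (`map_nonunits_VV`, `v.valuation k p < 1` as `p ∈ v.asIdeal`), so its class in the residue field is `0` and the characteristic is `p`.
`card_F`: `card_residue_pow` for `h₀` and `extendScalars hF`, and `card_dec`.  `two_le_card`: a finite field has at least two elements.
-/

set_option autoImplicit false

open IsDedekindDomain NumberField IsLocalRing Pool.Agent.SB IntermediateField

namespace Pool.Agent.Helper60.SL

variable {k : Type} [Field k] [NumberField k] {W : Type} [Field W] [Algebra k W]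
  [IsAlgClosed W] [Algebra.IsAlgebraic k W]
variable {v : HeightOneSpectrum (𝓞 k)} (j : W →ₐ[k] AlgebraicClosure (v.adicCompletion k))

private theorem finF_dec :
    haveI : CharZero (decField j) :=
      charZero_of_injective_algebraMap (algebraMap k (decField j)).injective
    haveI : Algebra.IsAlgebraic (decField j) W := Algebra.IsAlgebraic.tower_top (K := k) (decField j)
    ext (hdvr_dec j) W = VV j := by
  have : CharZero (decField j) :=
    charZero_of_injective_algebraMap (algebraMap k (decField j)).injective
  have : Algebra.IsAlgebraic (decField j) W := Algebra.IsAlgebraic.tower_top (K := k) (decField j)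
  exact (ext_unique (hdvr_dec j) (VV j) (fun x => Iff.rfl)).symm

private theorem finF_eq {F : IntermediateField k W} (hF : decField j ≤ F)
    (hfin : FiniteDimensional (decField j) (extendScalars hF)) :
    haveI : CharZero (decField j) :=
      charZero_of_injective_algebraMap (algebraMap k (decField j)).injective
    ext (hdvr_dec j) (extendScalars hF) =
      (VV j).comap (algebraMap (extendScalars hF) W) := by
  have : CharZero (decField j) :=
    charZero_of_injective_algebraMap (algebraMap k (decField j)).injective
  have : Algebra.IsAlgebraic (decField j) W := Algebra.IsAlgebraic.tower_top (K := k) (decField j)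
  have h0 := finF_dec j
  ext x
  rw [← ext_hom (hdvr_dec j) (extendScalars hF).val x, h0]
  exact Iff.rfl

theorem hdvr_F {F : IntermediateField k W} (hF : decField j ≤ F)
    (hfin : FiniteDimensional (decField j) (extendScalars hF)) : HDVR (resF (VV j) F) := by
  have : CharZero (decField j) :=
    charZero_of_injective_algebraMap (algebraMap k (decField j)).injective
  have h1 := ext_hdvr (hdvr_dec j) (extendScalars hF)
  rw [finF_eq j hF hfin] at h1
  exact h1

theorem ext_F {F : IntermediateField k W} (hF : decField j ≤ F)
    (hfin : FiniteDimensional (decField j) (extendScalars hF)) :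
    haveI : CharZero F := charZero_of_injective_algebraMap (algebraMap k F).injective
    haveI : Algebra.IsAlgebraic F W := Algebra.IsAlgebraic.tower_top (K := k) F
    ext (hdvr_F j hF hfin) W = VV j := by
  haveI : CharZero F := charZero_of_injective_algebraMap (algebraMap k F).injective
  haveI : Algebra.IsAlgebraic F W := Algebra.IsAlgebraic.tower_top (K := k) F
  exact (ext_unique (hdvr_F j hF hfin) (VV j) (fun x => Iff.rfl)).symm

omit [IsAlgClosed W] [Algebra.IsAlgebraic k W] in
theorem char_F (F : IntermediateField k W) {p : ℕ} (hp : p.Prime)
    (hpv : (p : 𝓞 k) ∈ v.asIdeal) : CharP (ResidueField (resF (VV j) F)) p := by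
  have h1 : v.valuation k (p : k) < 1 := by
    have h2 := (v.valuation_lt_one_iff_mem (K := k) (p : 𝓞 k)).2 hpv
    exact_mod_cast h2
  have h3 := (map_nonunits_VV j (p : k)).2 h1
  rw [map_natCast] at h3
  have h4 : ((p : F) : W) = (p : W) := by
    exact map_natCast (algebraMap F W) p
  have h5 : (p : F) ∈ (resF (VV j) F).nonunits := by
    rw [ValuationSubring.mem_nonunits_iff_or] at h3 ⊢
    rcases h3 with h3 | h3
    · left
      have h6 : ((p : F) : W) = 0 := by rw [h4, h3]
      exact_mod_cast h6
    · right
      rw [mem_resF]
      have h6 : (((p : F)⁻¹ : F) : W) = (p : W)⁻¹ := by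
        rw [← h4]
        rfl
      rw [h6]
      exact h3
  have h7 : (p : resF (VV j) F) ∈ maximalIdeal (resF (VV j) F) := by
    rw [← ValuationSubring.coe_mem_nonunits_iff]
    have h8 : (((p : resF (VV j) F)) : F) = (p : F) := by
      exact map_natCast (resF (VV j) F).subtype p
    rw [h8]
    exact h5
  have h9 : (p : ResidueField (resF (VV j) F)) = 0 := by
    have h10 := (residue_eq_zero_iff (p : resF (VV j) F)).2 h7
    rwa [map_natCast] at h10
  exact (CharP.charP_iff_prime_eq_zero hp).2 h9

theorem card_F {F : IntermediateField k W} (hF : decField j ≤ F)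
    (hfin : FiniteDimensional (decField j) (extendScalars hF)) :
    ∃ f : ℕ, 0 < f ∧
      Nat.card (ResidueField (resF (VV j) F)) = Nat.card (𝓞 k ⧸ v.asIdeal) ^ f := by
  have : CharZero (decField j) :=
    charZero_of_injective_algebraMap (algebraMap k (decField j)).injective
  have h1 := card_residue_pow (hdvr_dec j) (extendScalars hF)
  rw [finF_eq j hF hfin, card_dec] at h1
  exact h1

theorem two_le_card {F : IntermediateField k W} (hF : decField j ≤ F)
    (hfin : FiniteDimensional (decField j) (extendScalars hF)) :
    2 ≤ Nat.card (ResidueField (resF (VV j) F)) := by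
  have h1 : Finite (ResidueField (resF (VV j) F)) := (hdvr_F j hF hfin).fin
  exact Finite.one_lt_card

end Pool.Agent.Helper60.SL
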