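import Mathlib

/-!
# Locally constant functions on a Galois group (definition)
-/

set_option autoImplicit false

namespace Pool.Agent.Helper60.SL

/-- a function on `Gal(Ω/F)` is locally constant: it depends only on the restriction to some
finite subextension -/
def LC {F Ω : Type*} [Field F] [Field Ω] [Algebra F Ω] {X : Type*} (f : (Ω ≃ₐ[F] Ω) → X) :
    Prop :=
  ∃ N : IntermediateField F Ω, FiniteDimensional F N ∧
    ∀ g g' : Ω ≃ₐ[F] Ω, (∀ x ∈ N, g x = g' x) → f g = f g'

end Pool.Agent.Helper60.SL
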