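import Mathlib
import Pool.Agent.Helper60.SL.LC

/-!
# SL-39: homomorphisms of `F.fixingSubgroup` and of `Gal(W/F)`

PROOF.  `toGal F : F.fixingSubgroup ≃* (W ≃ₐ[F] W)` is Mathlib's `IntermediateField.fixingSubgroupEquiv`.
`lc_iff_open`: (⇐) the kernel is open in `F.fixingSubgroup` (Krull topology), so it contains `N₀.fixingSubgroup ∩ F.fixingSubgroup` for some `N₀` finite over `k` (`krullTopology_mem_nhds_one_iff` or similar); `N = F(N₀)` (adjoin to `F` a finite set of generators of `N₀`) is finite over `F`, and if `g, g' ∈ Gal(W/F)` agree on `N`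
then `g⁻¹ g'` is the identity on `N`, so in the kernel.  (⇒) let `N` be finite over `F` as in the definition of `LC`, generated by `x_1, ..., x_r`; `N₀ = k(x_1, ..., x_r)` is finite over `k` (`W / k` is algebraic), an element of `F.fixingSubgroup` fixing `N₀` is the identity on `N = F(x_1, ..., x_r)`, so it is in the kernel;
the kernel contains an open subgroup, so it is open.
-/

set_option autoImplicit false

namespace Pool.Agent.Helper60.SL

variable {k W : Type*} [Field k] [Field W] [Algebra k W]

/-- a homomorphism of `F.fixingSubgroup` as a homomorphism of `Gal(W/F)` -/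
noncomputable def galHom (F : IntermediateField k W) {Q : Type*} [Group Q]
    (f : F.fixingSubgroup →* Q) : (W ≃ₐ[F] W) →* Q :=
  f.comp (IntermediateField.fixingSubgroupEquiv F).symm.toMonoidHom

/-- a homomorphism of `Gal(W/F)` as a homomorphism of `F.fixingSubgroup` -/
noncomputable def fixHom (F : IntermediateField k W) {Q : Type*} [Group Q]
    (f : (W ≃ₐ[F] W) →* Q) : F.fixingSubgroup →* Q :=
  f.comp (IntermediateField.fixingSubgroupEquiv F).toMonoidHom

theorem galHom_fixHom (F : IntermediateField k W) {Q : Type*} [Group Q]
    (f : (W ≃ₐ[F] W) →* Q) : galHom F (fixHom F f) = f := by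
  ext g
  change f (IntermediateField.fixingSubgroupEquiv F
    ((IntermediateField.fixingSubgroupEquiv F).symm g)) = f g
  rw [MulEquiv.apply_symm_apply]

theorem fixHom_galHom (F : IntermediateField k W) {Q : Type*} [Group Q]
    (f : F.fixingSubgroup →* Q) : fixHom F (galHom F f) = f := by
  ext g
  change f ((IntermediateField.fixingSubgroupEquiv F).symm
    (IntermediateField.fixingSubgroupEquiv F g)) = f g
  rw [MulEquiv.symm_apply_apply]

theorem lc_iff_open [Algebra.IsAlgebraic k W] (F : IntermediateField k W) {Q : Type*} [Group Q]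
    (f : F.fixingSubgroup →* Q) : LC (galHom F f) ↔ IsOpen (f.ker : Set F.fixingSubgroup) := by
  constructor
  · rintro ⟨N, hN, h⟩
    let b := Module.finBasis F N
    let S : Set W := Set.range fun i => (b i : W)
    have hS : Finite S := Set.finite_range _
    have hfin : FiniteDimensional k (IntermediateField.adjoin k S) :=
      IntermediateField.finiteDimensional_adjoin (K := k) (S := S) fun x _ =>
        Algebra.IsIntegral.isIntegral x
    refine Subgroup.isOpen_of_mem_nhds (g := 1) _ ?_
    have h1 : IsOpen ((Subtype.val : F.fixingSubgroup → (W ≃ₐ[k] W)) ⁻¹'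
        ((IntermediateField.adjoin k S).fixingSubgroup : Set (W ≃ₐ[k] W))) :=
      (IntermediateField.fixingSubgroup_isOpen _).preimage continuous_subtype_val
    refine Filter.mem_of_superset (h1.mem_nhds (Subgroup.one_mem _)) ?_
    intro g hg
    change f g = 1
    have h2 : galHom F f (IntermediateField.fixingSubgroupEquiv F g) = galHom F f 1 := by
      refine h _ _ fun x hx => ?_
      have h3 : ∀ i, (g : W ≃ₐ[k] W) (b i : W) = b i := fun i =>
        (IntermediateField.mem_fixingSubgroup_iff _ _).1 hg _
          (IntermediateField.subset_adjoin k S ⟨i, rfl⟩)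
      have h4 : ∀ a : F, (g : W ≃ₐ[k] W) (a : W) = a := fun a =>
        (IntermediateField.mem_fixingSubgroup_iff _ _).1 g.2 _ a.2
      change (g : W ≃ₐ[k] W) x = x
      have h5 : x = ∑ i, ((b.repr ⟨x, hx⟩ i : F) : W) * (b i : W) := by
        have h6 := congrArg (fun y : N => (y : W)) (b.sum_repr ⟨x, hx⟩)
        change _ = x at h6
        refine h6.symm.trans ?_
        change N.val (∑ i, b.repr ⟨x, hx⟩ i • b i) = _
        rw [map_sum]
        rfl
      rw [h5, map_sum]
      refine Finset.sum_congr rfl fun i _ => ?_
      rw [map_mul, h3, h4]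
    rw [map_one] at h2
    rw [← h2]
    change f g = f ((IntermediateField.fixingSubgroupEquiv F).symm
      (IntermediateField.fixingSubgroupEquiv F g))
    rw [MulEquiv.symm_apply_apply]
  · intro hopen
    obtain ⟨U, hU, hUf⟩ := isOpen_induced_iff.1 hopen
    have h1U : (1 : W ≃ₐ[k] W) ∈ U := by
      have : (1 : F.fixingSubgroup) ∈ Subtype.val ⁻¹' U := by
        rw [hUf]
        exact Subgroup.one_mem _
      exact this
    obtain ⟨E, hE, hEU⟩ := (krullTopology_mem_nhds_one_iff k W U).1 (hU.mem_nhds h1U)
    let b := Module.finBasis k E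
    let S : Set W := Set.range fun i => (b i : W)
    have hS : Finite S := Set.finite_range _
    refine ⟨IntermediateField.adjoin F S, IntermediateField.finiteDimensional_adjoin (K := F)
      (S := S) fun x _ => Algebra.IsIntegral.isIntegral x, fun g g' hgg => ?_⟩
    have h2 : ∀ x ∈ E, g x = g' x := by
      intro x hx
      have h3 : ∀ i, g (b i : W) = g' (b i : W) := fun i =>
        hgg _ (IntermediateField.subset_adjoin F S ⟨i, rfl⟩)
      have h5 : x = ∑ i, b.repr ⟨x, hx⟩ i • (b i : W) := by
        have h6 := congrArg (fun y : E => (y : W)) (b.sum_repr ⟨x, hx⟩)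
        change _ = x at h6
        refine h6.symm.trans ?_
        change E.val (∑ i, b.repr ⟨x, hx⟩ i • b i) = _
        rw [map_sum]
        rfl
      have h7 : ∀ (a : k) (y : W) (t : W ≃ₐ[F] W), t (a • y) = a • t y := fun a y t => by
        rw [Algebra.smul_def, map_mul, Algebra.smul_def]
        congr 1
        exact t.commutes (algebraMap k F a)
      rw [h5, map_sum, map_sum]
      refine Finset.sum_congr rfl fun i _ => ?_
      rw [h7, h7, h3]
    have h4 : ((IntermediateField.fixingSubgroupEquiv F).symm g)⁻¹ *
        (IntermediateField.fixingSubgroupEquiv F).symm g' ∈ f.ker := by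
      have h5 : ((IntermediateField.fixingSubgroupEquiv F).symm g)⁻¹ *
        (IntermediateField.fixingSubgroupEquiv F).symm g' ∈ Subtype.val ⁻¹' U := by
        apply hEU
        refine (IntermediateField.mem_fixingSubgroup_iff _ _).2 fun x hx => ?_
        have h6 : (((IntermediateField.fixingSubgroupEquiv F).symm g)⁻¹ *
          (IntermediateField.fixingSubgroupEquiv F).symm g' : F.fixingSubgroup) =
          (IntermediateField.fixingSubgroupEquiv F).symm (g⁻¹ * g') := by
          rw [map_mul, map_inv]
        rw [h6]
        change g⁻¹ (g' x) = x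
        rw [← h2 x hx]
        exact g.symm_apply_apply x
      rw [hUf] at h5
      exact h5
    have h5 := MonoidHom.mem_ker.1 h4
    rw [map_mul, map_inv, inv_mul_eq_one] at h5
    exact h5

end Pool.Agent.Helper60.SL
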