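import Mathlib
import Pool.Agent.Helper60.SL.Defs

/-!
# SL-07: uniformizers and units of a discrete valuation ring inside its fraction field

PROOF.  `A` is a discrete valuation ring: it has an irreducible element `ϖ` generating the maximal ideal (`IsDiscreteValuationRing.exists_irreducible`), `π = ϖ`.  `IsUnif A π` says that `π` generates the
maximal ideal, so it is irreducible and every nonzero element of the fraction field `F` is `π^k u` with `k ∈ ℤ` and `u` a unit (`IsDiscreteValuationRing.eq_unit_mul_pow_irreducible` for the elements of `A`; `x` or `x⁻¹` is in `A`).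
Uniqueness of `k`: `π^k` is a unit only for `k = 0`.  `IsUn A x` iff `x ∈ A` and `x⁻¹ ∈ A` and `x ≠ 0`.  The residue statements: `x ∈ A.nonunits` iff the class of `x` in the residue field is `0`
(`ValuationSubring.coe_mem_nonunits_iff`).
-/

set_option autoImplicit false

namespace Pool.Agent.Helper60.SL

variable {F : Type*} [Field F] {A : ValuationSubring F}

private theorem unif_val {x : F} : IsUn A x ↔ A.valuation x = 1 := by
  unfold IsUn
  rw [← A.valuation_le_one_iff, ValuationSubring.mem_nonunits_iff, not_lt]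
  exact ⟨fun h => le_antisymm h.1 h.2, fun h => ⟨h.le, h.ge⟩⟩

private theorem unif_zpow_lt {π : F} (hπ : IsUnif A π) {k : ℤ} (hk : 0 < k) : A.valuation (π ^ k) < 1 := by
  obtain ⟨n, rfl⟩ := Int.eq_ofNat_of_zero_le hk.le
  have hn : n ≠ 0 := by
    rintro rfl
    simp at hk
  rw [zpow_natCast, map_pow]
  exact pow_lt_one₀ zero_le (A.mem_nonunits_iff.1 hπ.non) hn

private theorem unif_irr (h : IsDiscreteValuationRing A) {π : F} (hπ : IsUnif A π) :
    ∃ ϖ : A, (ϖ : F) = π ∧ Irreducible ϖ := by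
  refine ⟨⟨π, ValuationSubring.nonunits_le hπ.non⟩, rfl, ?_⟩
  rw [IsDiscreteValuationRing.irreducible_iff_uniformizer]
  apply le_antisymm
  · intro x hx
    have h1 : (x : F) ∈ A.nonunits := ValuationSubring.coe_mem_nonunits_iff.2 hx
    have h2 := hπ.gen _ h1
    rw [Ideal.mem_span_singleton]
    refine ⟨⟨(x : F) / π, h2⟩, ?_⟩
    apply Subtype.ext
    change (x : F) = π * ((x : F) / π)
    rw [mul_div_cancel₀ _ hπ.ne]
  · rw [Ideal.span_singleton_le_iff_mem]
    exact ValuationSubring.coe_mem_nonunits_iff.1 hπ.non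

private theorem unif_zpow_mem (h : IsDiscreteValuationRing A) {π : F} (hπ : IsUnif A π) {x : F}
    (hx : x ≠ 0) (hxA : x ∈ A) : ∃ (n : ℕ) (u : F), IsUn A u ∧ x = π ^ n * u := by
  obtain ⟨ϖ, h1, h2⟩ := unif_irr h hπ
  have hx' : (⟨x, hxA⟩ : A) ≠ 0 := fun h3 => hx (congrArg Subtype.val h3)
  obtain ⟨n, u, h3⟩ := IsDiscreteValuationRing.eq_unit_mul_pow_irreducible hx' h2
  refine ⟨n, ((u : A) : F), ?_, ?_⟩
  · rw [unif_val]
    exact (A.valuation_eq_one_iff _).1 u.isUnit
  · have h4 := congrArg Subtype.val h3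
    change x = ((u : A) : F) * ((ϖ : F)) ^ n at h4
    rw [h4, h1, mul_comm]

theorem isUn_iff {x : F} : IsUn A x ↔ x ≠ 0 ∧ x ∈ A ∧ x⁻¹ ∈ A := by
  rw [unif_val, ← A.valuation_le_one_iff, ← A.valuation_le_one_iff, map_inv₀]
  constructor
  · intro h
    refine ⟨?_, h.le, ?_⟩
    · rintro rfl
      rw [map_zero] at h
      exact zero_ne_one h
    · rw [h, inv_one]
  · rintro ⟨h0, h1, h2⟩
    have h3 : A.valuation x ≠ 0 := (Valuation.ne_zero_iff _).2 h0
    refine le_antisymm h1 ?_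
    have h4 : 0 < A.valuation x := zero_lt_iff.2 h3
    exact (inv_le_one₀ h4).1 h2

theorem IsUn.mul {x y : F} (hx : IsUn A x) (hy : IsUn A y) : IsUn A (x * y) := by
  rw [unif_val] at *
  rw [map_mul, hx, hy, one_mul]

theorem IsUn.inv {x : F} (hx : IsUn A x) : IsUn A x⁻¹ := by
  rw [unif_val] at *
  rw [map_inv₀, hx, inv_one]

theorem IsUn.pow {x : F} (hx : IsUn A x) (n : ℕ) : IsUn A (x ^ n) := by
  rw [unif_val] at *
  rw [map_pow, hx, one_pow]

theorem isUn_of_pow {x : F} {n : ℕ} (hn : n ≠ 0) (hx : IsUn A (x ^ n)) : IsUn A x := by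
  rw [unif_val] at *
  rw [map_pow] at hx
  exact (pow_eq_one_iff_of_nonneg zero_le hn).1 hx

theorem isUn_one_add {x : F} (hx : x ∈ A.nonunits) : IsUn A (1 + x) := by
  rw [unif_val]
  rw [ValuationSubring.mem_nonunits_iff] at hx
  exact A.valuation.map_one_add_of_lt hx

theorem exists_unif (h : IsDiscreteValuationRing A) : ∃ π, IsUnif A π := by
  obtain ⟨ϖ, h1⟩ := IsDiscreteValuationRing.exists_irreducible A
  have h2 := (IsDiscreteValuationRing.irreducible_iff_uniformizer ϖ).1 h1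
  refine ⟨(ϖ : F), ?_, ?_, ?_⟩
  · intro h3
    exact h1.ne_zero (Subtype.ext h3)
  · rw [ValuationSubring.coe_mem_nonunits_iff, h2]
    exact Ideal.mem_span_singleton_self ϖ
  · intro x hx
    have hxA : x ∈ A := ValuationSubring.nonunits_le hx
    have h3 : (⟨x, hxA⟩ : A) ∈ IsLocalRing.maximalIdeal A := ValuationSubring.coe_mem_nonunits_iff.1 hx
    rw [h2, Ideal.mem_span_singleton] at h3
    obtain ⟨y, hy⟩ := h3
    have h4 := congrArg Subtype.val hy
    change x = (ϖ : F) * (y : F) at h4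
    have h5 : (ϖ : F) ≠ 0 := fun h3 => h1.ne_zero (Subtype.ext h3)
    rw [h4, mul_div_cancel_left₀ _ h5]
    exact y.2

/-- every nonzero element is a power of `π` times a unit -/
theorem exists_zpow (h : IsDiscreteValuationRing A) {π : F} (hπ : IsUnif A π) {x : F}
    (hx : x ≠ 0) : ∃ (k : ℤ) (u : F), IsUn A u ∧ x = π ^ k * u := by
  rcases A.mem_or_inv_mem x with hA | hA
  · obtain ⟨n, u, hu, h1⟩ := unif_zpow_mem h hπ hx hA
    exact ⟨n, u, hu, by rw [zpow_natCast]; exact h1⟩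
  · obtain ⟨n, u, hu, h1⟩ := unif_zpow_mem h hπ (inv_ne_zero hx) hA
    refine ⟨-n, u⁻¹, hu.inv, ?_⟩
    rw [zpow_neg, zpow_natCast, ← mul_inv, ← h1, inv_inv]

theorem zpow_isUn {π : F} (hπ : IsUnif A π) {k : ℤ} (hk : IsUn A (π ^ k)) : k = 0 := by
  rw [unif_val] at hk
  rcases lt_trichotomy k 0 with h | h | h
  · have h1 := unif_zpow_lt hπ (k := -k) (by omega)
    rw [zpow_neg, map_inv₀, hk, inv_one] at h1
    exact absurd h1 (lt_irrefl _)
  · exact h
  · have h1 := unif_zpow_lt hπ h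
    rw [hk] at h1
    exact absurd h1 (lt_irrefl _)

theorem zpow_mem {π : F} (hπ : IsUnif A π) {k : ℤ} {u : F} (hu : IsUn A u) :
    π ^ k * u ∈ A ↔ 0 ≤ k := by
  rw [← A.valuation_le_one_iff, map_mul, unif_val.1 hu, mul_one]
  constructor
  · intro h
    by_contra hk
    push Not at hk
    have h1 := unif_zpow_lt hπ (k := -k) (by omega)
    rw [zpow_neg, map_inv₀] at h1
    have h2 : 0 < A.valuation (π ^ k) := zero_lt_iff.2 ((Valuation.ne_zero_iff _).2 (zpow_ne_zero _ hπ.ne))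
    exact absurd ((inv_lt_one₀ h2).1 h1) (not_lt.2 h)
  · intro hk
    rcases hk.eq_or_lt with h | h
    · rw [← h, zpow_zero, map_one]
    · exact (unif_zpow_lt hπ h).le

/-- powers of nonunits become divisible by every nonzero element -/
theorem exists_pow_div (h : IsDiscreteValuationRing A) {x y : F} (hx : x ∈ A.nonunits)
    (hy : y ≠ 0) : ∃ k : ℕ, 0 < k ∧ x ^ k / y ∈ A := by
  rcases eq_or_ne x 0 with rfl | hx0
  · refine ⟨1, one_pos, ?_⟩
    rw [pow_one, zero_div]
    exact A.zero_mem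
  obtain ⟨π, hπ⟩ := exists_unif h
  obtain ⟨m, u, hu, h1⟩ := exists_zpow h hπ hy
  obtain ⟨n, v, hv, h2⟩ := exists_zpow h hπ hx0
  have hn : 0 < n := by
    by_contra hcon
    push Not at hcon
    have h3 : 0 ≤ -n := by omega
    have h4 := (zpow_mem hπ hv.inv (k := -n)).2 h3
    rw [zpow_neg, ← mul_inv, ← h2] at h4
    have h5 : IsUn A x := isUn_iff.2 ⟨hx0, ValuationSubring.nonunits_le hx, h4⟩
    exact h5.2 hx
  refine ⟨m.toNat + 1, Nat.succ_pos _, ?_⟩
  have h3 : x ^ (m.toNat + 1) / y = π ^ (n * ((m.toNat + 1 : ℕ) : ℤ) - m) * (v ^ (m.toNat + 1) * u⁻¹) := by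
    rw [h1, h2, mul_pow, zpow_sub₀ hπ.ne, zpow_mul, zpow_natCast]
    field_simp
  rw [h3, zpow_mem hπ ((hv.pow _).mul hu.inv)]
  have h4 : m ≤ m.toNat := Int.self_le_toNat m
  push_cast
  nlinarith

end Pool.Agent.Helper60.SL
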