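import Mathlib
import Pool.Agent.Helper60.SL.Ext
import Pool.Agent.Helper60.SL.ExtBasic
import Pool.Agent.Helper60.SL.ExtHDVR
import Pool.Agent.Helper60.SL.Unif
import Pool.Agent.Helper60.SL.Resid

/-!
# SL-16: `e f = n`

`q = Nat.card (ResidueField A)`, `n = finrank F E`, `B = integralClosure A E` (the same elements as `ext hA E`).

PROOF.  `B` is a finite torsion free module over the principal ideal domain `A`, so it is free of rank `n` (`IsIntegralClosure.rank`, `IsIntegralClosure.module_free`) and the ring `B / π B` has `q^n` elements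
(it is `(A / π A)^n`).  `π` is a nonzero nonunit of `ext hA E` (`ext_nonunits_map`), so `π = ϖ^e u` with a unit `u` and `e > 0` (`exists_zpow`, `zpow_mem`).  `B / π B = B / ϖ^e B` has `q_B^e` elements,
`q_B = Nat.card (ResidueField (ext hA E))` (`cardQuot_pow_of_prime` in `Mathlib.RingTheory.Ideal.Norm.AbsNorm`, or the filtration by the `ϖ^i B / ϖ^(i+1) B = B / ϖ B`).
`q_B = q^f` with `f > 0` (`card_residue_pow`), so `q^(f e) = q^n`, `e f = n`.
-/

set_option autoImplicit false

open IsLocalRing

namespace Pool.Agent.Helper60.SL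

variable {F : Type*} [Field F] [CharZero F] {A : ValuationSubring F} (hA : HDVR A)

/-- `ext` and the integral closure are the same ring. -/
private noncomputable def fundEquiv (E : Type*) [Field E] [Algebra F E]
    [FiniteDimensional F E] : integralClosure A E ≃+* ext hA E where
  toFun x := ⟨x, x.2⟩
  invFun x := ⟨x, x.2⟩
  left_inv _ := rfl
  right_inv _ := rfl
  map_mul' _ _ := rfl
  map_add' _ _ := rfl

/-- powers of the maximal ideal of the integral closure -/
private theorem fund_pow (E : Type*) [Field E] [Algebra F E] [FiniteDimensional F E]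
    [IsLocalRing (integralClosure A E)] {ϖ : E} (hϖ : IsUnif (ext hA E) ϖ) (n : ℕ)
    (x : integralClosure A E) :
    x ∈ maximalIdeal (integralClosure A E) ^ n ↔ (x : E) / ϖ ^ n ∈ ext hA E := by
  have hmemϖ : ϖ ∈ ext hA E := ValuationSubring.nonunits_le hϖ.non
  obtain ⟨w, hw⟩ : ∃ w : integralClosure A E, (w : E) = ϖ := ⟨⟨ϖ, hmemϖ⟩, rfl⟩
  have hmax : ∀ y : integralClosure A E, y ∈ maximalIdeal (integralClosure A E) ↔
      (y : E) ∈ (ext hA E).nonunits := by
    intro y
    have h1 : (y : E) = ((fundEquiv hA E y : ext hA E) : E) := rfl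
    rw [h1, ValuationSubring.coe_mem_nonunits_iff, mem_maximalIdeal, mem_maximalIdeal,
      mem_nonunits_iff, mem_nonunits_iff, MulEquiv.isUnit_map]
  have hspan : maximalIdeal (integralClosure A E) = Ideal.span {w} := by
    apply le_antisymm
    · intro y hy
      rw [hmax] at hy
      have h1 := hϖ.gen _ hy
      rw [Ideal.mem_span_singleton]
      refine ⟨⟨(y : E) / ϖ, h1⟩, ?_⟩
      apply Subtype.ext
      change (y : E) = (w : E) * ((y : E) / ϖ)
      rw [hw, mul_div_cancel₀ _ hϖ.ne]
    · rw [Ideal.span_singleton_le_iff_mem, hmax, hw]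
      exact hϖ.non
  have hϖn : ϖ ^ n ≠ 0 := pow_ne_zero _ hϖ.ne
  rw [hspan, Ideal.span_singleton_pow, Ideal.mem_span_singleton]
  constructor
  · rintro ⟨y, hy⟩
    have h1 : (x : E) = ϖ ^ n * (y : E) := by
      rw [hy, ← hw]
      rfl
    rw [h1, mul_div_cancel_left₀ _ hϖn]
    exact y.2
  · intro h
    refine ⟨⟨(x : E) / ϖ ^ n, h⟩, ?_⟩
    apply Subtype.ext
    change (x : E) = ((w ^ n : integralClosure A E) : E) * ((x : E) / ϖ ^ n)
    have h1 : ((w ^ n : integralClosure A E) : E) = ϖ ^ n := by
      rw [← hw]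
      rfl
    rw [h1, mul_div_cancel₀ _ hϖn]

theorem fund (E : Type*) [Field E] [Algebra F E] [FiniteDimensional F E] {π : F}
    (hπ : IsUnif A π) {ϖ : E} (hϖ : IsUnif (ext hA E) ϖ) :
    ∃ e f : ℕ, 0 < e ∧ 0 < f ∧ e * f = Module.finrank F E ∧
      Nat.card (ResidueField (ext hA E)) = Nat.card (ResidueField A) ^ f ∧
      IsUn (ext hA E) (algebraMap F E π / ϖ ^ e) := by
  have := hA.dvr
  have := hA.hens
  have := hA.fin
  have hB := ext_hdvr hA E
  have h1 : IsDiscreteValuationRing (integralClosure A E) := dvr_fin hA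
  have h2 : Module.Finite A (integralClosure A E) := IsIntegralClosure.finite A F E _
  have hfr : IsFractionRing (integralClosure A E) E :=
    integralClosure.isFractionRing_of_finite_extension F E
  have hp0 : maximalIdeal A ≠ ⊥ := IsDiscreteValuationRing.not_a_field A
  have hloc : IsLocalHom (algebraMap A (integralClosure A E)) := by
    refine RingHom.IsIntegral.isLocalHom ?_ ?_
    · rw [algebraMap_isIntegral_iff]
      infer_instance
    · intro a b hab
      have h4 : algebraMap F E (a : F) = algebraMap F E (b : F) := congrArg (Subtype.val) hab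
      exact Subtype.ext ((algebraMap F E).injective h4)
  have hLO : (maximalIdeal (integralClosure A E)).LiesOver (maximalIdeal A) := inferInstance
  have hef := Ideal.ramificationIdx_mul_inertiaDeg_of_isLocalRing (integralClosure A E) F E
    (p := maximalIdeal A) hp0
  -- the exponent
  have hπ0 : algebraMap F E π ≠ 0 := by
    rw [Ne, map_eq_zero_iff _ (algebraMap F E).injective]
    exact hπ.ne
  obtain ⟨k, u, hu, hku⟩ := exists_zpow hB.dvr hϖ hπ0
  have hπB : algebraMap F E π ∈ (ext hA E).nonunits := (ext_nonunits_map hA π).2 hπ.non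
  have hπB' : algebraMap F E π ∈ ext hA E := ValuationSubring.nonunits_le hπB
  have hk0 : 0 ≤ k := by
    rw [hku, zpow_mem hϖ hu] at hπB'
    exact hπB'
  obtain ⟨n, rfl⟩ := Int.eq_ofNat_of_zero_le hk0
  have hn : 0 < n := by
    rcases Nat.eq_zero_or_pos n with h | h
    · exfalso
      rw [h] at hku
      rw [hku] at hπB
      simp only [Nat.cast_zero, zpow_zero, one_mul] at hπB
      exact hu.2 hπB
    · exact h
  rw [zpow_natCast] at hku
  have hϖn : ∀ m : ℕ, ϖ ^ m ≠ 0 := fun m => pow_ne_zero _ hϖ.ne
  have hpiA : π ∈ A := ValuationSubring.nonunits_le hπ.non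
  have hmapmem : ∀ m : ℕ, Ideal.map (algebraMap A (integralClosure A E)) (maximalIdeal A) ≤
      maximalIdeal (integralClosure A E) ^ m ↔ m ≤ n := by
    intro m
    have hspan : maximalIdeal A = Ideal.span {(⟨π, hpiA⟩ : A)} := by
      apply le_antisymm
      · intro y hy
        have h3 := hπ.gen _ (ValuationSubring.coe_mem_nonunits_iff.2 hy)
        rw [Ideal.mem_span_singleton]
        refine ⟨⟨(y : F) / π, h3⟩, ?_⟩
        apply Subtype.ext
        change (y : F) = π * ((y : F) / π)
        rw [mul_div_cancel₀ _ hπ.ne]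
      · rw [Ideal.span_singleton_le_iff_mem]
        exact ValuationSubring.coe_mem_nonunits_iff.1 hπ.non
    rw [hspan, Ideal.map_span, Set.image_singleton, Ideal.span_singleton_le_iff_mem,
      fund_pow hA E hϖ]
    change algebraMap F E π / ϖ ^ m ∈ ext hA E ↔ m ≤ n
    have h3 : algebraMap F E π / ϖ ^ m = ϖ ^ ((n : ℤ) - (m : ℤ)) * u := by
      rw [hku, zpow_sub₀ hϖ.ne, zpow_natCast, zpow_natCast]
      ring
    rw [h3, zpow_mem hϖ hu]
    omega
  have he : Ideal.ramificationIdx' (maximalIdeal A) (maximalIdeal (integralClosure A E)) = n :=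
    Ideal.ramificationIdx'_spec ((hmapmem n).2 le_rfl) (fun h => by
      have := (hmapmem (n + 1)).1 h
      omega)
  have hf := Ideal.inertiaDeg'_algebraMap (maximalIdeal A) (maximalIdeal (integralClosure A E))
  have hfpos := Ideal.inertiaDeg'_pos (maximalIdeal A) (maximalIdeal (integralClosure A E))
  refine ⟨n, Ideal.inertiaDeg' (maximalIdeal A) (maximalIdeal (integralClosure A E)), hn, hfpos,
    ?_, ?_, ?_⟩
  · rw [← he]
    exact hef
  · rw [hf]
    have h3 : Nat.card (ResidueField (ext hA E)) =
        Nat.card (integralClosure A E ⧸ maximalIdeal (integralClosure A E)) :=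
      (Nat.card_congr (IsLocalRing.ResidueField.mapEquiv (fundEquiv hA E)).toEquiv).symm
    rw [h3]
    let _ : Field (A ⧸ maximalIdeal A) := Ideal.Quotient.field (maximalIdeal A)
    have : Module.Finite (A ⧸ maximalIdeal A)
        (integralClosure A E ⧸ maximalIdeal (integralClosure A E)) := inferInstance
    exact Module.natCard_eq_pow_finrank (K := A ⧸ maximalIdeal A)
  · rw [hku, mul_div_cancel_left₀ _ (hϖn n)]
    exact hu

end Pool.Agent.Helper60.SL
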