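import Mathlib

/-!
# SL-25: compatible systems of roots

PROOF.  Roots of unity: let `ι : AlgebraicClosure ℚ →+* ℂ` and `j : AlgebraicClosure ℚ →+* Ω` (`IsAlgClosed.lift`, `Ω` has characteristic `0`).  `exp(2 π i / n)` is algebraic over `ℚ`, so it is `ι (w n)` for a unique `w n` (`ι` is injective and its image contains all
algebraic numbers, `AlgebraicClosure ℚ` being algebraically closed); `w (n m)^m = w n` and `w n` is a primitive `n`-th root of unity (`Complex.isPrimitiveRoot_exp`).  `z n = j (w n)` for `n ≠ 0`.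
Roots of `π`: choose `R 0 = π` and `R (k+1)` with `R (k+1)^(k+1) = R k` recursively, so `R k^(k! / l!) = R l` for `l ≤ k`, and `r n = R n^(n! / n)` for `n > 0` (`= R n^((n-1)!)`).  Then
`r (n m)^m = R (n m)^((n m)! / (n m) * m) = R (n m)^((n m)! / n) = (R (n m)^((n m)! / n!))^(n! / n) = R n^(n! / n) = r n` and `r 1 = R 1 = π`.
-/

set_option autoImplicit false

namespace Pool.Agent.Helper60.SL

/-- compatible systems of roots `r n` of `π` and of primitive roots of unity `z n` -/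
structure Sys {F Ω : Type*} [Field F] [Field Ω] [Algebra F Ω] (π : F) (r z : ℕ → Ω) : Prop where
  r1 : r 1 = algebraMap F Ω π
  rmul : ∀ n m : ℕ, n ≠ 0 → m ≠ 0 → r (n * m) ^ m = r n
  zmul : ∀ n m : ℕ, n ≠ 0 → m ≠ 0 → z (n * m) ^ m = z n
  prim : ∀ n : ℕ, n ≠ 0 → IsPrimitiveRoot (z n) n

private theorem exists_roots {Ω : Type*} [Field Ω] [IsAlgClosed Ω] (a : Ω) :
    ∃ r : ℕ → Ω, r 1 = a ∧ ∀ n m : ℕ, n ≠ 0 → m ≠ 0 → r (n * m) ^ m = r n := by
  have hex : ∀ (k : ℕ) (x : Ω), ∃ y : Ω, y ^ (k + 1) = x := fun k x =>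
    IsAlgClosed.exists_pow_nat_eq x (Nat.succ_pos k)
  choose g hg using hex
  obtain ⟨R, hR0, hR⟩ : ∃ R : ℕ → Ω, R 0 = a ∧ ∀ k, R (k + 1) ^ (k + 1) = R k :=
    ⟨fun n => Nat.rec a (fun k x => g k x) n, rfl, fun k => hg k _⟩
  have key : ∀ k d : ℕ, ∃ e : ℕ, k.factorial * e = (k + d).factorial ∧ R (k + d) ^ e = R k := by
    intro k d
    induction d with
    | zero => exact ⟨1, by simp, by simp⟩
    | succ d ih =>
      obtain ⟨e, he, h⟩ := ih
      refine ⟨(k + d + 1) * e, ?_, ?_⟩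
      · rw [← add_assoc, Nat.factorial_succ, ← he]
        ring
      · rw [← add_assoc, pow_mul, hR, h]
  refine ⟨fun n => R n ^ (n - 1).factorial, ?_, ?_⟩
  · have h := hR 0
    simp only [zero_add, pow_one] at h
    simp [h, hR0]
  · intro n m hn hm
    obtain ⟨d, hd⟩ := Nat.exists_eq_add_of_le (Nat.le_mul_of_pos_right n (Nat.pos_of_ne_zero hm))
    obtain ⟨e, he, h⟩ := key n d
    rw [← hd] at he h
    have hnm : n * m ≠ 0 := mul_ne_zero hn hm
    have h1 : (n * m - 1).factorial * m = e * (n - 1).factorial := by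
      have h2 : n * ((n * m - 1).factorial * m) = n * (e * (n - 1).factorial) := by
        have h3 := Nat.mul_factorial_pred hnm
        have h4 := Nat.mul_factorial_pred hn
        calc n * ((n * m - 1).factorial * m) = n * m * (n * m - 1).factorial := by ring
          _ = (n * m).factorial := h3
          _ = n.factorial * e := he.symm
          _ = n * (n - 1).factorial * e := by rw [h4]
          _ = n * (e * (n - 1).factorial) := by ring
      exact Nat.eq_of_mul_eq_mul_left (Nat.pos_of_ne_zero hn) h2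
    change (R (n * m) ^ (n * m - 1).factorial) ^ m = R n ^ (n - 1).factorial
    rw [← pow_mul, h1, pow_mul, h]

private theorem exists_unity {Ω : Type*} [Field Ω] [CharZero Ω] [IsAlgClosed Ω] :
    ∃ z : ℕ → Ω, (∀ n m : ℕ, n ≠ 0 → m ≠ 0 → z (n * m) ^ m = z n) ∧
      ∀ n : ℕ, n ≠ 0 → IsPrimitiveRoot (z n) n := by
  let K := algebraicClosure ℚ ℂ
  have hK : Algebra.IsAlgebraic ℚ K := algebraicClosure.isAlgebraic ℚ ℂ
  let j : K →ₐ[ℚ] Ω := IsAlgClosed.lift
  have hw : ∀ n : ℕ, ∃ x : K, n ≠ 0 → (x : ℂ) = Complex.exp (2 * Real.pi * Complex.I / n) := by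
    intro n
    by_cases hn : n = 0
    · exact ⟨1, fun h => absurd hn h⟩
    · have h1 := Complex.isPrimitiveRoot_exp n hn
      have h2 : IsAlgebraic ℚ (Complex.exp (2 * Real.pi * Complex.I / n)) :=
        (h1.isIntegral (Nat.pos_of_ne_zero hn)).tower_top.isAlgebraic
      exact ⟨⟨_, (mem_algebraicClosure_iff).2 h2⟩, fun _ => rfl⟩
  choose w hw using hw
  refine ⟨fun n => j (w n), ?_, ?_⟩
  · intro n m hn hm
    change j (w (n * m)) ^ m = j (w n)
    rw [← map_pow]
    congr 1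
    apply Subtype.ext
    have h1 : ((w (n * m) ^ m : K) : ℂ) = ((w (n * m) : K) : ℂ) ^ m := rfl
    rw [h1, hw _ (mul_ne_zero hn hm), hw _ hn, ← Complex.exp_nat_mul]
    congr 1
    have hn' : (n : ℂ) ≠ 0 := Nat.cast_ne_zero.2 hn
    have hm' : (m : ℂ) ≠ 0 := Nat.cast_ne_zero.2 hm
    push_cast
    field_simp
  · intro n hn
    refine IsPrimitiveRoot.map_of_injective (f := j) ?_ j.injective
    refine IsPrimitiveRoot.of_map_of_injective (f := (algebraMap K ℂ)) ?_ (algebraMap K ℂ).injective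
    have h1 : algebraMap K ℂ (w n) = ((w n : K) : ℂ) := rfl
    rw [h1, hw n hn]
    exact Complex.isPrimitiveRoot_exp n hn

theorem exists_sys {F Ω : Type*} [Field F] [CharZero F] [Field Ω] [Algebra F Ω] [IsAlgClosed Ω]
    (π : F) : ∃ r z : ℕ → Ω, Sys π r z := by
  have hc : CharZero Ω := charZero_of_injective_algebraMap (algebraMap F Ω).injective
  obtain ⟨r, h1, h2⟩ := exists_roots (algebraMap F Ω π)
  obtain ⟨z, h3, h4⟩ := exists_unity (Ω := Ω)
  exact ⟨r, z, h1, h2, h3, h4⟩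

end Pool.Agent.Helper60.SL
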