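import Mathlib

/-!
# SL-01: Hensel's lemma for polynomials which need not be monic

PROOF of `hensel_nonmonic`.  Replacing `g` by `g.comp (X + C a)` (or `taylor a g`) we may assume `a = 0`.  Let `c = g.coeff 0 ∈ m`, `u = g.coeff 1`, a unit, `v = u⁻¹`,
`N = natDegree g ≥ 1`.  Put
`R(w) = w^N - w^(N-1) + c * ∑_{i = 2}^N g_i (-v)^i c^(i-2) w^(N-i)`.
`R` is monic, `R(1) ∈ m`, `R'(1) = N - (N - 1) + c (...) ∈ 1 + m` is a unit, so the henselian property (Mathlib: `HenselianLocalRing.is_henselian`, monic polynomials) gives a root `w` of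
`R` with `w - 1 ∈ m`; `w` is a unit.  For `y = w⁻¹` and `x = -c v y`:
`w^N g(x) = ∑_i g_i (-v c)^i w^(N-i) = c w^N - c w^(N-1) + ∑_{i ≥ 2} g_i (-v)^i c^i w^(N-i) = c R(w) = 0`,
so `g(x) = 0`, and `x ∈ m`.

`exists_pow_eq`: apply it (or the monic version) to `X^n - C (1 + x)` at `a = 1`.
-/

set_option autoImplicit false

open Polynomial IsLocalRing

namespace Pool.Agent.Helper60.SL

theorem hensel_nonmonic {R : Type*} [CommRing R] [HenselianLocalRing R] (g : R[X]) (a : R)
    (h0 : g.eval a ∈ maximalIdeal R) (h1 : IsUnit (g.derivative.eval a)) :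
    ∃ b : R, g.IsRoot b ∧ b - a ∈ maximalIdeal R := by
  have unit_of : ∀ t : R, t - 1 ∈ maximalIdeal R → IsUnit t := by
    intro t ht
    by_contra hc
    have h2 : t ∈ maximalIdeal R := (mem_maximalIdeal t).2 hc
    have h3 : (1 : R) ∈ maximalIdeal R := by
      have := Ideal.sub_mem _ h2 ht
      simpa using this
    exact (Ideal.ne_top_iff_one _).1 (maximalIdeal.isMaximal R).ne_top h3
  set h : R[X] := taylor a g with hh
  have hc0 : h.coeff 0 = g.eval a := taylor_coeff_zero a g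
  have hc1 : h.coeff 1 = g.derivative.eval a := taylor_coeff_one a g
  obtain ⟨u, hu⟩ := h1
  set c : R := g.eval a with hcdef
  set v : R := (↑u⁻¹ : R) with hv
  have huv : (u : R) * v = 1 := by rw [hv]; exact Units.mul_inv u
  obtain ⟨N, hN⟩ : ∃ N : ℕ, N = h.natDegree + 2 := ⟨_, rfl⟩
  set S : R[X] := ∑ i ∈ Finset.Ico 2 (N + 1), C (h.coeff i * (-v) ^ i * c ^ (i - 2)) * X ^ (N - i) with hS
  set Q : R[X] := -X ^ (N - 1) + C c * S with hQ
  have hSdeg : degree (C c * S) < (N : WithBot ℕ) := by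
    rw [← smul_eq_C_mul]
    refine lt_of_le_of_lt (degree_smul_le c S) ?_
    rw [hS, ← mem_degreeLT]
    apply Submodule.sum_mem
    intro i hi
    rw [Finset.mem_Ico] at hi
    rw [mem_degreeLT]
    refine lt_of_le_of_lt (degree_C_mul_X_pow_le _ _) ?_
    exact_mod_cast (by omega : N - i < N)
  have hQdeg : degree Q < (N : WithBot ℕ) := by
    rw [hQ]
    refine lt_of_le_of_lt (degree_add_le _ _) (max_lt ?_ hSdeg)
    rw [degree_neg]
    refine lt_of_le_of_lt (degree_X_pow_le _) ?_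
    exact_mod_cast (by omega : N - 1 < N)
  have hmonic : (X ^ N + Q).Monic := monic_X_pow_add hQdeg
  have he1 : (X ^ N + Q).eval 1 ∈ maximalIdeal R := by
    rw [hQ]
    simp only [eval_add, eval_pow, eval_X, one_pow, eval_neg, eval_mul, eval_C]
    have : (1 : R) + (-1 + c * eval 1 S) = c * eval 1 S := by ring
    rw [this]
    exact Ideal.mul_mem_right _ _ h0
  have he2 : IsUnit ((X ^ N + Q).derivative.eval 1) := by
    apply unit_of
    rw [hQ]
    simp only [derivative_add, derivative_neg, derivative_mul, derivative_C, derivative_X_pow, zero_mul, zero_add,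
      eval_add, eval_neg, eval_mul, eval_C, eval_pow, eval_X, one_pow, mul_one, eval_natCast]
    have h3 : ((N : ℕ) : R) = ((N - 1 : ℕ) : R) + 1 := by
      have : N = (N - 1) + 1 := by omega
      exact_mod_cast congrArg (Nat.cast (R := R)) this
    have : (N : R) + (-((N - 1 : ℕ) : R) + c * eval 1 (derivative S)) - 1 = c * eval 1 (derivative S) := by
      rw [h3]; ring
    rw [this]
    exact Ideal.mul_mem_right _ _ h0
  obtain ⟨w, hw, hw1⟩ := HenselianLocalRing.is_henselian (X ^ N + Q) hmonic 1 he1 he2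
  obtain ⟨W, hW⟩ := unit_of w hw1
  set y : R := (↑W⁻¹ : R) with hy
  have hwy : w * y = 1 := by rw [hy, ← hW]; exact Units.mul_inv W
  have hroot : w ^ N - w ^ (N - 1) + c * ∑ i ∈ Finset.Ico 2 (N + 1), h.coeff i * (-v) ^ i * c ^ (i - 2) * w ^ (N - i) = 0 := by
    have := hw
    rw [IsRoot.def, hQ, hS] at this
    simp only [eval_add, eval_pow, eval_X, eval_neg, eval_mul, eval_C, eval_finsetSum] at this
    linear_combination this
  have hx : w ^ N * h.eval (-(c * v * y)) = 0 := by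
    rw [eval_eq_sum_range' (show h.natDegree < N + 1 by omega), Finset.range_eq_Ico,
      Finset.sum_eq_sum_Ico_succ_bot (by omega), Finset.sum_eq_sum_Ico_succ_bot (by omega), hc0, hc1, ← hu]
    have h4 : ∑ k ∈ Finset.Ico (0 + 1 + 1) (N + 1), h.coeff k * (-(c * v * y)) ^ k =
        c ^ 2 * ∑ i ∈ Finset.Ico 2 (N + 1), h.coeff i * (-v) ^ i * c ^ (i - 2) * y ^ i := by
      rw [Finset.mul_sum]
      apply Finset.sum_congr rfl
      intro i hi
      rw [Finset.mem_Ico] at hi
      obtain ⟨j, rfl⟩ : ∃ j, i = j + 2 := ⟨i - 2, by omega⟩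
      rw [Nat.add_sub_cancel]
      have : -(c * v * y) = (-v) * c * y := by ring
      rw [this, mul_pow, mul_pow]
      ring
    rw [h4]
    have h5 : w ^ N * ∑ i ∈ Finset.Ico 2 (N + 1), h.coeff i * (-v) ^ i * c ^ (i - 2) * y ^ i =
        ∑ i ∈ Finset.Ico 2 (N + 1), h.coeff i * (-v) ^ i * c ^ (i - 2) * w ^ (N - i) := by
      rw [Finset.mul_sum]
      apply Finset.sum_congr rfl
      intro i hi
      rw [Finset.mem_Ico] at hi
      have h6 : w ^ N = w ^ (N - i) * w ^ i := by rw [← pow_add]; congr 1; omega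
      have h7 : w ^ i * y ^ i = 1 := by rw [← mul_pow, hwy, one_pow]
      calc w ^ N * (h.coeff i * (-v) ^ i * c ^ (i - 2) * y ^ i) = h.coeff i * (-v) ^ i * c ^ (i - 2) * w ^ (N - i) * (w ^ i * y ^ i) := by
            rw [h6]; ring
        _ = _ := by rw [h7, mul_one]
    have h8 : w ^ N = w ^ (N - 1) * w := by rw [← pow_succ]; congr 1; omega
    have h9 : w ^ N * (c * (-(c * v * y)) ^ 0 + (↑u * (-(c * v * y)) ^ (0 + 1) + c ^ 2 * ∑ i ∈ Finset.Ico 2 (N + 1), h.coeff i * (-v) ^ i * c ^ (i - 2) * y ^ i))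
        = c * w ^ N - c * w ^ (N - 1) * ((u : R) * v) * (w * y) + c ^ 2 * (w ^ N * ∑ i ∈ Finset.Ico 2 (N + 1), h.coeff i * (-v) ^ i * c ^ (i - 2) * y ^ i) := by
      rw [h8]; ring
    rw [h9, huv, hwy, h5]
    linear_combination c * hroot
  have hx0 : h.eval (-(c * v * y)) = 0 := by
    have hWN : IsUnit (w ^ N) := (by rw [← hW]; exact W.isUnit : IsUnit w).pow N
    exact (hWN.mul_right_eq_zero).1 hx
  refine ⟨-(c * v * y) + a, ?_, ?_⟩
  · rw [IsRoot.def, ← taylor_eval]
    exact hx0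
  · rw [add_sub_cancel_right]
    apply Ideal.neg_mem_iff _ |>.2
    exact Ideal.mul_mem_right _ _ (Ideal.mul_mem_right _ _ h0)

theorem exists_pow_eq {R : Type*} [CommRing R] [HenselianLocalRing R] {n : ℕ}
    (hn : IsUnit (n : R)) {x : R} (hx : x ∈ maximalIdeal R) :
    ∃ y : R, y ^ n = 1 + x ∧ y - 1 ∈ maximalIdeal R := by
  have h0 : (X ^ n - C (1 + x) : R[X]).eval 1 ∈ maximalIdeal R := by
    simp only [eval_sub, eval_pow, eval_X, one_pow, eval_C]
    have : (1 : R) - (1 + x) = -x := by ring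
    rw [this]
    exact (Ideal.neg_mem_iff _).2 hx
  have h1 : IsUnit ((X ^ n - C (1 + x) : R[X]).derivative.eval 1) := by
    simp only [derivative_sub, derivative_X_pow, derivative_C, sub_zero, eval_mul, eval_C, eval_pow, eval_X, one_pow,
      mul_one]
    exact hn
  obtain ⟨b, hb, hb1⟩ := hensel_nonmonic _ 1 h0 h1
  refine ⟨b, ?_, hb1⟩
  rw [IsRoot.def] at hb
  simp only [eval_sub, eval_pow, eval_X, eval_C] at hb
  exact sub_eq_zero.1 hb

end Pool.Agent.Helper60.SL
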