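import Mathlib
import Pool.Agent.Helper60.SL.Defs
import Pool.Agent.Helper60.SL.Hensel
import Pool.Agent.Helper60.SL.Unif

/-!
# SL-08: powers

`p` is the residue characteristic, `q` the number of elements of the residue field `k = ResidueField A`.

PROOF.  `natCast_isUn`: the class of `n` in `k` is not `0` (`CharP`).  `exists_root_one_add`: `exists_pow_eq` of `Hensel.lean` for the ring `A`.
`exists_teich`: `X^(q-1) - 1` has the simple root `ū` in `k` (`FiniteField.pow_card_sub_one_eq_one`, derivative `(q-1) ū^(q-2) = -ū^(q-2) ≠ 0`), so by Hensel (henselian local ring `A`) there is a root `ζ ∈ A` of `X^(q-1) - 1` with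
`ζ - u ∈ m`; `x = u / ζ - 1`.
`exists_pth`: the Frobenius of the finite field `k` is surjective: `ū = c̄^p`, so `u = c^p + m` with a nonunit `m = π d'`, `u = c^p (1 + π d)`.
`exists_root_deep`: `n ≠ 0`, `x ∈ n^2 π A` (written `x = n^2 y`, `y` nonunit).  Look for `1 + n z`: `(1 + n z)^n = 1 + n^2 z + ∑_{i ≥ 2} (n choose i) n^i z^i`; the polynomial
`g(z) = ((1 + n z)^n - 1)/n^2 - y = z - y + ∑_{i ≥ 2} (n choose i) n^(i-2) z^i` has coefficients in `A`, `g(0) = -y ∈ m`, `g'(0) = 1`: `hensel_nonmonic`.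
`finite_mod_pow`: let `n ≠ 0`.  By `exists_root_deep` the units in `1 + n^2 π A` are `n`-th powers; `A / n^2 π A` is finite (`A` is a discrete valuation ring with finite residue field, the ideal is a power of the maximal ideal; Mathlib or: finite filtration with
quotients `k`), so the unit group modulo `n`-th powers is finite, and `x = π^i u` with `0 ≤ i < n` up to `n`-th powers.
-/

set_option autoImplicit false

open IsLocalRing Polynomial

namespace Pool.Agent.Helper60.SL

variable {F : Type*} [Field F] {A : ValuationSubring F}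

private lemma pw_non {a : A} : (a : F) ∈ A.nonunits ↔ residue A a = 0 :=
  ValuationSubring.coe_mem_nonunits_iff.trans (residue_eq_zero_iff _).symm

private lemma pw_mem {x : F} (hx : x ∈ A.nonunits) : x ∈ A := A.nonunits_subset hx

private lemma pw_max {x : F} (hx : x ∈ A.nonunits) :
    (⟨x, pw_mem hx⟩ : A) ∈ maximalIdeal A :=
  ValuationSubring.coe_mem_nonunits_iff.1 hx

private lemma pw_res {x : F} (hx : IsUn A x) : residue A ⟨x, hx.1⟩ ≠ 0 := fun h =>
  hx.2 (pw_non.2 h)

private lemma pw_unit {a : A} (h : residue A a ≠ 0) : IsUnit a := by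
  by_contra hc
  exact h ((residue_eq_zero_iff _).2 ((mem_maximalIdeal _).2 hc))

/-- a nonunit times an element of the ring is a nonunit -/
private lemma pw_mul {x y : F} (hx : x ∈ A.nonunits) (hy : y ∈ A) : x * y ∈ A.nonunits := by
  have h1 := Ideal.mul_mem_right (⟨y, hy⟩ : A) _ (pw_max hx)
  exact ValuationSubring.coe_mem_nonunits_iff.2 h1

theorem natCast_isUn {p : ℕ} [CharP (ResidueField A) p] {n : ℕ} (hn : ¬ p ∣ n) :
    IsUn A (n : F) := by
  have h0 : ((n : A) : F) = (n : F) := by push_cast; rfl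
  refine ⟨?_, fun h => hn ?_⟩
  · rw [← h0]
    exact (n : A).2
  · rw [← h0, pw_non, map_natCast] at h
    exact (CharP.cast_eq_zero_iff (ResidueField A) p n).1 h

theorem exists_root_one_add (hA : HDVR A) {p : ℕ} [CharP (ResidueField A) p] {n : ℕ}
    (hn : ¬ p ∣ n) {x : F} (hx : x ∈ A.nonunits) :
    ∃ y : F, y - 1 ∈ A.nonunits ∧ y ^ n = 1 + x := by
  have := hA.hens
  have hu : IsUnit (n : A) := by
    apply pw_unit
    rw [map_natCast]
    intro h
    exact hn ((CharP.cast_eq_zero_iff (ResidueField A) p n).1 h)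
  obtain ⟨y, hy1, hy2⟩ := exists_pow_eq hu (pw_max hx)
  refine ⟨y, ?_, ?_⟩
  · exact ValuationSubring.coe_mem_nonunits_iff.2 hy2
  · have := congrArg (fun a : A => (a : F)) hy1
    simpa using this

theorem exists_teich (hA : HDVR A) {u : F} (hu : IsUn A u) :
    ∃ ζ x : F, ζ ^ (Nat.card (ResidueField A) - 1) = 1 ∧ x ∈ A.nonunits ∧ u = ζ * (1 + x) := by
  classical
  have := hA.hens
  have := hA.fin
  have hft : Fintype (ResidueField A) := Fintype.ofFinite _
  set q := Nat.card (ResidueField A) with hq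
  have hqc : q = Fintype.card (ResidueField A) := Nat.card_eq_fintype_card
  have hq2 : 2 ≤ q := by
    rw [hqc]
    exact Fintype.one_lt_card
  set v : A := ⟨u, hu.1⟩ with hv
  have hv0 : residue A v ≠ 0 := pw_res hu
  have hv1 : residue A v ^ (q - 1) = 1 := by
    rw [hqc]
    exact FiniteField.pow_card_sub_one_eq_one _ hv0
  have hq0 : ((q : ℕ) : ResidueField A) = 0 := by
    rw [hqc]
    exact FiniteField.cast_card_eq_zero _
  obtain ⟨ζ, hζ1, hζ2⟩ := hensel_nonmonic (X ^ (q - 1) - 1 : A[X]) v (by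
    rw [← residue_eq_zero_iff]
    simp [hv1]) (by
    apply pw_unit
    have h1 : (X ^ (q - 1) - 1 : A[X]).derivative.eval v = ((q - 1 : ℕ) : A) * v ^ (q - 1 - 1) := by
      rw [Polynomial.derivative_sub, Polynomial.derivative_one, sub_zero,
        Polynomial.derivative_X_pow]
      simp only [Polynomial.eval_mul, Polynomial.eval_pow, Polynomial.eval_X,
        Polynomial.eval_natCast, map_natCast]
    rw [h1, map_mul, map_natCast, map_pow]
    apply mul_ne_zero
    · intro h
      have h2 : ((q : ℕ) : ResidueField A) = ((q - 1 : ℕ) : ResidueField A) + 1 := by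
        rw [← Nat.cast_succ, Nat.succ_eq_add_one, Nat.sub_add_cancel (by omega)]
      rw [hq0, h, zero_add] at h2
      exact zero_ne_one h2
    · exact pow_ne_zero _ hv0)
  have hζ3 : ζ ^ (q - 1) = 1 := by
    have := hζ1
    rw [Polynomial.IsRoot.def] at this
    simp at this
    exact sub_eq_zero.1 this
  have hζF : (ζ : F) ^ (q - 1) = 1 := by
    have := congrArg (fun a : A => (a : F)) hζ3
    simpa using this
  have hζ0 : (ζ : F) ≠ 0 := by
    intro h
    rw [h, zero_pow (by omega)] at hζF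
    exact zero_ne_one hζF
  have hζu : IsUn A (ζ : F) := by
    refine isUn_of_pow (n := q - 1) (by omega) ?_
    rw [hζF]
    rw [isUn_iff]
    simp
  refine ⟨ζ, u / ζ - 1, hζF, ?_, ?_⟩
  · have h1 : u / ζ - 1 = (u - ζ) * (ζ : F)⁻¹ := by
      field_simp
    rw [h1]
    refine pw_mul ?_ (isUn_iff.1 hζu).2.2
    have h2 : v - ζ ∈ maximalIdeal A := by
      have := neg_mem hζ2
      simpa using this
    exact ValuationSubring.coe_mem_nonunits_iff.2 h2
  · field_simp
    ring

theorem exists_pth (hA : HDVR A) {p : ℕ} [CharP (ResidueField A) p] {π : F} (hπ : IsUnif A π)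
    {u : F} (hu : IsUn A u) : ∃ c d : F, IsUn A c ∧ d ∈ A ∧ u = c ^ p * (1 + π * d) := by
  classical
  have := hA.hens
  have := hA.fin
  have hft : Fintype (ResidueField A) := Fintype.ofFinite _
  have hpp : p.Prime := by
    rcases CharP.char_is_prime_or_zero (ResidueField A) p with h | h
    · exact h
    · exfalso
      exact CharP.char_ne_zero_of_finite (ResidueField A) p h
  have hpf : Fact p.Prime := ⟨hpp⟩
  have hinj : Function.Injective (frobenius (ResidueField A) p) := frobenius_inj _ _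
  have hsurj : Function.Surjective (frobenius (ResidueField A) p) :=
    Finite.injective_iff_surjective.1 hinj
  set v : A := ⟨u, hu.1⟩ with hv
  obtain ⟨cb, hcb⟩ := hsurj (residue A v)
  obtain ⟨c, rfl⟩ := residue_surjective cb
  rw [frobenius_def] at hcb
  have hc0 : residue A c ≠ 0 := by
    intro h
    rw [h, zero_pow hpp.ne_zero] at hcb
    exact pw_res hu hcb.symm
  have hcu : IsUn A (c : F) := ⟨c.2, fun h => hc0 (pw_non.1 h)⟩
  have hcp : IsUn A ((c : F) ^ p) := hcu.pow p
  have hcp0 : (c : F) ^ p ≠ 0 := (isUn_iff.1 hcp).1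
  have hdiff : u - (c : F) ^ p ∈ A.nonunits := by
    have h1 : residue A (v - c ^ p) = 0 := by
      rw [map_sub, map_pow, hcb, sub_self]
    have h2 := pw_non.2 h1
    simpa [hv] using h2
  refine ⟨c, (u - (c : F) ^ p) / π * ((c : F) ^ p)⁻¹, hcu, ?_, ?_⟩
  · exact A.mul_mem _ _ (hπ.gen _ hdiff) (isUn_iff.1 hcp).2.2
  · have := hπ.ne
    field_simp
    ring

theorem exists_root_deep [CharZero F] (hA : HDVR A) {n : ℕ} (hn : n ≠ 0) {y : F}
    (hy : y ∈ A.nonunits) : ∃ z : F, z ∈ A.nonunits ∧ (1 + n * z) ^ n = 1 + (n : F) ^ 2 * y := by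
  have := hA.hens
  obtain ⟨m, rfl⟩ : ∃ m, n = m + 1 := ⟨n - 1, by omega⟩
  set n := m + 1 with hnm
  set w : A := ⟨y, pw_mem hy⟩ with hw
  set g : A[X] := C (-w) + X + ∑ i ∈ Finset.range m,
    C ((n.choose (i + 2) : A) * (n : A) ^ i) * X ^ (i + 2) with hg
  obtain ⟨b, hb1, hb2⟩ := hensel_nonmonic g 0 (by
    have h1 : g.eval 0 = -w := by
      rw [hg]
      simp [Polynomial.eval_finsetSum]
    rw [h1]
    exact neg_mem (pw_max hy)) (by
    have h1 : g.derivative.eval 0 = 1 := by
      rw [hg]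
      simp [Polynomial.eval_finsetSum]
    rw [h1]
    exact isUnit_one)
  rw [sub_zero] at hb2
  have hbin : (1 + (n : A) * b) ^ n = 1 + (n : A) ^ 2 * w := by
    have h1 : (1 + (n : A) * b) ^ n = 1 + (n : A) ^ 2 * w + (n : A) ^ 2 * g.eval b := by
      rw [add_comm, add_pow, hnm, Finset.sum_range_succ', Finset.sum_range_succ', hg]
      simp only [Polynomial.eval_add, Polynomial.eval_C, Polynomial.eval_X,
        Polynomial.eval_finsetSum, Polynomial.eval_mul, Polynomial.eval_pow, one_pow, mul_one]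
      rw [mul_add, Finset.mul_sum]
      have h2 : ∀ i ∈ Finset.range m, (((m + 1 : ℕ) : A) * b) ^ (i + 1 + 1) *
          (((m + 1).choose (i + 1 + 1) : ℕ) : A) =
          ((m + 1 : ℕ) : A) ^ 2 * ((((m + 1).choose (i + 2) : ℕ) : A) * ((m + 1 : ℕ) : A) ^ i *
            b ^ (i + 2)) := by
        intro i _
        rw [mul_pow]
        ring
      rw [Finset.sum_congr rfl h2]
      simp only [zero_add, pow_one, pow_zero, Nat.choose_one_right, Nat.choose_zero_right,
        Nat.cast_one, mul_one]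
      ring
    rw [h1, hb1.eq_zero, mul_zero, add_zero]
  refine ⟨b, ValuationSubring.coe_mem_nonunits_iff.2 hb2, ?_⟩
  have h3 := congrArg (fun a : A => (a : F)) hbin
  push_cast at h3
  exact h3

theorem finite_mod_pow [CharZero F] (hA : HDVR A) {n : ℕ} (hn : n ≠ 0) :
    ∃ S : Finset F, (∀ s ∈ S, s ≠ 0) ∧ ∀ x : F, x ≠ 0 → ∃ s ∈ S, ∃ y : F, y ≠ 0 ∧ x = s * y ^ n := by
  classical
  have := hA.dvr
  have := hA.fin
  obtain ⟨π, hπ⟩ := exists_unif hA.dvr
  have hnF : (n : F) ≠ 0 := Nat.cast_ne_zero.2 hn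
  have hπm : π ∈ A := pw_mem hπ.non
  set t : A := (n : A) ^ 2 * ⟨π, hπm⟩ with ht
  have htF : (t : F) = (n : F) ^ 2 * π := by
    rw [ht]
    push_cast
    rfl
  have ht0 : t ≠ 0 := by
    intro h
    have : (t : F) = 0 := by rw [h]; rfl
    rw [htF] at this
    exact mul_ne_zero (pow_ne_zero 2 hnF) hπ.ne this
  -- the quotient is finite
  have hfin : Finite (A ⧸ Ideal.span {t}) := by
    obtain ⟨ϖ, hϖ⟩ := IsDiscreteValuationRing.exists_irreducible A
    have hne : Ideal.span {t} ≠ (⊥ : Ideal A) := by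
      rw [Ne, Ideal.span_singleton_eq_bot]
      exact ht0
    obtain ⟨k, hk⟩ := IsDiscreteValuationRing.ideal_eq_span_pow_irreducible hne hϖ
    rw [hk, ← Ideal.span_singleton_pow, ← hϖ.maximalIdeal_eq]
    have hfg : (maximalIdeal A).FG := by
      rw [hϖ.maximalIdeal_eq]
      exact ⟨{ϖ}, by simp⟩
    have hf : Finite (A ⧸ maximalIdeal A) := hA.fin
    exact Ideal.finite_quotient_pow hfg k
  have hft : Fintype (A ⧸ Ideal.span {t}) := Fintype.ofFinite _
  refine ⟨((Finset.range n ×ˢ (Finset.univ : Finset (A ⧸ Ideal.span {t}))).image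
    (fun z => π ^ z.1 * ((Quotient.out z.2 : A) : F))).filter (fun s => s ≠ 0), ?_, ?_⟩
  · intro s hs
    exact (Finset.mem_filter.1 hs).2
  · intro x hx
    obtain ⟨k, u, hu, hxk⟩ := exists_zpow hA.dvr hπ hx
    set v : A := ⟨u, hu.1⟩ with hv
    set r : A := Quotient.out (Ideal.Quotient.mk (Ideal.span {t}) v) with hr
    have hrv : v - r ∈ Ideal.span {t} := by
      rw [← Ideal.Quotient.eq]
      exact (Quotient.out_eq _).symm
    obtain ⟨d, hd⟩ := Ideal.mem_span_singleton'.1 hrv
    have hdF : u - (r : F) = (d : F) * ((n : F) ^ 2 * π) := by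
      have h1 := congrArg (fun a : A => (a : F)) hd
      rw [← htF]
      push_cast at h1
      exact h1.symm
    have hn2 : (n : F) ^ 2 ∈ A := by
      have : (((n : A) ^ 2 : A) : F) = (n : F) ^ 2 := by push_cast; rfl
      rw [← this]
      exact ((n : A) ^ 2).2
    have hur : u - (r : F) ∈ A.nonunits := by
      have h1 : u - (r : F) = π * ((n : F) ^ 2 * d) := by rw [hdF]; ring
      rw [h1]
      exact pw_mul hπ.non (A.mul_mem _ _ hn2 d.2)
    have hru : IsUn A (r : F) := by
      refine ⟨r.2, fun h => hu.2 ?_⟩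
      have h1 : residue A (v - r) = 0 := by
        refine pw_non.1 ?_
        exact hur
      have h2 : residue A r = 0 := pw_non.1 h
      rw [map_sub, h2, sub_zero] at h1
      exact pw_non.2 h1
    have hr0 : (r : F) ≠ 0 := (isUn_iff.1 hru).1
    have hyn : π * ((d : F) * (r : F)⁻¹) ∈ A.nonunits :=
      pw_mul hπ.non (A.mul_mem _ _ d.2 (isUn_iff.1 hru).2.2)
    obtain ⟨z, -, hz⟩ := exists_root_deep hA hn hyn
    have hurz : u = r * (1 + n * z) ^ n := by
      rw [hz]
      have : u = r + (d : F) * ((n : F) ^ 2 * π) := by rw [← hdF]; ring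
      rw [this]
      field_simp
    have hw0 : (1 + (n : F) * z) ≠ 0 := by
      intro h
      rw [h, zero_pow hn, mul_zero] at hurz
      exact (isUn_iff.1 hu).1 hurz
    have hnpos : (0 : ℤ) < n := by exact_mod_cast Nat.pos_of_ne_zero hn
    obtain ⟨i, hi⟩ := Int.eq_ofNat_of_zero_le (Int.emod_nonneg k hnpos.ne')
    have hilt : i < n := by
      have := Int.emod_lt_of_pos k hnpos
      rw [hi] at this
      exact_mod_cast this
    have hkeq : k = i + n * (k / n) := by
      have := Int.emod_add_mul_ediv k n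
      rw [hi] at this
      exact this.symm
    have hs0 : π ^ i * (r : F) ≠ 0 := mul_ne_zero (pow_ne_zero _ hπ.ne) hr0
    refine ⟨π ^ i * (r : F), ?_, π ^ (k / n) * (1 + n * z),
      mul_ne_zero (zpow_ne_zero _ hπ.ne) hw0, ?_⟩
    · rw [Finset.mem_filter]
      refine ⟨Finset.mem_image.2 ⟨(i, Ideal.Quotient.mk (Ideal.span {t}) v), ?_, rfl⟩, hs0⟩
      simp [hilt]
    · rw [hxk, mul_pow, hurz]
      have h1 : π ^ k = π ^ i * (π ^ (k / n)) ^ n := by
        conv_lhs => rw [hkeq]
        rw [zpow_add₀ hπ.ne, zpow_natCast, mul_comm (n : ℤ), zpow_mul, zpow_natCast]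
      rw [h1]
      ring

end Pool.Agent.Helper60.SL
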