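import Mathlib
import Pool.Agent.Helper60.SL.Defs
import Pool.Agent.Helper60.SL.Unif
import Pool.Agent.Helper60.SL.Pow

/-!
# SL-11: reduction of roots of unity of order prime to the residue characteristic

PROOF.  Let `ζ` be a primitive `N`-th root of unity in `F`, `N` prime to the residue characteristic `p`.  `∏_{0 < i < N} (1 - ζ^i) = N` (Mathlib: `IsPrimitiveRoot` / cyclotomic: evaluate `(X^N - 1)/(X - 1)` at `1`), a unit
(`natCast_isUn`), and all factors are in `A`, so all factors are units: `one_sub_isUn`.  Hence `x = ζ^i` and `y = ζ^j` with `x - y` a nonunit are equal.  `card_dvd`: the classes of the `ζ^i` form a subgroup of order `N` of the group of units of the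
residue field, which has `Nat.card - 1` elements.  `root_eq`: every `x` with `x^N = 1` is a power of `ζ`.
-/

set_option autoImplicit false

open IsLocalRing

namespace Pool.Agent.Helper60.SL

variable {F : Type*} [Field F] {A : ValuationSubring F}

private theorem isUn_val {x : F} : IsUn A x ↔ A.valuation x = 1 := by
  unfold IsUn
  rw [ValuationSubring.mem_nonunits_iff, ← ValuationSubring.valuation_le_one_iff]
  constructor
  · rintro ⟨h1, h2⟩
    exact le_antisymm h1 (not_lt.mp h2)
  · intro h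
    rw [h]
    exact ⟨le_rfl, lt_irrefl 1⟩

private theorem val_root {N : ℕ} (hN : N ≠ 0) {x : F} (hx : x ^ N = 1) : A.valuation x = 1 := by
  have h : A.valuation x ^ N = 1 := by rw [← map_pow, hx, map_one]
  exact (pow_eq_one_iff.mp h).resolve_right hN

theorem one_sub_isUn {p : ℕ} [CharP (ResidueField A) p] {N : ℕ} (hN : ¬ p ∣ N) {ζ : F}
    (hζ : IsPrimitiveRoot ζ N) {i : ℕ} (hi : ¬ N ∣ i) : IsUn A (1 - ζ ^ i) := by
  have hN0 : N ≠ 0 := by
    rintro rfl
    exact hN (dvd_zero p)
  have hle : ∀ k : ℕ, A.valuation (1 - ζ ^ k) ≤ 1 := by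
    intro k
    refine (A.valuation.map_sub _ _).trans ?_
    rw [map_one, map_pow, val_root hN0 hζ.pow_eq_one, one_pow, max_self]
  obtain ⟨M, rfl⟩ := Nat.exists_eq_succ_of_ne_zero hN0
  have hprod := hζ.prod_one_sub_pow_eq_order
  have hNu : A.valuation ((M.succ : ℕ) : F) = 1 := isUn_val.mp (natCast_isUn hN)
  have hmod : ζ ^ i = ζ ^ (i % M.succ) := by
    conv_lhs => rw [← Nat.div_add_mod i M.succ, pow_add, pow_mul, hζ.pow_eq_one, one_pow, one_mul]
  have hr0 : i % M.succ ≠ 0 := fun h => hi (Nat.dvd_of_mod_eq_zero h)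
  have hr1 : i % M.succ < M.succ := Nat.mod_lt _ (Nat.succ_pos M)
  rw [isUn_val, hmod]
  have hmem : i % M.succ - 1 ∈ Finset.range M := by
    rw [Finset.mem_range]
    omega
  rw [← Finset.mul_prod_erase _ _ hmem] at hprod
  have hval := congrArg A.valuation hprod
  have hcast : (M : F) + 1 = ((M.succ : ℕ) : F) := by push_cast; ring
  rw [hcast, hNu, map_mul] at hval
  have h1 : i % M.succ - 1 + 1 = i % M.succ := by omega
  rw [h1] at hval
  refine le_antisymm (hle _) ?_
  have h2 : A.valuation (∏ x ∈ (Finset.range M).erase (i % M.succ - 1), (1 - ζ ^ (x + 1))) ≤ 1 := by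
    rw [map_prod]
    exact Finset.prod_le_one' fun x _ => hle _
  calc (1 : A.ValueGroup) = _ := hval.symm
    _ ≤ A.valuation (1 - ζ ^ (i % M.succ)) * 1 := mul_le_mul_right h2 _
    _ = _ := mul_one _

theorem root_eq {p : ℕ} [CharP (ResidueField A) p] {N : ℕ} (hN : ¬ p ∣ N) {ζ : F}
    (hζ : IsPrimitiveRoot ζ N) {x y : F} (hx : x ^ N = 1) (hy : y ^ N = 1)
    (h : x - y ∈ A.nonunits) : x = y := by
  have hN0 : N ≠ 0 := by
    rintro rfl
    exact hN (dvd_zero p)
  by_contra hne
  have hy0 : y ≠ 0 := by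
    rintro rfl
    rw [zero_pow hN0] at hy
    exact zero_ne_one hy
  have hw : (x / y) ^ N = 1 := by rw [div_pow, hx, hy, div_one]
  have : NeZero N := ⟨hN0⟩
  obtain ⟨i, -, hi⟩ := hζ.eq_pow_of_pow_eq_one hw
  have hni : ¬ N ∣ i := by
    intro hd
    rw [(hζ.pow_eq_one_iff_dvd i).mpr hd] at hi
    exact hne (by rw [eq_div_iff hy0, one_mul] at hi; exact hi.symm)
  have h1 := isUn_val.mp (one_sub_isUn (A := A) hN hζ hni)
  rw [hi] at h1
  have h2 : x - y = -(y * (1 - x / y)) := by
    field_simp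
    ring
  rw [ValuationSubring.mem_nonunits_iff, h2, Valuation.map_neg, map_mul, h1, val_root hN0 hy,
    one_mul] at h
  exact lt_irrefl _ h

theorem card_dvd [Finite (ResidueField A)] {p : ℕ} [CharP (ResidueField A) p] {N : ℕ}
    (hN : ¬ p ∣ N) {ζ : F} (hζ : IsPrimitiveRoot ζ N) : N ∣ Nat.card (ResidueField A) - 1 := by
  have hN0 : N ≠ 0 := by
    rintro rfl
    exact hN (dvd_zero p)
  have hmem : ζ ∈ A := by
    rw [← ValuationSubring.valuation_le_one_iff, val_root hN0 hζ.pow_eq_one]
  set z : ResidueField A := residue A ⟨ζ, hmem⟩ with hz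
  have hzN : z ^ N = 1 := by
    rw [hz, ← map_pow]
    have : (⟨ζ, hmem⟩ : A) ^ N = 1 := Subtype.ext hζ.pow_eq_one
    rw [this, map_one]
  have hord : IsPrimitiveRoot z N := by
    refine ⟨hzN, fun i hi => ?_⟩
    by_contra hni
    have h1 := one_sub_isUn (A := A) hN hζ hni
    apply h1.2
    have h2 : ((1 - (⟨ζ, hmem⟩ : A) ^ i : A) : F) = 1 - ζ ^ i := rfl
    rw [← h2, ValuationSubring.coe_mem_nonunits_iff, ← residue_eq_zero_iff, map_sub, map_one,
      map_pow, ← hz, hi, sub_self]
  have hz0 : z ≠ 0 := by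
    intro h
    rw [h, zero_pow hN0] at hzN
    exact zero_ne_one hzN
  have h3 : orderOf (Units.mk0 z hz0) = N := by
    rw [← orderOf_units, Units.val_mk0]
    exact hord.eq_orderOf.symm
  rw [← Nat.card_units, ← h3]
  exact orderOf_dvd_natCard _

end Pool.Agent.Helper60.SL
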