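import Mathlib
import Pool.Agent.Helper60.SL.Ext
import Pool.Agent.Helper60.SL.ExtBasic
import Pool.Agent.Helper60.SL.ExtHDVR
import Pool.Agent.Helper60.SL.Resid
import Pool.Agent.Helper60.SL.RootRed

/-!
# SL-12: the unramified extension of degree `n`

`q = Nat.card (ResidueField A)`, `N = q^n - 1` (prime to the residue characteristic `p`, `q` is a power of `p`).

PROOF.  Let `ζ ∈ Ω` be a primitive `N`-th root of unity (`Ω` algebraically closed of characteristic `0`) and `E = F(ζ)`, finite and Galois over `F` (splitting field of `X^N - 1`).  `B = ext hA E`, `k'` its residue field, with `q^f` elements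
(`card_residue_pow`, `ext_hdvr`).  `card_dvd`: `q^n - 1 ∣ q^f - 1`, so `n ∣ f` and `n ≤ f`; `card_residue_le`: `f ≤ [E : F]`.
Let `g ∈ Gal(E/F)`.  It preserves `B` and its maximal ideal (`ext_hom`, `ext_nonunits_hom`) and induces an automorphism of `k'` which is the identity on the image of `ResidueField A`, so it is `x ↦ x^(q^i)` for some `i`
(Galois theory of finite fields: `FiniteField` Frobenius generates the Galois group of `k'` over the field with `q` elements).  So `g ζ - ζ^(q^i)` is a nonunit and `g ζ = ζ^(q^i)` by `root_eq`; `ζ^(q^i)` depends only on `i mod n`.  As `g` is determined by `g ζ`, the group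
has at most `n` elements: `[E : F] ≤ n`.  So `f = n = [E : F]`, `unif_of_card` gives the uniformizer, and every `i mod n` occurs: `φ ζ = ζ^q` for some `φ`, which generates the group and satisfies `φ x = x^q` for all roots of unity `x = ζ^j`.
`k'` has `q^n = N + 1` elements, so `k' = {0} ∪ {powers of the class of ζ}`, hence `φ` acts on `k'` as `x ↦ x^q`: `φ x - x^q` is a nonunit for all `x ∈ B`.
-/

set_option autoImplicit false

open IsLocalRing

namespace Pool.Agent.Helper60.SL

variable {F : Type*} [Field F] [CharZero F] {A : ValuationSubring F} (hA : HDVR A)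

section residue

variable {E : Type*} [Field E] [Algebra F E] [Algebra.IsAlgebraic F E]

/-- The inclusion of `A` into `ext hA E`. -/
noncomputable def inclExt (E : Type*) [Field E] [Algebra F E] [Algebra.IsAlgebraic F E] :
    A →+* ext hA E :=
  (algebraMap F E).restrict A (ext hA E) (fun x hx => (ext_map hA x).2 hx)

/-- An automorphism of `E` over `F` acts on `ext hA E`. -/
noncomputable def actExt (g : E ≃ₐ[F] E) : ext hA E →+* ext hA E :=
  (g : E →+* E).restrict (ext hA E) (ext hA E) (fun x hx => (ext_hom hA (g : E →ₐ[F] E) x).2 hx)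

theorem coe_inclExt (x : A) : ((inclExt hA E x : ext hA E) : E) = algebraMap F E x := rfl

theorem coe_actExt (g : E ≃ₐ[F] E) (x : ext hA E) : ((actExt hA g x : ext hA E) : E) = g x := rfl

theorem isUnit_iff_not_nonunits {K : Type*} [Field K] (V : ValuationSubring K) (x : V) :
    IsUnit x ↔ (x : K) ∉ V.nonunits := by
  rw [ValuationSubring.coe_mem_nonunits_iff]
  simp

instance isLocalHom_inclExt : IsLocalHom (inclExt hA E) := ⟨fun x hx => by
  rw [isUnit_iff_not_nonunits] at hx ⊢
  rw [coe_inclExt, ext_nonunits_map] at hx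
  exact hx⟩

instance isLocalHom_actExt (g : E ≃ₐ[F] E) : IsLocalHom (actExt hA g) := ⟨fun x hx => by
  rw [isUnit_iff_not_nonunits] at hx ⊢
  rw [coe_actExt] at hx
  exact fun h => hx ((ext_nonunits_hom hA (g : E →ₐ[F] E) x).2 h)⟩

theorem residue_eq_iff {K : Type*} [Field K] (V : ValuationSubring K) (x y : V) :
    residue V x = residue V y ↔ (x : K) - y ∈ V.nonunits := by
  have h : ((x - y : V) : K) = (x : K) - y := rfl
  rw [← h, ValuationSubring.coe_mem_nonunits_iff, ← residue_eq_zero_iff, map_sub, sub_eq_zero]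

/-- Every automorphism acts on the residue field as a power of the Frobenius. -/
theorem act_frob [FiniteDimensional F E] (g : E ≃ₐ[F] E) :
    ∃ i : ℕ, ∀ x ∈ ext hA E,
      g x - x ^ (Nat.card (ResidueField A) ^ i) ∈ (ext hA E).nonunits := by
  classical
  have hB := ext_hdvr hA E
  have : Finite (ResidueField A) := hA.fin
  have : Finite (ResidueField (ext hA E)) := hB.fin
  let _ : Fintype (ResidueField A) := Fintype.ofFinite _
  let _ : Algebra (ResidueField A) (ResidueField (ext hA E)) :=
    (ResidueField.map (inclExt hA E)).toAlgebra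
  let σ : ResidueField (ext hA E) →ₐ[ResidueField A] ResidueField (ext hA E) :=
    { ResidueField.map (actExt hA g) with
      commutes' := by
        intro c
        obtain ⟨c, rfl⟩ := residue_surjective c
        change ResidueField.map (actExt hA g) (ResidueField.map (inclExt hA E) (residue A c)) =
          ResidueField.map (inclExt hA E) (residue A c)
        rw [ResidueField.map_residue, ResidueField.map_residue]
        congr 1
        apply Subtype.ext
        rw [coe_actExt, coe_inclExt]
        exact g.commutes _ }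
  obtain ⟨i, hi⟩ := (FiniteField.bijective_frobeniusAlgHom_pow (ResidueField A)
    (ResidueField (ext hA E))).2 σ
  refine ⟨i, fun x hx => ?_⟩
  have h1 : σ (residue _ ⟨x, hx⟩) =
      (residue (ext hA E) ⟨x, hx⟩) ^ (Nat.card (ResidueField A) ^ (i : ℕ)) := by
    rw [← hi]
    simp only [AlgHom.coe_pow, FiniteField.coe_frobeniusAlgHom, pow_iterate]
    rw [Nat.card_eq_fintype_card]
  have h2 : σ (residue _ ⟨x, hx⟩) = residue _ (actExt hA g ⟨x, hx⟩) := by
    change ResidueField.map (actExt hA g) _ = _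
    rw [ResidueField.map_residue]
  rw [h2, ← map_pow, residue_eq_iff] at h1
  exact h1

theorem charP_ext [FiniteDimensional F E] (p : ℕ) [CharP (ResidueField A) p] :
    CharP (ResidueField (ext hA E)) p :=
  charP_of_injective_ringHom (ResidueField.map (inclExt hA E)).injective p

theorem unram_aux [FiniteDimensional F E] [IsGalois F E] {n : ℕ} (hn : n ≠ 0) {ζ : E}
    (hζ : IsPrimitiveRoot ζ (Nat.card (ResidueField A) ^ n - 1))
    (hadj : Algebra.adjoin F {ζ} = ⊤) :
    Module.finrank F E = n ∧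
      Nat.card (ResidueField (ext hA E)) = Nat.card (ResidueField A) ^ n ∧
      ∃ φ : E ≃ₐ[F] E, φ ζ = ζ ^ Nat.card (ResidueField A) ∧
        ∀ g : E ≃ₐ[F] E, g ∈ Subgroup.zpowers φ := by
  classical
  have hB := ext_hdvr hA E
  have : Finite (ResidueField A) := hA.fin
  have : Finite (ResidueField (ext hA E)) := hB.fin
  let _ : Fintype (ResidueField A) := Fintype.ofFinite _
  obtain ⟨p, hp⟩ := CharP.exists (ResidueField A)
  obtain ⟨m, hpp, hcard⟩ := FiniteField.card (ResidueField A) p
  rw [← Nat.card_eq_fintype_card] at hcard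
  have hq2 : 1 < Nat.card (ResidueField A) := Finite.one_lt_card
  set q := Nat.card (ResidueField A) with hq
  have hpq : p ∣ q := by
    rw [hcard]; exact dvd_pow_self p m.pos.ne'
  have hqn : 1 < q ^ n := Nat.one_lt_pow hn hq2
  have hpN : ¬ p ∣ q ^ n - 1 := by
    intro h
    have h1 : p ∣ q ^ n := dvd_pow hpq hn
    have h2 : p ∣ 1 := by
      have := (Nat.dvd_sub h1 h)
      rwa [Nat.sub_sub_self hqn.le] at this
    exact hpp.one_lt.ne' (Nat.dvd_one.1 h2)
  have : CharP (ResidueField (ext hA E)) p := charP_ext hA p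
  -- the size of the residue field
  obtain ⟨f, hf0, hf⟩ := card_residue_pow hA E
  rw [← hq] at hf
  have hnf : n ≤ f := by
    have h1 := card_dvd (A := ext hA E) hpN hζ
    rw [hf] at h1
    have h2 : 1 < q ^ f := Nat.one_lt_pow hf0.ne' hq2
    have h3 := Nat.le_of_dvd (by omega) h1
    exact (Nat.pow_le_pow_iff_right hq2).1 (by omega)
  have hfE : f ≤ Module.finrank F E := by
    have h1 := card_residue_le hA E
    rw [hf, ← hq] at h1
    exact (Nat.pow_le_pow_iff_right hq2).1 h1
  -- the automorphisms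
  have hper : ∀ i : ℕ, ζ ^ q ^ (i + n) = ζ ^ q ^ i := by
    intro i
    have h1 : q ^ (i + n) = (q ^ n - 1) * q ^ i + q ^ i := by
      rw [pow_add, ← Nat.succ_mul, Nat.succ_eq_add_one, Nat.sub_add_cancel hqn.le, mul_comm]
    rw [h1, pow_add, pow_mul, hζ.pow_eq_one, one_pow, one_mul]
  have hper2 : ∀ i j : ℕ, ζ ^ q ^ (i + n * j) = ζ ^ q ^ i := by
    intro i j
    induction j with
    | zero => simp
    | succ j ih => rw [Nat.mul_succ, ← add_assoc, hper, ih]
  have hmod : ∀ i : ℕ, ζ ^ q ^ i = ζ ^ q ^ (i % n) := by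
    intro i
    conv_lhs => rw [← Nat.mod_add_div i n]
    exact hper2 _ _
  have hz1 : ζ ∈ ext hA E := by
    have h1 : ζ ^ (q ^ n - 1) ∈ ext hA E := by
      rw [hζ.pow_eq_one]; exact one_mem _
    rw [mem_ext] at h1 ⊢
    exact IsIntegral.of_pow (by omega) h1
  have hact : ∀ g : E ≃ₐ[F] E, ∃ i : ℕ, g ζ = ζ ^ q ^ i := by
    intro g
    obtain ⟨i, hi⟩ := act_frob hA g
    refine ⟨i, root_eq (A := ext hA E) hpN hζ ?_ ?_ (hi ζ hz1)⟩
    · rw [← map_pow, hζ.pow_eq_one, map_one]
    · rw [← pow_mul, mul_comm, pow_mul, hζ.pow_eq_one, one_pow]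
  have hext : ∀ g h : E ≃ₐ[F] E, g ζ = h ζ → g = h := by
    intro g h hgh
    have h1 : (g : E →ₐ[F] E) = h := by
      apply AlgHom.ext_of_adjoin_eq_top hadj
      intro x hx
      rw [Set.mem_singleton_iff] at hx
      subst hx
      exact hgh
    ext x
    exact DFunLike.congr_fun h1 x
  let S : Finset E := (Finset.range n).image (fun i => ζ ^ q ^ i)
  have hSmem : ∀ i : ℕ, ζ ^ q ^ i ∈ S := by
    intro i
    rw [hmod]
    exact Finset.mem_image_of_mem _ (Finset.mem_range.2 (Nat.mod_lt _ (Nat.pos_of_ne_zero hn)))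
  have hScard : S.card ≤ n := by
    refine Finset.card_image_le.trans ?_
    simp
  let _ : Fintype (E ≃ₐ[F] E) := Fintype.ofFinite _
  have hGcard : Fintype.card (E ≃ₐ[F] E) = Module.finrank F E := by
    rw [← Nat.card_eq_fintype_card]
    exact IsGalois.card_aut_eq_finrank F E
  let ev : (E ≃ₐ[F] E) → S := fun g => ⟨g ζ, by
    obtain ⟨i, hi⟩ := hact g
    rw [hi]; exact hSmem i⟩
  have hev : Function.Injective ev := by
    intro g h hgh
    exact hext g h (congrArg Subtype.val hgh)
  have hle : Module.finrank F E ≤ S.card := by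
    rw [← hGcard, ← Fintype.card_coe]
    exact Fintype.card_le_of_injective ev hev
  have hfin : Module.finrank F E = n := by omega
  have hfn : f = n := by omega
  have hbij : Function.Bijective ev := by
    rw [Fintype.bijective_iff_injective_and_card]
    refine ⟨hev, ?_⟩
    rw [hGcard, Fintype.card_coe]
    omega
  have hzq : ζ ^ q ∈ S := by
    have := hSmem 1
    rwa [pow_one] at this
  obtain ⟨φ, hφ⟩ := hbij.2 ⟨ζ ^ q, hzq⟩
  have hφ1 : φ ζ = ζ ^ q := congrArg Subtype.val hφ
  refine ⟨hfin, by rw [hf, hfn], φ, hφ1, fun g => ?_⟩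
  obtain ⟨i, hi⟩ := hact g
  have hpow : ∀ i : ℕ, (φ ^ i) ζ = ζ ^ q ^ i := by
    intro i
    induction i with
    | zero => simp
    | succ i ih =>
      rw [pow_succ, AlgEquiv.mul_apply, hφ1, map_pow, ih, ← pow_mul, ← pow_succ]
  have : g = φ ^ i := hext _ _ (by rw [hi, hpow])
  rw [this]
  exact Subgroup.npow_mem_zpowers φ i

theorem frob_act_aux [FiniteDimensional F E] {n : ℕ} (hn : n ≠ 0) {ζ : E}
    (hζ : IsPrimitiveRoot ζ (Nat.card (ResidueField A) ^ n - 1))
    (h2 : Nat.card (ResidueField (ext hA E)) = Nat.card (ResidueField A) ^ n)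
    (φ : E ≃ₐ[F] E) (h3 : φ ζ = ζ ^ Nat.card (ResidueField A)) :
    ∀ x ∈ ext hA E, φ x - x ^ Nat.card (ResidueField A) ∈ (ext hA E).nonunits := by
  classical
  have hfinA : Finite (ResidueField A) := hA.fin
  have hq2 : 1 < Nat.card (ResidueField A) := Finite.one_lt_card
  have hqn : 1 < Nat.card (ResidueField A) ^ n := Nat.one_lt_pow hn hq2
  intro x hx
  obtain ⟨i, hi⟩ := act_frob hA φ
  have hB := ext_hdvr hA E
  have hfinB : Finite (ResidueField (ext hA E)) := hB.fin
  obtain ⟨p, hp⟩ := CharP.exists (ResidueField A)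
  let _ : Fintype (ResidueField A) := Fintype.ofFinite _
  obtain ⟨m, hpp, hcard⟩ := FiniteField.card (ResidueField A) p
  rw [← Nat.card_eq_fintype_card] at hcard
  have hpq : p ∣ Nat.card (ResidueField A) := by
    rw [hcard]; exact dvd_pow_self p m.pos.ne'
  have hpN : ¬ p ∣ Nat.card (ResidueField A) ^ n - 1 := by
    intro h
    have h1 : p ∣ Nat.card (ResidueField A) ^ n := dvd_pow hpq hn
    have h2 : p ∣ 1 := by
      have := (Nat.dvd_sub h1 h)
      rwa [Nat.sub_sub_self hqn.le] at this
    exact hpp.one_lt.ne' (Nat.dvd_one.1 h2)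
  have hpB : CharP (ResidueField (ext hA E)) p := charP_ext hA p
  have hz1 : ζ ∈ ext hA E := by
    have h1 : ζ ^ (Nat.card (ResidueField A) ^ n - 1) ∈ ext hA E := by
      rw [hζ.pow_eq_one]; exact one_mem _
    rw [mem_ext] at h1 ⊢
    exact IsIntegral.of_pow (by omega) h1
  have h6 : ζ ^ Nat.card (ResidueField A) = ζ ^ (Nat.card (ResidueField A) ^ i) := by
    refine root_eq (A := ext hA E) hpN hζ ?_ ?_ ?_
    · rw [← pow_mul, mul_comm, pow_mul, hζ.pow_eq_one, one_pow]
    · rw [← pow_mul, mul_comm, pow_mul, hζ.pow_eq_one, one_pow]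
    · rw [← h3]; exact hi ζ hz1
  have h7 : Nat.card (ResidueField A) ≡ Nat.card (ResidueField A) ^ i
      [MOD Nat.card (ResidueField A) ^ n - 1] := by
    have hu : IsPrimitiveRoot (Units.mk0 ζ (hζ.ne_zero (by omega)))
        (Nat.card (ResidueField A) ^ n - 1) := IsPrimitiveRoot.coe_units_iff.1 hζ
    rw [hu.eq_orderOf]
    refine pow_eq_pow_iff_modEq.1 (Units.ext ?_)
    rw [Units.val_pow_eq_pow_val, Units.val_pow_eq_pow_val]
    exact h6
  have h8 : residue (ext hA E) (actExt hA φ ⟨x, hx⟩) =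
      (residue (ext hA E) ⟨x, hx⟩) ^ Nat.card (ResidueField A) := by
    have h9 : residue (ext hA E) (actExt hA φ ⟨x, hx⟩) =
        (residue (ext hA E) ⟨x, hx⟩) ^ (Nat.card (ResidueField A) ^ i) := by
      rw [← map_pow, residue_eq_iff]
      exact hi x hx
    rw [h9]
    by_cases h0 : residue (ext hA E) ⟨x, hx⟩ = 0
    · rw [h0, zero_pow (pow_ne_zero _ (by omega)), zero_pow (by omega)]
    · have h10 : (residue (ext hA E) ⟨x, hx⟩) ^ (Nat.card (ResidueField A) ^ n - 1) = 1 := by
        let _ : Fintype (ResidueField (ext hA E)) := Fintype.ofFinite _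
        rw [← h2, Nat.card_eq_fintype_card]
        exact FiniteField.pow_card_sub_one_eq_one _ h0
      exact (pow_eq_pow_of_modEq h7 h10).symm
  rw [← map_pow, residue_eq_iff] at h8
  exact h8

end residue

theorem exists_unram {Ω : Type*} [Field Ω] [Algebra F Ω] [IsAlgClosed Ω] {n : ℕ} (hn : n ≠ 0) :
    ∃ (E : IntermediateField F Ω) (_ : FiniteDimensional F E) (_ : IsGalois F E)
      (φ : E ≃ₐ[F] E),
      Module.finrank F E = n ∧
      (∀ π, IsUnif A π → IsUnif (ext hA E) (algebraMap F E π)) ∧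
      Nat.card (ResidueField (ext hA E)) = Nat.card (ResidueField A) ^ n ∧
      (∀ g : E ≃ₐ[F] E, g ∈ Subgroup.zpowers φ) ∧
      (∀ ζ : E, ζ ^ (Nat.card (ResidueField A) ^ n - 1) = 1 →
        φ ζ = ζ ^ Nat.card (ResidueField A)) ∧
      (∀ x ∈ ext hA E, φ x - x ^ Nat.card (ResidueField A) ∈ (ext hA E).nonunits) ∧
      (∃ ζ : E, IsPrimitiveRoot ζ (Nat.card (ResidueField A) ^ n - 1) ∧
        IntermediateField.adjoin F {(ζ : Ω)} = E) := by
  classical
  have hfinA : Finite (ResidueField A) := hA.fin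
  have hchar : CharZero Ω := charZero_of_injective_algebraMap (algebraMap F Ω).injective
  have hq2 : 1 < Nat.card (ResidueField A) := Finite.one_lt_card
  have hqn : 1 < Nat.card (ResidueField A) ^ n := Nat.one_lt_pow hn hq2
  have hN0 : NeZero (Nat.card (ResidueField A) ^ n - 1) := ⟨by omega⟩
  have hN0' : NeZero ((Nat.card (ResidueField A) ^ n - 1 : ℕ) : Ω) :=
    ⟨Nat.cast_ne_zero.2 hN0.ne⟩
  obtain ⟨z, hz⟩ := HasEnoughRootsOfUnity.exists_primitiveRoot Ω
    (Nat.card (ResidueField A) ^ n - 1)
  have hzint : IsIntegral F z := IsIntegral.of_pow (Nat.pos_of_ne_zero hN0.ne)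
    (by rw [hz.pow_eq_one]; exact isIntegral_one)
  let E : IntermediateField F Ω := IntermediateField.adjoin F {z}
  have hzE : z ∈ E := IntermediateField.mem_adjoin_simple_self F z
  have hcyc : IsCyclotomicExtension {Nat.card (ResidueField A) ^ n - 1} F E := by
    change IsCyclotomicExtension {Nat.card (ResidueField A) ^ n - 1} F
      (IntermediateField.adjoin F {z}).toSubalgebra
    rw [IntermediateField.adjoin_simple_toSubalgebra_of_isAlgebraic hzint.isAlgebraic]
    exact hz.adjoin_isCyclotomicExtension F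
  have hfd : FiniteDimensional F E := IntermediateField.adjoin.finiteDimensional hzint
  have hgal : IsGalois F E :=
    IsCyclotomicExtension.isGalois {Nat.card (ResidueField A) ^ n - 1} F E
  let ζ : E := ⟨z, hzE⟩
  have hζ : IsPrimitiveRoot ζ (Nat.card (ResidueField A) ^ n - 1) :=
    IsPrimitiveRoot.coe_submonoidClass_iff.1 hz
  have hadj : Algebra.adjoin F {ζ} = ⊤ :=
    IsCyclotomicExtension.adjoin_primitive_root_eq_top hζ
  obtain ⟨h1, h2, φ, h3, h4⟩ := unram_aux hA hn hζ hadj
  have h5 : ∀ x : E, x ^ (Nat.card (ResidueField A) ^ n - 1) = 1 →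
      φ x = x ^ Nat.card (ResidueField A) := by
    intro x hx
    obtain ⟨i, -, rfl⟩ := hζ.eq_pow_of_pow_eq_one hx
    rw [map_pow, h3, ← pow_mul, ← pow_mul, mul_comm]
  refine ⟨E, hfd, hgal, φ, h1, fun π hπ => unif_of_card hA E (by rw [h2, h1]) hπ, h2, h4, h5,
    frob_act_aux hA hn hζ h2 φ h3, ζ, hζ, rfl⟩

end Pool.Agent.Helper60.SL
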