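import Mathlib
import Pool.Agent.Helper60.SL.Unram
import Pool.Agent.Helper60.SL.Fund
import Pool.Agent.Helper60.SL.ExtUnique
import Pool.Agent.Helper60.SL.Sys

/-!
# SL-26: the tame pair at level `n`

`q = Nat.card (ResidueField A)`, `p` the residue characteristic, `n` prime to `p`.

PROOF.  Choose `m > 0` with `n ∣ q^m - 1` (`q` is prime to `n`, as it is a power of `p`; Euler) and let `E`, `φ` be as in `exists_unram hA` for `m`; `z n ∈ E` (it is a power of a primitive `(q^m-1)`-th root of unity of `E`) and `φ (z n) = (z n)^q`.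
`irred`: let `a = r n`, `a^n = π` (`r (1 * n)^n = r 1`), and `E' = E(a)`, finite over `E` of degree `≤ n`.  `hE = ext_hdvr hA E`, `π` is a uniformizer of `ext hA E`.  Let `ϖ` be a uniformizer of `ext hE E'`, `a = ϖ^k u` (`exists_zpow`; `k ≥ 1` as `a^n = π` is a nonunit).
`fund hE E'`: `π / ϖ^e` is a unit, `e ≤ [E' : E]`.  So `k n = e` (`zpow_isUn`) and `n ≤ k n = e ≤ [E' : E] ≤ n`: `[E' : E] = n` and `X^n - π` is the minimal polynomial of `a` over `E` (monic of degree `n`, vanishing at `a`).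
`τ`: `z n * r n` is a root of `X^n - π = minpoly E (r n)`, so there is `τ ∈ Gal(Ω/E)` with `τ (r n) = z n * r n` (`minpoly.exists_algEquiv_of_root'`), and `τ (z n) = z n` as `z n ∈ E`.
`σ`: let `σ₁ ∈ Gal(Ω/F)` extend `φ` (`AlgEquiv.liftNormal`).  `σ₁ (r n)^n = π`, so `σ₁ (r n) = (z n)^j r n` for some `j`.  `τ^j` maps `r n` to `(z n)^j r n` and fixes `z n`, so `σ = τ^(-j) σ₁` fixes `r n` (`τ^(-j) ((z n)^j r n) = (z n)^j (z n)^(-j) r n`) and maps `z n` to `(z n)^q`.
-/

set_option autoImplicit false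

open IsLocalRing

namespace Pool.Agent.Helper60.SL

variable {F : Type*} [Field F] [CharZero F] {A : ValuationSubring F} (hA : HDVR A)
include hA in
/-- the ramification bound: a root of `X^n = π` generates an extension of degree at least `n` -/
private theorem level_deg {p : F} {B : Type*} [Field B] [Algebra F B] [FiniteDimensional F B]
    (hp : IsUnif A p) {a : B} {n : ℕ} (hn : n ≠ 0) (ha : a ^ n = algebraMap F B p) :
    n ≤ Module.finrank F B := by
  have hB := ext_hdvr hA B
  obtain ⟨ϖ, hϖ⟩ := exists_unif hB.dvr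
  obtain ⟨e, f, he, hf, hef, -, hun⟩ := fund hA B hp hϖ
  have ha0 : a ≠ 0 := by
    rintro rfl
    rw [zero_pow hn] at ha
    exact hp.ne ((map_eq_zero (algebraMap F B)).1 ha.symm)
  obtain ⟨k, u, hu, hk⟩ := exists_zpow hB.dvr hϖ ha0
  have hϖ0 : ϖ ≠ 0 := hϖ.ne
  have hu0 : u ≠ 0 := (isUn_iff.1 hu).1
  have h1 : algebraMap F B p / ϖ ^ e * (u ^ n)⁻¹ = ϖ ^ (k * n - e : ℤ) := by
    rw [← ha, hk, zpow_sub₀ hϖ0, mul_pow, zpow_mul, zpow_natCast, zpow_natCast]
    field_simp
  have h2 : IsUn (ext hA B) (ϖ ^ (k * n - e : ℤ)) := by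
    rw [← h1]
    exact hun.mul (hu.pow n).inv
  have h3 : (k * n - e : ℤ) = 0 := zpow_isUn hϖ h2
  have hn' : (0 : ℤ) < n := by exact_mod_cast Nat.pos_of_ne_zero hn
  have he' : (0 : ℤ) < e := by exact_mod_cast he
  have h4 : (0 : ℤ) < k := by
    by_contra hneg
    have h5 : k ≤ 0 := not_lt.1 hneg
    have h6 : k * n ≤ 0 := mul_nonpos_of_nonpos_of_nonneg h5 hn'.le
    omega
  have h7 : (n : ℤ) ≤ e := by
    have h8 : (1 : ℤ) * n ≤ k * n := mul_le_mul_of_nonneg_right (by omega) hn'.le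
    omega
  have h9 : n ≤ e := by exact_mod_cast h7
  rw [← hef]
  exact h9.trans (Nat.le_mul_of_pos_right e hf)

variable {Ω : Type*} [Field Ω] [Algebra F Ω] [IsAlgClosed Ω] [Algebra.IsAlgebraic F Ω]

include hA in
theorem exists_level {p : ℕ} [CharP (ResidueField A) p] {π : F} (hπ : IsUnif A π)
    {r z : ℕ → Ω} (hs : Sys π r z) {n : ℕ} (hn : ¬ p ∣ n) :
    ∃ σ τ : Ω ≃ₐ[F] Ω, σ (z n) = z n ^ Nat.card (ResidueField A) ∧ σ (r n) = r n ∧
      τ (z n) = z n ∧ τ (r n) = z n * r n := by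
  classical
  have hfinA : Finite (ResidueField A) := hA.fin
  have hcharΩ : CharZero Ω := charZero_of_injective_algebraMap (algebraMap F Ω).injective
  have hn0 : n ≠ 0 := by
    rintro rfl
    exact hn (dvd_zero p)
  have hq : Nat.Coprime (Nat.card (ResidueField A)) n := by
    let _ : Fintype (ResidueField A) := Fintype.ofFinite _
    obtain ⟨k, hpp, hcard⟩ := FiniteField.card (ResidueField A) p
    rw [← Nat.card_eq_fintype_card] at hcard
    rw [hcard]
    exact Nat.Coprime.pow_left _ ((Nat.Prime.coprime_iff_not_dvd hpp).2 hn)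
  have hq2 : 1 < Nat.card (ResidueField A) := Finite.one_lt_card
  have hm : n.totient ≠ 0 := (Nat.totient_pos.2 (Nat.pos_of_ne_zero hn0)).ne'
  have hdvd : n ∣ Nat.card (ResidueField A) ^ n.totient - 1 :=
    (Nat.modEq_iff_dvd' (Nat.one_le_pow _ _ (by omega))).1 (Nat.ModEq.pow_totient hq).symm
  have hqn : 1 < Nat.card (ResidueField A) ^ n.totient := Nat.one_lt_pow hm hq2
  have hN0 : NeZero (Nat.card (ResidueField A) ^ n.totient - 1) := ⟨by omega⟩
  have hnz : NeZero n := ⟨hn0⟩
  obtain ⟨E, hfd, hgal, φ, -, hunif, -, -, hroot, -, ζ, hζ, -⟩ :=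
    exists_unram hA (Ω := Ω) hm
  have hcharE : CharZero E := charZero_of_injective_algebraMap (algebraMap F E).injective
  have hprim := hs.prim n hn0
  have hζΩ : IsPrimitiveRoot (ζ : Ω) (Nat.card (ResidueField A) ^ n.totient - 1) :=
    hζ.map_of_injective (f := algebraMap E Ω) (algebraMap E Ω).injective
  have hz1 : z n ^ (Nat.card (ResidueField A) ^ n.totient - 1) = 1 := by
    obtain ⟨c, hc⟩ := hdvd
    rw [hc, pow_mul, hprim.pow_eq_one, one_pow]
  obtain ⟨i, -, hi⟩ := hζΩ.eq_pow_of_pow_eq_one hz1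
  obtain ⟨w, hw⟩ : ∃ w : E, algebraMap E Ω w = z n := ⟨ζ ^ i, by
    rw [map_pow]
    exact hi⟩
  have hφw : φ w = w ^ Nat.card (ResidueField A) := by
    apply hroot
    apply (algebraMap E Ω).injective
    rw [map_pow, hw, hz1, map_one]
  -- the root of `π`
  have han : r n ^ n = algebraMap F Ω π := by
    have h1 := hs.rmul 1 n one_ne_zero hn0
    rw [one_mul, hs.r1] at h1
    exact h1
  have hanE : r n ^ n = algebraMap E Ω (algebraMap F E π) := by
    rw [han]
    exact IsScalarTower.algebraMap_apply F E Ω π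
  have hπE := hunif π hπ
  have hE := ext_hdvr hA E
  have : Algebra.IsAlgebraic E Ω := Algebra.IsAlgebraic.tower_top (K := F) E
  have hint : IsIntegral E (r n) := Algebra.IsIntegral.isIntegral _
  have : FiniteDimensional E (IntermediateField.adjoin E {r n}) :=
    IntermediateField.adjoin.finiteDimensional hint
  have hdeg : n ≤ (minpoly E (r n)).natDegree := by
    rw [← IntermediateField.adjoin.finrank hint]
    refine level_deg hE hπE hn0
      (a := (⟨r n, IntermediateField.mem_adjoin_simple_self E (r n)⟩ :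
        IntermediateField.adjoin E {r n})) ?_
    apply Subtype.ext
    exact hanE
  have hmin : minpoly E (r n) = Polynomial.X ^ n - Polynomial.C (algebraMap F E π) := by
    have h1 : (Polynomial.X ^ n - Polynomial.C (algebraMap F E π)).Monic :=
      Polynomial.monic_X_pow_sub_C _ hn0
    have h2 : minpoly E (r n) ∣ Polynomial.X ^ n - Polynomial.C (algebraMap F E π) := by
      apply minpoly.dvd
      rw [map_sub, map_pow, Polynomial.aeval_X, Polynomial.aeval_C, hanE, sub_self]
    refine (Polynomial.eq_of_monic_of_dvd_of_natDegree_le (minpoly.monic hint) h1 h2 ?_).symm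
    rw [Polynomial.natDegree_X_pow_sub_C]
    exact hdeg
  have hclE : IsAlgClosure E Ω := ⟨inferInstance, inferInstance⟩
  have hclF : IsAlgClosure F Ω := ⟨inferInstance, inferInstance⟩
  have hnE : Normal E Ω := IsAlgClosure.normal E Ω
  have hnF : Normal F Ω := IsAlgClosure.normal F Ω
  have ha0 : r n ≠ 0 := by
    intro h
    rw [h, zero_pow hn0] at han
    exact hπ.ne ((map_eq_zero (algebraMap F Ω)).1 han.symm)
  obtain ⟨τE, hτE⟩ := minpoly.exists_algEquiv_of_root' (K := E) (y := r n) (x := z n * r n)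
    hint.isAlgebraic (by
      rw [hmin, map_sub, map_pow, Polynomial.aeval_X, Polynomial.aeval_C, mul_pow,
        hprim.pow_eq_one, one_mul, hanE, sub_self])
  let τ : Ω ≃ₐ[F] Ω := τE.restrictScalars F
  have hτr : τ (r n) = z n * r n := hτE
  have hτz : τ (z n) = z n := by
    change τE (z n) = z n
    rw [← hw]
    exact τE.commutes w
  have hτj : ∀ j : ℕ, (τ ^ j) (z n) = z n ∧ (τ ^ j) (r n) = z n ^ j * r n := by
    intro j
    induction j with
    | zero => simp
    | succ j ih =>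
      rw [pow_succ, AlgEquiv.mul_apply, AlgEquiv.mul_apply, hτz, hτr, map_mul, ih.1, ih.2]
      exact ⟨rfl, by ring⟩
  let σ₁ : Ω ≃ₐ[F] Ω := φ.liftNormal Ω
  have hσz : σ₁ (z n) = z n ^ Nat.card (ResidueField A) := by
    rw [← hw]
    change (φ.liftNormal Ω) (algebraMap E Ω w) = _
    rw [AlgEquiv.liftNormal_commutes, hφw, map_pow]
  have hσr : (σ₁ (r n) / r n) ^ n = 1 := by
    rw [div_pow, ← map_pow, han, AlgEquiv.commutes]
    exact div_self (by
      rw [← han]
      exact pow_ne_zero n ha0)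
  obtain ⟨j, -, hj⟩ := hprim.eq_pow_of_pow_eq_one hσr
  have hσr' : σ₁ (r n) = z n ^ j * r n := by
    rw [hj]
    field_simp
  refine ⟨(τ ^ j)⁻¹ * σ₁, τ, ?_, ?_, hτz, hτr⟩
  · rw [AlgEquiv.mul_apply, hσz]
    have h1 : (τ ^ j) (z n ^ Nat.card (ResidueField A)) = z n ^ Nat.card (ResidueField A) := by
      rw [map_pow, (hτj j).1]
    calc (τ ^ j)⁻¹ (z n ^ Nat.card (ResidueField A))
        = (τ ^ j)⁻¹ ((τ ^ j) (z n ^ Nat.card (ResidueField A))) := by rw [h1]
      _ = ((τ ^ j)⁻¹ * (τ ^ j)) (z n ^ Nat.card (ResidueField A)) := rfl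
      _ = z n ^ Nat.card (ResidueField A) := by rw [inv_mul_cancel]; rfl
  · rw [AlgEquiv.mul_apply, hσr', ← (hτj j).2]
    calc (τ ^ j)⁻¹ ((τ ^ j) (r n)) = ((τ ^ j)⁻¹ * (τ ^ j)) (r n) := rfl
      _ = r n := by rw [inv_mul_cancel]; rfl

end Pool.Agent.Helper60.SL
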