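import Mathlib
import Pool.Agent.Helper60.SL.Level

/-!
# SL-27: the tame pair

PROOF.  `Gal(Ω/F)` is compact in the Krull topology (`Mathlib.FieldTheory.Galois.Profinite`; `Ω / F` is Galois).  For `n` prime to `p` let `C n` be the set of pairs `(σ, τ)` satisfying the four conditions of level `n`.  It is closed (each set `{g | g x = y}` is closed: it is empty or a coset
`g₀ Gal(Ω/F(x))` of an open subgroup) and nonempty (`exists_level`).  `C (n m) ⊆ C n ∩ C m` for `n, m` prime to `p`: `z n = z (n m)^m`, `r n = r (n m)^m` (`Sys.rmul`, `Sys.zmul`).  So by compactness the intersection of all `C n` is nonempty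
(`IsCompact.nonempty_iInter_of_directed_nonempty_isCompact_isClosed`, index set `{n // ¬ p ∣ n}`).
-/

set_option autoImplicit false

open IsLocalRing

namespace Pool.Agent.Helper60.SL

/-- `(σ, τ)` is a tame pair for the systems `r`, `z` (`p` the residue characteristic, `q` the
cardinality of the residue field) -/
structure Tame {F Ω : Type*} [Field F] [Field Ω] [Algebra F Ω] (p q : ℕ) (r z : ℕ → Ω)
    (σ τ : Ω ≃ₐ[F] Ω) : Prop where
  sz : ∀ n, ¬ p ∣ n → σ (z n) = z n ^ q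
  sr : ∀ n, ¬ p ∣ n → σ (r n) = r n
  tz : ∀ n, ¬ p ∣ n → τ (z n) = z n
  tr : ∀ n, ¬ p ∣ n → τ (r n) = z n * r n

variable {F : Type*} [Field F] [CharZero F] {A : ValuationSubring F} (hA : HDVR A)
variable {Ω : Type*} [Field Ω] [Algebra F Ω] [IsAlgClosed Ω] [Algebra.IsAlgebraic F Ω]

omit [CharZero F] [IsAlgClosed Ω] in
private theorem isClosed_eq (x y : Ω) : IsClosed {g : Ω ≃ₐ[F] Ω | g x = y} := by
  by_cases h : ∃ g₀ : Ω ≃ₐ[F] Ω, g₀ x = y
  · obtain ⟨g₀, hg₀⟩ := h
    have hx : IsIntegral F x := Algebra.IsIntegral.isIntegral x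
    haveI : FiniteDimensional F (IntermediateField.adjoin F {x}) :=
      IntermediateField.adjoin.finiteDimensional hx
    have h1 : IsClosed ((IntermediateField.adjoin F {x}).fixingSubgroup : Set (Ω ≃ₐ[F] Ω)) :=
      IntermediateField.fixingSubgroup_isClosed _
    have h2 : {g : Ω ≃ₐ[F] Ω | g x = y} =
        (fun g : Ω ≃ₐ[F] Ω => g₀⁻¹ * g) ⁻¹'
          ((IntermediateField.adjoin F {x}).fixingSubgroup : Set (Ω ≃ₐ[F] Ω)) := by
      ext g
      simp only [Set.mem_setOf_eq, Set.mem_preimage, SetLike.mem_coe,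
        IntermediateField.mem_fixingSubgroup_iff]
      constructor
      · intro hg a ha
        have h3 : IntermediateField.adjoin F {x} ≤
            IntermediateField.fixedField (Subgroup.zpowers (g₀⁻¹ * g)) := by
          rw [IntermediateField.adjoin_le_iff]
          intro w hw
          rw [Set.mem_singleton_iff] at hw
          rw [hw, SetLike.mem_coe, IntermediateField.mem_fixedField_iff]
          intro f hf
          obtain ⟨k, rfl⟩ := Subgroup.mem_zpowers_iff.1 hf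
          have h4 : (g₀⁻¹ * g) ∈ MulAction.stabilizer (Ω ≃ₐ[F] Ω) x := by
            rw [MulAction.mem_stabilizer_iff]
            change g₀⁻¹ (g x) = x
            rw [hg, ← hg₀]
            exact g₀.symm_apply_apply x
          exact MulAction.mem_stabilizer_iff.1 (Subgroup.zpow_mem _ h4 k)
        exact (IntermediateField.mem_fixedField_iff _ _).1 (h3 ha) _ (Subgroup.mem_zpowers _)
      · intro hg
        have h3 := hg x (IntermediateField.mem_adjoin_simple_self F x)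
        have h4 : g₀⁻¹ (g x) = x := h3
        have h5 : g₀ (g₀⁻¹ (g x)) = g x := g₀.apply_symm_apply (g x)
        rw [h4] at h5
        rw [← h5, hg₀]
    rw [h2]
    exact h1.preimage (continuous_const.mul continuous_id)
  · have h2 : {g : Ω ≃ₐ[F] Ω | g x = y} = ∅ := by
      ext g
      simp only [Set.mem_setOf_eq, Set.mem_empty_iff_false, iff_false]
      exact fun hg => h ⟨g, hg⟩
    rw [h2]
    exact isClosed_empty

include hA in
theorem exists_tame {p : ℕ} [CharP (ResidueField A) p] {π : F} (hπ : IsUnif A π)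
    {r z : ℕ → Ω} (hs : Sys π r z) :
    ∃ σ τ : Ω ≃ₐ[F] Ω, Tame p (Nat.card (ResidueField A)) r z σ τ := by
  classical
  haveI := hA.fin
  haveI : IsAlgClosure F Ω := ⟨inferInstance, inferInstance⟩
  haveI : IsGalois F Ω := IsAlgClosure.isGalois F Ω
  have hp : p.Prime := (CharP.char_is_prime (ResidueField A) p)
  set q := Nat.card (ResidueField A) with hq
  let C : {n : ℕ // ¬ p ∣ n} → Set ((Ω ≃ₐ[F] Ω) × (Ω ≃ₐ[F] Ω)) := fun n =>
    {x | x.1 (z n) = z n ^ q ∧ x.1 (r n) = r n ∧ x.2 (z n) = z n ∧ x.2 (r n) = z n * r n}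
  have hne : ∀ n : {n : ℕ // ¬ p ∣ n}, (n : ℕ) ≠ 0 := fun n h => n.2 (by rw [h]; exact dvd_zero p)
  have hcl : ∀ n, IsClosed (C n) := by
    intro n
    have e : C n = (Prod.fst ⁻¹' {g : Ω ≃ₐ[F] Ω | g (z n) = z n ^ q}) ∩
        ((Prod.fst ⁻¹' {g : Ω ≃ₐ[F] Ω | g (r n) = r n}) ∩
        ((Prod.snd ⁻¹' {g : Ω ≃ₐ[F] Ω | g (z n) = z n}) ∩
        (Prod.snd ⁻¹' {g : Ω ≃ₐ[F] Ω | g (r n) = z n * r n}))) := rfl
    rw [e]
    exact ((isClosed_eq _ _).preimage continuous_fst).inter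
      (((isClosed_eq _ _).preimage continuous_fst).inter
      (((isClosed_eq _ _).preimage continuous_snd).inter
      ((isClosed_eq _ _).preimage continuous_snd)))
  have hnon : ∀ n, (C n).Nonempty := by
    intro n
    obtain ⟨σ, τ, h1, h2, h3, h4⟩ := exists_level (Ω := Ω) hA hπ hs n.2
    exact ⟨(σ, τ), h1, h2, h3, h4⟩
  have hsub : ∀ (n m : ℕ) (hn : ¬ p ∣ n) (hm : ¬ p ∣ m) (hnm : ¬ p ∣ n * m),
      C ⟨n * m, hnm⟩ ⊆ C ⟨n, hn⟩ := by
    intro n m hn hm hnm x hx
    obtain ⟨h1, h2, h3, h4⟩ := hx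
    change x.1 (z (n * m)) = z (n * m) ^ q at h1
    change x.1 (r (n * m)) = r (n * m) at h2
    change x.2 (z (n * m)) = z (n * m) at h3
    change x.2 (r (n * m)) = z (n * m) * r (n * m) at h4
    have hn0 : n ≠ 0 := hne ⟨n, hn⟩
    have hm0 : m ≠ 0 := hne ⟨m, hm⟩
    have hz := hs.zmul n m hn0 hm0
    have hr := hs.rmul n m hn0 hm0
    refine ⟨?_, ?_, ?_, ?_⟩
    · change x.1 (z n) = z n ^ q
      rw [← hz, map_pow, h1, ← pow_mul, ← pow_mul, mul_comm q m]
    · change x.1 (r n) = r n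
      rw [← hr, map_pow, h2]
    · change x.2 (z n) = z n
      rw [← hz, map_pow, h3]
    · change x.2 (r n) = z n * r n
      rw [← hz, ← hr, map_pow, h4, mul_pow]
  have hdir : Directed (· ⊇ ·) C := by
    intro n m
    have hnm : ¬ p ∣ (n : ℕ) * m := fun h => (hp.dvd_mul.1 h).elim n.2 m.2
    refine ⟨⟨(n : ℕ) * m, hnm⟩, hsub n m n.2 m.2 hnm, ?_⟩
    have hmn : ¬ p ∣ (m : ℕ) * n := by rwa [mul_comm]
    have h1 := hsub m n m.2 n.2 hmn
    have h2 : C ⟨(n : ℕ) * m, hnm⟩ = C ⟨(m : ℕ) * n, hmn⟩ := by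
      congr 1
      exact Subtype.ext (mul_comm _ _)
    change C ⟨(n : ℕ) * m, hnm⟩ ⊆ C m
    rw [h2]
    exact h1
  haveI : Nonempty {n : ℕ // ¬ p ∣ n} := ⟨⟨1, fun h => hp.one_lt.ne' (Nat.dvd_one.1 h)⟩⟩
  obtain ⟨⟨σ, τ⟩, hx⟩ := IsCompact.nonempty_iInter_of_directed_nonempty_isCompact_isClosed C hdir
    hnon (fun n => (hcl n).isCompact) hcl
  rw [Set.mem_iInter] at hx
  exact ⟨σ, τ, fun n hn => (hx ⟨n, hn⟩).1, fun n hn => (hx ⟨n, hn⟩).2.1,
    fun n hn => (hx ⟨n, hn⟩).2.2.1, fun n hn => (hx ⟨n, hn⟩).2.2.2⟩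

end Pool.Agent.Helper60.SL
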