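import Mathlib
import Pool.Agent.Helper60.SL.Tame

/-!
# SL-30: the Galois group of `F(z n, r n)`

`q = Nat.card (ResidueField A)`, `n` prime to the residue characteristic `p`.

PROOF.  `gal_z`: choose `m > 0` with `n ∣ q^m - 1` and `E`, `φ` from `exists_unram hA` for `m`.  `z n ∈ E`, `E / F` is Galois so `g` restricts to `E`, and its restriction is `φ^i` for an integer `i`, which may be taken in `ℕ` (finite group); `φ ζ = ζ^q` for the roots of unity of order dividing `q^m - 1`,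
so `g (z n) = (z n)^(q^i)`.
`gal_level`: `(g (r n) / r n)^n = 1` (`r n ^ n = π`), so `g (r n) = (z n)^j r n` for some `j`.  `(τ^j σ^i) (z n) = τ^j ((z n)^(q^i)) = (z n)^(q^i)` and `(τ^j σ^i) (r n) = τ^j (r n) = (z n)^j r n` (`Tame`; `τ` fixes `z n`).  So `g` and `τ^j σ^i` agree on the generators `z n`, `r n`.
`rel_level`: `σ τ σ⁻¹` and `τ^q` agree on `z n` (all powers of `z n`: `σ⁻¹` maps the group of `n`-th roots of unity to itself and `τ` fixes it, so both fix `z n`) and on `r n`: `σ τ σ⁻¹ (r n) = σ (z n * r n) = (z n)^q r n = τ^q (r n)`.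
-/

set_option autoImplicit false

open IsLocalRing

namespace Pool.Agent.Helper60.SL

variable {F : Type*} [Field F] [CharZero F] {A : ValuationSubring F} (hA : HDVR A)
variable {Ω : Type*} [Field Ω] [Algebra F Ω] [IsAlgClosed Ω] [Algebra.IsAlgebraic F Ω]

private theorem n_ne {p n : ℕ} (hn : ¬ p ∣ n) : n ≠ 0 := by
  rintro rfl
  exact hn (dvd_zero p)

omit [CharZero F] [IsAlgClosed Ω] [Algebra.IsAlgebraic F Ω] in
private theorem r_pow {π : F} {r z : ℕ → Ω} (hs : Sys π r z) {n : ℕ} (hn : n ≠ 0) :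
    r n ^ n = algebraMap F Ω π := by
  have := hs.rmul 1 n one_ne_zero hn
  rw [one_mul, hs.r1] at this
  exact this

omit [CharZero F] [IsAlgClosed Ω] [Algebra.IsAlgebraic F Ω] in
private theorem agree2 (g h : Ω ≃ₐ[F] Ω) (a b : Ω) (ha : g a = h a) (hb : g b = h b) :
    ∀ x ∈ IntermediateField.adjoin F {a, b}, g x = h x := by
  intro x hx
  induction hx using IntermediateField.adjoin_induction with
  | mem x hx =>
    rcases hx with rfl | hx
    · exact ha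
    · rw [Set.mem_singleton_iff] at hx
      rw [hx]
      exact hb
  | algebraMap x => rw [g.commutes, h.commutes]
  | add x y _ _ hx hy => rw [map_add, map_add, hx, hy]
  | inv x _ hx => rw [map_inv₀, map_inv₀, hx]
  | mul x y _ _ hx hy => rw [map_mul, map_mul, hx, hy]

omit [CharZero F] [IsAlgClosed Ω] [Algebra.IsAlgebraic F Ω] in
private theorem tau_pow_z {p q : ℕ} {r z : ℕ → Ω} {σ τ : Ω ≃ₐ[F] Ω}
    (ht : Tame p q r z σ τ) {n : ℕ} (hn : ¬ p ∣ n) (j : ℕ) : (τ ^ j) (z n) = z n := by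
  induction j with
  | zero => simp
  | succ j ih => rw [pow_succ, AlgEquiv.mul_apply, ht.tz n hn, ih]

omit [CharZero F] [IsAlgClosed Ω] [Algebra.IsAlgebraic F Ω] in
private theorem tau_pow_r {p q : ℕ} {r z : ℕ → Ω} {σ τ : Ω ≃ₐ[F] Ω}
    (ht : Tame p q r z σ τ) {n : ℕ} (hn : ¬ p ∣ n) (j : ℕ) : (τ ^ j) (r n) = z n ^ j * r n := by
  induction j with
  | zero => simp
  | succ j ih =>
    rw [pow_succ, AlgEquiv.mul_apply, ht.tr n hn, map_mul, ih, tau_pow_z ht hn, pow_succ]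
    ring

omit [CharZero F] [IsAlgClosed Ω] [Algebra.IsAlgebraic F Ω] in
private theorem sig_pow_z {p q : ℕ} {r z : ℕ → Ω} {σ τ : Ω ≃ₐ[F] Ω}
    (ht : Tame p q r z σ τ) {n : ℕ} (hn : ¬ p ∣ n) (i : ℕ) : (σ ^ i) (z n) = z n ^ (q ^ i) := by
  induction i with
  | zero => simp
  | succ i ih =>
    rw [pow_succ, AlgEquiv.mul_apply, ht.sz n hn, map_pow, ih, ← pow_mul, ← pow_succ]

omit [CharZero F] [IsAlgClosed Ω] [Algebra.IsAlgebraic F Ω] in
private theorem sig_pow_r {p q : ℕ} {r z : ℕ → Ω} {σ τ : Ω ≃ₐ[F] Ω}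
    (ht : Tame p q r z σ τ) {n : ℕ} (hn : ¬ p ∣ n) (i : ℕ) : (σ ^ i) (r n) = r n := by
  induction i with
  | zero => simp
  | succ i ih => rw [pow_succ, AlgEquiv.mul_apply, ht.sr n hn, ih]

include hA in
theorem gal_z {p : ℕ} [CharP (ResidueField A) p] {π : F} {r z : ℕ → Ω} (hs : Sys π r z)
    (g : Ω ≃ₐ[F] Ω) {n : ℕ} (hn : ¬ p ∣ n) :
    ∃ i : ℕ, g (z n) = z n ^ (Nat.card (ResidueField A) ^ i) := by
  classical
  have hn0 := n_ne hn
  have hfinA : Finite (ResidueField A) := hA.fin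
  let _ : Fintype (ResidueField A) := Fintype.ofFinite _
  obtain ⟨e, hpp, hcard⟩ := FiniteField.card (ResidueField A) p
  rw [← Nat.card_eq_fintype_card] at hcard
  have hcop : Nat.Coprime (Nat.card (ResidueField A)) n := by
    rw [hcard]
    exact Nat.Coprime.pow_left _ ((Nat.Prime.coprime_iff_not_dvd hpp).2 hn)
  obtain ⟨m, hm⟩ : ∃ m, m = Nat.totient n := ⟨_, rfl⟩
  have hm0 : m ≠ 0 := by
    rw [hm]
    exact (Nat.totient_pos.2 (Nat.pos_of_ne_zero hn0)).ne'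
  have hq2 : 1 < Nat.card (ResidueField A) := Finite.one_lt_card
  have hqm : 1 < Nat.card (ResidueField A) ^ m := Nat.one_lt_pow hm0 hq2
  have hdvd : n ∣ Nat.card (ResidueField A) ^ m - 1 := by
    have h1 := Nat.ModEq.pow_totient hcop
    rw [← hm] at h1
    exact (Nat.modEq_iff_dvd' hqm.le).1 h1.symm
  obtain ⟨E, hfd, hgal, φ, -, -, -, hgen, hφ, -, ζ, hζ, -⟩ := exists_unram hA (Ω := Ω) hm0
  have hζ' : IsPrimitiveRoot (ζ : Ω) (Nat.card (ResidueField A) ^ m - 1) :=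
    IsPrimitiveRoot.coe_submonoidClass_iff.2 hζ
  have hN0 : NeZero (Nat.card (ResidueField A) ^ m - 1) := ⟨by omega⟩
  have hz1 : z n ^ (Nat.card (ResidueField A) ^ m - 1) = 1 := by
    obtain ⟨c, hc⟩ := hdvd
    rw [hc, pow_mul, (hs.prim n hn0).pow_eq_one, one_pow]
  obtain ⟨k, -, hk⟩ := hζ'.eq_pow_of_pow_eq_one hz1
  obtain ⟨x, hx⟩ : ∃ x : E, (x : Ω) = z n := ⟨ζ ^ k, by rw [← hk]; rfl⟩
  have hx1 : x ^ (Nat.card (ResidueField A) ^ m - 1) = 1 := by
    apply Subtype.ext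
    change (x : Ω) ^ _ = 1
    rw [hx]
    exact hz1
  have hfinG : Finite (E ≃ₐ[F] E) := inferInstance
  obtain ⟨i, hi⟩ := (mem_powers_iff_mem_zpowers).2 (hgen (g.restrictNormal E))
  have hpow : ∀ i : ℕ, (φ ^ i) x = x ^ (Nat.card (ResidueField A) ^ i) := by
    intro i
    induction i with
    | zero => simp
    | succ i ih =>
      rw [pow_succ, AlgEquiv.mul_apply, hφ x hx1, map_pow, ih, ← pow_mul, ← pow_succ]
  refine ⟨i, ?_⟩
  have h2 := AlgEquiv.restrictNormal_commutes g E x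
  have h3 : g.restrictNormal E = φ ^ i := hi.symm
  rw [h3, hpow] at h2
  have h4 : algebraMap E Ω x = z n := hx
  rw [map_pow, h4] at h2
  exact h2.symm

include hA in
theorem gal_level {p : ℕ} [CharP (ResidueField A) p] {π : F} (hπ : IsUnif A π)
    {r z : ℕ → Ω} (hs : Sys π r z) {σ τ : Ω ≃ₐ[F] Ω}
    (ht : Tame p (Nat.card (ResidueField A)) r z σ τ) (g : Ω ≃ₐ[F] Ω) {n : ℕ} (hn : ¬ p ∣ n) :
    ∃ i j : ℕ, ∀ x ∈ IntermediateField.adjoin F {z n, r n}, g x = (τ ^ j * σ ^ i) x := by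
  have hn0 := n_ne hn
  obtain ⟨i, hi⟩ := gal_z hA hs g hn
  have hrn := r_pow hs hn0
  have hr0 : r n ≠ 0 := by
    intro h0
    rw [h0, zero_pow hn0] at hrn
    exact hπ.ne ((map_eq_zero_iff _ (algebraMap F Ω).injective).1 hrn.symm)
  have h1 : (g (r n) / r n) ^ n = 1 := by
    rw [div_pow, ← map_pow, hrn, g.commutes, ← hrn, div_self (pow_ne_zero n hr0)]
  have hN0 : NeZero n := ⟨hn0⟩
  obtain ⟨j, -, hj⟩ := (hs.prim n hn0).eq_pow_of_pow_eq_one h1
  have h2 : g (r n) = z n ^ j * r n := by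
    rw [hj, div_mul_cancel₀ _ hr0]
  refine ⟨i, j, agree2 _ _ _ _ ?_ ?_⟩
  · rw [AlgEquiv.mul_apply, sig_pow_z ht hn, map_pow, tau_pow_z ht hn, hi]
  · rw [AlgEquiv.mul_apply, sig_pow_r ht hn, tau_pow_r ht hn, h2]

theorem rel_level {p q : ℕ} {π : F} {r z : ℕ → Ω} (hs : Sys π r z) {σ τ : Ω ≃ₐ[F] Ω}
    (ht : Tame p q r z σ τ) {n : ℕ} (hn : ¬ p ∣ n) :
    ∀ x ∈ IntermediateField.adjoin F {z n, r n}, (σ * τ * σ⁻¹) x = (τ ^ q) x := by
  have hn0 := n_ne hn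
  have hN0 : NeZero n := ⟨hn0⟩
  have hσ : ∀ x : Ω, σ (σ⁻¹ x) = x := fun x => by
    rw [← AlgEquiv.mul_apply, mul_inv_cancel, AlgEquiv.one_apply]
  refine agree2 _ _ _ _ ?_ ?_
  · have h1 : (σ⁻¹ (z n)) ^ n = 1 := by
      rw [← map_pow, (hs.prim n hn0).pow_eq_one, map_one]
    obtain ⟨k, -, hk⟩ := (hs.prim n hn0).eq_pow_of_pow_eq_one h1
    rw [AlgEquiv.mul_apply, AlgEquiv.mul_apply, tau_pow_z ht hn]
    have h2 : τ (σ⁻¹ (z n)) = σ⁻¹ (z n) := by
      rw [← hk, map_pow, ht.tz n hn]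
    rw [h2, hσ]
  · have h1 : σ⁻¹ (r n) = r n := by
      apply σ.injective
      rw [hσ, ht.sr n hn]
    rw [AlgEquiv.mul_apply, AlgEquiv.mul_apply, h1, ht.tr n hn, map_mul, ht.sz n hn, ht.sr n hn,
      tau_pow_r ht hn]

end Pool.Agent.Helper60.SL
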