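import Mathlib
import Pool.Agent.Helper60.SL.LC
import Pool.Agent.Helper60.SL.TameLevel

/-!
# SL-32: homomorphisms to groups of order prime to `p`: existence (T2 c)

`q = Nat.card (ResidueField A)`.

PROOF.  Let `n = Nat.card Q`, `m > 0` a multiple of `n` with `n ∣ q^m - 1` (`q` is prime to `n`), `N = q^m - 1` (so `n ∣ N`, `p` does not divide `N`).  `a^m = 1`, `b^n = 1`.
For `g ∈ Gal(Ω/F)` there are `i` with `g (z N) = (z N)^(q^i)` (`gal_z`) and `j` with `g (r n) = (z n)^j r n` (as `r n ^ n = π`).  `i` is unique modulo `m`: `(z N)^(q^i) = (z N)^(q^i')` with `i ≤ i'` implies `N ∣ q^i (q^(i'-i) - 1)`, so `q^m - 1 ∣ q^(i'-i) - 1` and `m ∣ i' - i`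
(`Nat` fact; `q ≥ 2`); `j` is unique modulo `n`.  Define `f g = b^j * a^i`, well defined.
Homomorphism: `g (h (r n)) = g ((z n)^(j_h) r n) = (z n)^(q^(i_g) j_h) (z n)^(j_g) r n` (`z n` is a power of `z N`, so `g (z n) = (z n)^(q^(i_g))`), so `j_(gh) = j_g + q^(i_g) j_h` and `i_(gh) = i_g + i_h`, and
`b^(j_g) a^(i_g) b^(j_h) a^(i_h) = b^(j_g) b^(q^(i_g) j_h) a^(i_g + i_h)` because `a^i b a^(-i) = b^(q^i)` (induction on `i` from `a b a⁻¹ = b^q`).
Locally constant: `f g` depends only on the restriction to `F(z N, r n)`, finite over `F`.  Values: `σ`: `i = 1`, `j = 0`; `τ`: `i = 0`, `j = 1` (`Tame`).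
-/

set_option autoImplicit false

open IsLocalRing

namespace Pool.Agent.Helper60.SL

private theorem te_dvd {q m k : ℕ} (hq : 2 ≤ q) (h : q ^ m - 1 ∣ q ^ k - 1) : m ∣ k := by
  have h1 := Nat.pow_sub_one_gcd_pow_sub_one q m k
  rw [Nat.gcd_eq_left h] at h1
  have h2 : 0 < q ^ m := Nat.pow_pos (by omega)
  have h3 : 0 < q ^ (m.gcd k) := Nat.pow_pos (by omega)
  have h4 : q ^ m = q ^ (m.gcd k) := by omega
  have h5 : m = m.gcd k := Nat.pow_right_injective hq h4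
  rw [h5]
  exact Nat.gcd_dvd_right m k

private theorem te_mod {M : Type*} [CommMonoid M] {N : ℕ} (hN : N ≠ 0) {ζ : M}
    (hζ : IsPrimitiveRoot ζ N) {i j : ℕ} (h : ζ ^ i = ζ ^ j) : i ≡ j [MOD N] := by
  have h1 : IsOfFinOrder ζ :=
    isOfFinOrder_iff_pow_eq_one.2 ⟨N, Nat.pos_of_ne_zero hN, hζ.pow_eq_one⟩
  rw [hζ.eq_orderOf]
  exact h1.pow_eq_pow_iff_modEq.1 h

private theorem te_j {M : Type*} [CommMonoid M] {n : ℕ} (hn : n ≠ 0) {ζ : M}
    (hζ : IsPrimitiveRoot ζ n) {Q : Type*} [Group Q] {b : Q} (hb : b ^ n = 1)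
    {j j' : ℕ} (h : ζ ^ j = ζ ^ j') : b ^ j = b ^ j' :=
  pow_eq_pow_of_modEq (te_mod hn hζ h) hb

private theorem te_i {M : Type*} [CommMonoid M] {q m : ℕ} (hq : 2 ≤ q) (hm : m ≠ 0) {ζ : M}
    (hζ : IsPrimitiveRoot ζ (q ^ m - 1)) {Q : Type*} [Group Q] {a : Q} (ha : a ^ m = 1)
    {i i' : ℕ} (h : ζ ^ q ^ i = ζ ^ q ^ i') : a ^ i = a ^ i' := by
  wlog hii : i ≤ i' generalizing i i'
  · exact (this h.symm (by omega)).symm
  obtain ⟨k, rfl⟩ := Nat.exists_eq_add_of_le hii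
  have h0 : 1 < q ^ m := Nat.one_lt_pow hm (by omega)
  have h1 : q ^ i ≡ q ^ (i + k) [MOD q ^ m - 1] := te_mod (by omega) hζ h
  have h2 : q ^ m - 1 ∣ q ^ (i + k) - q ^ i :=
    (Nat.modEq_iff_dvd' (Nat.pow_le_pow_right (by omega) hii)).1 h1
  have h3 : q ^ (i + k) - q ^ i = q ^ i * (q ^ k - 1) := by
    rw [pow_add, Nat.mul_sub, mul_one]
  rw [h3] at h2
  have h4 : Nat.Coprime (q ^ m - 1) (q ^ i) := by
    apply Nat.Coprime.pow_right
    have h5 : q ^ m - 1 + 1 = q ^ m := by omega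
    have h6 : Nat.Coprime (q ^ m - 1) (q ^ m) := by
      rw [← h5]
      simp
    exact Nat.Coprime.coprime_dvd_right (dvd_pow_self q hm) h6
  obtain ⟨t, rfl⟩ := te_dvd hq (h4.dvd_of_dvd_mul_left h2)
  rw [pow_add, pow_mul, ha, one_pow, mul_one]

private theorem te_semi {Q : Type*} [Group Q] {a b : Q} {q : ℕ} (hab : a * b * a⁻¹ = b ^ q)
    (i : ℕ) : a ^ i * b = b ^ q ^ i * a ^ i := by
  have h0 : ∀ k : ℕ, a * b ^ k = (b ^ k) ^ q * a := by
    intro k
    have h1 : (a * b * a⁻¹) ^ k = a * b ^ k * a⁻¹ := conj_pow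
    rw [hab, ← pow_mul, mul_comm q k, pow_mul] at h1
    rw [h1, inv_mul_cancel_right]
  induction i with
  | zero => simp
  | succ i ih =>
    rw [pow_succ', mul_assoc, ih, ← mul_assoc, h0, ← pow_mul, ← pow_succ, mul_assoc]

private theorem te_semi' {Q : Type*} [Group Q] {a b : Q} {q : ℕ} (hab : a * b * a⁻¹ = b ^ q)
    (i k : ℕ) : a ^ i * b ^ k = b ^ (q ^ i * k) * a ^ i := by
  induction k with
  | zero => simp
  | succ k ih =>
    rw [pow_succ, ← mul_assoc, ih, mul_assoc, te_semi hab, ← mul_assoc, ← pow_add, mul_add,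
      mul_one]

variable {F : Type*} [Field F] [CharZero F] {A : ValuationSubring F} (hA : HDVR A)
variable {Ω : Type*} [Field Ω] [Algebra F Ω] [IsAlgClosed Ω] [Algebra.IsAlgebraic F Ω]

include hA in
theorem tame_exists {p : ℕ} [CharP (ResidueField A) p] {π : F} (hπ : IsUnif A π)
    {r z : ℕ → Ω} (hs : Sys π r z) {σ τ : Ω ≃ₐ[F] Ω}
    (ht : Tame p (Nat.card (ResidueField A)) r z σ τ) {Q : Type*} [Group Q] [Finite Q]
    (hQ : ¬ p ∣ Nat.card Q) (a b : Q) (hab : a * b * a⁻¹ = b ^ Nat.card (ResidueField A)) :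
    ∃ f : (Ω ≃ₐ[F] Ω) →* Q, LC f ∧ f σ = a ∧ f τ = b := by
  classical
  have hfin : Finite (ResidueField A) := hA.fin
  let _ : Fintype (ResidueField A) := Fintype.ofFinite _
  obtain ⟨k, hpp, hcard⟩ := FiniteField.card (ResidueField A) p
  rw [← Nat.card_eq_fintype_card] at hcard
  have hq2 : 2 ≤ Nat.card (ResidueField A) := Finite.one_lt_card
  have hn0 : Nat.card Q ≠ 0 := Nat.card_pos.ne'
  have ha1 : a ^ Nat.card Q = 1 := pow_card_eq_one'
  have hb1 : b ^ Nat.card Q = 1 := pow_card_eq_one'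
  set q := Nat.card (ResidueField A) with hqdef
  set n := Nat.card Q with hndef
  have hpq : p ∣ q := by
    rw [hcard]
    exact dvd_pow_self p k.pos.ne'
  have hqn : Nat.Coprime q n := by
    rw [hcard]
    exact Nat.Coprime.pow_left _ ((Nat.Prime.coprime_iff_not_dvd hpp).2 hQ)
  obtain ⟨m, hm⟩ : ∃ m, m = Nat.totient n * n := ⟨_, rfl⟩
  have hm0 : m ≠ 0 := by
    rw [hm]
    exact mul_ne_zero (Nat.totient_pos.2 (Nat.pos_of_ne_zero hn0)).ne' hn0
  have ham : a ^ m = 1 := by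
    rw [hm, mul_comm, pow_mul, ha1, one_pow]
  have hqm : 1 < q ^ m := Nat.one_lt_pow hm0 (by omega)
  have hnN : n ∣ q ^ m - 1 := by
    have h1 : q ^ m ≡ 1 [MOD n] := by
      have h2 := (Nat.ModEq.pow_totient hqn).pow n
      rw [one_pow, ← pow_mul, ← hm] at h2
      exact h2
    exact (Nat.modEq_iff_dvd' hqm.le).1 h1.symm
  have hpN : ¬ p ∣ q ^ m - 1 := by
    intro h
    have h1 : p ∣ q ^ m := dvd_pow hpq hm0
    have h2 : p ∣ 1 := by
      have := (Nat.dvd_sub h1 h)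
      rwa [Nat.sub_sub_self hqm.le] at this
    exact hpp.one_lt.ne' (Nat.dvd_one.1 h2)
  obtain ⟨N, hN⟩ : ∃ N, N = q ^ m - 1 := ⟨_, rfl⟩
  rw [← hN] at hnN hpN
  have hN0 : N ≠ 0 := by omega
  have hzN : IsPrimitiveRoot (z N) N := hs.prim N hN0
  have hzn : IsPrimitiveRoot (z n) n := hs.prim n hn0
  obtain ⟨s, hs1⟩ := hnN
  have hs0 : s ≠ 0 := by
    rintro rfl
    exact hN0 (by rw [hs1, mul_zero])
  have hznN : z n = z N ^ s := by
    rw [hs1]
    exact (hs.zmul n s hn0 hs0).symm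
  have hrn : r n ^ n = algebraMap F Ω π := by
    have h1 := hs.rmul 1 n one_ne_zero hn0
    rw [one_mul, hs.r1] at h1
    exact h1
  have hrn0 : r n ≠ 0 := by
    intro h
    rw [h, zero_pow hn0] at hrn
    exact hπ.ne ((map_eq_zero _).1 hrn.symm)
  have hi : ∀ g : Ω ≃ₐ[F] Ω, ∃ i : ℕ, g (z N) = z N ^ (q ^ i) := fun g => gal_z hA hs g hpN
  have hj : ∀ g : Ω ≃ₐ[F] Ω, ∃ j : ℕ, g (r n) = z n ^ j * r n := by
    intro g
    have h1 : (g (r n) / r n) ^ n = 1 := by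
      rw [div_pow, ← map_pow, hrn, g.commutes, div_self]
      rw [← hrn]
      exact pow_ne_zero _ hrn0
    have : NeZero n := ⟨hn0⟩
    obtain ⟨j, -, hj⟩ := hzn.eq_pow_of_pow_eq_one h1
    exact ⟨j, by rw [hj, div_mul_cancel₀ _ hrn0]⟩
  choose I hI using hi
  choose J hJ using hj
  have key : ∀ (g : Ω ≃ₐ[F] Ω) (i j : ℕ), g (z N) = z N ^ (q ^ i) → g (r n) = z n ^ j * r n →
      b ^ J g * a ^ I g = b ^ j * a ^ i := by
    intro g i j h1 h2
    have h3 : a ^ I g = a ^ i := by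
      refine te_i (ζ := z N) hq2 hm0 (by rw [← hN]; exact hzN) ham ?_
      rw [← hI, h1]
    have h4 : b ^ J g = b ^ j := by
      refine te_j hn0 hzn hb1 ?_
      have h5 := hJ g
      rw [h2] at h5
      exact (mul_right_cancel₀ hrn0 h5).symm
    rw [h3, h4]
  have hgz : ∀ g : Ω ≃ₐ[F] Ω, g (z n) = z n ^ (q ^ I g) := by
    intro g
    rw [hznN, map_pow, hI, ← pow_mul, ← pow_mul, mul_comm]
  have hmul : ∀ g h : Ω ≃ₐ[F] Ω, b ^ J (g * h) * a ^ I (g * h) =
      b ^ J g * a ^ I g * (b ^ J h * a ^ I h) := by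
    intro g h
    rw [key (g * h) (I g + I h) (J g + q ^ I g * J h)]
    · rw [mul_assoc (b ^ J g), ← mul_assoc (a ^ I g), te_semi' hab, mul_assoc _ (a ^ I g),
        ← pow_add, ← mul_assoc, ← pow_add]
    · rw [AlgEquiv.mul_apply, hI h, map_pow, hI g, ← pow_mul, ← pow_add]
    · rw [AlgEquiv.mul_apply, hJ h, map_mul, map_pow, hgz, hJ g, ← pow_mul, pow_add]
      ring
  refine ⟨MonoidHom.mk' (fun g => b ^ J g * a ^ I g) hmul, ?_, ?_, ?_⟩
  · refine ⟨IntermediateField.adjoin F {z N, r n}, ?_, ?_⟩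
    · refine IntermediateField.finiteDimensional_adjoin fun x _ => ?_
      exact (Algebra.IsAlgebraic.isAlgebraic x).isIntegral
    · intro g g' hgg
      have h1 : g (z N) = g' (z N) :=
        hgg _ (IntermediateField.subset_adjoin F _ (by simp))
      have h2 : g (r n) = g' (r n) :=
        hgg _ (IntermediateField.subset_adjoin F _ (by simp))
      change b ^ J g * a ^ I g = b ^ J g' * a ^ I g'
      exact key g _ _ (by rw [h1, hI]) (by rw [h2, hJ])
  · change b ^ J σ * a ^ I σ = a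
    rw [key σ 1 0 (by rw [ht.sz N hpN, pow_one]) (by rw [ht.sr n hQ, pow_zero, one_mul])]
    simp
  · change b ^ J τ * a ^ I τ = b
    rw [key τ 0 1 (by rw [ht.tz N hpN, pow_zero, pow_one]) (by rw [ht.tr n hQ, pow_one])]
    simp

end Pool.Agent.Helper60.SL
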