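import Mathlib
import Pool.Agent.Helper60.SL.Tame
import Pool.Agent.Helper60.SL.Pow
import Pool.Agent.Helper60.SL.ExtHDVR

/-!
# SL-28: the action of the tame pair on the residue field

PROOF.  `tame_root`: `x` is a power of `z n` (`IsPrimitiveRoot.eq_pow_of_pow_eq_one`), use `sz`, `tz`.
`tame_res`: let `x ∈ V = ext hA Ω`.  If `x` is a nonunit, all is clear (`g x` is a nonunit, `ext_nonunits_hom`, and so is `x^q`, `q ≥ 2`).  If `x` is a unit: `L = F(x)`, finite over `F`, `x` is a unit of `ext hA L` (`ext_hom`, `ext_nonunits_hom`), and by `exists_teich (ext_hdvr hA L)`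
`x = ζ (1 + y)` with `ζ^N = 1`, `N = Nat.card (ResidueField (ext hA L)) - 1` prime to `p` (the cardinality is a power of `p`: the residue field of `ext hA L` is finite of characteristic `p`), `y` a nonunit.  So
`σ x - x^q = ζ^q ((1 + σ y) - (1 + y)^q)` and `τ x - x = ζ (τ y - y)` are nonunits.
-/

set_option autoImplicit false

open IsLocalRing

namespace Pool.Agent.Helper60.SL

variable {F : Type*} [Field F] [CharZero F] {A : ValuationSubring F} (hA : HDVR A)
variable {Ω : Type*} [Field Ω] [Algebra F Ω] [IsAlgClosed Ω] [Algebra.IsAlgebraic F Ω]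

theorem tame_root {p q : ℕ} {π : F} {r z : ℕ → Ω} (hs : Sys π r z) {σ τ : Ω ≃ₐ[F] Ω}
    (ht : Tame p q r z σ τ) {n : ℕ} (hn : ¬ p ∣ n) {x : Ω} (hx : x ^ n = 1) :
    σ x = x ^ q ∧ τ x = x := by
  have hn0 : n ≠ 0 := fun h => hn (h ▸ dvd_zero p)
  haveI : NeZero n := ⟨hn0⟩
  obtain ⟨i, _, hi⟩ := (hs.prim n hn0).eq_pow_of_pow_eq_one hx
  constructor
  · rw [← hi, map_pow, ht.sz n hn, ← pow_mul, ← pow_mul, mul_comm]
  · rw [← hi, map_pow, ht.tz n hn]

private theorem tameRes_sub {K : Type*} [Field K] {V : ValuationSubring K} {x y : K}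
    (hx : x ∈ V.nonunits) (hy : y ∈ V.nonunits) : x - y ∈ V.nonunits := by
  have h1 : (⟨x, V.nonunits_subset hx⟩ : V) ∈ maximalIdeal V := ValuationSubring.coe_mem_nonunits_iff.1 hx
  have h2 : (⟨y, V.nonunits_subset hy⟩ : V) ∈ maximalIdeal V := ValuationSubring.coe_mem_nonunits_iff.1 hy
  exact ValuationSubring.coe_mem_nonunits_iff.2 (sub_mem h1 h2)

private theorem tameRes_mul {K : Type*} [Field K] {V : ValuationSubring K} {x y : K}
    (hx : x ∈ V) (hy : y ∈ V.nonunits) : x * y ∈ V.nonunits := by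
  have h2 : (⟨y, V.nonunits_subset hy⟩ : V) ∈ maximalIdeal V := ValuationSubring.coe_mem_nonunits_iff.1 hy
  exact ValuationSubring.coe_mem_nonunits_iff.2 (Ideal.mul_mem_left _ (⟨x, hx⟩ : V) h2)

private theorem tameRes_pow {K : Type*} [Field K] {V : ValuationSubring K} {x : K}
    (hx : x ∈ V.nonunits) {n : ℕ} (hn : n ≠ 0) : x ^ n ∈ V.nonunits := by
  have h2 : (⟨x, V.nonunits_subset hx⟩ : V) ∈ maximalIdeal V := ValuationSubring.coe_mem_nonunits_iff.1 hx
  exact ValuationSubring.coe_mem_nonunits_iff.2 (Ideal.pow_mem_of_mem _ h2 n (Nat.pos_of_ne_zero hn))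

private theorem tameRes_one_add_pow {K : Type*} [Field K] {V : ValuationSubring K} {y : K}
    (hy : y ∈ V.nonunits) (n : ℕ) : (1 + y) ^ n - 1 ∈ V.nonunits := by
  have h2 : (⟨y, V.nonunits_subset hy⟩ : V) ∈ maximalIdeal V := ValuationSubring.coe_mem_nonunits_iff.1 hy
  have h3 : (1 + (⟨y, V.nonunits_subset hy⟩ : V)) - 1 ∣ (1 + (⟨y, V.nonunits_subset hy⟩ : V)) ^ n - 1 ^ n :=
    sub_dvd_pow_sub_pow _ _ n
  rw [one_pow, add_sub_cancel_left] at h3
  exact ValuationSubring.coe_mem_nonunits_iff.2 (Ideal.mem_of_dvd _ h3 h2)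

theorem tame_res {p : ℕ} [CharP (ResidueField A) p] {π : F} {r z : ℕ → Ω} (hs : Sys π r z)
    {σ τ : Ω ≃ₐ[F] Ω} (ht : Tame p (Nat.card (ResidueField A)) r z σ τ) {x : Ω}
    (hx : x ∈ ext hA Ω) :
    σ x - x ^ Nat.card (ResidueField A) ∈ (ext hA Ω).nonunits ∧
      τ x - x ∈ (ext hA Ω).nonunits := by
  have hfin : Finite (ResidueField A) := hA.fin
  have hq0 : Nat.card (ResidueField A) ≠ 0 := Nat.card_pos.ne'
  have hσn : ∀ y : Ω, y ∈ (ext hA Ω).nonunits → σ y ∈ (ext hA Ω).nonunits := fun y hy =>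
    (ext_nonunits_hom hA (σ : Ω →ₐ[F] Ω) y).2 hy
  have hτn : ∀ y : Ω, y ∈ (ext hA Ω).nonunits → τ y ∈ (ext hA Ω).nonunits := fun y hy =>
    (ext_nonunits_hom hA (τ : Ω →ₐ[F] Ω) y).2 hy
  by_cases hxn : x ∈ (ext hA Ω).nonunits
  · exact ⟨tameRes_sub (hσn x hxn) (tameRes_pow hxn hq0), tameRes_sub (hτn x hxn) hxn⟩
  have hxF : IsIntegral F x := Algebra.IsIntegral.isIntegral x
  haveI : FiniteDimensional F (IntermediateField.adjoin F {x}) :=
    IntermediateField.adjoin.finiteDimensional hxF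
  obtain ⟨L, hL⟩ : ∃ L : IntermediateField F Ω, L = IntermediateField.adjoin F {x} := ⟨_, rfl⟩
  haveI hLf : FiniteDimensional F L := by rw [hL]; infer_instance
  have hxL : x ∈ L := by
    rw [hL]
    exact IntermediateField.mem_adjoin_simple_self F x
  have hB := ext_hdvr hA L
  have hu : IsUn (ext hA L) (⟨x, hxL⟩ : L) := by
    refine ⟨?_, fun h => hxn ?_⟩
    · rw [← ext_hom hA L.val]
      exact hx
    · rw [← ext_nonunits_hom hA L.val] at h
      exact h
  obtain ⟨ζ, y, hζ, hy, hxy⟩ := exists_teich hB hu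
  have hBfin : Finite (ResidueField (ext hA L)) := hB.fin
  have hch : CharP (ResidueField (ext hA L)) p := charP_ext hA p
  have hcard : p ∣ Nat.card (ResidueField (ext hA L)) := by
    have hft : Fintype (ResidueField (ext hA L)) := Fintype.ofFinite _
    rw [Nat.card_eq_fintype_card]
    exact (CharP.cast_eq_zero_iff (ResidueField (ext hA L)) p _).1 (FiniteField.cast_card_eq_zero _)
  have hcard2 : 1 < Nat.card (ResidueField (ext hA L)) := Finite.one_lt_card
  have hpn : ¬ p ∣ Nat.card (ResidueField (ext hA L)) - 1 := by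
    intro h
    have h1 := Nat.dvd_sub hcard h
    rw [Nat.sub_sub_self hcard2.le, Nat.dvd_one] at h1
    exact CharP.char_ne_one (ResidueField (ext hA L)) p h1
  have hζB : ζ ∈ ext hA L := by
    have h1 : IsUn (ext hA L) (ζ ^ (Nat.card (ResidueField (ext hA L)) - 1)) := by
      rw [hζ, isUn_iff]
      simp
    exact (isUn_of_pow (by omega) h1).1
  have hζV : (ζ : Ω) ∈ ext hA Ω := (ext_hom hA L.val ζ).2 hζB
  have hyV : (y : Ω) ∈ (ext hA Ω).nonunits := (ext_nonunits_hom hA L.val y).2 hy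
  have hζ1 : (ζ : Ω) ^ (Nat.card (ResidueField (ext hA L)) - 1) = 1 := by
    have h1 := congrArg (fun a : L => (a : Ω)) hζ
    simpa using h1
  have hx1 : x = (ζ : Ω) * (1 + (y : Ω)) := by
    have h1 := congrArg (fun a : L => (a : Ω)) hxy
    simpa using h1
  obtain ⟨hσζ, hτζ⟩ := tame_root hs ht hpn hζ1
  constructor
  · have h1 : σ x - x ^ Nat.card (ResidueField A) = (ζ : Ω) ^ Nat.card (ResidueField A) *
        (σ (y : Ω) - ((1 + (y : Ω)) ^ Nat.card (ResidueField A) - 1)) := by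
      rw [hx1, map_mul, map_add, map_one, hσζ, mul_pow]
      ring
    rw [h1]
    exact tameRes_mul (pow_mem hζV _) (tameRes_sub (hσn _ hyV) (tameRes_one_add_pow hyV _))
  · have h1 : τ x - x = (ζ : Ω) * (τ (y : Ω) - (y : Ω)) := by
      rw [hx1, map_mul, map_add, map_one, hτζ]
      ring
    rw [h1]
    exact tameRes_mul hζV (tameRes_sub (hτn _ hyV) hyV)

end Pool.Agent.Helper60.SL
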