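import Mathlib
import Pool.Agent.Helper60.SL.LC

/-!
# SL-23: the field cut out by a locally constant homomorphism

PROOF.  Let `H = ker f` and `E` its fixed field.  `f` depends only on the restriction to the finite extension `N`; replace `N` by its normal closure in `Ω` (finite Galois).  `H` contains `Gal(Ω/N)`, so `E ≤ N` (the fixed field of `Gal(Ω/N)` is `N`: Galois theory of
`Ω / F`, characteristic `0`, `InfiniteGalois.fixedField_fixingSubgroup`); so `E` is finite over `F`, and Galois as `H` is normal.  `H` is open, hence closed, so `H = Gal(Ω/E)` (or: by finite Galois theory for `Gal(N/F)`, the group `H / Gal(Ω/N)` is the group of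
its fixed field `E`).  So `f g = f g'` iff `g⁻¹ g' ∈ H` iff `g` and `g'` agree on `E`, and `[E : F] = |Gal(E/F)| = |range f|`, which divides `|Q|`.
-/

set_option autoImplicit false

namespace Pool.Agent.Helper60.SL

theorem exists_ker_field {F Ω : Type*} [Field F] [CharZero F] [Field Ω] [Algebra F Ω]
    [IsAlgClosed Ω] [Algebra.IsAlgebraic F Ω] {Q : Type*} [Group Q] [Finite Q]
    (f : (Ω ≃ₐ[F] Ω) →* Q) (hf : LC f) :
    ∃ (E : IntermediateField F Ω) (_ : FiniteDimensional F E) (_ : IsGalois F E),
      Module.finrank F E = Nat.card f.range ∧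
      ∀ g g' : Ω ≃ₐ[F] Ω, f g = f g' ↔ ∀ x ∈ E, g x = g' x := by
  obtain ⟨N, hN, hf⟩ := hf
  have : IsAlgClosure F Ω := ⟨inferInstance, inferInstance⟩
  have : IsGalois F Ω := inferInstance
  have hle : N.fixingSubgroup ≤ f.ker := by
    intro g hg
    rw [MonoidHom.mem_ker]
    have h1 : f g = f 1 := by
      refine hf g 1 fun x hx => ?_
      have h2 := (IntermediateField.mem_fixingSubgroup_iff N g).1 hg x hx
      rw [h2, AlgEquiv.one_apply]
    rw [h1, map_one]
  have hopen : IsOpen (f.ker : Set (Ω ≃ₐ[F] Ω)) :=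
    Subgroup.isOpen_mono hle N.fixingSubgroup_isOpen
  have hclosed : IsClosed (f.ker : Set (Ω ≃ₐ[F] Ω)) := Subgroup.isClosed_of_isOpen _ hopen
  let H : ClosedSubgroup (Ω ≃ₐ[F] Ω) := ⟨f.ker, hclosed⟩
  have hHn : H.Normal := MonoidHom.normal_ker f
  have hfix : (IntermediateField.fixedField f.ker).fixingSubgroup = f.ker :=
    InfiniteGalois.fixingSubgroup_fixedField H
  have hfg : FiniteDimensional F (IntermediateField.fixedField f.ker) ∧
      IsGalois F (IntermediateField.fixedField f.ker) := by
    rw [← InfiniteGalois.isOpen_and_normal_iff_finite_and_isGalois, hfix]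
    exact ⟨hopen, MonoidHom.normal_ker f⟩
  obtain ⟨h1, h2⟩ := hfg
  refine ⟨IntermediateField.fixedField f.ker, h1, h2, ?_, ?_⟩
  · have h3 : Nat.card (IntermediateField.fixedField f.ker ≃ₐ[F] IntermediateField.fixedField f.ker)
        = Module.finrank F (IntermediateField.fixedField f.ker) := IsGalois.card_aut_eq_finrank _ _
    rw [← h3, ← Nat.card_congr (QuotientGroup.quotientKerEquivRange f).toEquiv]
    exact (Nat.card_congr (InfiniteGalois.normalAutEquivQuotient H).toEquiv).symm
  · intro g g'
    have h4 : f g = f g' ↔ g⁻¹ * g' ∈ f.ker := by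
      rw [MonoidHom.mem_ker, map_mul, map_inv, inv_mul_eq_one]
    have h5 : g⁻¹ * g' ∈ f.ker ↔ g⁻¹ * g' ∈ (IntermediateField.fixedField f.ker).fixingSubgroup := by
      rw [hfix]
    rw [h4, h5, IntermediateField.mem_fixingSubgroup_iff]
    refine forall₂_congr fun x hx => ?_
    rw [AlgEquiv.mul_apply, AlgEquiv.aut_inv, AlgEquiv.symm_apply_eq]
    exact eq_comm

end Pool.Agent.Helper60.SL
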