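import Mathlib
import Pool.Agent.Helper60.SL.Defs
import Pool.Agent.Helper60.SL.Unif
import Pool.Agent.Helper60.SL.Pow

/-!
# SL-09: the classes modulo `l`-th powers, `l ∣ q - 1`

`q = Nat.card (ResidueField A)`, `l` a prime with `l ∣ q - 1` (so `l` is not the residue characteristic).

PROOF.  `exists_zeta`: the group `kˣ` is cyclic of order `q - 1`; a primitive `(q-1)`-th root of unity of `k` lifts to a root of unity of `A` of the same order (`exists_teich` for any lift `u` of a generator).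
`exists_nonpower`: `u` = that root of unity: if `u = y^l` then `y` is a unit (`isUn_of_pow`) and the class of `u` would be an `l`-th power in `kˣ`, but it is a generator and `l ∣ q - 1`.
`classes`: `x = π^k v`, `v = ζ (1 + m)` with `ζ` a power `u^j` of `u` (`exists_teich`; the roots of `X^(q-1) - 1` in `F` are the powers of `u`), `1 + m` an `l`-th power
(`exists_root_one_add`).  Reduce `k` and `j` modulo `l`.
`classes_unique`: if `π^i u^j y^l = π^i' u^j' y'^l` then comparing the exponents of `π` (`zpow_isUn`): `l ∣ i - i'`, and then `u^(j-j')` is an `l`-th power of a unit, so `l ∣ j - j'`.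
-/

set_option autoImplicit false

open IsLocalRing

namespace Pool.Agent.Helper60.SL

variable {F : Type*} [Field F] {A : ValuationSubring F}

private theorem cls_nz (hA : HDVR A) : Nat.card (ResidueField A) - 1 ≠ 0 := by
  haveI := hA.fin
  have h : 1 < Nat.card (ResidueField A) := Finite.one_lt_card
  omega

private theorem cls_one : IsUn A (1 : F) :=
  isUn_iff.2 ⟨one_ne_zero, A.one_mem, by rw [inv_one]; exact A.one_mem⟩

private theorem cls_pow_sub {x : F} (hx : x ∈ A.nonunits) (l : ℕ) : (1 + x) ^ l - 1 ∈ A.nonunits := by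
  obtain ⟨hm, h1⟩ := ValuationSubring.mem_nonunits_iff_exists_mem_maximalIdeal.1 hx
  obtain ⟨X, hX⟩ : ∃ X : A, X = ⟨x, hm⟩ := ⟨_, rfl⟩
  have hXx : (X : F) = x := by rw [hX]
  rw [← hX] at h1
  have h2 : (1 + X) ^ l - 1 ∈ maximalIdeal A := by
    have h3 := sub_dvd_pow_sub_pow (1 + X) 1 l
    rw [one_pow, add_sub_cancel_left] at h3
    exact Ideal.mem_of_dvd _ h3 h1
  have h4 := (ValuationSubring.coe_mem_nonunits_iff (A := A)).2 h2
  have h5 : (((1 + X) ^ l - 1 : A) : F) = (1 + x) ^ l - 1 := by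
    push_cast
    rw [hXx]
  rwa [h5] at h4

/-- `(q - 1)`-th roots of unity congruent to one are one -/
private theorem cls_root_one (hA : HDVR A) {η : F} (h1 : η ^ (Nat.card (ResidueField A) - 1) = 1)
    (h2 : η - 1 ∈ A.nonunits) : η = 1 := by
  haveI := hA.fin
  haveI := Fintype.ofFinite (ResidueField A)
  by_contra hne
  obtain ⟨hm, h3⟩ := ValuationSubring.mem_nonunits_iff_exists_mem_maximalIdeal.1 h2
  have hη : η ∈ A := by
    have h := A.add_mem _ _ hm A.one_mem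
    rwa [sub_add_cancel] at h
  obtain ⟨e, he⟩ : ∃ e : A, (e : F) = η := ⟨⟨η, hη⟩, rfl⟩
  have h5 : e - 1 ∈ maximalIdeal A := by
    have h : e - 1 = ⟨η - 1, hm⟩ := Subtype.ext (by push_cast; rw [he])
    rw [h]
    exact h3
  have h4 : residue A e = 1 := by
    rw [← sub_eq_zero, ← map_one (residue A), ← map_sub, residue_eq_zero_iff]
    exact h5
  obtain ⟨N, hN⟩ : ∃ N, N = Nat.card (ResidueField A) - 1 := ⟨_, rfl⟩
  rw [← hN] at h1
  have h6 : ∑ i ∈ Finset.range N, e ^ i = 0 := by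
    have h7 := geom_sum_mul e N
    have h8 : e ^ N = 1 := Subtype.ext (by push_cast; rw [he, h1])
    rw [h8, sub_self] at h7
    rcases mul_eq_zero.1 h7 with h | h
    · exact h
    · exfalso
      apply hne
      have h9 : e = 1 := sub_eq_zero.1 h
      rw [← he, h9]
      rfl
  have h9 := congrArg (residue A) h6
  rw [map_sum, map_zero] at h9
  simp only [map_pow, h4, one_pow, Finset.sum_const, Finset.card_range, nsmul_eq_mul, mul_one] at h9
  have hq1 : 1 ≤ Nat.card (ResidueField A) := Nat.card_pos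
  rw [hN, Nat.cast_sub hq1, Nat.card_eq_fintype_card, FiniteField.cast_card_eq_zero, Nat.cast_one, zero_sub] at h9
  exact neg_ne_zero.2 one_ne_zero h9

/-- a prime divisor of `q - 1` is not the residue characteristic -/
private theorem cls_not_dvd (hA : HDVR A) {l : ℕ} (hl : l.Prime) (hlq : l ∣ Nat.card (ResidueField A) - 1)
    {p : ℕ} [hp : CharP (ResidueField A) p] : ¬ p ∣ l := by
  haveI := hA.fin
  haveI := Fintype.ofFinite (ResidueField A)
  intro hpl
  have h0 : ((Nat.card (ResidueField A) : ℕ) : ResidueField A) = 0 := by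
    rw [Nat.card_eq_fintype_card, FiniteField.cast_card_eq_zero]
  have h1 : p ∣ Nat.card (ResidueField A) := (CharP.cast_eq_zero_iff (ResidueField A) p _).1 h0
  have hp1 : p ≠ 1 := CharP.char_ne_one (ResidueField A) p
  have h2 : p = l := ((Nat.dvd_prime hl).1 hpl).resolve_left hp1
  have hq1 : 1 ≤ Nat.card (ResidueField A) := Nat.card_pos
  rw [h2] at h1
  have h3 : l ∣ 1 := by
    have h4 := (Nat.dvd_sub h1 hlq)
    have h5 : Nat.card (ResidueField A) - (Nat.card (ResidueField A) - 1) = 1 := by omega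
    rwa [h5] at h4
  exact hl.one_lt.ne' (Nat.dvd_one.1 h3)

theorem exists_zeta (hA : HDVR A) :
    ∃ u : F, IsPrimitiveRoot u (Nat.card (ResidueField A) - 1) := by
  haveI := hA.fin
  obtain ⟨g, hg⟩ := IsCyclic.exists_generator (α := (ResidueField A)ˣ)
  obtain ⟨a, ha⟩ := residue_surjective (R := A) (g : ResidueField A)
  have haU : IsUn A (a : F) := by
    refine ⟨a.2, fun h => ?_⟩
    have h1 := (ValuationSubring.coe_mem_nonunits_iff (A := A)).1 h
    rw [← residue_eq_zero_iff, ha] at h1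
    exact g.ne_zero h1
  obtain ⟨ζ, x, h1, h2, h3⟩ := exists_teich hA haU
  refine ⟨ζ, h1, fun m hm => ?_⟩
  have hζ : IsUn A ζ := isUn_of_pow (cls_nz hA) (by rw [h1]; exact cls_one)
  obtain ⟨hxm, h4⟩ := ValuationSubring.mem_nonunits_iff_exists_mem_maximalIdeal.1 h2
  obtain ⟨e, he⟩ : ∃ e : A, (e : F) = ζ := ⟨⟨ζ, hζ.1⟩, rfl⟩
  have h5 : a = e * (1 + ⟨x, hxm⟩) := Subtype.ext (by push_cast; rw [he, h3])
  have h6 : residue A e = g := by
    rw [← ha, h5, map_mul, map_add, map_one, (residue_eq_zero_iff _).2 h4, add_zero, mul_one]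
  have h7 : e ^ m = 1 := Subtype.ext (by push_cast; rw [he, hm])
  have h8 : g ^ m = 1 := by
    apply Units.ext
    rw [Units.val_pow_eq_pow_val, ← h6, ← map_pow, h7, map_one, Units.val_one]
  have h9 := orderOf_dvd_of_pow_eq_one h8
  rwa [orderOf_eq_card_of_forall_mem_zpowers hg, Nat.card_units] at h9

theorem zeta_isUn {u : F} {n : ℕ} (hn : n ≠ 0) (hu : u ^ n = 1) : IsUn A u :=
  isUn_of_pow hn (by rw [hu]; exact cls_one)

theorem zeta_nonpower (hA : HDVR A) {l : ℕ} (hl : l.Prime)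
    (hlq : l ∣ Nat.card (ResidueField A) - 1) {u : F}
    (hu : IsPrimitiveRoot u (Nat.card (ResidueField A) - 1)) (j : ℤ) {y : F}
    (hy : u ^ j = y ^ l) : (l : ℤ) ∣ j := by
  have hN := cls_nz hA
  obtain ⟨N, hNe⟩ : ∃ N, N = Nat.card (ResidueField A) - 1 := ⟨_, rfl⟩
  have hroot := fun {η : F} => cls_root_one (η := η) hA
  have hteich := fun {v : F} => exists_teich (u := v) hA
  rw [← hNe] at hN hlq hu hroot hteich
  haveI : NeZero N := ⟨hN⟩
  have huj : (u ^ j) ^ N = 1 := by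
    rw [← zpow_natCast, ← zpow_mul, mul_comm, zpow_mul, zpow_natCast, hu.pow_eq_one, one_zpow]
  have hy1 : IsUn A y := by
    refine zeta_isUn (n := l * N) (mul_ne_zero hl.ne_zero hN) ?_
    rw [pow_mul, ← hy, huj]
  obtain ⟨ζ, x, h1, h2, h3⟩ := hteich hy1
  have hζ : ζ ≠ 0 := (isUn_iff.1 (zeta_isUn (A := A) hN h1)).1
  have h4 : (1 + x) ^ l = u ^ j * (ζ ^ l)⁻¹ := by
    rw [hy, h3, mul_pow]
    field_simp
  have h5 : (1 + x) ^ l = 1 := by
    refine hroot ?_ (cls_pow_sub h2 l)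
    rw [h4, mul_pow, huj, inv_pow, ← pow_mul, mul_comm l N, pow_mul, h1, one_pow, inv_one, mul_one]
  obtain ⟨i, -, hi⟩ := hu.eq_pow_of_pow_eq_one h1
  have h6 : u ^ (j - (i * l : ℕ)) = 1 := by
    have hu0 : u ≠ 0 := (isUn_iff.1 (zeta_isUn (A := A) hN hu.pow_eq_one)).1
    rw [zpow_sub₀ hu0, zpow_natCast, pow_mul, hi, hy, h3, mul_pow, h5, mul_one,
      div_self (pow_ne_zero l hζ)]
  have h7 := (hu.zpow_eq_one_iff_dvd _).1 h6
  have h8 : (l : ℤ) ∣ j - (i * l : ℕ) := (Int.natCast_dvd_natCast.2 hlq).trans h7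
  have h9 : (l : ℤ) ∣ ((i * l : ℕ) : ℤ) := Int.natCast_dvd_natCast.2 (dvd_mul_left l i)
  have h10 := dvd_add h8 h9
  rwa [sub_add_cancel] at h10

theorem classes (hA : HDVR A) {l : ℕ} (hl : l.Prime)
    (hlq : l ∣ Nat.card (ResidueField A) - 1) {u : F}
    (hu : IsPrimitiveRoot u (Nat.card (ResidueField A) - 1)) {π : F} (hπ : IsUnif A π) {x : F}
    (hx : x ≠ 0) : ∃ i < l, ∃ j < l, ∃ y : F, y ≠ 0 ∧ x = π ^ i * u ^ j * y ^ l := by
  obtain ⟨p, hp⟩ := CharP.exists (ResidueField A)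
  haveI := hp
  have hpl := cls_not_dvd hA hl hlq (p := p)
  have hN := cls_nz hA
  have hu0 : u ≠ 0 := (isUn_iff.1 (zeta_isUn (A := A) hN hu.pow_eq_one)).1
  obtain ⟨k, v, hv, hxv⟩ := exists_zpow hA.dvr hπ hx
  obtain ⟨ζ, m, h1, h2, h3⟩ := exists_teich hA hv
  haveI : NeZero (Nat.card (ResidueField A) - 1) := ⟨hN⟩
  obtain ⟨j₀, -, hj₀⟩ := hu.eq_pow_of_pow_eq_one h1
  obtain ⟨y₀, -, hy₀⟩ := exists_root_one_add hA hpl h2
  have hl0 : (0 : ℤ) < l := by exact_mod_cast hl.pos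
  have hy₀0 : y₀ ≠ 0 := by
    rintro h0
    rw [h0, zero_pow hl.ne_zero] at hy₀
    exact (isUn_iff.1 (isUn_one_add h2)).1 hy₀.symm
  have hk0 : 0 ≤ k % l := Int.emod_nonneg _ hl0.ne'
  have hkl : k % l < l := Int.emod_lt_of_pos _ hl0
  refine ⟨(k % l).toNat, by omega, j₀ % l, Nat.mod_lt _ hl.pos, π ^ (k / l) * u ^ (j₀ / l) * y₀,
    mul_ne_zero (mul_ne_zero (zpow_ne_zero _ hπ.ne) (pow_ne_zero _ hu0)) hy₀0, ?_⟩
  have e1 : π ^ k = π ^ (k % l).toNat * (π ^ (k / l)) ^ l := by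
    rw [← zpow_natCast, Int.toNat_of_nonneg hk0, ← zpow_natCast, ← zpow_mul, ← zpow_add₀ hπ.ne]
    congr 1
    rw [mul_comm, Int.emod_add_mul_ediv]
  have e2 : u ^ j₀ = u ^ (j₀ % l) * (u ^ (j₀ / l)) ^ l := by
    rw [← pow_mul, ← pow_add, mul_comm, Nat.mod_add_div]
  rw [hxv, h3, ← hj₀, ← hy₀, e1, e2]
  ring

theorem classes_unique (hA : HDVR A) {l : ℕ} (hl : l.Prime)
    (hlq : l ∣ Nat.card (ResidueField A) - 1) {u : F}
    (hu : IsPrimitiveRoot u (Nat.card (ResidueField A) - 1)) {π : F} (hπ : IsUnif A π)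
    {i j i' j' : ℕ} (hi : i < l) (hj : j < l) (hi' : i' < l) (hj' : j' < l) {y y' : F}
    (hy : y ≠ 0) (hy' : y' ≠ 0) (h : π ^ i * u ^ j * y ^ l = π ^ i' * u ^ j' * y' ^ l) :
    i = i' ∧ j = j' := by
  have hN := cls_nz hA
  have huU : IsUn A u := zeta_isUn (A := A) hN hu.pow_eq_one
  have hu0 : u ≠ 0 := (isUn_iff.1 huU).1
  have hπ0 := hπ.ne
  have key : ∀ {a b : ℕ}, a < l → b < l → (l : ℤ) ∣ (a : ℤ) - b → a = b := by
    intro a b ha hb hd
    obtain ⟨c, hc⟩ := hd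
    have hl0 : (0 : ℤ) < l := by exact_mod_cast hl.pos
    have h1 : (a : ℤ) - b < l := by omega
    have h2 : -(l : ℤ) < (a : ℤ) - b := by omega
    have hc0 : c = 0 := by
      rw [hc] at h1 h2
      have h3 : c < 1 := by nlinarith
      have h4 : -1 < c := by nlinarith
      omega
    rw [hc0, mul_zero] at hc
    omega
  obtain ⟨a, v, hv, hyv⟩ := exists_zpow hA.dvr hπ hy
  obtain ⟨b, w, hw, hyw⟩ := exists_zpow hA.dvr hπ hy'
  have hv0 := (isUn_iff.1 hv).1
  have hw0 := (isUn_iff.1 hw).1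
  have hpi : π ^ ((i : ℤ) + a * l - i' - b * l) = u ^ j' * w ^ l * (u ^ j * v ^ l)⁻¹ := by
    rw [hyv, hyw, mul_pow, mul_pow] at h
    have e1 : π ^ ((i : ℤ) + a * l - i' - b * l) = π ^ i * (π ^ a) ^ l * ((π ^ i') * (π ^ b) ^ l)⁻¹ := by
      rw [zpow_sub₀ hπ0, zpow_sub₀ hπ0, zpow_add₀ hπ0, zpow_mul, zpow_mul, zpow_natCast, zpow_natCast,
        zpow_natCast, zpow_natCast]
      field_simp
    rw [e1]
    have h1 : π ^ i ≠ 0 := pow_ne_zero _ hπ0
    have h2 : π ^ i' ≠ 0 := pow_ne_zero _ hπ0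
    have h3 : π ^ a ≠ 0 := zpow_ne_zero _ hπ0
    have h4 : π ^ b ≠ 0 := zpow_ne_zero _ hπ0
    rw [← div_eq_mul_inv, ← div_eq_mul_inv, div_eq_div_iff (mul_ne_zero h2 (pow_ne_zero _ h4))
      (mul_ne_zero (pow_ne_zero _ hu0) (pow_ne_zero _ hv0))]
    linear_combination h
  have hun : IsUn A (π ^ ((i : ℤ) + a * l - i' - b * l)) := by
    rw [hpi]
    exact ((huU.pow j').mul (hw.pow l)).mul ((huU.pow j).mul (hv.pow l)).inv
  have h0 := zpow_isUn hπ hun
  have hii : i = i' := by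
    refine key hi hi' ⟨b - a, ?_⟩
    linear_combination h0
  refine ⟨hii, ?_⟩
  rw [h0, zpow_zero] at hpi
  have h5 : u ^ ((j : ℤ) - j') = (w / v) ^ l := by
    rw [zpow_sub₀ hu0, zpow_natCast, zpow_natCast, div_pow]
    have h6 : u ^ j * v ^ l ≠ 0 := mul_ne_zero (pow_ne_zero _ hu0) (pow_ne_zero _ hv0)
    have h7 : u ^ j * v ^ l = u ^ j' * w ^ l := by
      rw [eq_mul_inv_iff_mul_eq₀ h6, one_mul] at hpi
      exact hpi
    rw [div_eq_div_iff (pow_ne_zero _ hu0) (pow_ne_zero _ hv0), h7, mul_comm]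
  exact key hj hj' (zeta_nonpower hA hl hlq hu _ h5)

end Pool.Agent.Helper60.SL
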