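import Mathlib
import Pool.Agent.Helper60.SL.Ext
import Pool.Agent.Helper60.SL.ExtBasic
import Pool.Agent.Helper60.SL.Unif

/-!
# SL-19: Galois invariance of the valuation ring of the algebraic closure, Krasner's lemma

`V = ext hA Ω`, `v = V.valuation`.

PROOF.  `gal_div_isUn`: let `y = g x / x`.  Some power `g^m`, `m > 0`, fixes `x` (the orbit of `x` is finite, it consists of roots of `minpoly F x`).  `y * g y * ... * g^(m-1) y = g^m x / x = 1`.  If `y` were a nonunit of `V`, all
`g^i y` would be nonunits (`ext_nonunits_hom`) and so would be their product (for `m > 0`); if `y⁻¹` were a nonunit the same applies to `y⁻¹`.  So `y` is a unit.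
`gal_val`: the valuation of `g x` is the valuation of `x` (immediate from `gal_div_isUn`, `ValuationSubring.valuation_eq_one_iff` or similar; `x = 0` trivial).
`krasner`: by Galois theory (`Ω / F` is Galois, characteristic `0`, so is `Ω / F(b)`) it suffices that every `g ∈ Gal(Ω/F)` with `g b = b` fixes `a`.  If not, `v (g a - b) = v (g (a - b)) = v (a - b)`, so
`v (g a - a) ≤ max (v (g a - b)) (v (b - a)) = v (b - a)`, but the hypothesis gives `v (b - a) < v (g a - a)`.
-/

set_option autoImplicit false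

namespace Pool.Agent.Helper60.SL

variable {F : Type*} [Field F] [CharZero F] {A : ValuationSubring F} (hA : HDVR A)
variable {Ω : Type*} [Field Ω] [Algebra F Ω] [IsAlgClosed Ω] [Algebra.IsAlgebraic F Ω]

omit [IsAlgClosed Ω] in
private theorem gv_lt (g : Ω ≃ₐ[F] Ω) {a b : Ω}
    (h : (ext hA Ω).valuation a < (ext hA Ω).valuation b) :
    (ext hA Ω).valuation (g a) < (ext hA Ω).valuation (g b) := by
  have hb : b ≠ 0 := by
    rintro rfl
    rw [map_zero] at h
    exact not_lt_zero h
  have hb' : 0 < (ext hA Ω).valuation b := zero_lt_iff.2 ((Valuation.ne_zero_iff _).2 hb)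
  have hgb : g b ≠ 0 := (map_ne_zero g).2 hb
  have hgb' : 0 < (ext hA Ω).valuation (g b) := zero_lt_iff.2 ((Valuation.ne_zero_iff _).2 hgb)
  have h1 : a / b ∈ (ext hA Ω).nonunits := by
    rw [ValuationSubring.mem_nonunits_iff, map_div₀]
    exact (div_lt_one₀ hb').2 h
  have h2 := (ext_nonunits_hom hA (g : Ω →ₐ[F] Ω) (a / b)).2 h1
  rw [ValuationSubring.mem_nonunits_iff] at h2
  have h3 : (g : Ω →ₐ[F] Ω) (a / b) = g a / g b := map_div₀ g a b
  rw [h3, map_div₀] at h2
  exact (div_lt_one₀ hgb').1 h2

omit [CharZero F] [IsAlgClosed Ω] in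
private theorem gv_per (g : Ω ≃ₐ[F] Ω) (x : Ω) : ∃ a b : ℕ, a < b ∧ (g ^ a) x = (g ^ b) x := by
  have hx : IsIntegral F x := Algebra.IsIntegral.isIntegral x
  have hfin : (Set.range (fun k : ℕ => (g ^ k) x)).Finite := by
    refine ((minpoly F x).rootSet_finite Ω).subset ?_
    rintro _ ⟨k, rfl⟩
    rw [Polynomial.mem_rootSet]
    refine ⟨minpoly.ne_zero hx, ?_⟩
    change Polynomial.aeval ((g ^ k) x) (minpoly F x) = 0
    rw [Polynomial.aeval_algHom_apply (g ^ k : Ω ≃ₐ[F] Ω) x, minpoly.aeval, map_zero]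
  have hninj : ¬ Function.Injective (fun k : ℕ => (g ^ k) x) := fun hinj =>
    Set.infinite_range_of_injective hinj hfin
  rw [Function.Injective] at hninj
  push Not at hninj
  obtain ⟨a, b, h1, h2⟩ := hninj
  rcases lt_or_gt_of_ne h2 with h3 | h3
  · exact ⟨a, b, h3, h1⟩
  · exact ⟨b, a, h3, h1.symm⟩

theorem gal_val (g : Ω ≃ₐ[F] Ω) (x : Ω) :
    (ext hA Ω).valuation (g x) = (ext hA Ω).valuation x := by
  have _h : IsAlgClosed Ω := inferInstance
  obtain ⟨a, b, hab, he⟩ := gv_per g x
  have hsucc : ∀ k : ℕ, (g ^ (k + 1)) x = g ((g ^ k) x) := fun k => by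
    rw [pow_succ']
    rfl
  rcases lt_trichotomy ((ext hA Ω).valuation (g x)) ((ext hA Ω).valuation x) with h | h | h
  · exfalso
    have h1 : ∀ k : ℕ, (ext hA Ω).valuation ((g ^ (k + 1)) x) < (ext hA Ω).valuation ((g ^ k) x) := by
      intro k
      induction k with
      | zero =>
        rw [zero_add, pow_one, pow_zero]
        exact h
      | succ k ih =>
        rw [hsucc (k + 1), hsucc k]
        rw [hsucc k] at ih
        exact gv_lt hA g ih
    have h2 : StrictAnti (fun k : ℕ => (ext hA Ω).valuation ((g ^ k) x)) := strictAnti_nat_of_succ_lt h1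
    have h3 := h2 hab
    simp only [he, lt_irrefl] at h3
  · exact h
  · exfalso
    have h1 : ∀ k : ℕ, (ext hA Ω).valuation ((g ^ k) x) < (ext hA Ω).valuation ((g ^ (k + 1)) x) := by
      intro k
      induction k with
      | zero =>
        rw [zero_add, pow_one, pow_zero]
        exact h
      | succ k ih =>
        rw [hsucc (k + 1), hsucc k]
        rw [hsucc k] at ih
        exact gv_lt hA g ih
    have h2 : StrictMono (fun k : ℕ => (ext hA Ω).valuation ((g ^ k) x)) := strictMono_nat_of_lt_succ h1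
    have h3 := h2 hab
    simp only [he, lt_irrefl] at h3

theorem gal_div_isUn (g : Ω ≃ₐ[F] Ω) {x : Ω} (hx : x ≠ 0) : IsUn (ext hA Ω) (g x / x) := by
  have h1 := gal_val hA g x
  have h0 : (ext hA Ω).valuation x ≠ 0 := (Valuation.ne_zero_iff _).2 hx
  have h2 : (ext hA Ω).valuation (g x / x) = 1 := by
    rw [map_div₀, h1, div_self h0]
  unfold IsUn
  rw [← (ext hA Ω).valuation_le_one_iff, ValuationSubring.mem_nonunits_iff, not_lt]
  exact ⟨h2.le, h2.ge⟩

theorem krasner {a b : Ω}
    (h : ∀ g : Ω ≃ₐ[F] Ω, g a ≠ a →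
      (ext hA Ω).valuation (b - a) < (ext hA Ω).valuation (g a - a)) :
    a ∈ IntermediateField.adjoin F {b} := by
  have hac : IsAlgClosure F Ω := ⟨inferInstance, inferInstance⟩
  have hgal : IsGalois F Ω := IsAlgClosure.isGalois F Ω
  rw [← InfiniteGalois.fixedField_fixingSubgroup (IntermediateField.adjoin F {b})]
  rw [IntermediateField.mem_fixedField_iff]
  intro g hg
  by_contra hga
  have hgb : g b = b := by
    rw [IntermediateField.mem_fixingSubgroup_iff] at hg
    exact hg b (IntermediateField.mem_adjoin_simple_self F b)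
  have h1 := h g hga
  have h2 : (ext hA Ω).valuation (g a - b) = (ext hA Ω).valuation (a - b) := by
    rw [← gal_val hA g (a - b), map_sub g a b, hgb]
  have h3 : g a - a = (g a - b) + (b - a) := by ring
  have h4 : (ext hA Ω).valuation (g a - a) ≤ (ext hA Ω).valuation (b - a) := by
    rw [h3]
    refine (Valuation.map_add _ _ _).trans ?_
    rw [h2, Valuation.map_sub_swap, max_self]
  exact absurd h1 (not_lt.2 h4)

end Pool.Agent.Helper60.SL
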