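import Mathlib
import Pool.Agent.Helper60.SL.GalVal

/-!
# SL-20: elements with close minimal polynomials

`V = ext hA Ω`, `v = V.valuation`.

PROOF.  Let `f = minpoly F a`, separable, `f = ∏ (X - a')` over the distinct roots `a' = g a`, `g ∈ Gal(Ω/F)` (all in `V`, `ext_hom`).
`f(b) = f(b) - (minpoly F b)(b) = ∑_i (coefficient difference) b^i ∈ c^2 V`, so `v (f(b)) ≤ v(c)^2`.  Let `a'` be a root with `v (b - a')` minimal.  For another root `a''`:
`v (a' - a'') ≤ max (v (b - a')) (v (b - a'')) = v (b - a'')`, so `v (f(b)) = v (b - a') ∏_{a'' ≠ a'} v (b - a'') ≥ v (b - a') ∏_{a'' ≠ a'} v (a' - a'') = v (b - a') v (f'(a'))` and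
`v (f'(a')) = v (f'(a)) > v (c)` (`a' = g a`, `f'(g a) = g (f'(a))`, `gal_val`; hypothesis `hder`, note that `f'(a) ≠ 0`).  Hence `v (b - a') ≤ v(c)^2 / v(f'(a')) < v(c)`.  For another root `a''`:
`v (f'(a')) = ∏ v (a' - a''') ≤ v (a' - a'')` as all factors are `≤ 1`, so `v (a'' - a') ≥ v (f'(a')) > v (c) > v (b - a')`.  So `krasner` applies to `a'` and `b`: `a' ∈ F(b)`.
-/

set_option autoImplicit false

open Polynomial

namespace Pool.Agent.Helper60.SL

variable {F : Type*} [Field F] [CharZero F] {A : ValuationSubring F} (hA : HDVR A)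
variable {Ω : Type*} [Field Ω] [Algebra F Ω] [IsAlgClosed Ω] [Algebra.IsAlgebraic F Ω]

theorem close_aux {K Γ : Type*} [Field K] [LinearOrderedCommGroupWithZero Γ] (v : Valuation K Γ)
    (P : K[X]) (hP : P.Monic) (hs : P.Splits) (hnd : P.roots.Nodup) (hne : P.roots ≠ 0)
    (hint : ∀ r ∈ P.roots, v r ≤ 1) (b : K) (γ : Γ) (hγ : γ ≠ 0)
    (h1 : v (P.eval b) ≤ γ ^ 2) (h2 : ∀ r ∈ P.roots, γ < v (P.derivative.eval r)) :
    ∃ r ∈ P.roots, v (b - r) < γ ∧ ∀ r' ∈ P.roots, r' ≠ r → γ < v (r' - r) := by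
  classical
  set R : Finset K := P.roots.toFinset with hR
  have hRv : R.val = P.roots := by
    rw [hR, Multiset.toFinset_val, hnd.dedup]
  have hmem : ∀ r, r ∈ R ↔ r ∈ P.roots := fun r => Multiset.mem_toFinset
  have heval : P.eval b = ∏ r ∈ R, (b - r) := by
    rw [hs.eval_eq_prod_roots_of_monic hP, Finset.prod_eq_multiset_prod, hRv]
  have hder : ∀ r ∈ R, P.derivative.eval r = ∏ a ∈ R.erase r, (r - a) := by
    intro r hr
    rw [hs.eval_root_derivative hP ((hmem r).1 hr), Finset.prod_eq_multiset_prod,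
      Finset.erase_val, hRv]
  have hRne : R.Nonempty := by
    obtain ⟨r, hr⟩ := Multiset.exists_mem_of_ne_zero hne
    exact ⟨r, (hmem r).2 hr⟩
  obtain ⟨r, hr, hmin⟩ := Finset.exists_min_image R (fun r => v (b - r)) hRne
  have hγ2 := h2 r ((hmem r).1 hr)
  have h3 : ∀ a ∈ R.erase r, v (r - a) ≤ v (b - a) := by
    intro a ha
    have h4 : r - a = (b - a) - (b - r) := by ring
    rw [h4]
    exact (v.map_sub _ _).trans (max_le le_rfl (hmin a (Finset.mem_of_mem_erase ha)))
  have h5 : v (b - r) * v (P.derivative.eval r) ≤ γ ^ 2 := by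
    refine le_trans ?_ h1
    rw [heval, ← Finset.mul_prod_erase R _ hr, v.map_mul, hder r hr, map_prod, map_prod]
    exact mul_le_mul_right (Finset.prod_le_prod' h3) _
  refine ⟨r, (hmem r).1 hr, ?_, ?_⟩
  · by_contra hcon
    rw [not_lt] at hcon
    have h6 : γ ^ 2 < v (b - r) * v (P.derivative.eval r) := by
      rw [pow_two]
      exact mul_lt_mul_of_le_of_lt_of_nonneg_of_pos hcon hγ2 zero_le (zero_lt_iff.2 (by
        intro h; rw [h, le_zero_iff] at hcon; exact hγ hcon))
    exact absurd h5 (not_le.2 h6)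
  · intro r' hr' hne'
    refine lt_of_lt_of_le hγ2 ?_
    have h7 : r' ∈ R.erase r := Finset.mem_erase.2 ⟨hne', (hmem r').2 hr'⟩
    rw [hder r hr, map_prod, ← Finset.mul_prod_erase _ _ h7, v.map_sub_swap r' r]
    refine mul_le_of_le_one_right' (Finset.prod_le_one' ?_)
    intro a ha
    have ha' : a ∈ R := Finset.mem_of_mem_erase (Finset.mem_of_mem_erase ha)
    exact (v.map_sub _ _).trans (max_le (hint r ((hmem r).1 hr)) (hint a ((hmem a).1 ha')))

theorem close_conj {c : F} (hc0 : c ≠ 0) (hc : c ∈ A) {a b : Ω} (ha : a ∈ ext hA Ω)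
    (hb : b ∈ ext hA Ω)
    (hder : algebraMap F Ω c / aeval a (derivative (minpoly F a)) ∈ (ext hA Ω).nonunits)
    (hclose : ∀ i, ((minpoly F a).coeff i - (minpoly F b).coeff i) / c ^ 2 ∈ A) :
    ∃ g : Ω ≃ₐ[F] Ω, g a ∈ IntermediateField.adjoin F {b} := by
  classical
  set v := (ext hA Ω).valuation with hv
  have hvF : ∀ x : F, x ∈ A → v (algebraMap F Ω x) ≤ 1 := fun x hx =>
    ((ext hA Ω).valuation_le_one_iff _).2 ((ext_map hA x).2 hx)
  have hc0' : algebraMap F Ω c ≠ 0 := (_root_.map_ne_zero _).2 hc0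
  have hvc : v (algebraMap F Ω c) ≠ 0 := (v.ne_zero_iff).2 hc0'
  have hai : IsIntegral F a := Algebra.IsIntegral.isIntegral a
  have hnorm : Normal F Ω := by
    have : IsAlgClosure F Ω := ⟨inferInstance, inferInstance⟩
    exact IsAlgClosure.normal F Ω
  set f := minpoly F a with hf
  set P : Polynomial Ω := f.map (algebraMap F Ω) with hP
  have hfmon : f.Monic := minpoly.monic hai
  have hPmon : P.Monic := hfmon.map _
  have hsep : f.Separable := (minpoly.irreducible hai).separable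
  have hPs : P.Splits := IsAlgClosed.splits P
  have hnd : P.roots.Nodup := nodup_roots (hsep.map)
  have hPdeg : P.natDegree ≠ 0 := by
    rw [hP, natDegree_map]
    exact (minpoly.natDegree_pos hai).ne'
  have hroot : ∀ r, r ∈ P.roots → ∃ g : Ω ≃ₐ[F] Ω, r = g a := by
    intro r hr
    have h1 : aeval r f = 0 := by
      rw [aeval_def, ← eval_map]
      exact (mem_roots hPmon.ne_zero).1 hr
    have h2 : IsConjRoot F a r := by
      rw [isConjRoot_iff_aeval_eq_zero hai]
      exact h1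
    obtain ⟨g, hg⟩ := (isConjRoot_iff_exists_algEquiv).1 h2.symm
    exact ⟨g, hg.symm⟩
  have hrd : ∀ g : Ω ≃ₐ[F] Ω, v (P.derivative.eval (g a)) = v (aeval a (derivative f)) := by
    intro g
    have h1 : P.derivative.eval (g a) = g (aeval a (derivative f)) := by
      rw [hP, derivative_map, eval_map, ← aeval_def]
      exact aeval_algHom_apply (g : Ω →ₐ[F] Ω) a (derivative f)
    rw [h1]
    exact gal_val hA g _
  have hda : aeval a (derivative f) ≠ 0 := hsep.aeval_derivative_ne_zero (minpoly.aeval F a)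
  have hlt : v (algebraMap F Ω c) < v (aeval a (derivative f)) := by
    rw [ValuationSubring.mem_nonunits_iff, ← hv, map_div₀] at hder
    exact (div_lt_one₀ (zero_lt_iff.2 ((v.ne_zero_iff).2 hda))).1 hder
  have h1 : v (P.eval b) ≤ v (algebraMap F Ω c) ^ 2 := by
    have h2 : P.eval b = aeval b (f - minpoly F b) := by
      rw [map_sub, minpoly.aeval, sub_zero, aeval_def, ← eval_map]
    rw [h2, aeval_eq_sum_range]
    refine v.map_sum_le (fun i _ => ?_)
    have h3 : (f - minpoly F b).coeff i =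
        ((f.coeff i - (minpoly F b).coeff i) / c ^ 2) * c ^ 2 := by
      rw [coeff_sub, div_mul_cancel₀ _ (pow_ne_zero 2 hc0)]
    rw [Algebra.smul_def, h3, map_mul, map_mul, map_mul, map_pow, map_pow, map_pow]
    have h4 : v (algebraMap F Ω ((f.coeff i - (minpoly F b).coeff i) / c ^ 2)) ≤ 1 :=
      hvF _ (hclose i)
    have h5 : v b ≤ 1 := ((ext hA Ω).valuation_le_one_iff _).2 hb
    have h6 : v b ^ i ≤ 1 := pow_le_one₀ zero_le h5
    calc _ ≤ 1 * v (algebraMap F Ω c) ^ 2 * 1 :=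
          mul_le_mul' (mul_le_mul' h4 le_rfl) h6
      _ = _ := by rw [one_mul, mul_one]
  obtain ⟨r, hr, hr1, hr2⟩ := close_aux v P hPmon hPs hnd (hPs.roots_ne_zero hPdeg)
    (by
      intro r hr
      obtain ⟨g, rfl⟩ := hroot r hr
      rw [hv, gal_val hA g]
      exact ((ext hA Ω).valuation_le_one_iff _).2 ha)
    b (v (algebraMap F Ω c)) hvc h1
    (by
      intro r hr
      obtain ⟨g, rfl⟩ := hroot r hr
      rw [hrd g]
      exact hlt)
  obtain ⟨g, rfl⟩ := hroot r hr
  refine ⟨g, krasner hA (fun g' hg' => hr1.trans (hr2 _ ?_ hg'))⟩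
  rw [mem_roots hPmon.ne_zero, IsRoot.def, hP, eval_map, ← aeval_def]
  have h7 : aeval (g' (g a)) f = g' (g (aeval a f)) := by
    have h8 : aeval (g a) f = g (aeval a f) := aeval_algHom_apply (g : Ω →ₐ[F] Ω) a f
    rw [← h8]
    exact aeval_algHom_apply (g' : Ω →ₐ[F] Ω) (g a) f
  rw [h7, minpoly.aeval, map_zero, map_zero]

end Pool.Agent.Helper60.SL
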