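import Mathlib
import Pool.Agent.Helper60.SL.Fund

/-!
# SL-17: a uniformizer of a totally ramified extension generates it

PROOF.  `q = Nat.card (ResidueField A) > 1` (a finite field).  Let `E₁ = F(ϖ)` and `ϖ₁ ∈ E₁` the element `ϖ`.  It is a uniformizer of `ext hA E₁`: it is a nonunit (`ext_nonunits_hom` for the inclusion `E₁ → E`), and if `y` is a nonunit of
`ext hA E₁` then `y / ϖ` is in `ext hA E`, so `y / ϖ₁` is in `ext hA E₁` (`ext_hom`).  Let `π` be a uniformizer of `A` (`exists_unif`).  `fund` for `E`: `e f = [E : F]`, `q = q_E = q^f`, so `f = 1`, `e = [E : F]` and `π / ϖ^e` is a unit.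
`fund` for `E₁`: `e₁ f₁ = [E₁ : F]`, `π / ϖ₁^(e₁)` is a unit of `ext hA E₁`, so its image is a unit of `ext hA E`; hence `ϖ^(e - e₁)` (integer exponent) is a unit and `e = e₁` (`zpow_isUn`).
So `[E₁ : F] ≥ e₁ = e = [E : F]` and `E₁ = E`.  `natDegree_minpoly`: `[F(ϖ) : F]` is the degree of the minimal polynomial.  `unif_totram`: shown above.
-/

set_option autoImplicit false

open IsLocalRing

namespace Pool.Agent.Helper60.SL

variable {F : Type*} [Field F] [CharZero F] {A : ValuationSubring F} (hA : HDVR A)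

theorem unif_totram (E : Type*) [Field E] [Algebra F E] [FiniteDimensional F E]
    (h : Nat.card (ResidueField (ext hA E)) = Nat.card (ResidueField A)) {π : F}
    (hπ : IsUnif A π) {ϖ : E} (hϖ : IsUnif (ext hA E) ϖ) :
    IsUn (ext hA E) (algebraMap F E π / ϖ ^ Module.finrank F E) := by
  obtain ⟨e, f, he, hf, hef, hc, hu⟩ := fund hA E hπ hϖ
  have hfin := hA.fin
  have hq : 1 < Nat.card (ResidueField A) := Finite.one_lt_card
  have hf1 : f = 1 := by
    rw [h] at hc
    have h1 : Nat.card (ResidueField A) ^ 1 = Nat.card (ResidueField A) ^ f := by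
      rw [pow_one]
      exact hc
    exact (Nat.pow_right_injective hq h1).symm
  rw [hf1, mul_one] at hef
  rw [← hef]
  exact hu

private theorem gen_unif (E : Type*) [Field E] [Algebra F E] [FiniteDimensional F E]
    {E₁ : Type*} [Field E₁] [Algebra F E₁] [FiniteDimensional F E₁] (ι : E₁ →ₐ[F] E)
    {ϖ : E₁} (hϖ : IsUnif (ext hA E) (ι ϖ)) : IsUnif (ext hA E₁) ϖ where
  ne := by
    rintro rfl
    exact hϖ.ne (map_zero ι)
  non := (ext_nonunits_hom hA ι ϖ).1 hϖ.non
  gen := by
    intro x hx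
    have h1 := hϖ.gen _ ((ext_nonunits_hom hA ι x).2 hx)
    rw [← map_div₀] at h1
    exact (ext_hom hA ι _).1 h1

private theorem gen_finrank (E : Type*) [Field E] [Algebra F E] [FiniteDimensional F E]
    {E₁ : Type*} [Field E₁] [Algebra F E₁] [FiniteDimensional F E₁] (ι : E₁ →ₐ[F] E)
    (h : Nat.card (ResidueField (ext hA E)) = Nat.card (ResidueField A))
    {ϖ : E₁} (hϖ : IsUnif (ext hA E) (ι ϖ)) : Module.finrank F E ≤ Module.finrank F E₁ := by
  obtain ⟨π, hπ⟩ := exists_unif hA.dvr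
  have h1 := unif_totram hA E h hπ hϖ
  obtain ⟨e, f, he, hf, hef, hc, hu⟩ := fund hA E₁ hπ (gen_unif hA E ι hϖ)
  have h2 : IsUn (ext hA E) (algebraMap F E π / (ι ϖ) ^ e) := by
    have h3 : algebraMap F E π / (ι ϖ) ^ e = ι (algebraMap F E₁ π / ϖ ^ e) := by
      rw [map_div₀, map_pow, AlgHom.commutes]
    rw [h3]
    exact ⟨(ext_hom hA ι _).2 hu.1, fun h4 => hu.2 ((ext_nonunits_hom hA ι _).1 h4)⟩
  have h3 : IsUn (ext hA E) ((ι ϖ) ^ ((Module.finrank F E : ℤ) - (e : ℤ))) := by
    have h4 : (ι ϖ) ^ ((Module.finrank F E : ℤ) - (e : ℤ)) =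
        (algebraMap F E π / (ι ϖ) ^ e) * (algebraMap F E π / (ι ϖ) ^ Module.finrank F E)⁻¹ := by
      have h5 : algebraMap F E π ≠ 0 := by
        rw [Ne, map_eq_zero]
        exact hπ.ne
      have h6 := hϖ.ne
      rw [zpow_sub₀ h6, zpow_natCast, zpow_natCast]
      field_simp
    rw [h4]
    exact h2.mul h1.inv
  have h4 := zpow_isUn hϖ h3
  have h5 : Module.finrank F E = e := by omega
  rw [h5, ← hef]
  exact Nat.le_mul_of_pos_right e hf

theorem gen_of_unif (E : Type*) [Field E] [Algebra F E] [FiniteDimensional F E]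
    (h : Nat.card (ResidueField (ext hA E)) = Nat.card (ResidueField A)) {ϖ : E}
    (hϖ : IsUnif (ext hA E) ϖ) : IntermediateField.adjoin F {ϖ} = ⊤ := by
  apply IntermediateField.eq_of_le_of_finrank_le le_top
  rw [IntermediateField.finrank_top']
  exact gen_finrank hA E (IntermediateField.adjoin F {ϖ}).val h
    (ϖ := ⟨ϖ, IntermediateField.mem_adjoin_simple_self F ϖ⟩) hϖ

theorem natDegree_minpoly (E : Type*) [Field E] [Algebra F E] [FiniteDimensional F E]
    (h : Nat.card (ResidueField (ext hA E)) = Nat.card (ResidueField A)) {ϖ : E}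
    (hϖ : IsUnif (ext hA E) ϖ) : (minpoly F ϖ).natDegree = Module.finrank F E := by
  rw [← IntermediateField.adjoin.finrank (Algebra.IsIntegral.isIntegral ϖ),
    gen_of_unif hA E h hϖ, IntermediateField.finrank_top']

end Pool.Agent.Helper60.SL
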