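import Mathlib
import Pool.Agent.Helper60.SL.Gen

/-!
# SL-18: the derivative of the minimal polynomial of a uniformizer, totally ramified case

PROOF.  `sum_distinct`: choose `i₀ ∈ s` with `v (t i₀)` maximal (`Finset.exists_max_image`).  If it is `0` all terms are `0`.  Otherwise all other terms have a strictly smaller value (a nonzero one is different by
hypothesis), so their sum is strictly smaller (`Valuation.map_sum_lt`) and the value of the whole sum is `v (t i₀)` (`Valuation.map_add_eq_of_lt_left`), which is at least `v (t j)` for all `j ∈ s`.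
`deriv_bound`: let `e = finrank F E`, `v = (ext hA E).valuation`.  `minpoly F ϖ = X^e + ∑_{i < e} a_i X^i` (`natDegree_minpoly`), so `f'(ϖ) = ∑_{i = 1}^e i a_i ϖ^(i-1)`, `a_e = 1`.  For `c ∈ F`, `c ≠ 0`: `c = π^k u` with a unit `u`
(`exists_zpow`), and `π / ϖ^e` is a unit (`unif_totram`), so `c = ϖ^(e k)` times a unit of `ext hA E`.  So a nonzero term `i a_i ϖ^(i-1)` is `ϖ^(e k_i + i - 1)` times a unit and for `i ≠ j` the exponents are different, `1 ≤ i, j ≤ e`; hence the
values of the nonzero terms are different (`v x = v y`, both nonzero, means that `x / y` is a unit; `zpow_isUn` for `ϖ`).  By `sum_distinct`, `v (f'(ϖ)) ≥ v (e ϖ^(e-1))`, and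
`π e / (e ϖ^(e-1)) = π / ϖ^(e-1)` is `ϖ` times a unit, a nonunit, so `v (π e) < v (e ϖ^(e-1)) ≤ v (f'(ϖ))`.
-/

set_option autoImplicit false

open IsLocalRing Polynomial

namespace Pool.Agent.Helper60.SL

theorem sum_distinct {E Γ ι : Type*} [Field E] [LinearOrderedCommGroupWithZero Γ]
    (v : Valuation E Γ) (s : Finset ι) (t : ι → E)
    (h : ∀ i ∈ s, ∀ j ∈ s, i ≠ j → t i ≠ 0 → t j ≠ 0 → v (t i) ≠ v (t j)) {j : ι}
    (hj : j ∈ s) : v (t j) ≤ v (∑ i ∈ s, t i) := by
  classical
  obtain ⟨i₀, hi₀, hmax⟩ := s.exists_max_image (fun i => v (t i)) ⟨j, hj⟩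
  by_cases h0 : v (t i₀) = 0
  · have h1 := hmax j hj
    simp only [h0] at h1
    exact h1.trans zero_le
  · have h1 : v (∑ i ∈ s.erase i₀, t i) < v (t i₀) := by
      apply Valuation.map_sum_lt v h0
      intro i hi
      rw [Finset.mem_erase] at hi
      refine lt_of_le_of_ne (hmax i hi.2) fun heq => ?_
      have h2 : t i₀ ≠ 0 := by
        intro h3
        apply h0
        rw [h3, map_zero]
      have h3 : t i ≠ 0 := by
        intro h4
        apply h0
        rw [← heq, h4, map_zero]
      exact h i hi.2 i₀ hi₀ hi.1 h3 h2 heq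
    rw [← Finset.add_sum_erase s t hi₀, Valuation.map_add_eq_of_lt_left v h1]
    exact hmax j hj

variable {F : Type*} [Field F] [CharZero F] {A : ValuationSubring F} (hA : HDVR A)

private theorem deriv_isUn {E : Type*} [Field E] {B : ValuationSubring E} {x : E} :
    IsUn B x ↔ B.valuation x = 1 := by
  unfold IsUn
  rw [← B.valuation_le_one_iff, ValuationSubring.mem_nonunits_iff, not_lt]
  exact ⟨fun h => le_antisymm h.1 h.2, fun h => ⟨h.le, h.ge⟩⟩

private theorem deriv_zpow {E : Type*} [Field E] {B : ValuationSubring E} {ϖ : E} (hϖ : IsUnif B ϖ)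
    {m n : ℤ} (h : B.valuation ϖ ^ m = B.valuation ϖ ^ n) : m = n := by
  have h0 : B.valuation ϖ ≠ 0 := (Valuation.ne_zero_iff _).2 hϖ.ne
  have h1 : IsUn B (ϖ ^ (m - n)) := by
    rw [deriv_isUn, map_zpow₀, zpow_sub₀ h0, h, div_self (zpow_ne_zero _ h0)]
  have h2 := zpow_isUn hϖ h1
  omega

private theorem deriv_totram (E : Type*) [Field E] [Algebra F E] [FiniteDimensional F E]
    (h : Nat.card (ResidueField (ext hA E)) = Nat.card (ResidueField A)) {π : F}
    (hπ : IsUnif A π) {ϖ : E} (hϖ : IsUnif (ext hA E) ϖ) :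
    (ext hA E).valuation (algebraMap F E π) = (ext hA E).valuation ϖ ^ Module.finrank F E := by
  have h0 : (ext hA E).valuation ϖ ≠ 0 := (Valuation.ne_zero_iff _).2 hϖ.ne
  have h1 := deriv_isUn.1 (unif_totram hA E h hπ hϖ)
  rw [map_div₀, map_pow, div_eq_one_iff_eq (pow_ne_zero _ h0)] at h1
  exact h1

private theorem deriv_coeff (E : Type*) [Field E] [Algebra F E] [FiniteDimensional F E]
    (h : Nat.card (ResidueField (ext hA E)) = Nat.card (ResidueField A)) {π : F}
    (hπ : IsUnif A π) {ϖ : E} (hϖ : IsUnif (ext hA E) ϖ) {c : F} (hc : c ≠ 0) :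
    ∃ k : ℤ, (ext hA E).valuation (algebraMap F E c) =
      (ext hA E).valuation ϖ ^ ((Module.finrank F E : ℤ) * k) := by
  obtain ⟨k, w, hw, rfl⟩ := exists_zpow hA.dvr hπ hc
  have h1 : (ext hA E).valuation (algebraMap F E w) = 1 := by
    rw [← deriv_isUn]
    rw [isUn_iff] at hw ⊢
    refine ⟨?_, (ext_map hA _).2 hw.2.1, ?_⟩
    · rw [Ne, map_eq_zero]
      exact hw.1
    · rw [← map_inv₀]
      exact (ext_map hA _).2 hw.2.2
  refine ⟨k, ?_⟩
  rw [map_mul, map_zpow₀, map_mul, h1, mul_one, map_zpow₀, deriv_totram hA E h hπ hϖ, zpow_mul, zpow_natCast]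

theorem deriv_bound (E : Type*) [Field E] [Algebra F E] [FiniteDimensional F E]
    (h : Nat.card (ResidueField (ext hA E)) = Nat.card (ResidueField A)) {π : F}
    (hπ : IsUnif A π) {ϖ : E} (hϖ : IsUnif (ext hA E) ϖ) :
    algebraMap F E (π * (Module.finrank F E : F)) / aeval ϖ (derivative (minpoly F ϖ)) ∈
      (ext hA E).nonunits := by
  have hcz : CharZero E := charZero_of_injective_algebraMap (algebraMap F E).injective
  obtain ⟨e, he⟩ : ∃ e, e = Module.finrank F E := ⟨_, rfl⟩
  have hepos : 0 < e := by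
    rw [he]
    exact Module.finrank_pos
  obtain ⟨f, hf⟩ : ∃ f, f = minpoly F ϖ := ⟨_, rfl⟩
  have hint : IsIntegral F ϖ := Algebra.IsIntegral.isIntegral ϖ
  have hfm : f.Monic := by
    rw [hf]
    exact minpoly.monic hint
  have hfd : f.natDegree = e := by
    rw [hf, he]
    exact natDegree_minpoly hA E h hϖ
  have hϖ0 : (ext hA E).valuation ϖ ≠ 0 := (Valuation.ne_zero_iff _).2 hϖ.ne
  have hϖ1 : (ext hA E).valuation ϖ < 1 := (ext hA E).mem_nonunits_iff.1 hϖ.non
  have hev : aeval ϖ (derivative f) = ∑ i ∈ Finset.range e, algebraMap F E ((derivative f).coeff i) * ϖ ^ i := by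
    rw [aeval_eq_sum_range' (n := e)]
    · simp only [Algebra.smul_def]
    · have h1 := natDegree_derivative_lt (p := f) (by omega)
      omega
  have hlast : algebraMap F E ((derivative f).coeff (e - 1)) = (e : E) := by
    rw [coeff_derivative]
    have h1 : e - 1 + 1 = e := by omega
    have h2 : f.coeff (e - 1 + 1) = 1 := by
      rw [h1, ← hfd]
      exact hfm.coeff_natDegree
    have h3 : ((e - 1 : ℕ) : F) + 1 = (e : F) := by
      have h4 : ((e - 1 + 1 : ℕ) : F) = (e : F) := by rw [h1]
      rw [← h4]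
      push_cast
      ring
    rw [h2, h3, one_mul, map_natCast]
  have hlower : (ext hA E).valuation ((e : E) * ϖ ^ (e - 1)) ≤ (ext hA E).valuation (aeval ϖ (derivative f)) := by
    rw [hev]
    have h1 := sum_distinct (ext hA E).valuation (Finset.range e)
      (fun i => algebraMap F E ((derivative f).coeff i) * ϖ ^ i) (by
        intro i hi j hj hij hti htj heq
        have hci : (derivative f).coeff i ≠ 0 := by
          intro h2
          apply hti
          simp only [h2, map_zero, zero_mul]
        have hcj : (derivative f).coeff j ≠ 0 := by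
          intro h2
          apply htj
          simp only [h2, map_zero, zero_mul]
        obtain ⟨k, hk⟩ := deriv_coeff hA E h hπ hϖ hci
        obtain ⟨l, hl⟩ := deriv_coeff hA E h hπ hϖ hcj
        rw [← he] at hk hl
        rw [map_mul, map_mul, map_pow, map_pow, hk, hl, ← zpow_natCast, ← zpow_natCast, ← zpow_add₀ hϖ0,
          ← zpow_add₀ hϖ0] at heq
        have h3 := deriv_zpow hϖ heq
        rw [Finset.mem_range] at hi hj
        apply hij
        have h4 : (i : ℤ) % e = (j : ℤ) % e := by
          have h5 : (i : ℤ) = j + e * (l - k) := by linarith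
          rw [h5, Int.add_mul_emod_self_left]
        rw [Int.emod_eq_of_lt (by omega) (by omega), Int.emod_eq_of_lt (by omega) (by omega)] at h4
        exact_mod_cast h4) (j := e - 1) (Finset.mem_range.2 (by omega))
    simp only [hlast] at h1
    exact h1
  have he0 : (ext hA E).valuation (e : E) ≠ 0 := by
    rw [Ne, map_eq_zero]
    exact_mod_cast hepos.ne'
  have hlt : (ext hA E).valuation (algebraMap F E (π * (e : F))) <
      (ext hA E).valuation ((e : E) * ϖ ^ (e - 1)) := by
    rw [map_mul (algebraMap F E), map_natCast, map_mul, map_mul, deriv_totram hA E h hπ hϖ, ← he, map_pow,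
      mul_comm]
    have h1 : (ext hA E).valuation ϖ ^ e = (ext hA E).valuation ϖ ^ (e - 1) * (ext hA E).valuation ϖ := by
      rw [← pow_succ]
      congr 1
      omega
    have h2 : (ext hA E).valuation ϖ ^ e < (ext hA E).valuation ϖ ^ (e - 1) := by
      rw [h1]
      exact mul_lt_of_lt_one_right (zero_lt_iff.2 (pow_ne_zero _ hϖ0)) hϖ1
    exact (mul_lt_mul_iff_right₀ (zero_lt_iff.2 he0)).2 h2
  rw [← he, ← hf]
  have hpos : (ext hA E).valuation (aeval ϖ (derivative f)) ≠ 0 := by
    intro h1
    have h2 := hlt.trans_le hlower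
    rw [h1] at h2
    exact absurd h2 (not_lt.2 zero_le)
  rw [ValuationSubring.mem_nonunits_iff, map_div₀]
  exact (div_lt_one₀ (zero_lt_iff.2 hpos)).2 (hlt.trans_le hlower)

end Pool.Agent.Helper60.SL
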