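import Mathlib
import Pool.Agent.Helper60.SL.Deriv
import Pool.Agent.Helper60.SL.Close

/-!
# SL-21: finitely many totally ramified extensions of degree `e`

PROOF.  `finite_quot`: for `c ≠ 0` in `A` the set `A / c A` is finite: `A` is a discrete valuation ring with finite residue field (`c = π^k u`, filtration by `π^i A / π^(i+1) A`; or `Ring.HasFiniteQuotients`, or `cardQuot_pow_of_prime`).
Formulation: there is a finite set `T ⊆ A` such that every `x ∈ A` is congruent to an element of `T` modulo `c A`.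
`finite_totram`: `e ≠ 0`.  Let `π` be a uniformizer of `A`, `c = π e`, `c ≠ 0`, `c ∈ A`.  For `E` in the set choose a uniformizer `ϖ_E ∈ E ⊆ Ω` of `ext hA E` (`ext_hdvr`, `exists_unif`).  `F(ϖ_E) = E` (`gen_of_unif`), `minpoly F ϖ_E` has degree `e`
and coefficients in `A` (integral element, `A` integrally closed), `ϖ_E ∈ ext hA Ω` and `c / f'(ϖ_E)` is a nonunit (`deriv_bound`, transported to `Ω` with `ext_nonunits_hom`).  By `finite_quot` for `c^2` there are finitely many
classes of tuples of coefficients modulo `c^2 A` (the coefficients of index `> e` are `0`, of index `e` are `1`), so it suffices that for each `E` only finitely many `E'` in the set have coefficients congruent to those of `E`.  For such `E'`, `close_conj` gives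
`g` with `g ϖ_E ∈ F(ϖ_E') = E'`, so `F(g ϖ_E) ⊆ E'`; both have degree `e` (the minimal polynomial of `g ϖ_E` is that of `ϖ_E`), so `E' = F(g ϖ_E)`, and `g ϖ_E` is one of the finitely many roots of `minpoly F ϖ_E`.
-/

set_option autoImplicit false

open IsLocalRing

namespace Pool.Agent.Helper60.SL

variable {F : Type*} [Field F] [CharZero F] {A : ValuationSubring F} (hA : HDVR A)

include hA in
theorem finite_quot {c : F} (hc0 : c ≠ 0) (hc : c ∈ A) :
    ∃ T : Finset F, (∀ t ∈ T, t ∈ A) ∧ ∀ x ∈ A, ∃ t ∈ T, (x - t) / c ∈ A := by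
  classical
  haveI := hA.dvr
  haveI := hA.fin
  obtain ⟨ϖ, hϖ⟩ := IsDiscreteValuationRing.exists_irreducible A
  have hc1 : (⟨c, hc⟩ : A) ≠ 0 := fun h => hc0 (congrArg Subtype.val h)
  obtain ⟨n, u, hu⟩ := IsDiscreteValuationRing.eq_unit_mul_pow_irreducible hc1 hϖ
  have hI : Ideal.span {(⟨c, hc⟩ : A)} = maximalIdeal A ^ n := by
    rw [hu, (IsDiscreteValuationRing.irreducible_iff_uniformizer ϖ).1 hϖ, Ideal.span_singleton_pow]
    exact Ideal.span_singleton_mul_left_unit u.isUnit _
  haveI : Finite (A ⧸ maximalIdeal A) := hA.fin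
  haveI hfin : Finite (A ⧸ Ideal.span {(⟨c, hc⟩ : A)}) := by
    rw [hI]
    exact Ideal.finite_quotient_pow (IsNoetherian.noetherian _) n
  haveI := Fintype.ofFinite (A ⧸ Ideal.span {(⟨c, hc⟩ : A)})
  refine ⟨Finset.univ.image (fun q : A ⧸ Ideal.span {(⟨c, hc⟩ : A)} => ((Quotient.out q : A) : F)),
    ?_, ?_⟩
  · intro t ht
    obtain ⟨q, -, rfl⟩ := Finset.mem_image.1 ht
    exact (Quotient.out q : A).2
  · intro x hx
    obtain ⟨q, hq⟩ : ∃ q : A ⧸ Ideal.span {(⟨c, hc⟩ : A)}, q = Ideal.Quotient.mk _ ⟨x, hx⟩ :=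
      ⟨_, rfl⟩
    refine ⟨((Quotient.out q : A) : F), Finset.mem_image.2 ⟨q, Finset.mem_univ _, rfl⟩, ?_⟩
    have h1 : Ideal.Quotient.mk (Ideal.span {(⟨c, hc⟩ : A)}) (Quotient.out q) = q :=
      Ideal.Quotient.mk_out q
    rw [hq, eq_comm, Ideal.Quotient.mk_eq_mk_iff_sub_mem, Ideal.mem_span_singleton] at h1
    obtain ⟨y, hy⟩ := h1
    have h2 := congrArg Subtype.val hy
    have h3 : x - ((Quotient.out q : A) : F) = c * (y : F) := by
      rw [hq]
      exact h2
    rw [h3, mul_div_cancel_left₀ _ hc0]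
    exact y.2

/-- the data of a totally ramified extension -/
private theorem tot_data (Ω : Type*) [Field Ω] [Algebra F Ω] [IsAlgClosed Ω]
    [Algebra.IsAlgebraic F Ω] {e : ℕ} (he : e ≠ 0) {π : F} (hπ : IsUnif A π)
    (E : IntermediateField F Ω) [FiniteDimensional F E] (h1 : Module.finrank F E = e)
    (h2 : Nat.card (ResidueField (ext hA E)) = Nat.card (ResidueField A)) :
    ∃ w : Ω, IntermediateField.adjoin F {w} = E ∧ w ∈ ext hA Ω ∧ (minpoly F w).natDegree = e ∧
      (∀ i, (minpoly F w).coeff i ∈ A) ∧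
      algebraMap F Ω (π * (e : F)) / Polynomial.aeval w (Polynomial.derivative (minpoly F w)) ∈
        (ext hA Ω).nonunits := by
  obtain ⟨ϖ, hϖ⟩ := exists_unif (ext_hdvr hA E).dvr
  have hmin : minpoly F (ϖ : Ω) = minpoly F ϖ :=
    minpoly.algHom_eq E.val (E.val : E →+* Ω).injective ϖ
  have hmem : (ϖ : Ω) ∈ ext hA Ω := by
    have h3 : ϖ ∈ ext hA E := ValuationSubring.nonunits_le hϖ.non
    exact (ext_hom hA E.val ϖ).2 h3
  refine ⟨(ϖ : Ω), ?_, hmem, ?_, ?_, ?_⟩
  · have h3 := gen_of_unif hA E h2 hϖ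
    have h4 := IntermediateField.lift_adjoin_simple F E ϖ
    rw [h3, IntermediateField.lift_top] at h4
    exact h4.symm
  · rw [hmin, natDegree_minpoly hA E h2 hϖ, h1]
  · intro i
    haveI := hA.dvr
    have h3 : IsIntegral A (ϖ : Ω) := hmem
    rw [minpoly.isIntegrallyClosed_eq_field_fractions' F h3, Polynomial.coeff_map]
    exact ((minpoly A (ϖ : Ω)).coeff i).2
  · have h3 := deriv_bound hA E h2 hπ hϖ
    rw [h1] at h3
    have h4 := (ext_nonunits_hom hA E.val _).2 h3
    rw [map_div₀, AlgHom.commutes, ← Polynomial.aeval_algHom_apply, ← hmin] at h4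
    exact h4

theorem finite_totram (Ω : Type*) [Field Ω] [Algebra F Ω] [IsAlgClosed Ω]
    [Algebra.IsAlgebraic F Ω] {e : ℕ} (he : e ≠ 0) :
    {E : IntermediateField F Ω | ∃ _ : FiniteDimensional F E, Module.finrank F E = e ∧
      Nat.card (ResidueField (ext hA E)) = Nat.card (ResidueField A)}.Finite := by
  classical
  obtain ⟨π, hπ⟩ := exists_unif hA.dvr
  obtain ⟨c, hcd⟩ : ∃ c : F, c = π * (e : F) := ⟨_, rfl⟩
  have hc0 : c ≠ 0 := by
    rw [hcd]
    exact mul_ne_zero hπ.ne (Nat.cast_ne_zero.2 he)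
  have hcA : c ∈ A := by
    rw [hcd]
    exact A.mul_mem _ _ (ValuationSubring.nonunits_le hπ.non) (natCast_mem A e)
  obtain ⟨T, hT1, hT2⟩ := finite_quot hA (pow_ne_zero 2 hc0) (pow_mem hcA 2)
  obtain ⟨S, hS⟩ : ∃ S : Set (IntermediateField F Ω), S = {E : IntermediateField F Ω |
    ∃ _ : FiniteDimensional F E, Module.finrank F E = e ∧
      Nat.card (ResidueField (ext hA E)) = Nat.card (ResidueField A)} := ⟨_, rfl⟩
  rw [← hS]
  have hex : ∀ E : IntermediateField F Ω, ∃ w : Ω, E ∈ S →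
      IntermediateField.adjoin F {w} = E ∧ w ∈ ext hA Ω ∧ (minpoly F w).natDegree = e ∧
      (∀ i, (minpoly F w).coeff i ∈ A) ∧
      algebraMap F Ω c / Polynomial.aeval w (Polynomial.derivative (minpoly F w)) ∈
        (ext hA Ω).nonunits := by
    intro E
    by_cases hE : E ∈ S
    · have hE' := hE
      rw [hS] at hE'
      obtain ⟨h0, h1, h2⟩ := hE'
      obtain ⟨w, hw⟩ := tot_data hA Ω he hπ E h1 h2
      rw [hcd]
      exact ⟨w, fun _ => hw⟩
    · exact ⟨0, fun h => absurd h hE⟩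
  choose W hW using hex
  have hτ : ∀ x : F, ∃ t : F, x ∈ A → t ∈ T ∧ (x - t) / c ^ 2 ∈ A := by
    intro x
    by_cases hx : x ∈ A
    · obtain ⟨t, ht, h1⟩ := hT2 x hx
      exact ⟨t, fun _ => ⟨ht, h1⟩⟩
    · exact ⟨0, fun h => absurd h hx⟩
  choose τ hτ using hτ
  obtain ⟨κ, hκ⟩ : ∃ κ : IntermediateField F Ω → (Fin (e + 1) → F),
    κ = fun E (i : Fin (e + 1)) => τ ((minpoly F (W E)).coeff (i : ℕ)) := ⟨_, rfl⟩
  -- the fibres
  have hfib : ∀ E ∈ S, {E' | E' ∈ S ∧ κ E' = κ E}.Finite := by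
    intro E hE
    obtain ⟨-, ha, had, haA, hader⟩ := hW E hE
    have hint : ∀ z : Ω, IsIntegral F z := fun z => Algebra.IsIntegral.isIntegral z
    refine (((minpoly F (W E)).rootSet_finite Ω).image
      (fun z => IntermediateField.adjoin F {z})).subset ?_
    rintro E' ⟨hE', hκE⟩
    obtain ⟨hb1, hb, hbd, hbA, -⟩ := hW E' hE'
    have hclose : ∀ i, ((minpoly F (W E)).coeff i - (minpoly F (W E')).coeff i) / c ^ 2 ∈ A := by
      intro i
      by_cases hi : i < e + 1
      · have h1 := congrFun hκE ⟨i, hi⟩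
        rw [hκ] at h1
        simp only at h1
        have h2 := (hτ _ (haA i)).2
        have h3 := (hτ _ (hbA i)).2
        rw [h1] at h3
        have h4 := A.sub_mem h2 h3
        have h5 : ((minpoly F (W E)).coeff i - τ ((minpoly F (W E)).coeff i)) / c ^ 2 -
            ((minpoly F (W E')).coeff i - τ ((minpoly F (W E)).coeff i)) / c ^ 2 =
            ((minpoly F (W E)).coeff i - (minpoly F (W E')).coeff i) / c ^ 2 := by ring
        rw [← h5]
        exact h4
      · rw [Polynomial.coeff_eq_zero_of_natDegree_lt (by omega),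
          Polynomial.coeff_eq_zero_of_natDegree_lt (by omega), sub_zero, zero_div]
        exact A.zero_mem
    obtain ⟨g, hg⟩ := close_conj hA hc0 hcA ha hb hader hclose
    rw [hb1] at hg
    have hgm : minpoly F (g (W E)) = minpoly F (W E) :=
      minpoly.algHom_eq g.toAlgHom g.injective (W E)
    refine ⟨g (W E), ?_, ?_⟩
    · rw [Polynomial.mem_rootSet]
      refine ⟨minpoly.ne_zero (hint _), ?_⟩
      rw [← hgm]
      exact minpoly.aeval F _
    · have hE'2 := hE'
      rw [hS] at hE'2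
      obtain ⟨h0, h1, -⟩ := hE'2
      show IntermediateField.adjoin F {g (W E)} = E'
      apply IntermediateField.eq_of_le_of_finrank_eq
      · exact IntermediateField.adjoin_simple_le_iff.2 hg
      · rw [h1, IntermediateField.adjoin.finrank (hint _), hgm, had]
  -- conclusion
  have hpi : {f : Fin (e + 1) → F | ∀ i, f i ∈ T}.Finite :=
    Set.Finite.pi' fun _ => T.finite_toSet
  refine (hpi.biUnion (t := fun f => {E | E ∈ S ∧ κ E = f}) ?_).subset ?_
  · intro f _
    by_cases hf : ∃ E ∈ S, κ E = f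
    · obtain ⟨E, hE, rfl⟩ := hf
      exact hfib E hE
    · refine Set.finite_empty.subset ?_
      rintro E ⟨hE, hE2⟩
      exact absurd ⟨E, hE, hE2⟩ hf
  · intro E hE
    rw [Set.mem_iUnion₂]
    refine ⟨κ E, ?_, hE, rfl⟩
    intro i
    rw [hκ]
    exact (hτ _ ((hW E hE).2.2.2.1 i)).1

end Pool.Agent.Helper60.SL
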