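import Mathlib
import Pool.Agent.Helper60.SL.FinTot
import Pool.Agent.Helper60.SL.ExtUnique
import Pool.Agent.Helper60.SL.Classes
import Pool.Agent.Helper60.SL.Unram

/-!
# SL-22: finitely many extensions of degree `n`

`q = Nat.card (ResidueField A)`.

PROOF.  `exists_max_unram`: let `q_E = Nat.card (ResidueField (ext hA E))`, `q_E = q^f`, `0 < f`, `f ≤ n = [E : F]` (`card_residue_pow`, `card_residue_le`).  `exists_zeta` for `ext_hdvr hA E`: a primitive `(q^f - 1)`-th root of unity `ζ ∈ E`.  `exists_unram hA` for `Ω` and `f` gives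
`E₀ = F(ζ')` with `ζ'` a primitive `(q^f - 1)`-th root of unity, so `ζ'` is a power of `ζ` and `E₀ ≤ E`; it has the properties of `exists_unram`: `[E₀ : F] = f`, its residue field has `q^f = q_E` elements, a uniformizer of `A` is a uniformizer of `ext hA E₀`.
(So the statement is `exists_unram` together with `E₀ ≤ E` and the equality of the two residue cardinalities.)
`finite_degree`: for each `f` with `0 < f ≤ n` fix `E₀ = E₀(f)` from `exists_unram` (an intermediate field of `Ω`; by the argument above it is the field generated by all `(q^f - 1)`-th roots of unity and does not depend on choices).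
For `E` of degree `n` with `q_E = q^f` we have `E₀ ≤ E`.  Let `A₀ = ext hA E₀`, `hA₀ = ext_hdvr hA E₀`, and view `E` as an intermediate field `E'` of `Ω / E₀` (`IntermediateField.extendScalars`).  It is finite over `E₀` of degree `e = n / f` and
`ext hA₀ E'` has the same elements as `ext hA E` (`ext_tower` for `E₀` and `E`; transport along the identification of `E'` with `E`), so the same residue cardinality, which is that of `A₀`.  By `finite_totram hA₀ Ω` there are finitely many such `E'` for each `e ≤ n`,
and `E` is determined by `E'` (`IntermediateField.restrictScalars`).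
-/

set_option autoImplicit false

open IsLocalRing

namespace Pool.Agent.Helper60.SL

variable {F : Type*} [Field F] [CharZero F] {A : ValuationSubring F} (hA : HDVR A)

theorem exists_max_unram {Ω : Type*} [Field Ω] [Algebra F Ω] [IsAlgClosed Ω]
    (E : IntermediateField F Ω) [FiniteDimensional F E] :
    ∃ (E₀ : IntermediateField F Ω) (_ : FiniteDimensional F E₀) (_ : IsGalois F E₀),
      E₀ ≤ E ∧ (∀ π, IsUnif A π → IsUnif (ext hA E₀) (algebraMap F E₀ π)) ∧
      Nat.card (ResidueField (ext hA E₀)) = Nat.card (ResidueField (ext hA E)) ∧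
      Nat.card (ResidueField (ext hA E)) = Nat.card (ResidueField A) ^ Module.finrank F E₀ ∧
      ∃ ζ : E₀, IsPrimitiveRoot ζ (Nat.card (ResidueField (ext hA E)) - 1) ∧
        IntermediateField.adjoin F {(ζ : Ω)} = E₀ := by
  haveI := hA.fin
  obtain ⟨f, hf0, hf⟩ := card_residue_pow hA E
  obtain ⟨ζ, hζ⟩ := exists_zeta (ext_hdvr hA E)
  obtain ⟨E₀, fd, gal, φ, h1, h2, h3, -, -, -, ζ', hζ', hadj⟩ :=
    exists_unram hA (Ω := Ω) (n := f) hf0.ne'
  have hq2 : 1 < Nat.card (ResidueField A) := Finite.one_lt_card
  have hqn : 1 < Nat.card (ResidueField A) ^ f := Nat.one_lt_pow hf0.ne' hq2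
  rw [← hf] at h3 hζ' hqn
  haveI : NeZero (Nat.card (ResidueField (ext hA E)) - 1) := ⟨by omega⟩
  refine ⟨E₀, fd, gal, ?_, h2, h3, by rw [hf, h1], ζ', hζ', hadj⟩
  rw [← hadj, IntermediateField.adjoin_simple_le_iff]
  have hζΩ : IsPrimitiveRoot (ζ : Ω) (Nat.card (ResidueField (ext hA E)) - 1) :=
    hζ.map_of_injective (f := algebraMap E Ω) (algebraMap E Ω).injective
  have h4 : (ζ' : Ω) ^ (Nat.card (ResidueField (ext hA E)) - 1) = 1 := by
    have h5 := congrArg (Subtype.val : E₀ → Ω) hζ'.pow_eq_one
    simpa using h5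
  obtain ⟨i, -, hi⟩ := hζΩ.eq_pow_of_pow_eq_one h4
  rw [← hi]
  exact pow_mem ζ.2 i

private theorem fa_card {K K' : Type*} [Field K] [Field K'] (V : ValuationSubring K)
    (V' : ValuationSubring K') (e : K ≃+* K') (h : ∀ x, x ∈ V ↔ e x ∈ V') :
    Nat.card (ResidueField V) = Nat.card (ResidueField V') := by
  let g : V ≃+* V' :=
    { toFun := fun x => ⟨e x, (h x).1 x.2⟩
      invFun := fun y => ⟨e.symm y, (h _).2 (by rw [e.apply_symm_apply]; exact y.2)⟩
      left_inv := fun x => Subtype.ext (e.symm_apply_apply _)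
      right_inv := fun x => Subtype.ext (e.apply_symm_apply _)
      map_mul' := fun x y => Subtype.ext (map_mul e _ _)
      map_add' := fun x y => Subtype.ext (map_add e _ _) }
  exact Nat.card_congr (ResidueField.mapEquiv g).toEquiv

/-- the identity map between an intermediate field and its extension of scalars -/
private def fa_equiv {Ω : Type*} [Field Ω] [Algebra F Ω] {E₀ E : IntermediateField F Ω} (h : E₀ ≤ E) :
    (IntermediateField.extendScalars h) ≃ₐ[F] E :=
  { toFun := fun x => ⟨x.1, x.2⟩
    invFun := fun x => ⟨x.1, x.2⟩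
    left_inv := fun _ => rfl
    right_inv := fun _ => rfl
    map_mul' := fun _ _ => rfl
    map_add' := fun _ _ => rfl
    commutes' := fun _ => rfl }

private theorem fa_step {Ω : Type*} [Field Ω] [Algebra F Ω] [IsAlgClosed Ω]
    [Algebra.IsAlgebraic F Ω] (E₀ : IntermediateField F Ω) [FiniteDimensional F E₀] {n : ℕ} (hn : n ≠ 0) :
    {E : IntermediateField F Ω | E₀ ≤ E ∧ Module.finrank F E = n ∧
      Nat.card (ResidueField (ext hA E)) = Nat.card (ResidueField (ext hA E₀))}.Finite := by
  haveI : CharZero E₀ := charZero_of_injective_algebraMap (algebraMap F E₀).injective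
  by_cases hd : n / Module.finrank F E₀ = 0
  · have hempty : {E : IntermediateField F Ω | E₀ ≤ E ∧ Module.finrank F E = n ∧
      Nat.card (ResidueField (ext hA E)) = Nat.card (ResidueField (ext hA E₀))} = ∅ := by
      rw [Set.eq_empty_iff_forall_notMem]
      rintro E ⟨h1, h2, -⟩
      have h3 : Module.finrank F E₀ * Module.finrank E₀ (IntermediateField.extendScalars h1) = n := by
        rw [Module.finrank_mul_finrank, ← h2]
        exact (fa_equiv h1).toLinearEquiv.finrank_eq
      have h4 : Module.finrank F E₀ ≠ 0 := Module.finrank_pos.ne'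
      rw [Nat.div_eq_zero_iff] at hd
      rcases hd with hd | hd
      · exact h4 hd
      · rw [← h3] at hd hn
        have h5 : Module.finrank E₀ (IntermediateField.extendScalars h1) ≠ 0 := fun h => hn (by rw [h, mul_zero])
        have h6 := Nat.le_mul_of_pos_right (Module.finrank F E₀) (Nat.pos_of_ne_zero h5)
        omega
    rw [hempty]
    exact Set.finite_empty
  have hfin := finite_totram (ext_hdvr hA E₀) Ω hd
  refine (hfin.image (fun E' => E'.restrictScalars F)).subset ?_
  rintro E ⟨h1, h2, h3⟩
  refine ⟨IntermediateField.extendScalars h1, ?_, IntermediateField.extendScalars_restrictScalars h1⟩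
  have hfE : FiniteDimensional F E := FiniteDimensional.of_finrank_pos (by omega)
  have hfE' : FiniteDimensional F (IntermediateField.extendScalars h1) :=
    LinearEquiv.finiteDimensional (fa_equiv h1).symm.toLinearEquiv
  have h4 : Module.finrank F E₀ * Module.finrank E₀ (IntermediateField.extendScalars h1) = n := by
    rw [Module.finrank_mul_finrank, ← h2]
    exact (fa_equiv h1).toLinearEquiv.finrank_eq
  have h5 : 0 < Module.finrank F E₀ := Module.finrank_pos
  refine ⟨FiniteDimensional.right F E₀ _, ?_, ?_⟩
  · rw [← h4, Nat.mul_div_cancel_left _ h5]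
  · rw [← h3]
    apply fa_card _ _ (fa_equiv h1).toRingEquiv
    intro x
    have h6 := ext_tower hA E₀ (E' := IntermediateField.extendScalars h1) x
    have h7 := ext_hom hA (fa_equiv h1 : (IntermediateField.extendScalars h1) →ₐ[F] E) x
    exact h6.trans h7.symm

include hA in
theorem finite_degree (Ω : Type*) [Field Ω] [Algebra F Ω] [IsAlgClosed Ω]
    [Algebra.IsAlgebraic F Ω] {n : ℕ} (hn : n ≠ 0) :
    {E : IntermediateField F Ω | Module.finrank F E = n}.Finite := by
  haveI := hA.fin
  have hq2 : 1 < Nat.card (ResidueField A) := Finite.one_lt_card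
  -- the pieces with a given residue field
  have hpiece : ∀ f : ℕ, {E : IntermediateField F Ω | Module.finrank F E = n ∧
      Nat.card (ResidueField (ext hA E)) = Nat.card (ResidueField A) ^ f}.Finite := by
    intro f
    rcases Set.eq_empty_or_nonempty {E : IntermediateField F Ω | Module.finrank F E = n ∧
      Nat.card (ResidueField (ext hA E)) = Nat.card (ResidueField A) ^ f} with hem | ⟨E₁, hE₁⟩
    · rw [hem]; exact Set.finite_empty
    obtain ⟨hE₁n, hE₁f⟩ := hE₁
    haveI : FiniteDimensional F E₁ := FiniteDimensional.of_finrank_pos (by omega)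
    obtain ⟨E₀, fd, gal, hle, hun, hc1, hc2, ζ, hζ, hadj⟩ := exists_max_unram hA E₁
    haveI := fd
    refine (fa_step hA E₀ hn).subset ?_
    rintro E ⟨hEn, hEf⟩
    haveI : FiniteDimensional F E := FiniteDimensional.of_finrank_pos (by omega)
    obtain ⟨E₀', fd', gal', hle', hun', hc1', hc2', ζ', hζ', hadj'⟩ := exists_max_unram hA E
    refine ⟨?_, hEn, by rw [hc1, hEf, hE₁f]⟩
    refine le_trans ?_ hle'
    rw [← hadj, IntermediateField.adjoin_simple_le_iff]
    have hcc : Nat.card (ResidueField (ext hA E)) = Nat.card (ResidueField (ext hA E₁)) := by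
      rw [hEf, hE₁f]
    have hN : Nat.card (ResidueField (ext hA E)) - 1 ≠ 0 := by
      have h1 : 0 < Module.finrank F E₀' := Module.finrank_pos
      have h2 : 1 < Nat.card (ResidueField A) ^ Module.finrank F E₀' := Nat.one_lt_pow h1.ne' hq2
      rw [← hc2'] at h2
      omega
    haveI : NeZero (Nat.card (ResidueField (ext hA E)) - 1) := ⟨hN⟩
    have hζΩ : IsPrimitiveRoot (ζ' : Ω) (Nat.card (ResidueField (ext hA E)) - 1) :=
      hζ'.map_of_injective (f := algebraMap E₀' Ω) (algebraMap E₀' Ω).injective
    have h4 : (ζ : Ω) ^ (Nat.card (ResidueField (ext hA E)) - 1) = 1 := by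
      rw [hcc]
      have h5 := congrArg (Subtype.val : E₀ → Ω) hζ.pow_eq_one
      simpa using h5
    obtain ⟨i, -, hi⟩ := hζΩ.eq_pow_of_pow_eq_one h4
    rw [← hi]
    exact pow_mem ζ'.2 i
  refine ((Set.finite_le_nat n).biUnion (fun f _ => hpiece f)).subset ?_
  intro E hE
  have hE' : Module.finrank F E = n := hE
  haveI : FiniteDimensional F E := FiniteDimensional.of_finrank_pos (by omega)
  obtain ⟨f, hf0, hf⟩ := card_residue_pow hA E
  have hle := card_residue_le hA E
  rw [hf] at hle
  have hfn : f ≤ n := by
    rw [← hE']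
    exact (Nat.pow_le_pow_iff_right hq2).1 hle
  simp only [Set.mem_iUnion]
  exact ⟨f, hfn, hE', hf⟩

end Pool.Agent.Helper60.SL
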