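import Mathlib
import Pool.Agent.Helper60.SL.FinAll
import Pool.Agent.Helper60.SL.Gen
import Pool.Agent.Helper60.SL.Pow
import Pool.Agent.Helper60.SL.Sys

/-!
# SL-29: extensions of degree prime to `p` are contained in the tame extensions `F(z n, r n)`

PROOF.  Let `E₀` be as in `exists_max_unram hA L`, `q_L = Nat.card (ResidueField (ext hA L))` (a power of `p`), `ζ ∈ E₀` a primitive `(q_L - 1)`-th root of unity with `F(ζ) = E₀`, `h₀ = ext_hdvr hA E₀`; `π` is a uniformizer of `ext hA E₀`.  View `L` as an extension `L'` of `E₀` (`IntermediateField.extendScalars`); `ext h₀ L'` has the same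
elements as `ext hA L` (`ext_tower`) and the same residue cardinality as `ext hA E₀`.  `e = [L' : E₀]` divides `[L : F]`, so `p` does not divide `e`.  Let `ϖ` be a uniformizer of `ext h₀ L'`: `π = ϖ^e u` with a unit `u` (`unif_totram h₀`).
`exists_teich` (for `ext hA L`): `u = ζ₁ (1 + x)` with `ζ₁^(q_L - 1) = 1`, `x` a nonunit; `ζ₁ = ζ^j`.  `exists_root_one_add`: `1 + x = y^e` with a unit `y` of `ext hA L`.  So `π = ζ^j (ϖ y)^e`, and `ϖ' = ϖ y` is a uniformizer of `ext h₀ L'`, so `E₀(ϖ') = L'` (`gen_of_unif h₀`).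
Let `n = e (q_L - 1)`, prime to `p`, `ξ = z n`.  `ξ^e` is a primitive `(q_L - 1)`-th root of unity, so `ζ = (ξ^e)^i` for some `i`, and `(ϖ')^e = π ζ^(-j) = (r e * ξ^(-i j))^e`, so `ϖ' = r e * ξ^(-i j) * ω` with `ω^e = 1`, `ω` a power of `ξ`; `r e = (r n)^(q_L - 1)`
(`Sys.rmul`).  Hence `ζ, ϖ' ∈ F(z n, r n)` and `L = F(ζ, ϖ') ≤ F(z n, r n)`.
-/

set_option autoImplicit false

open IsLocalRing

namespace Pool.Agent.Helper60.SL

variable {F : Type*} [Field F] [CharZero F] {A : ValuationSubring F} (hA : HDVR A)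
variable {Ω : Type*} [Field Ω] [Algebra F Ω] [IsAlgClosed Ω]

/-- the core: the totally tamely ramified part is generated by a root of `π ζ^(-j)` -/
private theorem tg_core {p : ℕ} [CharP (ResidueField A) p] {π : F} {E : Type*} [Field E]
    [Algebra F E] [FiniteDimensional F E] {L : Type*} [Field L] [Algebra F L]
    [FiniteDimensional F L] [Algebra E L] [IsScalarTower F E L]
    (hu : IsUnif (ext hA E) (algebraMap F E π))
    (hcard : Nat.card (ResidueField (ext hA E)) = Nat.card (ResidueField (ext hA L)))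
    (he : ¬ p ∣ Module.finrank E L) {ζ : E}
    (hζ : IsPrimitiveRoot ζ (Nat.card (ResidueField (ext hA L)) - 1)) :
    ∃ (ϖ : L) (j : ℕ), IntermediateField.adjoin E {ϖ} = ⊤ ∧
      algebraMap F L π = algebraMap E L ζ ^ j * ϖ ^ (Module.finrank E L) := by
  have hc0 : CharZero E := charZero_of_injective_algebraMap (algebraMap F E).injective
  have hcL : CharZero L := charZero_of_injective_algebraMap (algebraMap F L).injective
  have hfd : FiniteDimensional E L := FiniteDimensional.right F E L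
  have h₀ : HDVR (ext hA E) := ext_hdvr hA E
  have hL : HDVR (ext hA L) := ext_hdvr hA L
  have hfin := hL.fin
  have hEq : ext h₀ L = ext hA L := by
    ext x
    exact ext_tower hA E x
  have hchar : CharP (ResidueField (ext hA L)) p := charP_ext hA p
  have hcard' : Nat.card (ResidueField (ext h₀ L)) = Nat.card (ResidueField (ext hA E)) := by
    rw [hEq, hcard]
  obtain ⟨ϖ, hϖ⟩ := exists_unif hL.dvr
  have hϖ₀ : IsUnif (ext h₀ L) ϖ := by
    rw [hEq]
    exact hϖ
  have h1 := unif_totram h₀ L hcard' hu hϖ₀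
  rw [hEq, ← IsScalarTower.algebraMap_apply F E L] at h1
  obtain ⟨ζ₁, x, hζ₁, hx, h2⟩ := exists_teich hL h1
  obtain ⟨y, hy, hye⟩ := exists_root_one_add hL (p := p) he hx
  have hq2 : 2 ≤ Nat.card (ResidueField (ext hA L)) := Finite.one_lt_card
  have hne : NeZero (Nat.card (ResidueField (ext hA L)) - 1) := ⟨by omega⟩
  have hζL := hζ.map_of_injective (algebraMap E L).injective
  obtain ⟨j, -, hj⟩ := hζL.eq_pow_of_pow_eq_one hζ₁
  have hyu : IsUn (ext hA L) y := by
    have h3 := isUn_one_add hy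
    have h4 : 1 + (y - 1) = y := by ring
    rwa [h4] at h3
  have hy0 : y ≠ 0 := (isUn_iff.1 hyu).1
  have hϖy : IsUnif (ext hA L) (ϖ * y) := by
    refine ⟨mul_ne_zero hϖ.ne hy0, ?_, ?_⟩
    · have h3 := hϖ.non
      have h4 := hyu
      rw [ValuationSubring.mem_nonunits_iff] at h3 ⊢
      have h5 : (ext hA L).valuation y ≤ 1 := ((ext hA L).valuation_le_one_iff y).2 h4.1
      rw [map_mul]
      exact mul_lt_one_of_lt_of_le h3 h5
    · intro w hw
      have h3 := hϖ.gen w hw
      have h4 : w / (ϖ * y) = w / ϖ * y⁻¹ := by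
        rw [div_mul_eq_div_div, div_eq_mul_inv (w / ϖ) y]
      rw [h4]
      exact (ext hA L).mul_mem _ _ h3 (isUn_iff.1 hyu).2.2
  refine ⟨ϖ * y, j, ?_, ?_⟩
  · refine gen_of_unif h₀ L hcard' (ϖ := ϖ * y) ?_
    rw [hEq]
    exact hϖy
  · have h3 : ϖ ^ Module.finrank E L ≠ 0 := pow_ne_zero _ hϖ.ne
    rw [div_eq_iff h3] at h2
    rw [h2, mul_pow, hye, hj]
    ring

include hA in
theorem le_tame {p : ℕ} [CharP (ResidueField A) p] {π : F} (hπ : IsUnif A π)
    {r z : ℕ → Ω} (hs : Sys π r z) (L : IntermediateField F Ω) [FiniteDimensional F L]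
    (h : ¬ p ∣ Module.finrank F L) :
    ∃ n : ℕ, ¬ p ∣ n ∧ L ≤ IntermediateField.adjoin F {z n, r n} := by
  obtain ⟨E₀, hE1, hE2, hle, hunif, hcard, -, ζ, hζ, hadj⟩ := exists_max_unram hA L
  let _ : Algebra E₀ L := (IntermediateField.inclusion hle).toRingHom.toAlgebra
  have htow : IsScalarTower F E₀ L := IsScalarTower.of_algebraMap_eq fun x => rfl
  have hfd : FiniteDimensional E₀ L := FiniteDimensional.right F E₀ L
  have hL : HDVR (ext hA L) := ext_hdvr hA L
  have hfin := hL.fin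
  have hchar : CharP (ResidueField (ext hA L)) p := charP_ext hA p
  have hpp : p.Prime := by
    rcases CharP.char_is_prime_or_zero (ResidueField (ext hA L)) p with h1 | h1
    · exact h1
    · exfalso
      exact CharP.char_ne_zero_of_finite (ResidueField (ext hA L)) p h1
  have hq2 : 2 ≤ Nat.card (ResidueField (ext hA L)) := Finite.one_lt_card
  have hpq : p ∣ Nat.card (ResidueField (ext hA L)) := by
    have hft : Fintype (ResidueField (ext hA L)) := Fintype.ofFinite _
    rw [Nat.card_eq_fintype_card, ← CharP.cast_eq_zero_iff (ResidueField (ext hA L)) p]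
    exact FiniteField.cast_card_eq_zero _
  have hpq1 : ¬ p ∣ Nat.card (ResidueField (ext hA L)) - 1 := by
    intro h1
    have h2 := (Nat.dvd_add_right h1).1 (show p ∣ (Nat.card (ResidueField (ext hA L)) - 1) + 1 by
      rwa [Nat.sub_add_cancel (by omega)])
    exact hpp.one_lt.ne' (Nat.dvd_one.1 h2)
  have hmul : Module.finrank F E₀ * Module.finrank E₀ L = Module.finrank F L :=
    Module.finrank_mul_finrank F E₀ L
  have he : ¬ p ∣ Module.finrank E₀ L := fun h1 => h (by
    rw [← hmul]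
    exact Dvd.dvd.mul_left h1 _)
  obtain ⟨ϖ, j, hgen, hϖ⟩ := tg_core hA (π := π) (E := E₀) (L := L) (hunif π hπ) hcard he hζ
  generalize hq : Nat.card (ResidueField (ext hA L)) - 1 = N at hζ hpq1
  generalize hef : Module.finrank E₀ L = e at he hϖ
  have hN0 : N ≠ 0 := by omega
  have he0 : e ≠ 0 := by
    rintro rfl
    exact he (dvd_zero p)
  have hn0 : e * N ≠ 0 := mul_ne_zero he0 hN0
  refine ⟨e * N, fun h1 => ((hpp.dvd_mul).1 h1).elim he hpq1, ?_⟩
  set M := IntermediateField.adjoin F {z (e * N), r (e * N)} with hM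
  have hzM : z (e * N) ∈ M := IntermediateField.subset_adjoin _ _ (by simp)
  have hrM : r (e * N) ∈ M := IntermediateField.subset_adjoin _ _ (by simp)
  -- the roots of unity
  have hξ := hs.prim (e * N) hn0
  have hζΩ : (ζ : Ω) ∈ M := by
    have h1 : IsPrimitiveRoot (z (e * N) ^ e) N := hξ.pow (Nat.pos_of_ne_zero hn0) rfl
    have h2 : ((ζ : E₀) : Ω) ^ N = 1 := by
      have h3 := congrArg (fun t : E₀ => (t : Ω)) hζ.pow_eq_one
      simpa using h3
    have hne : NeZero N := ⟨hN0⟩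
    obtain ⟨i, -, hi⟩ := h1.eq_pow_of_pow_eq_one h2
    rw [← hi]
    exact pow_mem (pow_mem hzM _) _
  have hE₀M : E₀ ≤ M := by
    rw [← hadj, IntermediateField.adjoin_simple_le_iff]
    exact hζΩ
  -- the uniformizer
  have hrM' : r e ∈ M := by
    rw [← hs.rmul e N he0 hN0]
    exact pow_mem hrM _
  have hre : r e ^ e = algebraMap F Ω π := by
    have h1 := hs.rmul 1 e one_ne_zero he0
    rw [one_mul, hs.r1] at h1
    exact h1
  have hπ0 : algebraMap F Ω π ≠ 0 := (map_ne_zero _).2 hπ.ne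
  have hre0 : r e ≠ 0 := by
    intro h1
    rw [h1, zero_pow he0] at hre
    exact hπ0 hre.symm
  have hϖΩ : algebraMap F Ω π = (ζ : Ω) ^ j * (ϖ : Ω) ^ e := by
    have h1 := congrArg (fun t : L => (t : Ω)) hϖ
    have h2 : ((algebraMap E₀ L ζ : L) : Ω) = (ζ : Ω) := rfl
    rw [← h2]
    simpa using h1
  have hϖM : (ϖ : Ω) ∈ M := by
    have h1 : IsPrimitiveRoot (z (e * N) ^ e) N := hξ.pow (Nat.pos_of_ne_zero hn0) rfl
    have h2 : ((ζ : E₀) : Ω) ^ N = 1 := by
      have h3 := congrArg (fun t : E₀ => (t : Ω)) hζ.pow_eq_one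
      simpa using h3
    have hne : NeZero N := ⟨hN0⟩
    obtain ⟨i, -, hi⟩ := h1.eq_pow_of_pow_eq_one h2
    have hξ0 : z (e * N) ≠ 0 := hξ.ne_zero hn0
    have h4 : ((ϖ : Ω) * z (e * N) ^ (i * j) / r e) ^ (e * N) = 1 := by
      rw [pow_mul, div_pow, mul_pow, hre, hϖΩ]
      have h5 : ((z (e * N)) ^ (i * j)) ^ e = (ζ : Ω) ^ j := by
        rw [← hi]
        ring
      rw [h5, mul_comm]
      have h6 : (ζ : Ω) ^ j * (ϖ : Ω) ^ e ≠ 0 := by
        rw [← hϖΩ]
        exact hπ0
      rw [div_self h6, one_pow]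
    have hne' : NeZero (e * N) := ⟨hn0⟩
    obtain ⟨k, -, hk⟩ := hξ.eq_pow_of_pow_eq_one h4
    have h7 : (ϖ : Ω) = z (e * N) ^ k * r e / z (e * N) ^ (i * j) := by
      rw [hk]
      field_simp
    rw [h7]
    exact div_mem (mul_mem (pow_mem hzM _) hrM') (pow_mem hzM _)
  -- the end
  intro x hx
  have h1 : (⟨x, hx⟩ : L) ∈ IntermediateField.adjoin E₀ {ϖ} := by
    rw [hgen]
    trivial
  have h2 : ∀ (y : L), y ∈ IntermediateField.adjoin E₀ {ϖ} → (y : Ω) ∈ M := by
    intro y hy
    induction hy using IntermediateField.adjoin_induction with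
    | mem y hy =>
      rw [Set.mem_singleton_iff.1 hy]
      exact hϖM
    | algebraMap c => exact hE₀M c.2
    | add y y' _ _ h3 h4 => exact add_mem h3 h4
    | inv y _ h3 => exact inv_mem h3
    | mul y y' _ _ h3 h4 => exact mul_mem h3 h4
  exact h2 _ h1

end Pool.Agent.Helper60.SL
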