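import Mathlib
import Pool.Agent.Helper60.SL.KerField
import Pool.Agent.Helper60.SL.TameGen
import Pool.Agent.Helper60.SL.TameLevel

/-!
# SL-31: homomorphisms to groups of order prime to `p`: relation and generation (T2 a)

PROOF.  Let `E` be as in `exists_ker_field f`: `[E : F] = |range f|` divides `|Q|` (Lagrange), so `p` does not divide it.  `le_tame`: `E ≤ F(z n, r n)` for some `n` prime to `p`.  `f g` depends only on the restriction of `g` to `E`.
Relation: by `rel_level`, `σ τ σ⁻¹` and `τ^q` agree on `E`, so `f (σ τ σ⁻¹) = f (τ^q)`.  Generation: by `gal_level`, `g` and `τ^j σ^i` agree on `E`, so `f g = f τ ^ j * f σ ^ i`.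
-/

set_option autoImplicit false

open IsLocalRing

namespace Pool.Agent.Helper60.SL

variable {F : Type*} [Field F] [CharZero F] {A : ValuationSubring F} (hA : HDVR A)
variable {Ω : Type*} [Field Ω] [Algebra F Ω] [IsAlgClosed Ω] [Algebra.IsAlgebraic F Ω]

include hA in
theorem tame_rel {p : ℕ} [CharP (ResidueField A) p] {π : F} (hπ : IsUnif A π)
    {r z : ℕ → Ω} (hs : Sys π r z) {σ τ : Ω ≃ₐ[F] Ω}
    (ht : Tame p (Nat.card (ResidueField A)) r z σ τ) {Q : Type*} [Group Q] [Finite Q]
    (hQ : ¬ p ∣ Nat.card Q) (f : (Ω ≃ₐ[F] Ω) →* Q) (hf : LC f) :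
    f σ * f τ * (f σ)⁻¹ = f τ ^ Nat.card (ResidueField A) ∧
      ∀ g, ∃ i j : ℕ, f g = f τ ^ j * f σ ^ i := by
  obtain ⟨E, hE, -, hcard, hker⟩ := exists_ker_field f hf
  have hdvd : Module.finrank F E ∣ Nat.card Q := by
    rw [hcard]
    exact Subgroup.card_subgroup_dvd_card f.range
  have hp : ¬ p ∣ Module.finrank F E := fun h => hQ (h.trans hdvd)
  obtain ⟨n, hn, hle⟩ := le_tame hA hπ hs E hp
  constructor
  · have h1 : f (σ * τ * σ⁻¹) = f (τ ^ Nat.card (ResidueField A)) :=
      (hker _ _).2 fun x hx => rel_level hs ht hn x (hle hx)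
    rw [map_mul, map_mul, map_inv, map_pow] at h1
    exact h1
  · intro g
    obtain ⟨i, j, hij⟩ := gal_level hA hπ hs ht g hn
    refine ⟨i, j, ?_⟩
    have h1 : f g = f (τ ^ j * σ ^ i) := (hker _ _).2 fun x hx => hij x (hle hx)
    rw [map_mul, map_pow, map_pow] at h1
    exact h1

end Pool.Agent.Helper60.SL
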