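import Mathlib
import Pool.Agent.Helper60.SL.TameRes
import Pool.Agent.Helper60.SL.TameUniq
import Pool.Agent.Helper60.SL.TameExist

/-!
# SL-33: the tame pair, all properties (T2), proved from the modules
-/

set_option autoImplicit false

open IsLocalRing

namespace Pool.Agent.Helper60.SL

variable {F : Type*} [Field F] [CharZero F] {A : ValuationSubring F} (hA : HDVR A)
variable {Ω : Type*} [Field Ω] [Algebra F Ω] [IsAlgClosed Ω] [Algebra.IsAlgebraic F Ω]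

/-- the properties of a tame pair: `V` is the valuation ring of `Ω` above `A`, `p` the residue
characteristic of `A` and `q` the cardinality of its residue field -/
structure TamePair {F Ω : Type*} [Field F] [Field Ω] [Algebra F Ω] (V : ValuationSubring Ω)
    (p q : ℕ) (σ τ : Ω ≃ₐ[F] Ω) : Prop where
  /-- `σ` is a Frobenius -/
  frob : ∀ x ∈ V, σ x - x ^ q ∈ V.nonunits
  /-- `τ` is in the inertia group -/
  inert : ∀ x ∈ V, τ x - x ∈ V.nonunits
  root : ∀ (n : ℕ) (x : Ω), ¬ p ∣ n → x ^ n = 1 → σ x = x ^ q ∧ τ x = x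
  rel : ∀ (Q : Type) [Group Q] [Finite Q], ¬ p ∣ Nat.card Q → ∀ f : (Ω ≃ₐ[F] Ω) →* Q, LC f →
    f σ * f τ * (f σ)⁻¹ = f τ ^ q
  gen : ∀ (Q : Type) [Group Q] [Finite Q], ¬ p ∣ Nat.card Q → ∀ f : (Ω ≃ₐ[F] Ω) →* Q, LC f →
    ∀ g, ∃ i j : ℕ, f g = f τ ^ j * f σ ^ i
  exist : ∀ (Q : Type) [Group Q] [Finite Q], ¬ p ∣ Nat.card Q → ∀ a b : Q,
    a * b * a⁻¹ = b ^ q → ∃ f : (Ω ≃ₐ[F] Ω) →* Q, LC f ∧ f σ = a ∧ f τ = b

theorem exists_tamePair (Ω : Type*) [Field Ω] [Algebra F Ω] [IsAlgClosed Ω]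
    [Algebra.IsAlgebraic F Ω] {p : ℕ} [CharP (ResidueField A) p] :
    ∃ σ τ : Ω ≃ₐ[F] Ω, TamePair (ext hA Ω) p (Nat.card (ResidueField A)) σ τ := by
  obtain ⟨π, hπ⟩ := exists_unif hA.dvr
  obtain ⟨r, z, hs⟩ := exists_sys (Ω := Ω) π
  obtain ⟨σ, τ, ht⟩ := exists_tame hA hπ hs (p := p)
  refine ⟨σ, τ, ?_, ?_, ?_, ?_, ?_, ?_⟩
  · exact fun x hx => (tame_res hA hs ht hx).1
  · exact fun x hx => (tame_res hA hs ht hx).2
  · exact fun n x hn hx => tame_root hs ht hn hx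
  · exact fun Q _ _ hQ f hf => (tame_rel hA hπ hs ht hQ f hf).1
  · exact fun Q _ _ hQ f hf => (tame_rel hA hπ hs ht hQ f hf).2
  · exact fun Q _ _ hQ a b hab => tame_exists hA hπ hs ht hQ a b hab

/-- two locally constant homomorphisms with the same values at a tame pair are equal -/
theorem TamePair.uniq {F Ω : Type*} [Field F] [Field Ω] [Algebra F Ω] {V : ValuationSubring Ω}
    {p q : ℕ} {σ τ : Ω ≃ₐ[F] Ω} (h : TamePair V p q σ τ) (hp : p.Prime) {Q : Type} [Group Q]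
    [Finite Q] (hQ : ¬ p ∣ Nat.card Q) {f f' : (Ω ≃ₐ[F] Ω) →* Q} (hf : LC f) (hf' : LC f')
    (hs : f σ = f' σ) (ht : f τ = f' τ) : f = f' := by
  have hQQ : ¬ p ∣ Nat.card (Q × Q) := by
    rw [Nat.card_prod, hp.dvd_mul]
    tauto
  have hlc : LC (f.prod f') := by
    obtain ⟨N, hN, h1⟩ := hf
    obtain ⟨N', hN', h2⟩ := hf'
    refine ⟨N ⊔ N', IntermediateField.finiteDimensional_sup N N', fun g g' hgg => ?_⟩
    have e1 := h1 g g' (fun x hx => hgg x (le_sup_left (a := N) (b := N') hx))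
    have e2 := h2 g g' (fun x hx => hgg x (le_sup_right (a := N) (b := N') hx))
    exact Prod.ext e1 e2
  apply MonoidHom.ext
  intro g
  obtain ⟨i, j, hij⟩ := h.gen (Q × Q) hQQ (f.prod f') hlc g
  have e1 := congrArg Prod.fst hij
  have e2 := congrArg Prod.snd hij
  simp only [MonoidHom.prod_apply, Prod.fst_mul, Prod.snd_mul, Prod.pow_fst, Prod.pow_snd] at e1 e2
  rw [e1, e2, hs, ht]

end Pool.Agent.Helper60.SL
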