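import Mathlib
import Pool.Agent.Helper60.SL.FinF
import Pool.Agent.Helper60.SL.FixLC
import Pool.Agent.Helper60.SL.T2

/-!
# SL-41: T2 for finite extensions of `decField j`

PROOF.  `exists_tamePair (hdvr_F j hF hfin) W` (residue characteristic `p` by `char_F`) gives `σ, τ : W ≃ₐ[F] W`; transport them to `F.fixingSubgroup` with `fixingSubgroupEquiv`.  `acts`, `iner`: the field `root` of `TamePair`.  The other fields: `galHom`, `fixHom`, `lc_iff_open`
(`(galHom F f) σ = f (the corresponding element)`).  `uniq`: `TamePair.uniq`.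
-/

set_option autoImplicit false

open IsDedekindDomain NumberField IsLocalRing Pool.Agent.SB IntermediateField

namespace Pool.Agent.Helper60.SL

/-- a tame pair in `F.fixingSubgroup` -/
structure TamePairF {k W : Type} [Field k] [Field W] [Algebra k W] (F : IntermediateField k W)
    (p q : ℕ) (σ τ : F.fixingSubgroup) : Prop where
  acts : ActsAs p q (σ : W ≃ₐ[k] W)
  iner : (τ : W ≃ₐ[k] W) ∈ Iner F p
  rel : ∀ (Q : Type) [Group Q] [Finite Q], ¬ p ∣ Nat.card Q → ∀ f : F.fixingSubgroup →* Q,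
    IsOpen (f.ker : Set F.fixingSubgroup) → f σ * f τ * (f σ)⁻¹ = f τ ^ q
  gen : ∀ (Q : Type) [Group Q] [Finite Q], ¬ p ∣ Nat.card Q → ∀ f : F.fixingSubgroup →* Q,
    IsOpen (f.ker : Set F.fixingSubgroup) → ∀ g, ∃ i j : ℕ, f g = f τ ^ j * f σ ^ i
  exist : ∀ (Q : Type) [Group Q] [Finite Q], ¬ p ∣ Nat.card Q → ∀ a b : Q,
    a * b * a⁻¹ = b ^ q → ∃ f : F.fixingSubgroup →* Q,
      IsOpen (f.ker : Set F.fixingSubgroup) ∧ f σ = a ∧ f τ = b
  uniq : ∀ (Q : Type) [Group Q] [Finite Q], ¬ p ∣ Nat.card Q → ∀ f f' : F.fixingSubgroup →* Q,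
    IsOpen (f.ker : Set F.fixingSubgroup) → IsOpen (f'.ker : Set F.fixingSubgroup) →
    f σ = f' σ → f τ = f' τ → f = f'

variable {k : Type} [Field k] [NumberField k] {W : Type} [Field W] [Algebra k W]
  [IsAlgClosed W] [Algebra.IsAlgebraic k W]
variable {v : HeightOneSpectrum (𝓞 k)} (j : W →ₐ[k] AlgebraicClosure (v.adicCompletion k))

/-- (T2) -/
theorem exists_tamePair_F {F : IntermediateField k W} (hF : decField j ≤ F)
    (hfin : FiniteDimensional (decField j) (extendScalars hF)) {p : ℕ} (hp : p.Prime)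
    (hpv : (p : 𝓞 k) ∈ v.asIdeal) :
    ∃ σ τ : F.fixingSubgroup,
      TamePairF F p (Nat.card (ResidueField (resF (VV j) F))) σ τ := by
  have : CharZero F := charZero_of_injective_algebraMap (algebraMap k F).injective
  have : Algebra.IsAlgebraic F W := Algebra.IsAlgebraic.tower_top (K := k) F
  have := char_F j F hp hpv
  obtain ⟨σ, τ, h⟩ := exists_tamePair (hdvr_F j hF hfin) W (p := p)
  let e := IntermediateField.fixingSubgroupEquiv F
  refine ⟨e.symm σ, e.symm τ, ?_, ?_, ?_, ?_, ?_, ?_⟩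
  · intro ζ m hm hζ
    exact (h.root m ζ hm hζ).1
  · exact ⟨(e.symm τ).2, fun ζ m hm hζ => (h.root m ζ hm hζ).2⟩
  · intro Q _ _ hQ f hf
    exact h.rel Q hQ (galHom F f) ((lc_iff_open F f).2 hf)
  · intro Q _ _ hQ f hf g
    obtain ⟨i, j', hij⟩ := h.gen Q hQ (galHom F f) ((lc_iff_open F f).2 hf) (e g)
    refine ⟨i, j', ?_⟩
    have h1 : galHom F f (e g) = f g := by
      change f (e.symm (e g)) = f g
      rw [MulEquiv.symm_apply_apply]
    rw [h1] at hij
    exact hij
  · intro Q _ _ hQ a b hab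
    obtain ⟨f, hf, h1, h2⟩ := h.exist Q hQ a b hab
    refine ⟨fixHom F f, ?_, ?_, ?_⟩
    · rw [← lc_iff_open, galHom_fixHom]
      exact hf
    · change f (e (e.symm σ)) = a
      rw [MulEquiv.apply_symm_apply]
      exact h1
    · change f (e (e.symm τ)) = b
      rw [MulEquiv.apply_symm_apply]
      exact h2
  · intro Q _ _ hQ f f' hf hf' hs ht
    have h1 : galHom F f = galHom F f' :=
      h.uniq hp hQ ((lc_iff_open F f).2 hf) ((lc_iff_open F f').2 hf') hs ht
    rw [← fixHom_galHom F f, h1, fixHom_galHom]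

end Pool.Agent.Helper60.SL
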