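import Mathlib
import Pool.Agent.Helper60.SL.DecBasic

/-!
# SL-43: almost all places are places of good reduction for an element (T7)

PROOF.  `almost_k`: for `a ∈ k`, `a ≠ 0`, the set of `v` with `v.valuation k a ≠ 1` is finite (`a = b / c` with `b, c ∈ 𝓞 k`; only finitely many prime ideals divide `b c`; Mathlib has such finiteness statements, e.g. `HeightOneSpectrum.Support.finite`,
`Ideal.finite_factors`).
`almost_unit`: let `f = X^n + a_(n-1) X^(n-1) + ... + a_0` be the minimal polynomial of `x` over `k`; `a_0 ≠ 0` as `x ≠ 0`.  For `v` outside a finite set all nonzero `a_i` have `v`-adic value `1`.  For these `v` and all `j`: `x` is integral over a subring of `VV j` (the `a_i` are in `VV j`, `map_mem_VV`; `VV j` is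
integrally closed in `W`), so `x ∈ VV j`; and `x⁻¹` is a root of `X^n + (a_1 / a_0) X^(n-1) + ... + 1 / a_0`, so `x⁻¹ ∈ VV j`.  So `x` is a unit.
-/

set_option autoImplicit false

open IsDedekindDomain NumberField IsLocalRing Pool.Agent.SB

namespace Pool.Agent.Helper60.SL

private theorem Almost_support {k : Type} [Field k] [NumberField k] (a : k) :
    ∃ S : Finset (HeightOneSpectrum (𝓞 k)), ∀ v ∉ S, v.valuation k a ≤ 1 := by
  classical
  refine ⟨(HeightOneSpectrum.Support.finite (𝓞 k) a).toFinset, fun v hv => ?_⟩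
  rw [Set.Finite.mem_toFinset] at hv
  exact not_lt.1 hv

theorem almost_k {k : Type} [Field k] [NumberField k] {a : k} (ha : a ≠ 0) :
    ∃ S : Finset (HeightOneSpectrum (𝓞 k)), ∀ v ∉ S, v.valuation k a = 1 := by
  classical
  obtain ⟨S, hS⟩ := Almost_support a
  obtain ⟨T, hT⟩ := Almost_support a⁻¹
  refine ⟨S ∪ T, fun v hv => ?_⟩
  rw [Finset.mem_union, not_or] at hv
  refine le_antisymm (hS v hv.1) ?_
  have h1 := hT v hv.2
  have h2 : v.valuation k a ≠ 0 := by simpa using ha
  rwa [map_inv₀, inv_le_one₀ (zero_lt_iff.2 h2)] at h1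

private theorem Almost_poly {k : Type} [Field k] [NumberField k] (f : Polynomial k) :
    ∃ S : Finset (HeightOneSpectrum (𝓞 k)), ∀ v ∉ S, ∀ i, v.valuation k (f.coeff i) ≤ 1 := by
  classical
  choose S hS using fun i => Almost_support (f.coeff i)
  refine ⟨f.support.biUnion S, fun v hv i => ?_⟩
  by_cases hi : i ∈ f.support
  · apply hS i
    intro h
    exact hv (Finset.mem_biUnion.2 ⟨i, hi, h⟩)
  · rw [Polynomial.notMem_support_iff.1 hi, map_zero]
    exact zero_le_one

private theorem Almost_int {k : Type} [Field k] {W : Type} [Field W] [Algebra k W]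
    (V : ValuationSubring W) (f : Polynomial k) (hf : f.Monic)
    (hc : ∀ i, algebraMap k W (f.coeff i) ∈ V) (w : W) (hw : Polynomial.aeval w f = 0) : w ∈ V := by
  have h1 : IsIntegral V w := by
    have hl : f.map (algebraMap k W) ∈ Polynomial.lifts (algebraMap V W) := by
      rw [Polynomial.lifts_iff_coeff_lifts]
      intro n
      rw [Polynomial.coeff_map]
      exact ⟨⟨_, hc n⟩, rfl⟩
    obtain ⟨q, hq1, -, hq3⟩ := Polynomial.lifts_and_degree_eq_and_monic hl (hf.map _)
    refine ⟨q, hq3, ?_⟩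
    rw [← Polynomial.eval_map, hq1, Polynomial.eval_map, ← Polynomial.aeval_def]
    exact hw
  obtain ⟨y, hy⟩ := IsIntegrallyClosed.isIntegral_iff.1 h1
  rw [← hy]
  exact y.2

/-- (T7) -/
theorem almost_unit {k : Type} [Field k] [NumberField k] {W : Type} [Field W] [Algebra k W]
    [Algebra.IsAlgebraic k W] {x : W} (hx : x ≠ 0) :
    ∃ S : Finset (HeightOneSpectrum (𝓞 k)), ∀ v ∉ S,
      ∀ j : W →ₐ[k] AlgebraicClosure (v.adicCompletion k), IsUn (VV j) x := by
  classical
  obtain ⟨S, hS⟩ := Almost_poly (minpoly k x)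
  obtain ⟨T, hT⟩ := Almost_poly (minpoly k x⁻¹)
  refine ⟨S ∪ T, fun v hv j => ?_⟩
  rw [Finset.mem_union, not_or] at hv
  have hint : ∀ w : W, IsIntegral k w := fun w => (Algebra.IsAlgebraic.isAlgebraic w).isIntegral
  have h1 : x ∈ VV j := Almost_int (VV j) (minpoly k x) (minpoly.monic (hint x))
    (fun i => (map_mem_VV j _).2 (hS v hv.1 i)) x (minpoly.aeval k x)
  have h2 : x⁻¹ ∈ VV j := Almost_int (VV j) (minpoly k x⁻¹) (minpoly.monic (hint x⁻¹))
    (fun i => (map_mem_VV j _).2 (hT v hv.2 i)) x⁻¹ (minpoly.aeval k x⁻¹)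
  refine ⟨h1, ?_⟩
  rw [ValuationSubring.mem_nonunits_iff_or]
  rintro (h | h)
  · exact hx h
  · exact h h2

end Pool.Agent.Helper60.SL
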