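import Mathlib
import Pool.Agent.Helper60.SL.FinF
import Pool.Agent.Helper60.SL.Pow
import Pool.Agent.Helper60.SL.ExtHDVR

/-!
# SL-42: inertia acts trivially on the residue field of `VV j`

`V = VV j`, `hF' = hdvr_F j hF hfin`, `ext hF' W = V` (`ext_F`).

PROOF.  `teich_W`: let `x ∈ V` be a unit, `L = F(x)` (intermediate field of `W / F`), finite over `F`; `x` is a unit of `ext hF' L` (`ext_hom`, `ext_nonunits_hom`, `ext_F`), and `exists_teich (ext_hdvr hF' L)` gives `x = ζ (1 + y)`, `ζ^N = 1` with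
`N = Nat.card (ResidueField (ext hF' L)) - 1`, which is prime to `p` because the cardinality is a power of `p` (finite field of characteristic `p`, see `char_F`), `y` a nonunit.
`gal_V`: every `γ ∈ F.fixingSubgroup` preserves `V` and its nonunits (`ext_hom`, `ext_nonunits_hom` for the corresponding element of `W ≃ₐ[F] W`).
`iner_act`: if `x` is a nonunit, so is `γ x` (`gal_V`).  If `x = ζ (1 + y)` then `γ x - x = ζ (γ y - y)`.
`acts_act`: `q ≠ 0`; if `x` is a nonunit, so are `σ x` and `x^q`; if `x = ζ (1 + y)` then `σ x - x^q = ζ^q ((1 + σ y) - (1 + y)^q)`.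
-/

set_option autoImplicit false

open IsDedekindDomain NumberField IsLocalRing Pool.Agent.SB IntermediateField

namespace Pool.Agent.Helper60.SL

variable {k : Type} [Field k] [NumberField k] {W : Type} [Field W] [Algebra k W]
  [IsAlgClosed W] [Algebra.IsAlgebraic k W]
variable {v : HeightOneSpectrum (𝓞 k)} (j : W →ₐ[k] AlgebraicClosure (v.adicCompletion k))

section Aux

variable {K : Type*} [Field K] {V : ValuationSubring K}

private theorem ia_sub {x y : K} (hx : x ∈ V.nonunits) (hy : y ∈ V.nonunits) :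
    x - y ∈ V.nonunits := by
  rw [ValuationSubring.mem_nonunits_iff] at hx hy ⊢
  exact Valuation.map_sub_lt _ hx hy

private theorem ia_mul {x y : K} (hx : x ∈ V) (hy : y ∈ V.nonunits) : x * y ∈ V.nonunits := by
  have h1 : (⟨y, V.nonunits_subset hy⟩ : V) ∈ maximalIdeal V :=
    ValuationSubring.coe_mem_nonunits_iff.1 hy
  exact ValuationSubring.coe_mem_nonunits_iff.2 (Ideal.mul_mem_left _ (⟨x, hx⟩ : V) h1)

private theorem ia_pow {y : K} (hy : y ∈ V.nonunits) {q : ℕ} (hq : q ≠ 0) :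
    y ^ q ∈ V.nonunits := by
  obtain ⟨m, rfl⟩ := Nat.exists_eq_succ_of_ne_zero hq
  rw [pow_succ]
  exact ia_mul (V.pow_mem (V.nonunits_subset hy) m) hy

private theorem ia_one_add {y : K} (hy : y ∈ V.nonunits) (q : ℕ) :
    (1 + y) ^ q - 1 ∈ V.nonunits := by
  obtain ⟨Y, hY⟩ : ∃ Y : V, Y = ⟨y, V.nonunits_subset hy⟩ := ⟨_, rfl⟩
  have h1 : residue V Y = 0 := by
    rw [residue_eq_zero_iff, hY]
    exact ValuationSubring.coe_mem_nonunits_iff.1 hy
  have h2 : (1 + Y) ^ q - 1 ∈ maximalIdeal V := by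
    rw [← residue_eq_zero_iff, map_sub, map_pow, map_add, h1, map_one, add_zero, one_pow, sub_self]
  have h3 := ValuationSubring.coe_mem_nonunits_iff.2 h2
  rw [hY] at h3
  exact h3

private theorem ia_root {ζ : K} {N : ℕ} (hN : N ≠ 0) (h : ζ ^ N = 1) : ζ ∈ V := by
  rcases V.mem_or_inv_mem ζ with h1 | h1
  · exact h1
  · have h2 : ζ = ζ⁻¹ ^ (N - 1) := by
      have h0 : ζ ≠ 0 := by
        rintro rfl
        rw [zero_pow hN] at h
        exact zero_ne_one h
      have h3 : ζ⁻¹ ^ (N - 1) * ζ⁻¹ = 1 := by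
        rw [← pow_succ, Nat.sub_add_cancel (Nat.one_le_iff_ne_zero.2 hN), inv_pow, h, inv_one]
      calc ζ = 1 * ζ := (one_mul ζ).symm
        _ = ζ⁻¹ ^ (N - 1) * ζ⁻¹ * ζ := by rw [h3]
        _ = ζ⁻¹ ^ (N - 1) := by rw [mul_assoc, inv_mul_cancel₀ h0, mul_one]
    rw [h2]
    exact V.pow_mem h1 _

end Aux

theorem gal_V {F : IntermediateField k W} (hF : decField j ≤ F)
    (hfin : FiniteDimensional (decField j) (extendScalars hF)) {γ : W ≃ₐ[k] W}
    (hγ : γ ∈ F.fixingSubgroup) (x : W) :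
    (γ x ∈ VV j ↔ x ∈ VV j) ∧ (γ x ∈ (VV j).nonunits ↔ x ∈ (VV j).nonunits) := by
  have hcz : CharZero F := charZero_of_injective_algebraMap (algebraMap k F).injective
  have halg : Algebra.IsAlgebraic F W := Algebra.IsAlgebraic.tower_top (K := k) F
  have h := ext_F j hF hfin
  obtain ⟨f, hf⟩ : ∃ f : W →ₐ[F] W, ∀ z, f z = γ z :=
    ⟨((IntermediateField.fixingSubgroupEquiv F ⟨γ, hγ⟩ : W ≃ₐ[F] W) : W →ₐ[F] W), fun _ => rfl⟩
  rw [← h, ← hf]
  exact ⟨ext_hom (hdvr_F j hF hfin) f x, ext_nonunits_hom (hdvr_F j hF hfin) f x⟩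

theorem teich_W {p : ℕ} (hp : p.Prime) (hpv : (p : 𝓞 k) ∈ v.asIdeal) {x : W}
    (hx : IsUn (VV j) x) :
    ∃ (N : ℕ) (ζ y : W), ¬ p ∣ N ∧ ζ ^ N = 1 ∧ y ∈ (VV j).nonunits ∧ x = ζ * (1 + y) := by
  classical
  obtain ⟨F', hF'⟩ : ∃ F' : IntermediateField k W,
      F' = (IntermediateField.adjoin (decField j) {x}).restrictScalars k := ⟨_, rfl⟩
  have hle : decField j ≤ F' := by
    intro z hz
    rw [hF']
    exact (IntermediateField.adjoin (decField j) {x}).algebraMap_mem ⟨z, hz⟩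
  have hxF : x ∈ F' := by
    rw [hF']
    exact IntermediateField.mem_adjoin_simple_self (decField j) x
  have hfin : FiniteDimensional (decField j) (extendScalars hle) := by
    have h1 : extendScalars hle = IntermediateField.adjoin (decField j) {x} := by
      ext z
      rw [IntermediateField.mem_extendScalars, hF']
      rfl
    rw [h1]
    have halg : Algebra.IsAlgebraic (decField j) W :=
      Algebra.IsAlgebraic.tower_top (K := k) (decField j)
    exact IntermediateField.adjoin.finiteDimensional (Algebra.IsIntegral.isIntegral x)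
  have hH := hdvr_F j hle hfin
  have hch : CharP (ResidueField (resF (VV j) F')) p := char_F j F' hp hpv
  have hfr := hH.fin
  have hnu : ∀ z : F', z ∈ (resF (VV j) F').nonunits ↔ (z : W) ∈ (VV j).nonunits := by
    intro z
    rw [ValuationSubring.mem_nonunits_iff_or, ValuationSubring.mem_nonunits_iff_or, mem_resF]
    have h1 : ((z⁻¹ : F') : W) = (z : W)⁻¹ := rfl
    have h2 : z = 0 ↔ (z : W) = 0 := by
      constructor
      · rintro rfl
        rfl
      · intro h3
        exact Subtype.ext h3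
    rw [h1, h2]
  have hu : IsUn (resF (VV j) F') ⟨x, hxF⟩ :=
    ⟨hx.1, fun h => hx.2 ((hnu ⟨x, hxF⟩).1 h)⟩
  obtain ⟨ζ, y, h1, h2, h3⟩ := exists_teich hH hu
  refine ⟨Nat.card (ResidueField (resF (VV j) F')) - 1, (ζ : W), (y : W), ?_, ?_, (hnu y).1 h2, ?_⟩
  · intro hdvd
    have h4 : p ∣ Nat.card (ResidueField (resF (VV j) F')) := by
      rw [← CharP.cast_eq_zero_iff (ResidueField (resF (VV j) F')) p]
      have hft : Fintype (ResidueField (resF (VV j) F')) := Fintype.ofFinite _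
      rw [Nat.card_eq_fintype_card]
      exact FiniteField.cast_card_eq_zero _
    have h5 : 0 < Nat.card (ResidueField (resF (VV j) F')) := Nat.card_pos
    have h6 := (Nat.dvd_sub h4 hdvd)
    rw [Nat.sub_sub_self h5] at h6
    exact hp.one_lt.ne' (Nat.dvd_one.1 h6)
  · have h4 := congrArg (fun z : F' => (z : W)) h1
    exact h4
  · have h4 := congrArg (fun z : F' => (z : W)) h3
    exact h4

theorem iner_act {F : IntermediateField k W} (hF : decField j ≤ F)
    (hfin : FiniteDimensional (decField j) (extendScalars hF)) {p : ℕ} (hp : p.Prime)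
    (hpv : (p : 𝓞 k) ∈ v.asIdeal) {γ : W ≃ₐ[k] W} (hγ : γ ∈ Iner F p) {x : W}
    (hx : x ∈ VV j) : γ x - x ∈ (VV j).nonunits := by
  have hfix : γ ∈ F.fixingSubgroup := hγ.1
  have hg := gal_V j hF hfin hfix
  by_cases hn : x ∈ (VV j).nonunits
  · exact ia_sub ((hg x).2.2 hn) hn
  · obtain ⟨N, ζ, y, h1, h2, h3, rfl⟩ := teich_W j hp hpv ⟨hx, hn⟩
    have hN : N ≠ 0 := by
      rintro rfl
      exact h1 (dvd_zero p)
    have h4 : γ (ζ * (1 + y)) - ζ * (1 + y) = ζ * (γ y - y) := by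
      rw [map_mul, map_add, map_one, hγ.2 ζ N h1 h2]
      ring
    rw [h4]
    exact ia_mul (ia_root hN h2) (ia_sub ((hg y).2.2 h3) h3)

theorem acts_act {F : IntermediateField k W} (hF : decField j ≤ F)
    (hfin : FiniteDimensional (decField j) (extendScalars hF)) {p : ℕ} (hp : p.Prime)
    (hpv : (p : 𝓞 k) ∈ v.asIdeal) {σ : W ≃ₐ[k] W} (hσ : σ ∈ F.fixingSubgroup) {q : ℕ}
    (hq : q ≠ 0) (hσq : ActsAs p q σ) {x : W} (hx : x ∈ VV j) :
    σ x - x ^ q ∈ (VV j).nonunits := by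
  have hg := gal_V j hF hfin hσ
  by_cases hn : x ∈ (VV j).nonunits
  · exact ia_sub ((hg x).2.2 hn) (ia_pow hn hq)
  · obtain ⟨N, ζ, y, h1, h2, h3, rfl⟩ := teich_W j hp hpv ⟨hx, hn⟩
    have hN : N ≠ 0 := by
      rintro rfl
      exact h1 (dvd_zero p)
    have h4 : σ (ζ * (1 + y)) - (ζ * (1 + y)) ^ q = ζ ^ q * (σ y - ((1 + y) ^ q - 1)) := by
      rw [map_mul, map_add, map_one, hσq ζ N h1 h2, mul_pow]
      ring
    rw [h4]
    exact ia_mul ((VV j).pow_mem (ia_root hN h2) q) (ia_sub ((hg y).2.2 h3) (ia_one_add h3 q))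

end Pool.Agent.Helper60.SL
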