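import Mathlib
import Pool.Agent.Helper60.SL.Almost
import Pool.Agent.Helper60.SL.InerAct
import Pool.Agent.Helper60.SL.Unif

/-!
# SL-44: inertia acts trivially on a given finite extension for almost all places (T3)

PROOF.  `L = k(β)` (primitive element).  Let `β_1, ..., β_n ∈ W` be the roots of the minimal polynomial of `β`.  By `almost_unit` (finitely many applications, union of the finite sets; for `β = 0` nothing to do) for `v` outside a finite set, all `j`: all nonzero `β_i` and all differences `β_i - β_m` with `β_i ≠ β_m` are units of `VV j`.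
Let `γ ∈ Iner F p`.  `γ β` is some `β_i`, and `γ β - β` is a nonunit (`iner_act`; `β ∈ VV j`), so `γ β = β`, and `γ` is the identity on `L = k(β)`.
-/

set_option autoImplicit false

open IsDedekindDomain NumberField IsLocalRing Pool.Agent.SB IntermediateField

namespace Pool.Agent.Helper60.SL

private theorem t3_almost {k : Type} [Field k] [NumberField k] {W : Type} [Field W] [Algebra k W]
    [Algebra.IsAlgebraic k W] (D : Finset W) :
    ∃ S : Finset (HeightOneSpectrum (𝓞 k)), ∀ v ∉ S,
      ∀ j : W →ₐ[k] AlgebraicClosure (v.adicCompletion k), ∀ x ∈ D, x ≠ 0 → IsUn (VV j) x := by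
  classical
  induction D using Finset.induction_on with
  | empty => exact ⟨∅, fun v _ j x hx => absurd hx (Finset.notMem_empty x)⟩
  | insert a s ha ih =>
    obtain ⟨S, hS⟩ := ih
    by_cases h0 : a = 0
    · refine ⟨S, fun v hv j x hx hx0 => ?_⟩
      rcases Finset.mem_insert.1 hx with h1 | h1
      · exact absurd (h1.trans h0) hx0
      · exact hS v hv j x h1 hx0
    · obtain ⟨S', hS'⟩ := almost_unit (k := k) (W := W) h0
      refine ⟨S ∪ S', fun v hv j x hx hx0 => ?_⟩
      rw [Finset.mem_union, not_or] at hv
      rcases Finset.mem_insert.1 hx with h1 | h1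
      · rw [h1]
        exact hS' v hv.2 j
      · exact hS v hv.1 j x h1 hx0

/-- (T3) -/
theorem iner_fix {k : Type} [Field k] [NumberField k] {W : Type} [Field W] [Algebra k W]
    [IsAlgClosed W] [Algebra.IsAlgebraic k W] (L : IntermediateField k W)
    [FiniteDimensional k L] :
    ∃ S : Finset (HeightOneSpectrum (𝓞 k)), ∀ v ∉ S, ∀ (p : ℕ), p.Prime →
      (p : 𝓞 k) ∈ v.asIdeal → ∀ (j : W →ₐ[k] AlgebraicClosure (v.adicCompletion k))
      (F : IntermediateField k W) (hF : decField j ≤ F),
      FiniteDimensional (decField j) (extendScalars hF) →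
      ∀ γ ∈ Iner F p, ∀ x ∈ L, γ x = x := by
  classical
  obtain ⟨α, hα⟩ := Field.exists_primitive_element k L
  have hαi : IsIntegral k α := Algebra.IsIntegral.isIntegral α
  have hf0 : (minpoly k α).map (algebraMap k W) ≠ 0 :=
    (Polynomial.map_ne_zero_iff (algebraMap k W).injective).2 (minpoly.ne_zero hαi)
  obtain ⟨S, hS⟩ := t3_almost (k := k) (W := W)
    (insert (α : W) ((((minpoly k α).map (algebraMap k W)).roots.toFinset).image
      fun r => r - (α : W)))
  refine ⟨S, fun v hv p hp hpv j F hF hfin γ hγ => ?_⟩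
  have hα' : (α : W) ∈ VV j := by
    by_cases h0 : (α : W) = 0
    · rw [h0]
      exact (VV j).zero_mem
    · exact (hS v hv j _ (Finset.mem_insert_self _ _) h0).1
  have hfix : γ (α : W) = α := by
    by_contra hne
    have h1 := iner_act j hF hfin hp hpv hγ hα'
    refine (hS v hv j (γ (α : W) - α) (Finset.mem_insert_of_mem (Finset.mem_image.2
      ⟨γ (α : W), ?_, rfl⟩)) (sub_ne_zero.2 hne)).2 h1
    rw [Multiset.mem_toFinset, Polynomial.mem_roots hf0, Polynomial.IsRoot.def,
      Polynomial.eval_map_algebraMap]
    have h2 : Polynomial.aeval (γ (α : W)) (minpoly k α) =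
        γ (Polynomial.aeval (α : W) (minpoly k α)) :=
      Polynomial.aeval_algHom_apply (γ : W →ₐ[k] W) (α : W) (minpoly k α)
    have h3 : Polynomial.aeval (α : W) (minpoly k α) = L.val (Polynomial.aeval α (minpoly k α)) :=
      Polynomial.aeval_algHom_apply L.val α (minpoly k α)
    rw [h2, h3, minpoly.aeval, map_zero, map_zero]
  have htop : Algebra.adjoin k {α} = ⊤ := by
    rw [← IntermediateField.adjoin_simple_toSubalgebra_of_isAlgebraic hαi.isAlgebraic, hα]
    rfl
  have heq : (γ : W →ₐ[k] W).comp L.val = L.val := by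
    refine AlgHom.ext_of_adjoin_eq_top htop ?_
    intro x hx
    rw [Set.mem_singleton_iff.1 hx]
    exact hfix
  intro x hx
  exact DFunLike.congr_fun heq (⟨x, hx⟩ : L)

end Pool.Agent.Helper60.SL
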