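import Mathlib
import Pool.Agent.Helper60.SL.Sys
import Pool.Agent.Helper60.SL.TameGen
import Pool.Agent.Helper60.SL.Unram
import Pool.Agent.Helper60.SL.ExtUnique
import Pool.Agent.Helper60.SL.LC

/-!
# SL-45: homomorphisms of the inertia group to groups of order prime to `p`

`I = {g ∈ Gal(Ω/F) | g fixes all roots of unity of order prime to p}`, a subgroup (here: a predicate `InI`).

PROOF.  `f` is defined on all of `I` (as a function on `Gal(Ω/F)` which is multiplicative on `I`) and trivial on the elements of `I` that are the identity on the finite extension `N`; enlarging `N` we may assume `N / F` Galois.  Let `I_N` be the image of `I` in `Gal(N/F)`;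
`f` induces a homomorphism `f_N : I_N → Q` (if `g, g' ∈ I` agree on `N`, then `g⁻¹ g' ∈ I` is the identity on `N`, so `f g = f g'`).  `F₀ = N^(I_N)`, `N₀ = N^(ker f_N)`, so `F₀ ≤ N₀ ≤ N` and `[N₀ : F₀] = |I_N / ker f_N| = |range f_N|` divides `|Q|` and is prime to `p`.
Every element of `F₀` is fixed by `I`, so it is in the field generated over `F` by all roots of unity of order prime to `p` (Galois theory: `I` is the group of that field), so `F₀ ≤ F(ζ)` with `ζ` a primitive `(q^m - 1)`-th root of unity for some `m > 0`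
(finitely many roots of unity suffice for the finite extension `F₀`; every `n` prime to `p` divides some `q^m - 1`), that is, `F₀ ≤ E` for an `E` as in `exists_unram`.  A uniformizer `π` of `A` is a uniformizer of `ext hA E`, hence of `ext hA F₀`:
it is a nonunit, and if `y` is a nonunit of `ext hA F₀` then `y / π ∈ ext hA E`, so `y / π ∈ ext hA F₀` (`ext_hom`).
Apply `le_tame` to `F₀` (`ext_hdvr hA F₀`; the residue characteristic is still `p`; the systems `r`, `z` form a `Sys` for `F₀` too) and `N₀` (`extendScalars`): `N₀ ≤ F₀(z n, r n)` for some `n` prime to `p`.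
If `g, g' ∈ I` and `g (r n) = g' (r n)`, then `g⁻¹ g'` fixes `F₀`, `z n` and `r n`, so it is the identity on `N₀`, and its restriction to `N` is in `ker f_N` (Galois theory of `N / F₀`: the group of `N₀` is `ker f_N`), so `f g = f g'`.
-/

set_option autoImplicit false

open IsLocalRing

namespace Pool.Agent.Helper60.SL

/-- `g` fixes all roots of unity of order prime to `p` -/
def InI {F Ω : Type*} [Field F] [Field Ω] [Algebra F Ω] (p : ℕ) (g : Ω ≃ₐ[F] Ω) : Prop :=
  ∀ (x : Ω) (m : ℕ), ¬ p ∣ m → x ^ m = 1 → g x = x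

/-! ## Groups -/

private theorem t4a_index {G H Q : Type*} [Group G] [Group H] [Finite H] [Group Q]
    (φ : G →* Q) (ρ : G →* H) (hk : ρ.ker ≤ φ.ker) :
    Nat.card (φ.ker.map ρ) * Nat.card φ.range = Nat.card ρ.range := by
  have h1 := Subgroup.relIndex_map_map ρ φ.ker ⊤
  rw [sup_eq_left.2 hk, top_sup_eq, Subgroup.relIndex_top_right, Subgroup.index_ker,
    ← MonoidHom.range_eq_map] at h1
  have h2 := Subgroup.relIndex_mul_relIndex ⊥ (φ.ker.map ρ) ρ.range bot_le
    (by rw [MonoidHom.range_eq_map]; exact Subgroup.map_mono le_top)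
  rw [h1, Subgroup.relIndex_bot_left, Subgroup.relIndex_bot_left] at h2
  exact h2

/-- The elements which fix the roots of unity of order prime to `p`. -/
private def t4a_I {F Ω : Type*} [Field F] [Field Ω] [Algebra F Ω] (p : ℕ) : Subgroup (Ω ≃ₐ[F] Ω) where
  carrier := {g | InI p g}
  one_mem' := fun x m _ _ => rfl
  mul_mem' := by
    intro g g' hg hg' x m hm hx
    change g (g' x) = x
    rw [hg' x m hm hx, hg x m hm hx]
  inv_mem' := by
    intro g hg x m hm hx
    change g.symm x = x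
    rw [AlgEquiv.symm_apply_eq]
    exact (hg x m hm hx).symm

private theorem t4a_mem_I {F Ω : Type*} [Field F] [Field Ω] [Algebra F Ω] {p : ℕ} {g : Ω ≃ₐ[F] Ω} :
    g ∈ t4a_I (F := F) (Ω := Ω) p ↔ InI p g := Iff.rfl

/-- An automorphism which fixes the subfield `K` and the generators fixes `K(S)`. -/
private theorem t4a_adjoin {F Ω : Type*} [Field F] [Field Ω] [Algebra F Ω] (K : IntermediateField F Ω)
    (S : Set Ω) (g : Ω ≃ₐ[F] Ω) (h1 : ∀ x ∈ K, g x = x) (h2 : ∀ x ∈ S, g x = x) {x : Ω}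
    (hx : x ∈ IntermediateField.adjoin K S) : g x = x := by
  induction hx using IntermediateField.adjoin_induction with
  | mem x hx => exact h2 x hx
  | algebraMap x => exact h1 _ x.2
  | add x y _ _ hx hy => rw [map_add, hx, hy]
  | inv x _ hx => rw [map_inv₀, hx]
  | mul x y _ _ hx hy => rw [map_mul, hx, hy]

private theorem t4a_adjoin' {F Ω : Type*} [Field F] [Field Ω] [Algebra F Ω]
    (S : Set Ω) (g : Ω ≃ₐ[F] Ω) (h2 : ∀ x ∈ S, g x = x) {x : Ω}
    (hx : x ∈ IntermediateField.adjoin F S) : g x = x := by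
  induction hx using IntermediateField.adjoin_induction with
  | mem x hx => exact h2 x hx
  | algebraMap x => exact g.commutes x
  | add x y _ _ hx hy => rw [map_add, hx, hy]
  | inv x _ hx => rw [map_inv₀, hx]
  | mul x y _ _ hx hy => rw [map_mul, hx, hy]

/-! ## Fields -/

private theorem t4a_rank {F Ω : Type*} [Field F] [Field Ω] [Algebra F Ω] (N : IntermediateField F Ω)
    [FiniteDimensional F N] (H : Subgroup (N ≃ₐ[F] N)) :
    Module.finrank F (IntermediateField.lift (IntermediateField.fixedField H)) * Nat.card H =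
      Module.finrank F N := by
  rw [← (IntermediateField.liftAlgEquiv (IntermediateField.fixedField H)).toLinearEquiv.finrank_eq,
    ← IntermediateField.finrank_fixedField_eq_card H, Module.finrank_mul_finrank]

private theorem t4a_galois {F : Type*} [Field F] [CharZero F] (Ω : Type*) [Field Ω] [Algebra F Ω]
    [IsAlgClosed Ω] [Algebra.IsAlgebraic F Ω] : IsGalois F Ω := by
  have : IsAlgClosure F Ω := ⟨inferInstance, inferInstance⟩
  infer_instance

/-- Everything fixed by `I` is in the field generated by the roots of unity. -/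
private theorem t4a_fixed {F : Type*} [Field F] [CharZero F] {Ω : Type*} [Field Ω] [Algebra F Ω]
    [IsAlgClosed Ω] [Algebra.IsAlgebraic F Ω] (p : ℕ) {x : Ω} (hx : ∀ g : Ω ≃ₐ[F] Ω, InI p g → g x = x) :
    x ∈ IntermediateField.adjoin F {y : Ω | ∃ m : ℕ, ¬ p ∣ m ∧ y ^ m = 1} := by
  have hgal := t4a_galois (F := F) Ω
  rw [← InfiniteGalois.fixedField_fixingSubgroup (IntermediateField.adjoin F {y : Ω | ∃ m : ℕ, ¬ p ∣ m ∧ y ^ m = 1}),
    IntermediateField.mem_fixedField_iff]
  intro g hg
  apply hx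
  intro y m hm hy
  rw [IntermediateField.mem_fixingSubgroup_iff] at hg
  exact hg y (IntermediateField.subset_adjoin _ _ ⟨m, hm, hy⟩)

/-- A finite extension inside the field of the roots of unity: one exponent suffices. -/
private theorem t4a_exp {F : Type*} [Field F] [CharZero F] {Ω : Type*} [Field Ω] [Algebra F Ω]
    {p : ℕ} (hp : p.Prime) (F₀ : IntermediateField F Ω) [FiniteDimensional F F₀]
    (h : ∀ x ∈ F₀, x ∈ IntermediateField.adjoin F {y : Ω | ∃ m : ℕ, ¬ p ∣ m ∧ y ^ m = 1}) :
    ∃ M : ℕ, ¬ p ∣ M ∧ F₀ ≤ IntermediateField.adjoin F {y : Ω | y ^ M = 1} := by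
  obtain ⟨α, hα⟩ := Field.exists_primitive_element F F₀
  obtain ⟨S, hS, hαS⟩ := IntermediateField.exists_finset_of_mem_adjoin (h α α.2)
  have hS' : ∀ y ∈ S, ∃ m : ℕ, ¬ p ∣ m ∧ y ^ m = 1 := fun y hy => hS (Finset.mem_coe.2 hy)
  choose! m hm1 hm2 using hS'
  refine ⟨∏ y ∈ S, m y, ?_, ?_⟩
  · intro hd
    obtain ⟨y, hy, hdy⟩ := (Prime.dvd_finsetProd_iff hp.prime _).1 hd
    exact hm1 y hy hdy
  · have h1 : IntermediateField.adjoin F (S : Set Ω) ≤
        IntermediateField.adjoin F {y : Ω | y ^ (∏ y ∈ S, m y) = 1} := by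
      apply IntermediateField.adjoin.mono
      intro y hy
      obtain ⟨k, hk⟩ := Finset.dvd_prod_of_mem m (Finset.mem_coe.1 hy)
      change y ^ _ = 1
      rw [hk, pow_mul, hm2 y (Finset.mem_coe.1 hy), one_pow]
    refine le_trans ?_ h1
    have h2 : IntermediateField.lift (IntermediateField.adjoin F {α} : IntermediateField F F₀) ≤
        IntermediateField.adjoin F (S : Set Ω) := by
      unfold IntermediateField.lift
      rw [IntermediateField.adjoin_map, IntermediateField.adjoin_le_iff]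
      rintro _ ⟨y, hy, rfl⟩
      rw [Set.mem_singleton_iff.1 hy]
      exact hαS
    intro x hx
    apply h2
    rw [hα]
    exact (IntermediateField.mem_lift (F := F₀) (E := ⊤) ⟨x, hx⟩).2 IntermediateField.mem_top

variable {F : Type*} [Field F] [CharZero F] {A : ValuationSubring F} (hA : HDVR A)
variable {Ω : Type*} [Field Ω] [Algebra F Ω] [IsAlgClosed Ω] [Algebra.IsAlgebraic F Ω]

include hA in
private theorem t4a_unif {p : ℕ} [CharP (ResidueField A) p] (hp : p.Prime) {π : F} (hπ : IsUnif A π)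
    (F₀ : IntermediateField F Ω) [FiniteDimensional F F₀]
    (h : ∀ x ∈ F₀, ∀ g : Ω ≃ₐ[F] Ω, InI p g → g x = x) : IsUnif (ext hA F₀) (algebraMap F F₀ π) := by
  obtain ⟨M, hM, hle⟩ := t4a_exp hp F₀ (fun x hx => t4a_fixed p (h x hx))
  have hM0 : M ≠ 0 := fun h0 => hM (h0 ▸ dvd_zero p)
  have hfin : Finite (ResidueField A) := hA.fin
  have hft : Fintype (ResidueField A) := Fintype.ofFinite _
  have hq2 : 1 < Nat.card (ResidueField A) := Finite.one_lt_card
  have hcop : Nat.Coprime (Nat.card (ResidueField A)) M := by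
    obtain ⟨k, -, hk⟩ := FiniteField.card (ResidueField A) p
    rw [Nat.card_eq_fintype_card, hk]
    exact Nat.Coprime.pow_left _ ((Nat.Prime.coprime_iff_not_dvd hp).2 hM)
  have hn : Nat.totient M ≠ 0 := (Nat.totient_pos.2 (Nat.pos_of_ne_zero hM0)).ne'
  have hqn : 1 < Nat.card (ResidueField A) ^ Nat.totient M := Nat.one_lt_pow hn hq2
  have hdvd : M ∣ Nat.card (ResidueField A) ^ Nat.totient M - 1 :=
    (Nat.modEq_iff_dvd' hqn.le).1 (Nat.ModEq.pow_totient hcop).symm
  obtain ⟨E, hE1, hE2, φ, -, hunif, -, -, -, -, ζ, hζ, -⟩ := exists_unram hA (Ω := Ω) hn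
  have hne : NeZero (Nat.card (ResidueField A) ^ Nat.totient M - 1) := ⟨by omega⟩
  have hζ' : IsPrimitiveRoot (ζ : Ω) (Nat.card (ResidueField A) ^ Nat.totient M - 1) :=
    hζ.map_of_injective (f := E.val) E.val.injective
  have hle' : F₀ ≤ E := by
    refine hle.trans ?_
    rw [IntermediateField.adjoin_le_iff]
    intro y hy
    have hy' : y ^ (Nat.card (ResidueField A) ^ Nat.totient M - 1) = 1 := by
      obtain ⟨k, hk⟩ := hdvd
      rw [hk, pow_mul, show y ^ M = 1 from hy, one_pow]
    obtain ⟨i, -, hi⟩ := hζ'.eq_pow_of_pow_eq_one hy'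
    rw [← hi]
    exact pow_mem ζ.2 i
  refine ⟨?_, (ext_nonunits_map hA π).2 hπ.non, ?_⟩
  · rw [Ne, map_eq_zero]
    exact hπ.ne
  · intro y hy
    have h1 := (ext_nonunits_hom hA (IntermediateField.inclusion hle') y).2 hy
    have h2 := (hunif π hπ).gen _ h1
    have h3 : IntermediateField.inclusion hle' y / algebraMap F E π =
        IntermediateField.inclusion hle' (y / algebraMap F F₀ π) := by
      rw [map_div₀, AlgHom.commutes]
    rw [h3] at h2
    exact (ext_hom hA (IntermediateField.inclusion hle') _).1 h2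

include hA in
private theorem t4a_galN {p : ℕ} [CharP (ResidueField A) p] {π : F} (hπ : IsUnif A π)
    {r z : ℕ → Ω} (hs : Sys π r z) {Q : Type*} [Group Q] [Finite Q]
    (hQ : ¬ p ∣ Nat.card Q) (f : (Ω ≃ₐ[F] Ω) → Q)
    (hf : ∀ g g', InI p g → InI p g' → f (g * g') = f g * f g')
    (N : IntermediateField F Ω) [FiniteDimensional F N] [Normal F N]
    (hN : ∀ g, InI p g → (∀ x ∈ N, g x = x) → f g = 1) :
    ∃ n : ℕ, ¬ p ∣ n ∧ ∀ g g', InI p g → InI p g' → g (r n) = g' (r n) → f g = f g' := by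
  have hfin : Finite (ResidueField A) := hA.fin
  have hft : Fintype (ResidueField A) := Fintype.ofFinite _
  have hp : p.Prime := (CharP.char_is_prime_or_zero (ResidueField A) p).resolve_right
    (CharP.char_ne_zero_of_finite (ResidueField A) p)
  have hf1 : f 1 = 1 := hN 1 (fun _ _ _ _ => rfl) (fun _ _ => rfl)
  let φ : (t4a_I (F := F) (Ω := Ω) p) →* Q :=
    { toFun := fun g => f g
      map_one' := hf1
      map_mul' := fun g g' => hf g g' g.2 g'.2 }
  let R : (Ω ≃ₐ[F] Ω) →* (N ≃ₐ[F] N) := AlgEquiv.restrictNormalHom N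
  have hR : ∀ (g : Ω ≃ₐ[F] Ω) (x : N), ((R g x : N) : Ω) = g (x : Ω) := fun g x =>
    AlgEquiv.restrictNormal_commutes g N x
  let ρ : (t4a_I (F := F) (Ω := Ω) p) →* (N ≃ₐ[F] N) := R.comp (t4a_I (F := F) (Ω := Ω) p).subtype
  have hker : ρ.ker ≤ φ.ker := by
    intro g hg
    rw [MonoidHom.mem_ker] at hg ⊢
    refine hN g g.2 fun x hx => ?_
    have h1 := hR g ⟨x, hx⟩
    have h2 : R g = 1 := hg
    rw [h2] at h1
    exact h1.symm
  have hcard := t4a_index φ ρ hker
  set F₀ : IntermediateField F Ω := IntermediateField.lift (IntermediateField.fixedField ρ.range) with hF₀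
  set N₀ : IntermediateField F Ω := IntermediateField.lift (IntermediateField.fixedField (φ.ker.map ρ)) with hN₀
  have hkr : φ.ker.map ρ ≤ ρ.range := by
    rw [MonoidHom.range_eq_map]
    exact Subgroup.map_mono le_top
  have hle : F₀ ≤ N₀ := by
    intro x hx
    have hxN : x ∈ N := IntermediateField.lift_le _ hx
    have h1 : (⟨x, hxN⟩ : N) ∈ IntermediateField.fixedField ρ.range :=
      (IntermediateField.mem_lift (F := N) ⟨x, hxN⟩).1 hx
    refine (IntermediateField.mem_lift (F := N) ⟨x, hxN⟩).2 ?_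
    rw [IntermediateField.mem_fixedField_iff] at h1 ⊢
    exact fun g hg => h1 g (hkr hg)
  have hleN : N₀ ≤ N := IntermediateField.lift_le _
  have hfd0 : FiniteDimensional F F₀ :=
    (IntermediateField.liftAlgEquiv (IntermediateField.fixedField ρ.range)).toLinearEquiv.finiteDimensional
  have hfd1 : FiniteDimensional F N₀ :=
    (IntermediateField.liftAlgEquiv (IntermediateField.fixedField (φ.ker.map ρ))).toLinearEquiv.finiteDimensional
  have hr0 := t4a_rank N ρ.range
  have hr1 := t4a_rank N (φ.ker.map ρ)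
  rw [← hF₀] at hr0
  rw [← hN₀] at hr1
  have hdeg : Module.finrank F₀ (IntermediateField.extendScalars hle) = Nat.card φ.range := by
    rw [← IntermediateField.relfinrank_eq_finrank_of_le hle]
    have h1 := IntermediateField.finrank_bot_mul_relfinrank hle
    have hpos0 : 0 < Module.finrank F F₀ := Module.finrank_pos
    have hposK : 0 < Nat.card (φ.ker.map ρ) := Nat.card_pos
    have h2 : Module.finrank F F₀ * (Nat.card (φ.ker.map ρ) * Nat.card φ.range) =
        Module.finrank F F₀ * (Nat.card (φ.ker.map ρ) * IntermediateField.relfinrank F₀ N₀) := by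
      rw [hcard, hr0, ← hr1, ← h1]
      ring
    exact (Nat.eq_of_mul_eq_mul_left hposK (Nat.eq_of_mul_eq_mul_left hpos0 h2)).symm
  have hfix0 : ∀ x ∈ F₀, ∀ g : Ω ≃ₐ[F] Ω, InI p g → g x = x := by
    intro x hx g hg
    have hxN : x ∈ N := IntermediateField.lift_le _ hx
    have h1 : (⟨x, hxN⟩ : N) ∈ IntermediateField.fixedField ρ.range :=
      (IntermediateField.mem_lift (F := N) ⟨x, hxN⟩).1 hx
    rw [IntermediateField.mem_fixedField_iff] at h1
    have h2 := h1 (ρ ⟨g, hg⟩) ⟨⟨g, hg⟩, rfl⟩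
    have h3 := hR g ⟨x, hxN⟩
    have h4 : ρ ⟨g, hg⟩ = R g := rfl
    rw [← h4, h2] at h3
    exact h3.symm
  have hπ0 := t4a_unif hA hp hπ F₀ hfix0
  have hc0 : CharZero F₀ := charZero_of_injective_algebraMap (algebraMap F F₀).injective
  have hchar : CharP (ResidueField (ext hA F₀)) p := charP_ext hA p
  have hs0 : Sys (algebraMap F F₀ π) r z :=
    ⟨by rw [hs.r1]; exact IsScalarTower.algebraMap_apply F F₀ Ω π, hs.rmul, hs.zmul, hs.prim⟩
  have hfdL : FiniteDimensional F₀ (IntermediateField.extendScalars hle) := by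
    have hpos : 0 < Module.finrank F₀ (IntermediateField.extendScalars hle) := by
      rw [hdeg]
      exact Nat.card_pos
    exact FiniteDimensional.of_finrank_pos hpos
  have hdvd : ¬ p ∣ Module.finrank F₀ (IntermediateField.extendScalars hle) := by
    rw [hdeg]
    exact fun h => hQ (h.trans (Subgroup.card_subgroup_dvd_card φ.range))
  obtain ⟨n, hn, hL⟩ := le_tame (ext_hdvr hA F₀) hπ0 hs0 (IntermediateField.extendScalars hle) hdvd
  refine ⟨n, hn, ?_⟩
  intro g g' hg hg' hgg
  have hn0 : n ≠ 0 := fun h0 => hn (h0 ▸ dvd_zero p)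
  have hh : InI p (g⁻¹ * g') := (t4a_I (F := F) (Ω := Ω) p).mul_mem
    ((t4a_I (F := F) (Ω := Ω) p).inv_mem hg) hg'
  have hfixN : ∀ x ∈ N₀, (g⁻¹ * g') x = x := by
    intro x hx
    have h1 : x ∈ IntermediateField.adjoin F₀ {z n, r n} := hL hx
    refine t4a_adjoin F₀ {z n, r n} (g⁻¹ * g') (fun y hy => hfix0 y hy _ hh) ?_ h1
    intro y hy
    rcases hy with hy | hy
    · rw [hy]
      exact hh (z n) n hn (hs.prim n hn0).pow_eq_one
    · rw [Set.mem_singleton_iff.1 hy]
      change g.symm (g' (r n)) = r n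
      rw [← hgg, AlgEquiv.symm_apply_apply]
  have hmem : R (g⁻¹ * g') ∈ φ.ker.map ρ := by
    rw [← IntermediateField.fixingSubgroup_fixedField (φ.ker.map ρ), IntermediateField.mem_fixingSubgroup_iff]
    intro x hx
    apply Subtype.ext
    rw [hR]
    exact hfixN x ((IntermediateField.mem_lift (F := N) x).2 hx)
  obtain ⟨k, hk, hk2⟩ := hmem
  have hk1 : f k = 1 := hk
  have h5 : f ((g⁻¹ * g') * (k : Ω ≃ₐ[F] Ω)⁻¹) = 1 := by
    refine hN _ ((t4a_I (F := F) (Ω := Ω) p).mul_mem hh ((t4a_I (F := F) (Ω := Ω) p).inv_mem k.2)) ?_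
    intro x hx
    have h6 : R ((g⁻¹ * g') * (k : Ω ≃ₐ[F] Ω)⁻¹) = 1 := by
      rw [map_mul, map_inv]
      have h7 : R (k : Ω ≃ₐ[F] Ω) = R (g⁻¹ * g') := hk2
      rw [h7, mul_inv_cancel]
    have h8 := hR ((g⁻¹ * g') * (k : Ω ≃ₐ[F] Ω)⁻¹) ⟨x, hx⟩
    rw [h6] at h8
    exact h8.symm
  have h6 : f (g⁻¹ * g') = 1 := by
    have h7 := hf ((g⁻¹ * g') * (k : Ω ≃ₐ[F] Ω)⁻¹) k
      ((t4a_I (F := F) (Ω := Ω) p).mul_mem hh ((t4a_I (F := F) (Ω := Ω) p).inv_mem k.2)) k.2
    rw [inv_mul_cancel_right, h5, hk1, mul_one] at h7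
    exact h7
  have h7 := hf g (g⁻¹ * g') hg hh
  rw [mul_inv_cancel_left, h6, mul_one] at h7
  exact h7.symm

include hA in
theorem iner_hom {p : ℕ} [CharP (ResidueField A) p] {π : F} (hπ : IsUnif A π)
    {r z : ℕ → Ω} (hs : Sys π r z) {Q : Type*} [Group Q] [Finite Q]
    (hQ : ¬ p ∣ Nat.card Q) (f : (Ω ≃ₐ[F] Ω) → Q)
    (hf : ∀ g g', InI p g → InI p g' → f (g * g') = f g * f g')
    (N : IntermediateField F Ω) [FiniteDimensional F N]
    (hN : ∀ g, InI p g → (∀ x ∈ N, g x = x) → f g = 1) :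
    ∃ n : ℕ, ¬ p ∣ n ∧ ∀ g g', InI p g → InI p g' → g (r n) = g' (r n) → f g = f g' := by
  have hgal := t4a_galois (F := F) Ω
  have hnorm : Normal F (IntermediateField.normalClosure F N Ω) := normalClosure.normal F N Ω
  have hfd : FiniteDimensional F (IntermediateField.normalClosure F N Ω) :=
    normalClosure.is_finiteDimensional F N Ω
  exact t4a_galN hA hπ hs hQ f hf (IntermediateField.normalClosure F N Ω)
    (fun g hg h => hN g hg fun x hx => h x (IntermediateField.le_normalClosure N hx))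

end Pool.Agent.Helper60.SL
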