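import Mathlib
import Pool.Agent.Helper60.SL.T4a
import Pool.Agent.Helper60.SL.FinF
import Pool.Agent.Helper60.SL.Unif

/-!
# SL-46: T4, conjugation by a Frobenius on the tame inertia

PROOF.  Let `π` be a uniformizer of `resF (VV j) F` (`exists_unif`) and `r, z` systems for it (`exists_sys`, `Ω = W`).  Extend `ε` to a function on `W ≃ₐ[F] W` (`ε` of the corresponding element if it is in `Iner F p`, `1` otherwise; `InI p g` iff the corresponding element of
`F.fixingSubgroup` is in `Iner F p`); the kernel of `ε` is open, so it contains all elements of `Iner F p` which are the identity on a finite extension `N₀` of `k`; `N = F(N₀)`.  `iner_hom (hdvr_F j hF hfin)` gives `n` prime to `p` such that `ε g` depends only on `g (r n)`, for `g ∈ Iner F p`.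
Let `κ = g (r n) / r n`, `κ^n = 1` (`r n ^ n = π ∈ F`), so `g κ = κ` and `g^q (r n) = κ^q r n`.  `g' = σ g σ⁻¹`: `σ⁻¹ (r n) = ξ r n` with `ξ^n = 1`, `g (ξ r n) = ξ κ r n = κ σ⁻¹ (r n)`, so `g' (r n) = σ κ * r n = κ^q r n`.  So `ε g' = ε (g^q) = (ε g)^q`.
-/

set_option autoImplicit false

open IsDedekindDomain NumberField IsLocalRing Pool.Agent.SB IntermediateField

namespace Pool.Agent.Helper60.SL

variable {k : Type} [Field k] [NumberField k] {W : Type} [Field W] [Algebra k W]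
  [IsAlgClosed W] [Algebra.IsAlgebraic k W]
variable {v : HeightOneSpectrum (𝓞 k)} (j : W →ₐ[k] AlgebraicClosure (v.adicCompletion k))

omit [NumberField k] [IsAlgClosed W] [Algebra.IsAlgebraic k W] in
private theorem t4_mem {F : IntermediateField k W} {p : ℕ} (g : W ≃ₐ[F] W) (hg : InI p g) :
    g.restrictScalars k ∈ Iner F p := by
  refine ⟨?_, hg⟩
  rw [IntermediateField.mem_fixingSubgroup_iff]
  intro x hx
  exact g.commutes ⟨x, hx⟩

omit [NumberField k] [IsAlgClosed W] [Algebra.IsAlgebraic k W] in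
private theorem t4_lift {F : IntermediateField k W} {γ : W ≃ₐ[k] W}
    (hγ : γ ∈ F.fixingSubgroup) : ∃ g : W ≃ₐ[F] W, ∀ x, g x = γ x :=
  ⟨IntermediateField.fixingSubgroupEquiv F ⟨γ, hγ⟩, fun _ => rfl⟩

omit [NumberField k] [IsAlgClosed W] in
/-- a finite extension of `F` such that the elements of `Iner F p` which fix it are in the
kernel -/
private theorem t4_fin {F : IntermediateField k W} {p : ℕ} {Q : Type*} [Group Q]
    (ε : Iner F p →* Q) (hε : IsOpen (ε.ker : Set (Iner F p))) :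
    ∃ N : IntermediateField F W, FiniteDimensional F N ∧
      ∀ g : Iner F p, (∀ x ∈ N, (g : W ≃ₐ[k] W) x = x) → ε g = 1 := by
  obtain ⟨U, hU, hUε⟩ := isOpen_induced_iff.mp hε
  have h1 : (1 : W ≃ₐ[k] W) ∈ U := by
    have h2 : (1 : Iner F p) ∈ (ε.ker : Set (Iner F p)) := ε.ker.one_mem
    rw [← hUε] at h2
    exact h2
  obtain ⟨E, hE, hEU⟩ := (krullTopology_mem_nhds_one_iff k W U).mp (hU.mem_nhds h1)
  let b := Module.finBasis k E
  refine ⟨IntermediateField.adjoin F (Set.range fun i => ((b i : E) : W)),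
    IntermediateField.finiteDimensional_adjoin (K := F) ?_, ?_⟩
  · rintro x ⟨i, rfl⟩
    have h2 : IsIntegral k ((b i : E) : W) := Algebra.IsIntegral.isIntegral _
    exact h2.tower_top
  · intro g hg
    have h2 : (g : W ≃ₐ[k] W) ∈ U := by
      apply hEU
      rw [SetLike.mem_coe, IntermediateField.mem_fixingSubgroup_iff]
      have h3 : (g : W ≃ₐ[k] W).toLinearMap ∘ₗ E.val.toLinearMap = E.val.toLinearMap := by
        refine b.ext fun i => ?_
        exact hg _ (IntermediateField.subset_adjoin F _ ⟨i, rfl⟩)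
      intro x hx
      exact LinearMap.congr_fun h3 ⟨x, hx⟩
    have h4 : g ∈ (ε.ker : Set (Iner F p)) := by
      rw [← hUε]
      exact h2
    exact h4

/-- (T4) -/
theorem iner_conj {F : IntermediateField k W} (hF : decField j ≤ F)
    (hfin : FiniteDimensional (decField j) (extendScalars hF)) {p : ℕ} (hp : p.Prime)
    (hpv : (p : 𝓞 k) ∈ v.asIdeal) {Q : Type*} [Group Q] [Finite Q] (hQ : ¬ p ∣ Nat.card Q)
    (ε : Iner F p →* Q) (hε : IsOpen (ε.ker : Set (Iner F p))) {σ : W ≃ₐ[k] W}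
    (hσ : σ ∈ F.fixingSubgroup) {q : ℕ} (hσq : ActsAs p q σ) (g g' : Iner F p)
    (h : (g' : W ≃ₐ[k] W) = σ * g * σ⁻¹) : ε g' = ε g ^ q := by
  classical
  have hc0 : CharZero F := charZero_of_injective_algebraMap (algebraMap k F).injective
  have halg : Algebra.IsAlgebraic F W := Algebra.IsAlgebraic.tower_top (K := k) F
  have hA := hdvr_F j hF hfin
  have hcp : CharP (ResidueField (resF (VV j) F)) p := char_F j F hp hpv
  obtain ⟨π, hπ⟩ := exists_unif hA.dvr
  obtain ⟨r, z, hs⟩ := exists_sys (Ω := W) π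
  obtain ⟨N, hNfin, hN⟩ := t4_fin ε hε
  let f : (W ≃ₐ[F] W) → Q := fun g =>
    if hg : InI p g then ε ⟨g.restrictScalars k, t4_mem g hg⟩ else 1
  have hfI : ∀ (G : W ≃ₐ[F] W) (γ : Iner F p), (∀ x, G x = (γ : W ≃ₐ[k] W) x) →
      InI p G ∧ f G = ε γ := by
    intro G γ hG
    have h1 : InI p G := by
      intro x m hm hx
      rw [hG]
      exact γ.2.2 x m hm hx
    refine ⟨h1, ?_⟩
    simp only [f, dif_pos h1]
    congr 1
    apply Subtype.ext
    exact AlgEquiv.ext hG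
  have hf : ∀ g g', InI p g → InI p g' → f (g * g') = f g * f g' := by
    intro G G' hG hG'
    rw [(hfI G ⟨G.restrictScalars k, t4_mem G hG⟩ fun x => rfl).2,
      (hfI G' ⟨G'.restrictScalars k, t4_mem G' hG'⟩ fun x => rfl).2, ← map_mul]
    exact (hfI (G * G') (⟨G.restrictScalars k, t4_mem G hG⟩ *
      ⟨G'.restrictScalars k, t4_mem G' hG'⟩) fun x => rfl).2
  obtain ⟨n, hn, hnf⟩ := iner_hom hA hπ hs hQ f hf N (by
    intro G hG hGN
    rw [(hfI G ⟨G.restrictScalars k, t4_mem G hG⟩ fun x => rfl).2]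
    exact hN _ hGN)
  have hn0 : n ≠ 0 := by
    rintro rfl
    exact hn (dvd_zero p)
  -- `r n ^ n = π`
  have hrn : r n ^ n = ((π : F) : W) := by
    have h1 := hs.rmul 1 n one_ne_zero hn0
    rw [one_mul, hs.r1] at h1
    exact h1
  have hπ0 : ((π : F) : W) ≠ 0 := by
    intro h0
    exact hπ.ne (Subtype.ext h0)
  have hr0 : r n ≠ 0 := by
    intro h0
    rw [h0, zero_pow hn0] at hrn
    exact hπ0 hrn.symm
  have hfix : ∀ γ : W ≃ₐ[k] W, γ ∈ F.fixingSubgroup → (γ (r n) / r n) ^ n = 1 := by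
    intro γ hγ
    have h1 : γ ((π : F) : W) = ((π : F) : W) :=
      (IntermediateField.mem_fixingSubgroup_iff F γ).mp hγ _ π.2
    rw [div_pow, ← map_pow, hrn, h1, div_self hπ0]
  -- the action of `g`
  set κ := (g : W ≃ₐ[k] W) (r n) / r n with hκ
  have hκn : κ ^ n = 1 := hfix g g.2.1
  have hgr : (g : W ≃ₐ[k] W) (r n) = κ * r n := by
    rw [hκ, div_mul_cancel₀ _ hr0]
  have hgκ : (g : W ≃ₐ[k] W) κ = κ := g.2.2 κ n hn hκn
  have hgq : ∀ m : ℕ, ((g : W ≃ₐ[k] W) ^ m) (r n) = κ ^ m * r n := by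
    intro m
    induction m with
    | zero => simp
    | succ m ih =>
      rw [pow_succ', AlgEquiv.mul_apply, ih, map_mul, map_pow, hgκ, hgr, pow_succ]
      ring
  have hg' : (g' : W ≃ₐ[k] W) (r n) = κ ^ q * r n := by
    set ξ := σ⁻¹ (r n) / r n with hξ
    have hξn : ξ ^ n = 1 := hfix σ⁻¹ (inv_mem hσ)
    have hσr : σ⁻¹ (r n) = ξ * r n := by
      rw [hξ, div_mul_cancel₀ _ hr0]
    have hgξ : (g : W ≃ₐ[k] W) ξ = ξ := g.2.2 ξ n hn hξn
    have h1 : (g : W ≃ₐ[k] W) (σ⁻¹ (r n)) = κ * σ⁻¹ (r n) := by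
      rw [hσr, map_mul, hgξ, hgr]
      ring
    have h2 : σ (σ⁻¹ (r n)) = r n := by
      rw [← AlgEquiv.mul_apply, mul_inv_cancel, AlgEquiv.one_apply]
    rw [h, AlgEquiv.mul_apply, AlgEquiv.mul_apply, h1, map_mul, h2, hσq κ n hn hκn]
  obtain ⟨G, hG⟩ := t4_lift (g ^ q).2.1
  obtain ⟨G', hG'⟩ := t4_lift g'.2.1
  have hfG := hfI G (g ^ q) hG
  have hfG' := hfI G' g' hG'
  rw [← map_pow, ← hfG.2, ← hfG'.2]
  refine hnf _ _ hfG'.1 hfG.1 ?_
  rw [hG, hG', hg']
  exact (hgq q).symm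

end Pool.Agent.Helper60.SL
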