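import Mathlib
import Pool.Agent.Helper79.SB.Common

/-!
# SL-49: archimedean places (T8)

PROOF.  `arch_complex`: `w.Completion` is isomorphic to `ℂ` (`NumberField.InfinitePlace.Completion.ringEquivComplexOfIsComplex`), so algebraically closed, and every element of its algebraic closure is in the image of `w.Completion`: `decField j = ⊤`.
`arch_i`: let `w` be real, `C = w.Completion ≃+* ℝ` (`ringEquivRealOfIsReal`), `D = AlgebraicClosure C`, `i ∈ W` with `i^2 = -1` and `i' = j i`.  `D = C(i')`: `ℝ(√-1)` is algebraically closed, transport the isomorphism (`D` and `ℂ` are both algebraic closures of `ℝ ≃ C`); so every element of `D` is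
`a + b i'` with `a, b ∈ C`, and there is `c ∈ Gal(D/C)` with `c i' = -i'`, `c (a + b i') = a - b i'`.  `c` maps `j(W)` to itself (`W / k` is normal: `c ∘ j` and `j` have the same image, `c j(x)` is a root of the minimal polynomial of `x`, all whose roots are in `j(W)`).  For `x ∈ W`: `j x = a + b i'`,
`a = (j x + c (j x)) / 2 ∈ j(W)`, so `a = j x_a` with `x_a ∈ decField j`, and `b = (j x - c (j x)) / (2 i') = j x_b`.  So `x = x_a + x_b i`.
`arch_finite`: `g ∈ (decField j).fixingSubgroup` is determined by `g i ∈ {i, -i}` (real case; in the complex case the group is trivial).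
-/

set_option autoImplicit false
set_option linter.style.haveILetI false
set_option linter.unusedSectionVars false

open NumberField Pool.Agent.SB IntermediateField

namespace Pool.Agent.Helper60.SL

variable {k : Type} [Field k] [NumberField k] {W : Type} [Field W] [Algebra k W]
  [IsAlgClosed W] [Algebra.IsAlgebraic k W]
variable (w : InfinitePlace k) (j : W →ₐ[k] AlgebraicClosure w.Completion)

theorem arch_complex (hw : w.IsComplex) : decField j = ⊤ := by
  haveI : IsAlgClosed w.Completion :=
    IsAlgClosed.of_ringEquiv ℂ w.Completion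
      (InfinitePlace.Completion.ringEquivComplexOfIsComplex hw).symm
  have hs : Function.Surjective (algebraMap w.Completion (AlgebraicClosure w.Completion)) :=
    (IsAlgClosed.algebraMap_bijective_of_isIntegral).2
  rw [eq_top_iff]
  intro x _
  rw [mem_decField]
  exact hs (j x)

omit [NumberField k] in
private theorem arch_mem_range {D : Type} [Field D] [Algebra k D] (j : W →ₐ[k] D) (y : D)
    (hy : IsIntegral k y) : ∃ x : W, j x = y := by
  letI : Algebra W D := j.toRingHom.toAlgebra
  haveI : IsScalarTower k W D := IsScalarTower.of_algebraMap_eq fun r => (j.commutes r).symm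
  have h1 : IsIntegral W y := hy.tower_top
  have h2 := IsAlgClosed.degree_eq_one_of_irreducible W (minpoly.irreducible h1)
  obtain ⟨x, hx⟩ := minpoly.mem_range_of_degree_eq_one W y h2
  exact ⟨x, hx⟩

omit [NumberField k] in
private theorem arch_core {C : Type} [Field C] [Algebra k C] (φ : C ≃+* ℝ)
    (j : W →ₐ[k] AlgebraicClosure C) {i : W} (hi : i ^ 2 = -1) (x : W) :
    ∃ a b : W, a ∈ decField j ∧ b ∈ decField j ∧ x = a + b * i := by
  letI : Algebra C ℝ := φ.toRingHom.toAlgebra
  letI : Algebra C ℂ := ((algebraMap ℝ ℂ).comp φ.toRingHom).toAlgebra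
  haveI : IsScalarTower C ℝ ℂ := IsScalarTower.of_algebraMap_eq fun r => rfl
  have hsurj : Function.Surjective (algebraMap C ℝ) := φ.surjective
  haveI : Algebra.IsIntegral C ℝ := ⟨fun r => by
    obtain ⟨c, hc⟩ := hsurj r
    rw [← hc]
    exact isIntegral_algebraMap⟩
  haveI : Algebra.IsIntegral ℝ ℂ := Algebra.IsIntegral.of_finite ℝ ℂ
  haveI : Algebra.IsIntegral C ℂ := Algebra.IsIntegral.trans ℝ
  haveI : Algebra.IsAlgebraic C ℂ := Algebra.IsIntegral.isAlgebraic
  haveI : IsAlgClosure C ℂ := ⟨inferInstance, inferInstance⟩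
  let e : AlgebraicClosure C ≃ₐ[C] ℂ := IsAlgClosure.equiv C (AlgebraicClosure C) ℂ
  let cj : ℂ ≃ₐ[C] ℂ := Complex.conjAe.restrictScalars C
  let c : AlgebraicClosure C ≃ₐ[C] AlgebraicClosure C := (e.trans cj).trans e.symm
  have hCmap : ∀ r : C, algebraMap C ℂ r = ((φ r : ℝ) : ℂ) := fun r => rfl
  -- the image of `i`
  have hii : (e (j i)) ^ 2 = -1 := by
    rw [← map_pow, ← map_pow, hi, map_neg, map_one, map_neg, map_one]
  have hI : ∃ s : ℝ, e (j i) = (s : ℂ) * Complex.I ∧ s * s = 1 := by
    have h1 : (e (j i) - Complex.I) * (e (j i) + Complex.I) = 0 := by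
      have : (e (j i) - Complex.I) * (e (j i) + Complex.I) = (e (j i)) ^ 2 - Complex.I ^ 2 := by
        ring
      rw [this, hii, Complex.I_sq, sub_self]
    rcases mul_eq_zero.mp h1 with h | h
    · exact ⟨1, by rw [sub_eq_zero.mp h]; simp, by norm_num⟩
    · exact ⟨-1, by rw [eq_neg_of_add_eq_zero_left h]; simp, by norm_num⟩
  obtain ⟨s, hs, hss⟩ := hI
  set z : ℂ := e (j x) with hz
  obtain ⟨a, ha⟩ := φ.surjective z.re
  obtain ⟨b, hb⟩ := φ.surjective (s * z.im)
  have hcz : e (c (j x)) = (starRingEnd ℂ) z := by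
    change e (e.symm (cj (e (j x)))) = _
    rw [AlgEquiv.apply_symm_apply]
    rfl
  -- `c (j x)` comes from `W`
  have hint : IsIntegral k (c (j x)) := by
    have h1 : IsIntegral k x := Algebra.IsIntegral.isIntegral x
    have h2 : IsIntegral k (j x) := h1.map j
    exact h2.map (c.restrictScalars k)
  obtain ⟨x', hx'⟩ := arch_mem_range j (c (j x)) hint
  have hi0 : i ≠ 0 := by
    rintro rfl
    rw [zero_pow two_ne_zero] at hi
    exact one_ne_zero (neg_eq_zero.mp hi.symm)
  haveI : CharZero W := by
    haveI : CharZero C := by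
      refine ⟨fun m n h => ?_⟩
      have := congrArg φ h
      rw [map_natCast, map_natCast] at this
      exact Nat.cast_injective this
    haveI : CharZero (AlgebraicClosure C) := charZero_of_injective_algebraMap
      (algebraMap C (AlgebraicClosure C)).injective
    refine ⟨fun m n h => ?_⟩
    have := congrArg j h
    rw [map_natCast, map_natCast] at this
    exact Nat.cast_injective this
  have h2 : (2 : W) ≠ 0 := two_ne_zero
  refine ⟨(x + x') / 2, (x - x') / (2 * i), ?_, ?_, ?_⟩
  · rw [mem_decField]
    refine ⟨a, ?_⟩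
    apply e.injective
    rw [AlgEquiv.commutes, hCmap, ha, map_div₀, map_add, hx', map_div₀, map_add, hcz, ← hz]
    have h3 : e (j 2) = 2 := by
      rw [map_ofNat, map_ofNat]
    rw [h3, Complex.add_conj]
    push_cast
    ring
  · rw [mem_decField]
    refine ⟨b, ?_⟩
    apply e.injective
    rw [AlgEquiv.commutes, hCmap, hb, map_div₀, map_sub, hx', map_div₀, map_sub, hcz, ← hz,
      map_mul, map_mul, hs]
    have h3 : e (j 2) = 2 := by
      rw [map_ofNat, map_ofNat]
    have hs0 : (s : ℂ) ≠ 0 := by
      intro h0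
      have : s = 0 := by exact_mod_cast h0
      rw [this] at hss
      norm_num at hss
    have hssc : (s : ℂ) * s = 1 := by exact_mod_cast hss
    rw [h3, Complex.sub_conj, eq_div_iff (mul_ne_zero two_ne_zero
      (mul_ne_zero hs0 Complex.I_ne_zero))]
    push_cast
    linear_combination (2 * (z.im : ℂ) * Complex.I) * hssc
  · field_simp
    ring

theorem arch_i (hw : w.IsReal) {i : W} (hi : i ^ 2 = -1) (x : W) :
    ∃ a b : W, a ∈ decField j ∧ b ∈ decField j ∧ x = a + b * i :=
  arch_core (InfinitePlace.Completion.ringEquivRealOfIsReal hw) j hi x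

/-- (T8) -/
theorem arch_finite :
    Finite (decField j).fixingSubgroup ∧ Nat.card (decField j).fixingSubgroup ≤ 2 := by
  rcases w.isReal_or_isComplex with hw | hw
  · obtain ⟨i, hi⟩ := IsAlgClosed.exists_pow_nat_eq (-1 : W) two_pos
    have hf : ∀ g : (decField j).fixingSubgroup, (g : W ≃ₐ[k] W) i ∈ ({i, -i} : Set W) := by
      intro g
      have h1 : ((g : W ≃ₐ[k] W) i) ^ 2 = i ^ 2 := by
        rw [← map_pow, hi, map_neg, map_one]
      rcases sq_eq_sq_iff_eq_or_eq_neg.mp h1 with h | h
      · exact Or.inl h
      · exact Or.inr h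
    let f : (decField j).fixingSubgroup → ({i, -i} : Set W) := fun g => ⟨_, hf g⟩
    have hinj : Function.Injective f := by
      intro g g' h
      have h0 : (g : W ≃ₐ[k] W) i = (g' : W ≃ₐ[k] W) i := congrArg Subtype.val h
      apply Subtype.ext
      apply AlgEquiv.ext
      intro x
      obtain ⟨a, b, ha, hb, hx⟩ := arch_i w j hw hi x
      have hg : ∀ (g : (decField j).fixingSubgroup) (a : W), a ∈ decField j →
          (g : W ≃ₐ[k] W) a = a := by
        intro g a ha
        exact (mem_fixingSubgroup_iff (decField j) (g : W ≃ₐ[k] W)).mp g.2 a ha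
      rw [hx, map_add, map_mul, map_add, map_mul, hg g a ha, hg g b hb, hg g' a ha, hg g' b hb, h0]
    haveI : Finite ({i, -i} : Set W) := Set.Finite.to_subtype (Set.toFinite _)
    refine ⟨Finite.of_injective f hinj, (Nat.card_le_card_of_injective f hinj).trans ?_⟩
    rw [Nat.card_coe_set_eq]
    have h9 := Set.ncard_insert_le i ({-i} : Set W)
    rw [Set.ncard_singleton] at h9
    exact h9
  · have h1 : (decField j).fixingSubgroup = ⊥ := by
      rw [arch_complex w j hw]
      exact IntermediateField.fixingSubgroup_top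
    rw [h1]
    refine ⟨inferInstance, ?_⟩
    simp

end Pool.Agent.Helper60.SL
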