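import Mathlib
import Pool.Agent.Helper60.SL.KerField
import Pool.Agent.Helper60.SL.FinAll

/-!
# SL-24: finitely many homomorphisms to a finite group (T1)

PROOF.  Let `S` be the (finite, `finite_degree`) set of all `E : IntermediateField F Ω` with `1 ≤ finrank F E ≤ Nat.card Q`, and `M` the compositum of all of them, finite over `F`.  For a locally constant homomorphism `f` the field `E` of `exists_ker_field` is in `S`, so `E ≤ M` and `f g` depends only
on the restriction of `g` to `M`.  So `f` is determined by a function from the finite set `M →ₐ[F] Ω` of restrictions to the finite set `Q`.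
-/

set_option autoImplicit false

namespace Pool.Agent.Helper60.SL

theorem finite_homs {F : Type*} [Field F] [CharZero F] {A : ValuationSubring F} (hA : HDVR A)
    (Ω : Type*) [Field Ω] [Algebra F Ω] [IsAlgClosed Ω] [Algebra.IsAlgebraic F Ω]
    (Q : Type*) [Group Q] [Finite Q] :
    {f : (Ω ≃ₐ[F] Ω) →* Q | LC f}.Finite := by
  classical
  have hfin : {E : IntermediateField F Ω |
      Module.finrank F E ≠ 0 ∧ Module.finrank F E ≤ Nat.card Q}.Finite := by
    have hU : (⋃ n ∈ Finset.Icc 1 (Nat.card Q),
        {E : IntermediateField F Ω | Module.finrank F E = n}).Finite := by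
      refine Set.Finite.biUnion (Finset.finite_toSet _) ?_
      intro n hn
      have hn' : n ≠ 0 := by
        have := Finset.mem_Icc.1 (Finset.mem_coe.1 hn)
        omega
      exact finite_degree hA Ω hn'
    refine hU.subset ?_
    intro E hE
    simp only [Set.mem_setOf_eq] at hE
    simp only [Set.mem_iUnion, Set.mem_setOf_eq, Finset.mem_Icc, exists_prop]
    exact ⟨Module.finrank F E, ⟨Nat.one_le_iff_ne_zero.2 hE.1, hE.2⟩, rfl⟩
  let M : IntermediateField F Ω := ⨆ E ∈ hfin.toFinset, E
  have hM : FiniteDimensional F M := by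
    refine IntermediateField.finiteDimensional_iSup_of_finset' ?_
    intro E hE
    have h := (hfin.mem_toFinset).1 hE
    exact FiniteDimensional.of_finrank_pos (Nat.pos_of_ne_zero h.1)
  have hle : ∀ E : IntermediateField F Ω, Module.finrank F E ≠ 0 →
      Module.finrank F E ≤ Nat.card Q → E ≤ M := by
    intro E h1 h2
    exact le_iSup₂_of_le E ((hfin.mem_toFinset).2 ⟨h1, h2⟩) le_rfl
  -- the restriction map
  let φ : (Ω ≃ₐ[F] Ω) → (M →ₐ[F] Ω) := fun g => g.toAlgHom.comp M.val
  have hφ : ∀ g g' : Ω ≃ₐ[F] Ω, φ g = φ g' → ∀ x ∈ M, g x = g' x := by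
    intro g g' h x hx
    have := DFunLike.congr_fun h (⟨x, hx⟩ : M)
    exact this
  have hdet : ∀ f : (Ω ≃ₐ[F] Ω) →* Q, LC f → ∀ g g' : Ω ≃ₐ[F] Ω, φ g = φ g' → f g = f g' := by
    intro f hf g g' h
    obtain ⟨E, hE, _, hcard, hiff⟩ := exists_ker_field f hf
    have h0 : Module.finrank F E ≠ 0 := by
      rw [hcard]
      exact Nat.card_pos.ne'
    have h1 : Module.finrank F E ≤ Nat.card Q := by
      rw [hcard]
      exact Nat.card_le_card_of_injective (Subtype.val : f.range → Q) Subtype.val_injective
    have h2 := hle E h0 h1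
    exact (hiff g g').2 (fun x hx => hφ g g' h x (h2 hx))
  haveI : Finite (M →ₐ[F] Ω) := inferInstance
  let s : Set.range φ → (Ω ≃ₐ[F] Ω) := fun y => y.2.choose
  have hs : ∀ y : Set.range φ, φ (s y) = y.1 := fun y => y.2.choose_spec
  haveI : Finite (Set.range φ → Q) := inferInstance
  refine Set.Finite.of_finite_image (f := fun f : (Ω ≃ₐ[F] Ω) →* Q => fun y => f (s y))
    (Set.toFinite _) ?_
  intro f hf f' hf' h
  ext g
  have hg : φ (s ⟨φ g, g, rfl⟩) = φ g := hs _
  rw [← hdet f hf _ _ hg, ← hdet f' hf' _ _ hg]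
  exact congrFun h ⟨φ g, g, rfl⟩

end Pool.Agent.Helper60.SL
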