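import Mathlib

/-!
# SL-13: elements of large finite fields with prescribed classes modulo `l`-th powers

PROOF.  `N = (l^2 + 2)^2`.  Let `χ` be a multiplicative character of `k` with values in `ℂ` of order `l` (`MulChar.exists_mulChar_orderOf`, `l ∣ q - 1`) and `ω = exp(2 π i / l)`.  For `x ∈ kˣ`: `χ x = 1` iff `x` is an `l`-th power.
For `c ≠ 0, -1` the number `∑_{a, b < l} ω^(-(j a + b)) χ(c)^a χ(1+c)^b` is `l^2` if `χ(c) = ω^j` and `χ(1+c) = ω`, and `0` otherwise (geometric sums).  So if no `c` has this property then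
`0 = ∑_{a, b < l} ω^(-(j a + b)) ∑_{c ≠ 0, -1} χ^a(c) χ^b(1+c)`, and with `c = -x` the inner sum is `χ^a(-1) J(χ^a, χ^b)` (`jacobiSum`; the trivial character of Mathlib vanishes at `0`).
`J(1, 1) = q - 2` (`jacobiSum_one_one`), `J(1, χ^b) = J(χ^b, 1) = -1`, `J(χ^a, χ^(-a)) = -χ^a(-1)`, and `|J|^2 = q` otherwise (`jacobiSum_mul_jacobiSum_inv`, the inverse characters are the complex conjugates); in all
cases except `a = b = 0` the absolute value is at most `√q`.  Hence `q - 2 ≤ (l^2 - 1) √q`, false for `q ≥ N`.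
If `χ(c) = ω^j` and `χ(1+c) = ω` then `1 + c` is not an `l`-th power and `χ(c (1+c)^(-j)) = 1`, so `c = (1+c)^j y^l`.
-/

set_option autoImplicit false

namespace Pool.Agent.Helper60.SL

namespace Jacobi

open Finset

section

variable {k : Type*} [Field k] [Fintype k]

lemma norm_chi (χ : MulChar k ℂ) {x : k} (hx : x ≠ 0) : ‖χ x‖ = 1 := by
  have h : (χ x) ^ (Fintype.card k - 1) = 1 := by
    rw [← map_pow, FiniteField.pow_card_sub_one_eq_one x hx, map_one]
  have h1 := Fintype.one_lt_card (α := k)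
  exact Complex.norm_eq_one_of_pow_eq_one h (by omega)

lemma jacobi_star (χ φ : MulChar k ℂ) :
    jacobiSum χ⁻¹ φ⁻¹ = star (jacobiSum χ φ) := by
  rw [jacobiSum, jacobiSum, star_sum]
  refine sum_congr rfl fun x _ => ?_
  rw [star_mul', MulChar.star_apply', MulChar.star_apply']

lemma norm_jacobi_le (χ φ : MulChar k ℂ) (h : ¬ (χ = 1 ∧ φ = 1)) :
    ‖jacobiSum χ φ‖ ≤ √(Fintype.card k : ℝ) := by
  have h1 : (1:ℝ) ≤ √(Fintype.card k : ℝ) := by
    rw [Real.one_le_sqrt]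
    have := Fintype.card_pos (α := k)
    exact_mod_cast this
  by_cases hχ : χ = 1
  · have hφ : φ ≠ 1 := fun e => h ⟨hχ, e⟩
    rw [hχ, jacobiSum_one_nontrivial hφ]
    simpa using h1
  by_cases hφ : φ = 1
  · rw [hφ, jacobiSum_comm, jacobiSum_one_nontrivial hχ]
    simpa using h1
  by_cases hp : χ * φ = 1
  · have : φ = χ⁻¹ := (inv_eq_of_mul_eq_one_right hp).symm
    rw [this, jacobiSum_nontrivial_inv hχ, norm_neg, norm_chi χ (by simp)]
    exact h1
  · have hchar : ringChar ℂ ≠ ringChar k := by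
      rw [ringChar.eq_zero]
      exact (CharP.ringChar_ne_zero_of_finite k).symm
    have h2 := jacobiSum_mul_jacobiSum_inv hchar hχ hφ hp
    rw [jacobi_star] at h2
    have h3 : ‖jacobiSum χ φ‖ ^ 2 = (Fintype.card k : ℝ) := by
      have h4 := congrArg norm h2
      rw [norm_mul, norm_star, Complex.norm_natCast] at h4
      rw [sq]
      exact h4
    rw [← h3, Real.sqrt_sq (norm_nonneg _)]

lemma T_eq (χ φ : MulChar k ℂ) :
    ∑ c : k, χ c * φ (1 + c) = χ (-1) * jacobiSum χ φ := by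
  rw [jacobiSum, mul_sum, ← Equiv.sum_comp (Equiv.neg k)]
  refine sum_congr rfl fun x _ => ?_
  rw [Equiv.neg_apply, ← mul_assoc, ← map_mul, neg_one_mul, sub_eq_add_neg]

lemma geom_zero {l : ℕ} {u : ℂ} (h1 : u ^ l = 1) (h2 : u ≠ 1) :
    ∑ a ∈ range l, u ^ a = 0 := by
  have h := geom_sum_mul u l
  rw [h1, sub_self] at h
  exact (mul_eq_zero.mp h).resolve_right (sub_ne_zero.mpr h2)

lemma chi_one {l : ℕ} {χ : MulChar k ℂ} (hχ : orderOf χ = l) {x : k} (hx : x ≠ 0)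
    (h : χ x = 1) : ∃ y, y ^ l = x := by
  obtain ⟨g, hg⟩ := IsCyclic.exists_generator (α := kˣ)
  obtain ⟨m, hm⟩ := (mem_powers_iff_mem_zpowers.mpr (hg (Units.mk0 x hx)))
  have hm' : (g : k) ^ m = x := by
    have := congrArg Units.val hm
    simpa using this
  have h1 : χ ^ m = 1 := by
    refine MulChar.ext fun u => ?_
    obtain ⟨n, hn⟩ := (mem_powers_iff_mem_zpowers.mpr (hg u))
    have hn' : (g : k) ^ n = u := by
      have := congrArg Units.val hn
      simpa using this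
    rw [MulChar.pow_apply_coe, ← hn', map_pow, ← pow_mul, mul_comm, pow_mul, ← map_pow, hm', h,
      one_pow, map_pow, MulChar.one_apply_coe, one_pow]
  have h2 : l ∣ m := hχ ▸ orderOf_dvd_of_pow_eq_one h1
  obtain ⟨n, rfl⟩ := h2
  exact ⟨(g : k) ^ n, by rw [← pow_mul, mul_comm, hm']⟩

lemma exists_chi {l : ℕ} (hl : l.Prime) (hN : (l ^ 2 + 2) ^ 2 ≤ Fintype.card k) {ω : ℂ}
    (hω : ω ^ l = 1) {χ : MulChar k ℂ} (hχ : orderOf χ = l) (j : ℕ) :
    ∃ c : k, c ≠ 0 ∧ 1 + c ≠ 0 ∧ χ c = ω ^ j ∧ χ (1 + c) = ω := by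
  classical
  by_contra hcon
  push Not at hcon
  have hω0 : ω ≠ 0 := by
    rintro rfl
    rw [zero_pow hl.ne_zero] at hω
    exact zero_ne_one hω
  have hω1 : ‖ω‖ = 1 := Complex.norm_eq_one_of_pow_eq_one hω hl.ne_zero
  have hχl : ∀ x : k, x ≠ 0 → χ x ^ l = 1 := by
    intro x hx
    have : (χ ^ l) x = 1 := by
      rw [← hχ, pow_orderOf_eq_one, MulChar.one_apply (isUnit_iff_ne_zero.mpr hx)]
    rw [← this]
    exact (MulChar.pow_apply' χ hl.ne_zero x).symm
  have hpow : ∀ (a : ℕ) (x : k), x ≠ 0 → (χ ^ a) x = χ x ^ a := by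
    intro a x hx
    exact MulChar.pow_apply_coe χ a (Units.mk0 x hx)
  set f : ℕ × ℕ → ℂ := fun p =>
    (ω⁻¹ ^ j) ^ p.1 * ω⁻¹ ^ p.2 * ∑ c : k, (χ ^ p.1) c * (χ ^ p.2) (1 + c) with hf
  have hS : ∑ p ∈ range l ×ˢ range l, f p = 0 := by
    simp only [hf, mul_sum]
    rw [sum_comm]
    refine sum_eq_zero fun c _ => ?_
    by_cases hc : c = 0
    · refine sum_eq_zero fun p _ => ?_
      rw [hc, MulChar.map_zero, zero_mul, mul_zero]
    by_cases hc1 : 1 + c = 0
    · refine sum_eq_zero fun p _ => ?_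
      rw [hc1, MulChar.map_zero, mul_zero, mul_zero]
    have e : ∀ p ∈ range l ×ˢ range l,
        (ω⁻¹ ^ j) ^ p.1 * ω⁻¹ ^ p.2 * ((χ ^ p.1) c * (χ ^ p.2) (1 + c)) =
          (ω⁻¹ ^ j * χ c) ^ p.1 * (ω⁻¹ * χ (1 + c)) ^ p.2 := by
      intro p _
      rw [hpow _ _ hc, hpow _ _ hc1, mul_pow, mul_pow]
      ring
    rw [sum_congr rfl e, sum_product, ← sum_mul_sum]
    have hωi : ω⁻¹ ^ l = 1 := by rw [inv_pow, hω, inv_one]
    by_cases h1 : χ c = ω ^ j
    · have h2 := hcon c hc hc1 h1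
      rw [geom_zero (u := ω⁻¹ * χ (1 + c)), mul_zero]
      · rw [mul_pow, hωi, hχl _ hc1, one_mul]
      · intro h
        apply h2
        field_simp at h
        exact h
    · rw [geom_zero (u := ω⁻¹ ^ j * χ c), zero_mul]
      · rw [mul_pow, ← pow_mul, mul_comm j l, pow_mul, hωi, hχl _ hc, one_pow, one_mul]
      · intro h
        apply h1
        have h0 : ω ^ j ≠ 0 := pow_ne_zero _ hω0
        rw [inv_pow] at h
        field_simp at h
        exact h
  have hmem : ((0, 0) : ℕ × ℕ) ∈ range l ×ˢ range l := by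
    simp [hl.pos]
  rw [← add_sum_erase _ f hmem] at hS
  have h00 : f (0, 0) = (Fintype.card k : ℂ) - 2 := by
    simp only [hf]
    rw [T_eq, pow_zero, pow_zero, pow_zero, jacobiSum_one_one, MulChar.one_apply (by simp)]
    ring
  have hle : ∀ p ∈ (range l ×ˢ range l).erase (0, 0), ‖f p‖ ≤ √(Fintype.card k : ℝ) := by
    intro p hp
    rw [mem_erase, mem_product, mem_range, mem_range] at hp
    simp only [hf]
    rw [T_eq, norm_mul, norm_mul, norm_mul, norm_pow, norm_pow, norm_pow, norm_inv, hω1,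
      norm_chi _ (by simp)]
    simp only [inv_one, one_pow, one_mul]
    refine norm_jacobi_le _ _ fun h => hp.1 ?_
    have h1 : p.1 = 0 := Nat.eq_zero_of_dvd_of_lt (hχ ▸ orderOf_dvd_of_pow_eq_one h.1) hp.2.1
    have h2 : p.2 = 0 := Nat.eq_zero_of_dvd_of_lt (hχ ▸ orderOf_dvd_of_pow_eq_one h.2) hp.2.2
    exact Prod.ext h1 h2
  have hcard : ((range l ×ˢ range l).erase (0, 0)).card = l ^ 2 - 1 := by
    rw [card_erase_of_mem hmem, card_product, card_range, sq]
  have hsum := norm_sum_le_of_le _ hle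
  rw [sum_const, hcard, nsmul_eq_mul] at hsum
  have hq2 : 2 ≤ Fintype.card k := Fintype.one_lt_card
  have heq : ‖∑ p ∈ (range l ×ˢ range l).erase (0, 0), f p‖ = (Fintype.card k : ℝ) - 2 := by
    have : ∑ p ∈ (range l ×ˢ range l).erase (0, 0), f p = -((Fintype.card k : ℂ) - 2) := by
      rw [h00] at hS
      linear_combination hS
    rw [this, norm_neg]
    have e : ((Fintype.card k : ℂ) - 2) = ((Fintype.card k - 2 : ℕ) : ℂ) := by
      push_cast [Nat.cast_sub hq2]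
      ring
    rw [e, Complex.norm_natCast, Nat.cast_sub hq2]
    norm_num
  rw [heq] at hsum
  have hl2 : 1 ≤ l ^ 2 := Nat.one_le_pow _ _ hl.pos
  rw [Nat.cast_sub hl2] at hsum
  push_cast at hsum
  set s := √(Fintype.card k : ℝ) with hs
  have hss : s ^ 2 = (Fintype.card k : ℝ) := Real.sq_sqrt (Nat.cast_nonneg _)
  have hs1 : ((l : ℝ) ^ 2 + 2) ≤ s := by
    rw [hs]
    apply Real.le_sqrt_of_sq_le
    exact_mod_cast hN
  have hl0 : (0 : ℝ) ≤ (l : ℝ) ^ 2 := by positivity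
  nlinarith [mul_le_mul_of_nonneg_right hs1 (le_trans (by positivity) hs1 : (0:ℝ) ≤ s)]

end

end Jacobi

open Jacobi in
theorem exists_class {l : ℕ} (hl : l.Prime) : ∃ N : ℕ, ∀ (k : Type*) [Field k] [Finite k],
    l ∣ Nat.card k - 1 → N ≤ Nat.card k → ∀ j : ℕ, ∃ c : k, c ≠ 0 ∧ 1 + c ≠ 0 ∧
      (¬ ∃ y, y ^ l = 1 + c) ∧ ∃ y, c = (1 + c) ^ j * y ^ l := by
  refine ⟨(l ^ 2 + 2) ^ 2, fun k _ _ hd hN j => ?_⟩
  have : Fintype k := Fintype.ofFinite k
  rw [Nat.card_eq_fintype_card] at hd hN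
  have hω := Complex.isPrimitiveRoot_exp l hl.ne_zero
  obtain ⟨χ, hχ⟩ := MulChar.exists_mulChar_orderOf k hd hω
  obtain ⟨c, hc, hc1, h1, h2⟩ := exists_chi hl hN hω.pow_eq_one hχ j
  have hωne : Complex.exp (2 * Real.pi * Complex.I / l) ≠ 1 := hω.ne_one hl.one_lt
  have hω0 : Complex.exp (2 * Real.pi * Complex.I / l) ≠ 0 := Complex.exp_ne_zero _
  refine ⟨c, hc, hc1, ?_, ?_⟩
  · rintro ⟨y, hy⟩
    apply hωne
    rw [← h2, ← hy, map_pow, ← MulChar.pow_apply' χ hl.ne_zero, ← hχ, pow_orderOf_eq_one,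
      MulChar.one_apply]
    rw [isUnit_iff_ne_zero]
    rintro rfl
    rw [zero_pow hl.ne_zero] at hy
    exact hc1 hy.symm
  · have h0 : (1 + c) ^ j ≠ 0 := pow_ne_zero _ hc1
    obtain ⟨y, hy⟩ := chi_one hχ (x := c / (1 + c) ^ j) (div_ne_zero hc h0) (by
      rw [div_eq_mul_inv, map_mul, h1, ← MulChar.inv_apply', MulChar.inv_apply_eq_inv', map_pow, h2]
      exact mul_inv_cancel₀ (pow_ne_zero _ hω0))
    exact ⟨y, by rw [hy]; field_simp⟩

end Pool.Agent.Helper60.SL
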