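import Mathlib
import Pool.Agent.Helper60.SL.FinF
import Pool.Agent.Helper60.SL.FixLC
import Pool.Agent.Helper60.SL.FinHoms

/-!
# SL-40: T1 for finite extensions of `decField j`

PROOF.  `finite_homs (hdvr_F j hF hfin) W Q` gives finitely many locally constant homomorphisms of `Gal(W/F)`; `f ↦ galHom F f` is injective (`fixHom_galHom`) and maps the set to that one (`lc_iff_open`).
(`F` has characteristic `0` and `W / F` is algebraic.)
-/

set_option autoImplicit false

open IsDedekindDomain NumberField IsLocalRing Pool.Agent.SB IntermediateField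

namespace Pool.Agent.Helper60.SL

variable {k : Type} [Field k] [NumberField k] {W : Type} [Field W] [Algebra k W]
  [IsAlgClosed W] [Algebra.IsAlgebraic k W]
variable {v : HeightOneSpectrum (𝓞 k)} (j : W →ₐ[k] AlgebraicClosure (v.adicCompletion k))

/-- (T1) -/
theorem finite_homs_F {F : IntermediateField k W} (hF : decField j ≤ F)
    (hfin : FiniteDimensional (decField j) (extendScalars hF)) (Q : Type*) [Group Q] [Finite Q] :
    {f : F.fixingSubgroup →* Q | IsOpen (f.ker : Set F.fixingSubgroup)}.Finite := by
  haveI : CharZero F := charZero_of_injective_algebraMap (algebraMap k F).injective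
  haveI : Algebra.IsAlgebraic F W := Algebra.IsAlgebraic.tower_top (K := k) F
  have h := finite_homs (hdvr_F j hF hfin) W Q
  refine Set.Finite.of_finite_image (f := fun f : F.fixingSubgroup →* Q => galHom F f)
    (h.subset ?_) ?_
  · rintro _ ⟨f, hf, rfl⟩
    exact (lc_iff_open F f).2 hf
  · intro f _ g _ hfg
    have h2 : galHom F f = galHom F g := hfg
    rw [← fixHom_galHom F f, ← fixHom_galHom F g, h2]

end Pool.Agent.Helper60.SL
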