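import Mathlib
import Pool.Agent.Helper60.SL.FinF
import Pool.Agent.Helper60.SL.Pow
import Pool.Agent.Helper60.SL.InerAct

/-!
# SL-47: T5, roots of units are fixed by inertia

PROOF.  `iner_root`: `u ∈ F` is a unit of `resF (VV j) F`; `exists_teich (hdvr_F ..)`: `u = ζ (1 + x)` with `ζ^N = 1`, `N = q - 1` prime to `p` (`q`, the cardinality of the residue field, is a power of `p`), `x ∈ F` a nonunit; `exists_root_one_add`: `1 + x = y^n`, `y ∈ F`.
So `(w / y)^n = ζ`, `w = y η` with `η^(n N) = 1`, `n N` prime to `p`; `γ` fixes `y ∈ F` and `η`.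
-/

set_option autoImplicit false

open IsDedekindDomain NumberField IsLocalRing Pool.Agent.SB IntermediateField

namespace Pool.Agent.Helper60.SL

variable {k : Type} [Field k] [NumberField k] {W : Type} [Field W] [Algebra k W]
  [IsAlgClosed W] [Algebra.IsAlgebraic k W]
variable {v : HeightOneSpectrum (𝓞 k)} (j : W →ₐ[k] AlgebraicClosure (v.adicCompletion k))

/-- (T5) -/
theorem iner_root {F : IntermediateField k W} (hF : decField j ≤ F)
    (hfin : FiniteDimensional (decField j) (extendScalars hF)) {p : ℕ} (hp : p.Prime)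
    (hpv : (p : 𝓞 k) ∈ v.asIdeal) {u w : W} (hu : u ∈ F) (hu' : IsUn (VV j) u) {n : ℕ}
    (hn : ¬ p ∣ n) (hw : w ^ n = u) {γ : W ≃ₐ[k] W} (hγ : γ ∈ Iner F p) : γ w = w := by
  classical
  have hA : HDVR (resF (VV j) F) := hdvr_F j hF hfin
  have hfinR : Finite (ResidueField (resF (VV j) F)) := hA.fin
  have hchar : CharP (ResidueField (resF (VV j) F)) p := char_F j F hp hpv
  have hn0 : n ≠ 0 := by
    rintro rfl
    exact hn (dvd_zero p)
  -- `u` as a unit of `F`
  have hU : IsUn (resF (VV j) F) (⟨u, hu⟩ : F) := by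
    have h1 := isUn_iff.1 hu'
    refine isUn_iff.2 ⟨?_, ?_, ?_⟩
    · intro h
      exact h1.1 (congrArg Subtype.val h)
    · exact h1.2.1
    · exact h1.2.2
  obtain ⟨ζ, x, hζ, hx, hux⟩ := exists_teich hA hU
  obtain ⟨y, -, hy⟩ := exists_root_one_add hA hn hx
  set N : ℕ := Nat.card (ResidueField (resF (VV j) F)) - 1 with hN
  -- `N` is prime to `p`
  have hpN : ¬ p ∣ N := by
    have : Fintype (ResidueField (resF (VV j) F)) := Fintype.ofFinite _
    obtain ⟨m, -, hm⟩ := FiniteField.card (ResidueField (resF (VV j) F)) p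
    rw [Nat.card_eq_fintype_card, hm] at hN
    have h1 : p ∣ p ^ (m : ℕ) := dvd_pow_self p m.pos.ne'
    have h2 : 1 ≤ p ^ (m : ℕ) := Nat.one_le_pow _ _ hp.pos
    intro h
    rw [hN] at h
    have h3 : p ∣ 1 := by
      have h4 := (Nat.dvd_sub h1 h)
      rwa [Nat.sub_sub_self h2] at h4
    exact hp.one_lt.ne' (Nat.dvd_one.1 h3)
  have hu0 : (⟨u, hu⟩ : F) ≠ 0 := (isUn_iff.1 hU).1
  have hy0 : y ≠ 0 := by
    rintro rfl
    rw [zero_pow hn0] at hy
    rw [← hy, mul_zero] at hux
    exact hu0 hux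
  have hy0' : (y : W) ≠ 0 := fun h => hy0 (Subtype.ext h)
  have hux' : u = (ζ : W) * (1 + (x : W)) := congrArg (fun a : F => (a : W)) hux
  have hy' : (y : W) ^ n = 1 + (x : W) := congrArg (fun a : F => (a : W)) hy
  have hζ' : (ζ : W) ^ N = 1 := congrArg (fun a : F => (a : W)) hζ
  have hη : (w / (y : W)) ^ n = (ζ : W) := by
    rw [div_pow, hw, hux', ← hy', mul_div_assoc, div_self (pow_ne_zero _ hy0'), mul_one]
  have hη' : (w / (y : W)) ^ (n * N) = 1 := by
    rw [pow_mul, hη, hζ']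
  have hpnN : ¬ p ∣ n * N := by
    intro h
    rcases (Nat.Prime.dvd_mul hp).1 h with h | h
    · exact hn h
    · exact hpN h
  have h1 : γ (w / (y : W)) = w / (y : W) := hγ.2 _ _ hpnN hη'
  have h2 : γ (y : W) = (y : W) := by
    have h3 := (IntermediateField.mem_fixingSubgroup_iff F γ).1 hγ.1
    exact h3 _ y.2
  have h4 : w = w / (y : W) * (y : W) := by
    rw [div_mul_cancel₀ _ hy0']
  rw [h4, map_mul, h1, h2]

end Pool.Agent.Helper60.SL
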