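import Mathlib
import Pool.Agent.Helper60.SL.FinF
import Pool.Agent.Helper60.SL.TameLevel
import Pool.Agent.Helper60.SL.Sys

/-!
# SL-48: T6, generation by inertia and a Frobenius

PROOF.  `acts_level`: let `m` be prime to `p` and `g ∈ F.fixingSubgroup`.  By `gal_z` (for `hdvr_F j hF hfin`, `TameLevel.lean`, with the systems of `exists_sys`) `g (z m) = (z m)^(q^i)` for some `i`, so `g ζ = ζ^(q^i)` for all `ζ` with `ζ^m = 1` (powers of `z m`), and `σ^i ζ = ζ^(q^i)` by iteration of `ActsAs`.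
`acts_gen` (T6): for `m` prime to `p` let `D_m` be the group of the elements of `F.fixingSubgroup` fixing all `m`-th roots of unity.  The sets `D_m ∩ (complement of H)` are closed in the compact group `W ≃ₐ[k] W` (`F.fixingSubgroup` is closed, `H` is open), directed (`D_(m m') ⊆ D_m ∩ D_m'`), and their intersection is
`Iner F p ∩ (complement of H) = ∅`; so `D_m ⊆ H` for some `m` prime to `p`.  Let `g ∈ F.fixingSubgroup`; `acts_level` gives `i` with `σ^(-i) g ∈ D_m ⊆ H`, `σ ∈ H`, so `g ∈ H`.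
`acts_gen'`: the same with `H ⊓ F.fixingSubgroup` instead of `H`, as a subgroup which is relatively open: the sets `D_m ∩ (complement of H)` are closed because they are `D_m` minus a relatively open subset of the closed group `F.fixingSubgroup`.
-/

set_option autoImplicit false

open IsDedekindDomain NumberField IsLocalRing Pool.Agent.SB IntermediateField

namespace Pool.Agent.Helper60.SL

variable {k : Type} [Field k] [NumberField k] {W : Type} [Field W] [Algebra k W]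
  [IsAlgClosed W] [Algebra.IsAlgebraic k W]
variable {v : HeightOneSpectrum (𝓞 k)} (j : W →ₐ[k] AlgebraicClosure (v.adicCompletion k))

omit [NumberField k] [IsAlgClosed W] [Algebra.IsAlgebraic k W] in
private theorem t6_pow {p q : ℕ} {σ : W ≃ₐ[k] W} (hσq : ActsAs p q σ) {m : ℕ} (hm : ¬ p ∣ m)
    {ζ : W} (hζ : ζ ^ m = 1) (i : ℕ) : (σ ^ i) ζ = ζ ^ (q ^ i) := by
  induction i with
  | zero => simp
  | succ i ih =>
    rw [pow_succ, AlgEquiv.mul_apply, hσq ζ m hm hζ, map_pow, ih, ← pow_mul, ← pow_succ]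

omit [NumberField k] [IsAlgClosed W] [Algebra.IsAlgebraic k W] in
private theorem t6_adjoin (S : Set W) :
    ((adjoin k S).fixingSubgroup : Set (W ≃ₐ[k] W)) = {g | ∀ x ∈ S, g x = x} := by
  ext g
  constructor
  · intro hg x hx
    exact (IntermediateField.mem_fixingSubgroup_iff _ g).1 hg x (subset_adjoin k S hx)
  · intro hg
    refine (IntermediateField.mem_fixingSubgroup_iff _ g).2 fun x hx => ?_
    induction hx using IntermediateField.adjoin_induction with
    | mem x hx => exact hg x hx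
    | algebraMap x => exact g.commutes x
    | add x y _ _ hx hy => rw [map_add, hx, hy]
    | inv x _ hx => rw [map_inv₀, hx]
    | mul x y _ _ hx hy => rw [map_mul, hx, hy]

omit [NumberField k] [IsAlgClosed W] [Algebra.IsAlgebraic k W] in
private theorem t6_closed [IsGalois k W] (S : Set W) : IsClosed {g : W ≃ₐ[k] W | ∀ x ∈ S, g x = x} := by
  rw [← t6_adjoin]
  exact InfiniteGalois.fixingSubgroup_isClosed _

private theorem t6_compact {F : IntermediateField k W} {p : ℕ} (hp : p.Prime)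
    (H : Subgroup (W ≃ₐ[k] W)) (hI : Iner F p ≤ H)
    (hH : IsOpen {g : F.fixingSubgroup | (g : W ≃ₐ[k] W) ∈ H}) :
    ∃ m : ℕ, ¬ p ∣ m ∧ ∀ g ∈ F.fixingSubgroup, (∀ ζ : W, ζ ^ m = 1 → g ζ = ζ) → g ∈ H := by
  have hac : IsAlgClosure k W := ⟨inferInstance, inferInstance⟩
  have hgal : IsGalois k W := IsAlgClosure.isGalois k W
  have hcF : IsClosed (F.fixingSubgroup : Set (W ≃ₐ[k] W)) :=
    InfiniteGalois.fixingSubgroup_isClosed F
  have hcT : IsClosed {g : W ≃ₐ[k] W | g ∈ F.fixingSubgroup ∧ g ∉ H} := by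
    have h1 : {g : W ≃ₐ[k] W | g ∈ F.fixingSubgroup ∧ g ∉ H} =
        Subtype.val '' ({g : F.fixingSubgroup | (g : W ≃ₐ[k] W) ∈ H}ᶜ) := by
      ext g
      constructor
      · rintro ⟨h2, h3⟩
        exact ⟨⟨g, h2⟩, h3, rfl⟩
      · rintro ⟨⟨g', h2⟩, h3, rfl⟩
        exact ⟨h2, h3⟩
    rw [h1]
    exact hcF.isClosedEmbedding_subtypeVal.isClosedMap _ hH.isClosed_compl
  have hne : Nonempty {m : ℕ // ¬ p ∣ m} := ⟨⟨1, fun h => hp.one_lt.ne' (Nat.dvd_one.1 h)⟩⟩
  obtain ⟨⟨m, hm⟩, hm2⟩ := hcT.isCompact.elim_directed_family_closed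
    (fun m : {m : ℕ // ¬ p ∣ m} => {g : W ≃ₐ[k] W | ∀ ζ ∈ {ζ : W | ζ ^ (m : ℕ) = 1}, g ζ = ζ})
    (fun m => t6_closed _) (by
      rw [Set.eq_empty_iff_forall_notMem]
      rintro g ⟨⟨h2, h3⟩, h4⟩
      apply h3
      apply hI
      refine ⟨h2, fun ζ m hm hζ => ?_⟩
      exact Set.mem_iInter.1 h4 ⟨m, hm⟩ ζ hζ) (by
      rintro ⟨m, hm⟩ ⟨m', hm'⟩
      refine ⟨⟨m * m', fun h => ((hp.dvd_mul).1 h).elim hm hm'⟩, ?_, ?_⟩
      · intro g hg ζ hζ
        apply hg
        have hζ' : ζ ^ _ = 1 := hζ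
        change ζ ^ (m * m') = 1
        rw [pow_mul, hζ', one_pow]
      · intro g hg ζ hζ
        apply hg
        have hζ' : ζ ^ _ = 1 := hζ
        change ζ ^ (m * m') = 1
        rw [mul_comm, pow_mul, hζ', one_pow])
  refine ⟨m, hm, fun g hg hζ => ?_⟩
  by_contra hgH
  rw [Set.eq_empty_iff_forall_notMem] at hm2
  exact hm2 g ⟨⟨hg, hgH⟩, fun ζ h => hζ ζ h⟩

theorem acts_level {F : IntermediateField k W} (hF : decField j ≤ F)
    (hfin : FiniteDimensional (decField j) (extendScalars hF)) {p : ℕ} (hp : p.Prime)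
    (hpv : (p : 𝓞 k) ∈ v.asIdeal) {σ : W ≃ₐ[k] W}
    (hσq : ActsAs p (Nat.card (ResidueField (resF (VV j) F))) σ) {g : W ≃ₐ[k] W}
    (hg : g ∈ F.fixingSubgroup) {m : ℕ} (hm : ¬ p ∣ m) :
    ∃ i : ℕ, ∀ ζ : W, ζ ^ m = 1 → g ζ = (σ ^ i) ζ := by
  have hcz : CharZero F := charZero_of_injective_algebraMap (algebraMap k F).injective
  have halg : Algebra.IsAlgebraic F W := Algebra.IsAlgebraic.tower_top (K := k) F
  have hA := hdvr_F j hF hfin
  have hchar := char_F j F hp hpv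
  obtain ⟨r, z, hs⟩ := exists_sys (Ω := W) (1 : F)
  obtain ⟨i, hi⟩ := gal_z hA hs (IntermediateField.fixingSubgroupEquiv F ⟨g, hg⟩) hm
  have hi2 : g (z m) = z m ^ (Nat.card (ResidueField (resF (VV j) F)) ^ i) := hi
  have hm0 : m ≠ 0 := by
    rintro rfl
    exact hm (dvd_zero p)
  have hN0 : NeZero m := ⟨hm0⟩
  refine ⟨i, fun ζ hζ => ?_⟩
  obtain ⟨c, -, hc⟩ := (hs.prim m hm0).eq_pow_of_pow_eq_one hζ
  rw [t6_pow hσq hm hζ, ← hc, map_pow, hi2, ← pow_mul, ← pow_mul, mul_comm]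

/-- (T6) -/
theorem acts_gen {F : IntermediateField k W} (hF : decField j ≤ F)
    (hfin : FiniteDimensional (decField j) (extendScalars hF)) {p : ℕ} (hp : p.Prime)
    (hpv : (p : 𝓞 k) ∈ v.asIdeal) {σ : W ≃ₐ[k] W} (hσ : σ ∈ F.fixingSubgroup)
    (hσq : ActsAs p (Nat.card (ResidueField (resF (VV j) F))) σ) (H : Subgroup (W ≃ₐ[k] W))
    (hI : Iner F p ≤ H) (hσH : σ ∈ H)
    (hH : IsOpen {g : F.fixingSubgroup | (g : W ≃ₐ[k] W) ∈ H}) : F.fixingSubgroup ≤ H := by
  obtain ⟨m, hm, hmH⟩ := t6_compact hp H hI hH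
  intro g hg
  obtain ⟨i, hi⟩ := acts_level j hF hfin hp hpv hσq hg hm
  have h1 : (σ ^ i)⁻¹ * g ∈ H := by
    apply hmH
    · exact mul_mem (inv_mem (pow_mem hσ i)) hg
    · intro ζ hζ
      rw [AlgEquiv.mul_apply, hi ζ hζ, ← AlgEquiv.mul_apply, inv_mul_cancel, AlgEquiv.one_apply]
  have h2 := mul_mem (pow_mem hσH i) h1
  rwa [mul_inv_cancel_left] at h2

end Pool.Agent.Helper60.SL
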