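import Mathlib
import Pool.Agent.Helper60.SL.Unram
import Pool.Agent.Helper60.SL.Unif
import Pool.Agent.Helper60.SL.ExtHDVR
import Pool.Agent.Helper60.SL.ExtBasic

/-!
# SL-15: the unramified extension of degree `n`: trace and norm

PROOF.  Let `E`, `φ` be as in `exists_unram`.  The residue field `k'` of `ext hA E` is the extension of degree `n` of `k = ResidueField A` and `φ` acts on it as `x ↦ x^q`.  There is `c ∈ k'` with `∑_{i<n} c^(q^i) = 1` (the trace of finite fields is surjective;
or: the polynomial `∑ X^(q^i)` of degree `q^(n-1)` cannot vanish on all `q^n` elements of `k'`, a value `t ≠ 0` lies in `k`, divide by it).  Lift `c` to `b ∈ ext hA E`: the trace `t` of `b` over `F` is `∑_{i<n} φ^i b`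
(`trace_eq_sum_automorphisms`, the powers of `φ` are all automorphisms, each once), so `t - 1` is a nonunit, `t ∈ A` is a unit and `λ = b / t` has trace `1`; `λ` is a unit as its class is `c ≠ 0`, so its norm is a unit (`norm_mem`, `norm_nonunits`).
`x = π^k u` with a unit `u` of `ext hA E` (`exists_zpow`, `π` is a uniformizer of `ext hA E`), `N(x) = π^(n k) N(u)`.
-/

set_option autoImplicit false

open IsLocalRing

namespace Pool.Agent.Helper60.SL

/-- in a field with `q ^ n` elements some element has trace `1` over the subfield with `q`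
elements -/
private theorem up_trace {k : Type*} [Field k] [Finite k] {p f n : ℕ} [CharP k p] (hp : p.Prime)
    (hf : f ≠ 0) (hn : n ≠ 0) (hcard : Nat.card k = (p ^ f) ^ n) :
    ∃ c : k, ∑ i ∈ Finset.range n, c ^ ((p ^ f) ^ i) = 1 := by
  classical
  have hFt : Fintype k := Fintype.ofFinite k
  have hFact : Fact p.Prime := ⟨hp⟩
  set q := p ^ f with hq
  have hq2 : 1 < q := Nat.one_lt_pow hf hp.one_lt
  -- a value of the trace form that is not zero
  have hex : ∃ c0 : k, ∑ i ∈ Finset.range n, c0 ^ (q ^ i) ≠ 0 := by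
    by_contra hcon
    push Not at hcon
    set T : Polynomial k := ∑ i ∈ Finset.range n, Polynomial.X ^ (q ^ i) with hT
    have hTne : T ≠ 0 := by
      intro h0
      have h1 := congrArg (fun P => Polynomial.coeff P 1) h0
      simp only [hT, Polynomial.finsetSum_coeff, Polynomial.coeff_X_pow, Polynomial.coeff_zero]
        at h1
      rw [Finset.sum_eq_single 0] at h1
      · simp at h1
      · intro i _ hi0
        rw [if_neg]
        exact (Nat.one_lt_pow hi0 hq2).ne
      · intro h
        exact absurd (Finset.mem_range.mpr (Nat.pos_of_ne_zero hn)) h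
    have hdeg : T.natDegree ≤ q ^ (n - 1) := by
      rw [hT]
      refine Polynomial.natDegree_sum_le_of_forall_le _ _ fun i hi => ?_
      rw [Polynomial.natDegree_X_pow]
      exact Nat.pow_le_pow_right hq2.le (by rw [Finset.mem_range] at hi; omega)
    have hroots : ∀ c : k, c ∈ T.roots := by
      intro c
      rw [Polynomial.mem_roots hTne, Polynomial.IsRoot, hT, Polynomial.eval_finsetSum]
      simp only [Polynomial.eval_pow, Polynomial.eval_X]
      exact hcon c
    have h2 : Fintype.card k ≤ T.natDegree := by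
      calc Fintype.card k = (Finset.univ : Finset k).card := rfl
        _ ≤ T.roots.toFinset.card := Finset.card_le_card fun c _ =>
            Multiset.mem_toFinset.mpr (hroots c)
        _ ≤ T.roots.card := Multiset.toFinset_card_le _
        _ ≤ T.natDegree := Polynomial.card_roots' T
    rw [← Nat.card_eq_fintype_card, hcard] at h2
    have h3 : q ^ (n - 1) < q ^ n := Nat.pow_lt_pow_right hq2 (by omega)
    omega
  obtain ⟨c0, hc0⟩ := hex
  set t := ∑ i ∈ Finset.range n, c0 ^ (q ^ i) with ht
  have hcq : c0 ^ (q ^ n) = c0 := by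
    rw [← hcard, Nat.card_eq_fintype_card]
    exact FiniteField.pow_card c0
  have htq : t ^ q = t := by
    have h1 : t ^ q = ∑ i ∈ Finset.range n, (c0 ^ (q ^ i)) ^ q := by
      rw [ht, hq]
      exact sum_pow_char_pow p f (Finset.range n) _
    rw [h1]
    have h2 : ∀ i, (c0 ^ (q ^ i)) ^ q = c0 ^ (q ^ (i + 1)) := fun i => by
      rw [← pow_mul, pow_succ]
    simp only [h2]
    have h3 := Finset.sum_range_succ (fun i => c0 ^ (q ^ i)) n
    have h4 := Finset.sum_range_succ' (fun i => c0 ^ (q ^ i)) n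
    rw [h3] at h4
    simp only [hcq, pow_zero, pow_one] at h4
    exact (add_right_cancel h4).symm
  have htqi : ∀ i, t ^ (q ^ i) = t := by
    intro i
    induction i with
    | zero => rw [pow_zero, pow_one]
    | succ i ih => rw [pow_succ, pow_mul, ih, htq]
  refine ⟨c0 / t, ?_⟩
  have h5 : ∀ i, (c0 / t) ^ (q ^ i) = c0 ^ (q ^ i) / t := fun i => by rw [div_pow, htqi]
  simp only [h5]
  rw [← Finset.sum_div, ← ht, div_self hc0]

private theorem up_norm_zpow {F E : Type*} [Field F] [Field E] [Algebra F E]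
    [FiniteDimensional F E] {y : E} (hy : y ≠ 0) (k : ℤ) :
    Algebra.norm F (y ^ k) = Algebra.norm F y ^ k := by
  cases k with
  | ofNat m => simp only [Int.ofNat_eq_natCast, zpow_natCast, map_pow]
  | negSucc m =>
    rw [zpow_negSucc, zpow_negSucc, ← map_pow]
    refine eq_inv_of_mul_eq_one_left ?_
    rw [← map_mul, inv_mul_cancel₀ (pow_ne_zero _ hy), map_one]

variable {F : Type*} [Field F] [CharZero F] {A : ValuationSubring F} (hA : HDVR A)

/-- an integral element of trace `1` whose norm is a unit in an unramified cyclic extension -/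
theorem exists_trace_one {E : Type*} [Field E] [Algebra F E] [FiniteDimensional F E]
    [IsGalois F E] {n : ℕ} (hn : n ≠ 0) (φ : E ≃ₐ[F] E) (hrank : Module.finrank F E = n)
    (hcard : Nat.card (ResidueField (ext hA E)) = Nat.card (ResidueField A) ^ n)
    (hgen : ∀ g : E ≃ₐ[F] E, g ∈ Subgroup.zpowers φ)
    (hfrob : ∀ x ∈ ext hA E,
      φ x - x ^ Nat.card (ResidueField A) ∈ (ext hA E).nonunits) :
    ∃ lam : E, lam ∈ ext hA E ∧ Algebra.trace F E lam = 1 ∧ IsUn A (Algebra.norm F lam) := by
  classical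
  have hfin : Finite (ResidueField A) := hA.fin
  have hFt : Fintype (ResidueField A) := Fintype.ofFinite _
  have hB : HDVR (ext hA E) := ext_hdvr hA E
  have hBfin : Finite (ResidueField (ext hA E)) := hB.fin
  obtain ⟨p, hchar, f, hp, hq⟩ := FiniteField.card' (ResidueField A)
  have hq' : Nat.card (ResidueField A) = p ^ (f : ℕ) := by rw [Nat.card_eq_fintype_card, hq]
  have hcharB : CharP (ResidueField (ext hA E)) p := by
    rw [CharP.charP_iff_prime_eq_zero hp]
    have h1 : (p : F) ∈ A.nonunits := by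
      have h2 : ((p : A) : F) = (p : F) := by push_cast; rfl
      rw [← h2, ValuationSubring.coe_mem_nonunits_iff, ← residue_eq_zero_iff, map_natCast,
        CharP.cast_eq_zero]
    have h3 := (ext_nonunits_map hA (E := E) (p : F)).mpr h1
    rw [map_natCast] at h3
    have h4 : (((p : ℕ) : ext hA E) : E) = (p : E) := by push_cast; rfl
    have h5 : residue (ext hA E) ((p : ℕ) : ext hA E) = 0 := by
      rw [residue_eq_zero_iff, ← ValuationSubring.coe_mem_nonunits_iff, h4]
      exact h3
    rwa [map_natCast] at h5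
  obtain ⟨c, hc⟩ := up_trace (k := ResidueField (ext hA E)) (f := f) hp f.pos.ne' hn
    (by rw [hcard, hq'])
  rw [← hq'] at hc
  obtain ⟨b, hb⟩ := residue_surjective (R := ext hA E) c
  -- the conjugates of `b`
  have hpow : ∀ i : ℕ, ∃ h : (φ ^ i) (b : E) ∈ ext hA E,
      residue (ext hA E) ⟨(φ ^ i) (b : E), h⟩ = c ^ (Nat.card (ResidueField A) ^ i) := by
    intro i
    induction i with
    | zero => exact ⟨b.2, hb.trans (by rw [pow_zero, pow_one])⟩
    | succ i ih =>
      obtain ⟨hi, hri⟩ := ih
      have e1 : (φ ^ (i + 1)) (b : E) = φ ((φ ^ i) (b : E)) := by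
        rw [pow_succ']
        rfl
      have h1 : (φ ^ (i + 1)) (b : E) ∈ ext hA E := by
        rw [e1]
        exact (ext_hom hA (φ : E →ₐ[F] E) _).mpr hi
      refine ⟨h1, ?_⟩
      have h2 := hfrob _ hi
      have h3 : residue (ext hA E) (⟨(φ ^ (i + 1)) (b : E), h1⟩ -
          (⟨(φ ^ i) (b : E), hi⟩ : ext hA E) ^ Nat.card (ResidueField A)) = 0 := by
        rw [residue_eq_zero_iff, ← ValuationSubring.coe_mem_nonunits_iff]
        have h4 : ((⟨(φ ^ (i + 1)) (b : E), h1⟩ -
          (⟨(φ ^ i) (b : E), hi⟩ : ext hA E) ^ Nat.card (ResidueField A) : ext hA E) : E) =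
          φ ((φ ^ i) (b : E)) - ((φ ^ i) (b : E)) ^ Nat.card (ResidueField A) := by
          rw [← e1]
          rfl
        rw [h4]
        exact h2
      rw [map_sub, sub_eq_zero, map_pow, hri, ← pow_mul, ← pow_succ] at h3
      exact h3
  choose hmem hres using hpow
  -- the trace of `b`
  have hcardG : Nat.card (E ≃ₐ[F] E) = n := by
    rw [IsGalois.card_aut_eq_finrank, hrank]
  have hord : orderOf φ = n := by
    rw [← hcardG]
    exact orderOf_eq_card_of_forall_mem_zpowers hgen
  have htr : algebraMap F E (Algebra.trace F E (b : E)) =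
      ∑ i ∈ Finset.range n, (φ ^ i) (b : E) := by
    rw [trace_eq_sum_automorphisms]
    have himg : (Finset.range n).image (fun i => φ ^ i) = Finset.univ := by
      refine Finset.eq_univ_of_card _ ?_
      rw [← Nat.card_eq_fintype_card, hcardG, Finset.card_image_of_injOn, Finset.card_range]
      intro i hi j hj hij
      rw [Finset.coe_range, Set.mem_Iio] at hi hj
      exact pow_injOn_Iio_orderOf (by rw [hord]; exact hi) (by rw [hord]; exact hj) hij
    rw [← himg, Finset.sum_image]
    intro i hi j hj hij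
    rw [Finset.coe_range, Set.mem_Iio] at hi hj
    exact pow_injOn_Iio_orderOf (by rw [hord]; exact hi) (by rw [hord]; exact hj) hij
  set t := Algebra.trace F E (b : E) with ht
  have hsum : ∑ i ∈ Finset.range n, (φ ^ i) (b : E) =
      ((∑ i ∈ Finset.range n, (⟨(φ ^ i) (b : E), hmem i⟩ : ext hA E) : ext hA E) : E) := by
    push_cast
    rfl
  have ht1 : algebraMap F E (t - 1) ∈ (ext hA E).nonunits := by
    have h6 : algebraMap F E (t - 1) =
        ((∑ i ∈ Finset.range n, (⟨(φ ^ i) (b : E), hmem i⟩ : ext hA E) - 1 : ext hA E) : E) := by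
      rw [map_sub, map_one, htr, hsum]
      rfl
    rw [h6, ValuationSubring.coe_mem_nonunits_iff, ← residue_eq_zero_iff, map_sub, map_one,
      map_sum]
    simp only [hres]
    rw [hc, sub_self]
  have htn : t - 1 ∈ A.nonunits := (ext_nonunits_map hA _).mp ht1
  have htu : IsUn A t := by
    have := isUn_one_add htn
    rwa [add_sub_cancel] at this
  have ht0 := (isUn_iff.mp htu).1
  have hti := (isUn_iff.mp htu.inv).2.1
  have hc0 : c ≠ 0 := by
    rintro rfl
    have h7 : ∑ i ∈ Finset.range n,
        (0 : ResidueField (ext hA E)) ^ (Nat.card (ResidueField A) ^ i) = 0 := by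
      refine Finset.sum_eq_zero fun i _ => zero_pow ?_
      exact pow_ne_zero _ Nat.card_pos.ne'
    rw [h7] at hc
    exact zero_ne_one hc
  have hbn : (b : E) ∉ (ext hA E).nonunits := by
    intro h
    rw [ValuationSubring.coe_mem_nonunits_iff, ← residue_eq_zero_iff, hb] at h
    exact hc0 h
  have hbu : IsUn (ext hA E) (b : E) := ⟨b.2, hbn⟩
  have htiu : IsUn (ext hA E) (algebraMap F E t⁻¹) := by
    refine ⟨(ext_map hA _).mpr hti, fun h => ?_⟩
    exact htu.inv.2 ((ext_nonunits_map hA _).mp h)
  have hlu : IsUn (ext hA E) (algebraMap F E t⁻¹ * (b : E)) := htiu.mul hbu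
  refine ⟨algebraMap F E t⁻¹ * (b : E), hlu.1, ?_, ?_⟩
  · rw [← Algebra.smul_def, map_smul, smul_eq_mul, ← ht, inv_mul_cancel₀ ht0]
  · exact ⟨norm_mem hA hlu.1, fun h => hlu.2 ((norm_nonunits hA hlu.1).mp h)⟩

theorem exists_unram_trace {Ω : Type*} [Field Ω] [Algebra F Ω] [IsAlgClosed Ω] {n : ℕ}
    (hn : n ≠ 0) :
    ∃ (E : IntermediateField F Ω) (_ : FiniteDimensional F E) (_ : IsGalois F E)
      (φ : E ≃ₐ[F] E),
      Module.finrank F E = n ∧
      (∀ π, IsUnif A π → IsUnif (ext hA E) (algebraMap F E π)) ∧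
      (∀ g : E ≃ₐ[F] E, g ∈ Subgroup.zpowers φ) ∧
      (∃ lam : E, lam ∈ ext hA E ∧ Algebra.trace F E lam = 1 ∧ IsUn A (Algebra.norm F lam)) ∧
      (∀ π, IsUnif A π → ∀ x : E, x ≠ 0 → ∃ (k : ℤ) (u : F), IsUn A u ∧
        Algebra.norm F x = π ^ (n * k) * u) := by
  obtain ⟨E, hEf, hEg, φ, hrank, hunif, hcard, hgen, -, hfrob, -⟩ := exists_unram (Ω := Ω) hA hn
  have hB : HDVR (ext hA E) := ext_hdvr hA E
  refine ⟨E, hEf, hEg, φ, hrank, hunif, hgen, ?_, ?_⟩
  swap
  · intro π hπ x hx
    obtain ⟨k, u, hu, hxe⟩ := exists_zpow hB.dvr (hunif π hπ) hx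
    refine ⟨k, Algebra.norm F u, ⟨norm_mem hA hu.1, fun h => hu.2 ((norm_nonunits hA hu.1).mp h)⟩,
      ?_⟩
    have hπ0 : algebraMap F E π ≠ 0 := (hunif π hπ).ne
    rw [hxe, map_mul, up_norm_zpow hπ0, Algebra.norm_algebraMap, hrank, ← zpow_natCast,
      ← zpow_mul]
  · exact exists_trace_one hA hn φ hrank hcard hgen hfrob

end Pool.Agent.Helper60.SL
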