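import Mathlib
import Pool.Agent.Helper60.SL.Unram
import Pool.Agent.Helper60.SL.Jacobi
import Pool.Agent.Helper60.SL.Pow
import Pool.Agent.Helper60.SL.ExtHDVR
import Pool.Agent.Helper60.SL.ExtBasic
import Pool.Agent.Helper60.SL.UnramP

/-!
# SL-14: unramified extensions with `l ∣ q' - 1` and units with prescribed classes

PROOF.  `q` is prime to `l` (`l` is not the residue characteristic).  Take `n > 0` with `l ∣ q^n - 1` (Fermat: `n` a multiple of `l - 1`) and `q^n ≥ N` for the `N` of `exists_class`, and `E` from `exists_unram`.  Lift the element `c` of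
the residue field of `ext hA E` given by `exists_class` to `c ∈ ext hA E`: `c` and `1 + c` are units, `1 + c` is not an `l`-th power (such a `y` would be a unit, reduce it), and `c = (1+c)^j y^l (1 + m)` with a nonunit `m`, where
`1 + m` is an `l`-th power (`exists_root_one_add` for `ext_hdvr hA E`; the residue characteristic of `ext hA E` is `p`).
-/

set_option autoImplicit false

open IsLocalRing

namespace Pool.Agent.Helper60.SL

variable {F : Type*} [Field F] [CharZero F] {A : ValuationSubring F} (hA : HDVR A)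

private theorem jac_isUn_val {K : Type*} [Field K] {B : ValuationSubring K} {x : K} :
    IsUn B x ↔ B.valuation x = 1 := by
  unfold IsUn
  rw [ValuationSubring.mem_nonunits_iff, ← ValuationSubring.valuation_le_one_iff]
  constructor
  · rintro ⟨h1, h2⟩
    exact le_antisymm h1 (not_lt.mp h2)
  · intro h
    rw [h]
    exact ⟨le_rfl, lt_irrefl 1⟩

private theorem jac_char {K : Type*} [Field K] {B : ValuationSubring K} {p : ℕ} (hp : p.Prime)
    (h : (p : K) ∈ B.nonunits) : CharP (ResidueField B) p := by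
  rw [CharP.charP_iff_prime_eq_zero hp]
  have h1 : (((p : ℕ) : B) : K) = (p : K) := by push_cast; rfl
  have h2 : residue B ((p : ℕ) : B) = 0 := by
    rw [residue_eq_zero_iff, ← ValuationSubring.coe_mem_nonunits_iff, h1]
    exact h
  rwa [map_natCast] at h2

/-- the statement about the residue field lifted to a henselian valuation ring -/
private theorem jac_lift {K : Type*} [Field K] [CharZero K] {B : ValuationSubring K}
    (hB : HDVR B) {p : ℕ} [CharP (ResidueField B) p] {l : ℕ} (hl : l.Prime) (hpl : ¬ p ∣ l)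
    (j : ℕ) (cb : ResidueField B) (h0 : cb ≠ 0) (h1 : 1 + cb ≠ 0)
    (h2 : ¬ ∃ y, y ^ l = 1 + cb) (h3 : ∃ y, cb = (1 + cb) ^ j * y ^ l) :
    ∃ c : K, IsUn B c ∧ IsUn B (1 + c) ∧ (¬ ∃ y, y ^ l = 1 + c) ∧
      ∃ y, c = (1 + c) ^ j * y ^ l := by
  obtain ⟨c, rfl⟩ := residue_surjective (R := B) cb
  obtain ⟨yb, hy⟩ := h3
  obtain ⟨y0, rfl⟩ := residue_surjective (R := B) yb
  have key : ∀ x : B, residue B x ≠ 0 → IsUn B (x : K) := by
    intro x hx
    refine ⟨x.2, fun h => hx ?_⟩
    rwa [ValuationSubring.coe_mem_nonunits_iff, ← residue_eq_zero_iff] at h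
  have hcu : IsUn B (c : K) := key c h0
  have h1u : IsUn B (1 + (c : K)) := key (1 + c) (by rwa [map_add, map_one])
  have hy0 : residue B y0 ≠ 0 := by
    intro h
    rw [h, zero_pow hl.ne_zero, mul_zero] at hy
    exact h0 hy
  have hyu : IsUn B (y0 : K) := key y0 hy0
  refine ⟨c, hcu, h1u, ?_, ?_⟩
  · rintro ⟨y, hyl⟩
    have hyun : IsUn B y := isUn_of_pow hl.ne_zero (by rw [hyl]; exact h1u)
    apply h2
    refine ⟨residue B ⟨y, hyun.1⟩, ?_⟩
    rw [← map_pow, ← map_one (residue B), ← map_add]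
    congr 1
    exact Subtype.ext hyl
  · have hD : IsUn B ((1 + (c : K)) ^ j * (y0 : K) ^ l) := (h1u.pow j).mul (hyu.pow l)
    have hD0 : (1 + (c : K)) ^ j * (y0 : K) ^ l ≠ 0 := (isUn_iff.mp hD).1
    have hsub : (c : K) - (1 + (c : K)) ^ j * (y0 : K) ^ l ∈ B.nonunits := by
      have h4 : ((c - (1 + c) ^ j * y0 ^ l : B) : K) =
          (c : K) - (1 + (c : K)) ^ j * (y0 : K) ^ l := rfl
      rw [← h4, ValuationSubring.coe_mem_nonunits_iff, ← residue_eq_zero_iff, map_sub, map_mul,
        map_pow, map_pow, map_add, map_one, ← hy, sub_self]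
    have hm : (c : K) / ((1 + (c : K)) ^ j * (y0 : K) ^ l) - 1 ∈ B.nonunits := by
      have h5 : (c : K) / ((1 + (c : K)) ^ j * (y0 : K) ^ l) - 1 =
          ((c : K) - (1 + (c : K)) ^ j * (y0 : K) ^ l) / ((1 + (c : K)) ^ j * (y0 : K) ^ l) := by
        rw [sub_div, div_self hD0]
      rw [h5, ValuationSubring.mem_nonunits_iff, map_div₀, jac_isUn_val.mp hD, div_one]
      exact (B.mem_nonunits_iff).mp hsub
    obtain ⟨z, -, hz⟩ := exists_root_one_add hB hpl hm
    refine ⟨(y0 : K) * z, ?_⟩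
    have h6 : 1 + ((c : K) / ((1 + (c : K)) ^ j * (y0 : K) ^ l) - 1) =
        (c : K) / ((1 + (c : K)) ^ j * (y0 : K) ^ l) := by ring
    rw [mul_pow, hz, h6, ← mul_assoc, mul_div_cancel₀ _ hD0]

theorem exists_unram_class {Ω : Type*} [Field Ω] [Algebra F Ω] [IsAlgClosed Ω] {p : ℕ}
    [CharP (ResidueField A) p] {l : ℕ} (hl : l.Prime) (hlp : l ≠ p) :
    ∃ (E : IntermediateField F Ω) (_ : FiniteDimensional F E) (_ : IsGalois F E),
      (∀ π, IsUnif A π → IsUnif (ext hA E) (algebraMap F E π)) ∧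
      l ∣ Nat.card (ResidueField (ext hA E)) - 1 ∧
      (∃ lam : E, lam ∈ ext hA E ∧ Algebra.trace F E lam = 1) ∧
      ∀ j : ℕ, ∃ c : E, IsUn (ext hA E) c ∧ IsUn (ext hA E) (1 + c) ∧
        (¬ ∃ y, y ^ l = 1 + c) ∧ ∃ y, c = (1 + c) ^ j * y ^ l := by
  have hfin : Finite (ResidueField A) := hA.fin
  have hFt : Fintype (ResidueField A) := Fintype.ofFinite _
  obtain ⟨f, hp, hf⟩ := FiniteField.card (ResidueField A) p
  have hpl : ¬ p ∣ l := fun h => hlp ((Nat.prime_dvd_prime_iff_eq hp hl).mp h).symm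
  obtain ⟨N, hN⟩ := exists_class hl
  have hq2 : 2 ≤ Nat.card (ResidueField A) := by
    rw [Nat.card_eq_fintype_card]
    exact Fintype.one_lt_card
  have hcop : Nat.Coprime (Nat.card (ResidueField A)) l := by
    rw [Nat.card_eq_fintype_card, hf]
    exact Nat.Coprime.pow_left _ ((Nat.coprime_primes hp hl).mpr (Ne.symm hlp))
  have hn0 : (l - 1) * (N + 1) ≠ 0 := by
    have := hl.two_le
    exact Nat.mul_ne_zero (by omega) (by omega)
  obtain ⟨E, hEf, hEg, φ, hrank, hunif, hcard, hgen, -, hfrob, -⟩ :=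
    exists_unram (Ω := Ω) hA hn0
  refine ⟨E, hEf, hEg, hunif, ?_⟩
  have hdvd : l ∣ Nat.card (ResidueField (ext hA E)) - 1 := by
    rw [hcard, pow_mul]
    have h1 : Nat.card (ResidueField A) ^ (l - 1) ≡ 1 [MOD l] := by
      have := Nat.ModEq.pow_totient hcop
      rwa [Nat.totient_prime hl] at this
    have h2 := h1.pow (N + 1)
    rw [one_pow] at h2
    exact (Nat.modEq_iff_dvd' (Nat.one_le_pow _ _ (Nat.pow_pos (by omega)))).mp h2.symm
  have hB : HDVR (ext hA E) := ext_hdvr hA E
  have hBfin : Finite (ResidueField (ext hA E)) := hB.fin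
  have hchar : CharP (ResidueField (ext hA E)) p := by
    refine jac_char hp ?_
    have h1 : (p : F) ∈ A.nonunits := by
      have h2 : ((p : A) : F) = (p : F) := by push_cast; rfl
      rw [← h2, ValuationSubring.coe_mem_nonunits_iff, ← residue_eq_zero_iff, map_natCast,
        CharP.cast_eq_zero]
    have h3 := (ext_nonunits_map hA (E := E) (p : F)).mpr h1
    rwa [map_natCast] at h3
  have hbig : N ≤ Nat.card (ResidueField (ext hA E)) := by
    rw [hcard]
    calc N ≤ (l - 1) * (N + 1) := by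
          have := hl.two_le
          calc N ≤ 1 * (N + 1) := by omega
            _ ≤ _ := Nat.mul_le_mul_right _ (by omega)
      _ ≤ 2 ^ ((l - 1) * (N + 1)) := Nat.lt_two_pow_self.le
      _ ≤ _ := Nat.pow_le_pow_left hq2 _
  obtain ⟨lam, hlam, htr, -⟩ := exists_trace_one hA hn0 φ hrank hcard hgen hfrob
  refine ⟨hdvd, ⟨lam, hlam, htr⟩, fun j => ?_⟩
  obtain ⟨cb, h0, h1, h2, h3⟩ := hN (ResidueField (ext hA E)) hdvd hbig j
  exact jac_lift hB hl hpl j cb h0 h1 h2 h3

end Pool.Agent.Helper60.SL
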